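import Mathlib

set_option autoImplicit false

/-!
# Projective and flat dimension of Banach spaces: definitions
-/

namespace Pool.Agent.Helper69.Fd

/-- `E` is an `𝓛₁`-space: for some `lam`, every finite dimensional subspace `F` of `E` lies in a
finite dimensional subspace `G` with Banach-Mazur distance at most `lam` to `ℓ₁^{dim G}`. -/
def IsL1Space (𝕜 : Type) [RCLike 𝕜] (E : Type) [NormedAddCommGroup E] [NormedSpace 𝕜 E] : Prop :=
  ∃ lam : ℝ, ∀ F : Submodule 𝕜 E, FiniteDimensional 𝕜 F →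
    ∃ G : Submodule 𝕜 E, F ≤ G ∧ FiniteDimensional 𝕜 G ∧
      ∃ T : G ≃L[𝕜] PiLp 1 (fun _ : Fin (Module.finrank 𝕜 G) => 𝕜),
        ‖(T : G →L[𝕜] PiLp 1 (fun _ : Fin (Module.finrank 𝕜 G) => 𝕜))‖ *
        ‖(T.symm : PiLp 1 (fun _ : Fin (Module.finrank 𝕜 G) => 𝕜) →L[𝕜] G)‖ ≤ lam

/-- An exact sequence `0 ← X ← P 0 ← P 1 ← P 2 ← ⋯` of Banach spaces and bounded operators. -/
structure Resolution (𝕜 : Type) [RCLike 𝕜] (X : Type) [NormedAddCommGroup X]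
    [NormedSpace 𝕜 X] where
  /-- the terms -/
  P : ℕ → Type
  [ng : ∀ i, NormedAddCommGroup (P i)]
  [ns : ∀ i, NormedSpace 𝕜 (P i)]
  [cs : ∀ i, CompleteSpace (P i)]
  /-- the differentials -/
  d : ∀ i, P (i + 1) →L[𝕜] P i
  /-- the augmentation -/
  ε : P 0 →L[𝕜] X
  surj : Function.Surjective ε
  exact_zero : ∀ x : P 0, ε x = 0 ↔ ∃ y, d 0 y = x
  exact : ∀ i, ∀ x : P (i + 1), d i x = 0 ↔ ∃ y, d (i + 1) y = x

attribute [instance] Resolution.ng Resolution.ns Resolution.cs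

/-- `X` has a projective resolution `0 ← X ← P 0 ← ⋯ ← P n ← 0`, with `P i = ℓ¹(S i)`. -/
def HasProjRes (𝕜 : Type) [RCLike 𝕜] (X : Type) [NormedAddCommGroup X] [NormedSpace 𝕜 X]
    (n : ℕ) : Prop :=
  ∃ R : Resolution 𝕜 X,
    (∀ i, ∃ S : Type, Nonempty (R.P i ≃ₗᵢ[𝕜] lp (fun _ : S => 𝕜) 1)) ∧
    ∀ i, n < i → Subsingleton (R.P i)

/-- `X` has a flat resolution `0 ← X ← P 0 ← ⋯ ← P n ← 0`, with `P i` an `𝓛₁`-space. -/
def HasFlatRes (𝕜 : Type) [RCLike 𝕜] (X : Type) [NormedAddCommGroup X] [NormedSpace 𝕜 X]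
    (n : ℕ) : Prop :=
  ∃ R : Resolution 𝕜 X, (∀ i, IsL1Space 𝕜 (R.P i)) ∧ ∀ i, n < i → Subsingleton (R.P i)

/-- The projective dimension: the least length of a projective resolution, `⊤` if there is
none of finite length. -/
noncomputable def pd (𝕜 : Type) [RCLike 𝕜] (X : Type) [NormedAddCommGroup X]
    [NormedSpace 𝕜 X] : ℕ∞ :=
  ⨅ (n : ℕ) (_ : HasProjRes 𝕜 X n), (n : ℕ∞)

/-- The flat dimension: the least length of a flat resolution, `⊤` if there is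
none of finite length. -/
noncomputable def fd (𝕜 : Type) [RCLike 𝕜] (X : Type) [NormedAddCommGroup X]
    [NormedSpace 𝕜 X] : ℕ∞ :=
  ⨅ (n : ℕ) (_ : HasFlatRes 𝕜 X n), (n : ℕ∞)

end Pool.Agent.Helper69.Fd
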