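import Mathlib

set_option autoImplicit false

/-!
# `ℓ¹(S)`: universal property and predual
-/

open scoped ENNReal Topology

namespace Pool.Agent.Helper69.Fd

/-- `ℓ¹(S)` -/
abbrev l1 (𝕜 : Type) [RCLike 𝕜] (S : Type) : Type := lp (fun _ : S => 𝕜) 1

variable {𝕜 : Type} [RCLike 𝕜] {S : Type}

theorem one_toReal : (1 : ℝ≥0∞).toReal = 1 := by simp

theorem l1_norm (x : l1 𝕜 S) : ‖x‖ = ∑' s, ‖x s‖ := by
  rw [lp.norm_eq_tsum_rpow (by simp)]
  simp

theorem l1_summable (x : l1 𝕜 S) : Summable fun s => ‖x s‖ := by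
  have := (lp.memℓp x).summable (by simp)
  simpa using this

theorem l1_hasSum (x : l1 𝕜 S) : HasSum (fun s => ‖x s‖) ‖x‖ := by
  rw [l1_norm]; exact (l1_summable x).hasSum

/-- elements of `ℓ¹(S)` from summable functions -/
noncomputable def mk1 (f : S → 𝕜) (h : Summable fun s => ‖f s‖) : l1 𝕜 S :=
  ⟨f, by
    apply memℓp_gen
    simpa using h⟩

@[simp] theorem mk1_apply (f : S → 𝕜) (h : Summable fun s => ‖f s‖) (s : S) : mk1 f h s = f s :=
  rfl

open Classical in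
/-- the unit vectors -/
noncomputable def bas (𝕜 : Type) [RCLike 𝕜] {S : Type} (s : S) : l1 𝕜 S := lp.single 1 s (1 : 𝕜)

open Classical in
theorem bas_apply (s t : S) : (bas 𝕜 s : l1 𝕜 S) t = if t = s then 1 else 0 := by
  unfold bas
  rw [lp.single_apply]
  by_cases h : t = s
  · subst h; simp
  · simp [h]

theorem norm_bas (s : S) : ‖(bas 𝕜 s : l1 𝕜 S)‖ = 1 := by
  classical
  unfold bas
  rw [lp.norm_single (by simp)]
  simp

theorem hasSum_bas (x : l1 𝕜 S) : HasSum (fun s => x s • (bas 𝕜 s : l1 𝕜 S)) x := by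
  classical
  have h := lp.hasSum_single (E := fun _ : S => 𝕜) (p := 1) (by simp) x
  convert h using 2 with s
  ext t
  rw [lp.coeFn_smul, Pi.smul_apply, bas_apply, lp.single_apply]
  by_cases h : t = s
  · subst h; simp
  · simp [h]

theorem l1_ext {Y : Type} [NormedAddCommGroup Y] [NormedSpace 𝕜 Y] {f g : l1 𝕜 S →L[𝕜] Y}
    (h : ∀ s, f (bas 𝕜 s) = g (bas 𝕜 s)) : f = g := by
  ext x
  have h1 := (hasSum_bas x).mapL f
  have h2 := (hasSum_bas x).mapL g
  simp only [map_smul] at h1 h2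
  simp only [h] at h1
  exact h1.unique h2

section lift

variable {Y : Type} [NormedAddCommGroup Y] [NormedSpace 𝕜 Y] [CompleteSpace Y]

theorem lift_summable {c : S → Y} {B : ℝ} (hc : ∀ s, ‖c s‖ ≤ B) (x : l1 𝕜 S) :
    Summable fun s => ‖x s • c s‖ := by
  have h := (l1_summable x).mul_right B
  refine Summable.of_nonneg_of_le (fun s => norm_nonneg _) (fun s => ?_) h
  rw [norm_smul]
  exact mul_le_mul_of_nonneg_left (hc s) (norm_nonneg _)

/-- the operator `ℓ¹(S) → Y` with prescribed bounded values on the unit vectors -/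
noncomputable def lift (c : S → Y) (B : ℝ) (hc : ∀ s, ‖c s‖ ≤ B) : l1 𝕜 S →L[𝕜] Y :=
  LinearMap.mkContinuous
    { toFun := fun x => ∑' s, x s • c s
      map_add' := fun x y => by
        rw [← ((lift_summable hc x).of_norm).tsum_add ((lift_summable hc y).of_norm)]
        congr 1; funext s
        rw [lp.coeFn_add, Pi.add_apply, add_smul]
      map_smul' := fun a x => by
        rw [RingHom.id_apply, ← ((lift_summable hc x).of_norm).tsum_const_smul]
        congr 1; funext s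
        rw [lp.coeFn_smul, Pi.smul_apply, smul_assoc] }
    B (fun x => by
      show ‖∑' s, x s • c s‖ ≤ B * ‖x‖
      refine (norm_tsum_le_tsum_norm (lift_summable hc x)).trans ?_
      rw [l1_norm, ← tsum_mul_left]
      refine (lift_summable hc x).tsum_le_tsum (fun s => ?_) ((l1_summable x).mul_left B)
      rw [norm_smul, mul_comm]
      exact mul_le_mul_of_nonneg_right (hc s) (norm_nonneg _))

theorem lift_apply (c : S → Y) (B : ℝ) (hc : ∀ s, ‖c s‖ ≤ B) (x : l1 𝕜 S) :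
    lift c B hc x = ∑' s, x s • c s := rfl

@[simp] theorem lift_bas (c : S → Y) (B : ℝ) (hc : ∀ s, ‖c s‖ ≤ B) (s : S) :
    lift c B hc (bas 𝕜 s) = c s := by
  classical
  rw [lift_apply, tsum_eq_single s]
  · rw [bas_apply, if_pos rfl, one_smul]
  · intro t ht
    rw [bas_apply, if_neg ht, zero_smul]

end lift

/-! ### the predual -/

/-- bounded functions on `S` -/
abbrev linf (𝕜 : Type) [RCLike 𝕜] (S : Type) : Type := lp (fun _ : S => 𝕜) ∞

/-- evaluation at `s` -/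
noncomputable def evS (𝕜 : Type) [RCLike 𝕜] {S : Type} (s : S) : linf 𝕜 S →L[𝕜] 𝕜 :=
  LinearMap.mkContinuous
    { toFun := fun u => u s
      map_add' := fun u v => rfl
      map_smul' := fun a u => rfl }
    1 (fun u => by
      show ‖u s‖ ≤ 1 * ‖u‖
      rw [one_mul]
      exact lp.norm_apply_le_norm (by simp) u s)

@[simp] theorem evS_apply (s : S) (u : linf 𝕜 S) : evS 𝕜 s u = u s := rfl

theorem norm_evS_le (s : S) : ‖(evS 𝕜 s : linf 𝕜 S →L[𝕜] 𝕜)‖ ≤ 1 :=
  LinearMap.mkContinuous_norm_le _ zero_le_one _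

/-- the embedding of `ℓ¹(S)` in the dual of `ℓ^∞(S)` -/
noncomputable def kap (𝕜 : Type) [RCLike 𝕜] (S : Type) : l1 𝕜 S →L[𝕜] (linf 𝕜 S →L[𝕜] 𝕜) :=
  lift (fun s => evS 𝕜 s) 1 norm_evS_le

@[simp] theorem kap_bas (s : S) : kap 𝕜 S (bas 𝕜 s) = (evS 𝕜 s : linf 𝕜 S →L[𝕜] 𝕜) := by
  unfold kap; rw [lift_bas]

open Classical in
/-- the indicator of a point -/
noncomputable def pt (s : S) : linf 𝕜 S := lp.single ∞ s (1 : 𝕜)

open Classical in
theorem pt_apply (s t : S) : (pt s : linf 𝕜 S) t = if t = s then 1 else 0 := by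
  unfold pt
  rw [lp.single_apply]
  by_cases h : t = s
  · subst h; simp
  · simp [h]

theorem sum_norm_le (μ : linf 𝕜 S →L[𝕜] 𝕜) (A : Finset S) :
    ∑ s ∈ A, ‖μ (pt s)‖ ≤ ‖μ‖ := by
  classical
  have hu : ∀ s, ∃ u : 𝕜, ‖u‖ ≤ 1 ∧ u * μ (pt s) = (‖μ (pt s)‖ : 𝕜) := by
    intro s
    by_cases h : μ (pt s) = 0
    · exact ⟨0, by simp, by simp [h]⟩
    · refine ⟨(starRingEnd 𝕜) (μ (pt s)) / (‖μ (pt s)‖ : 𝕜), ?_, ?_⟩
      · rw [norm_div, RCLike.norm_conj, RCLike.norm_ofReal, abs_norm, div_self]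
        exact norm_ne_zero_iff.2 h
      · have h0 : (‖μ (pt s)‖ : 𝕜) ≠ 0 := by
          rw [Ne, RCLike.ofReal_eq_zero]; exact norm_ne_zero_iff.2 h
        rw [div_mul_eq_mul_div, RCLike.conj_mul, div_eq_iff h0, sq]
  choose u hu1 hu2 using hu
  let v : linf 𝕜 S := ∑ s ∈ A, u s • pt s
  have hv : ‖v‖ ≤ 1 := by
    apply lp.norm_le_of_forall_le zero_le_one
    intro t
    have : (v : S → 𝕜) t = ∑ s ∈ A, u s * (if t = s then 1 else 0) := by
      simp only [v]
      rw [lp.coeFn_sum, Finset.sum_apply]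
      refine Finset.sum_congr rfl fun s _ => ?_
      rw [lp.coeFn_smul, Pi.smul_apply, pt_apply, smul_eq_mul]
    rw [this]
    simp only [mul_ite, mul_one, mul_zero, Finset.sum_ite_eq]
    split_ifs
    · exact hu1 t
    · simp
  have h1 : μ v = ((∑ s ∈ A, ‖μ (pt s)‖ : ℝ) : 𝕜) := by
    simp only [v, map_sum, map_smul, smul_eq_mul, hu2]
  have h2 : ‖μ v‖ = ∑ s ∈ A, ‖μ (pt s)‖ := by
    rw [h1, RCLike.norm_ofReal, abs_of_nonneg (Finset.sum_nonneg fun _ _ => norm_nonneg _)]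
  calc ∑ s ∈ A, ‖μ (pt s)‖ = ‖μ v‖ := h2.symm
    _ ≤ ‖μ‖ * ‖v‖ := μ.le_opNorm v
    _ ≤ ‖μ‖ * 1 := mul_le_mul_of_nonneg_left hv (norm_nonneg _)
    _ = ‖μ‖ := mul_one _

theorem rho_summable (μ : linf 𝕜 S →L[𝕜] 𝕜) : Summable fun s => ‖μ (pt s)‖ :=
  summable_of_sum_le (fun _ => norm_nonneg _) (sum_norm_le μ)

/-- the projection of the dual of `ℓ^∞(S)` onto `ℓ¹(S)` -/
noncomputable def rho (𝕜 : Type) [RCLike 𝕜] (S : Type) : (linf 𝕜 S →L[𝕜] 𝕜) →L[𝕜] l1 𝕜 S :=
  LinearMap.mkContinuous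
    { toFun := fun μ => mk1 (fun s => μ (pt s)) (rho_summable μ)
      map_add' := fun μ ν => by ext s; rfl
      map_smul' := fun a μ => by ext s; rfl }
    1 (fun μ => by
      show ‖mk1 (fun s => μ (pt s)) (rho_summable μ)‖ ≤ 1 * ‖μ‖
      rw [one_mul, l1_norm]
      exact (rho_summable μ).tsum_le_of_sum_le (sum_norm_le μ))

theorem rho_apply (μ : linf 𝕜 S →L[𝕜] 𝕜) (s : S) : rho 𝕜 S μ s = μ (pt s) := rfl

theorem rho_kap (x : l1 𝕜 S) : rho 𝕜 S (kap 𝕜 S x) = x := by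
  classical
  have : (rho 𝕜 S).comp (kap 𝕜 S) = ContinuousLinearMap.id 𝕜 (l1 𝕜 S) := by
    apply l1_ext
    intro s
    ext t
    rw [ContinuousLinearMap.comp_apply, kap_bas, rho_apply, evS_apply, pt_apply,
      ContinuousLinearMap.id_apply, bas_apply]
    by_cases h : s = t
    · subst h; simp
    · rw [if_neg h, if_neg (fun h' => h h'.symm)]
  exact congrArg (fun f => f x) this

end Pool.Agent.Helper69.Fd
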