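import Mathlib
import Pool.Agent.Helper69.FdDefs
import Pool.Agent.Helper69.FdL1

set_option autoImplicit false

/-!
# Extension of operators into dual spaces
-/

namespace Pool.Agent.Helper69.Fd

/-- Operators from `P` into `F^*` lift to `G^*` whenever `F → G` is bounded below. -/
def PropL (𝕜 : Type) [RCLike 𝕜] (P : Type) [NormedAddCommGroup P] [NormedSpace 𝕜 P] : Prop :=
  ∀ (F G : Type) [NormedAddCommGroup F] [NormedSpace 𝕜 F] [CompleteSpace F]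
    [NormedAddCommGroup G] [NormedSpace 𝕜 G] [CompleteSpace G]
    (ι : F →L[𝕜] G), (∃ c : ℝ, ∀ x, ‖x‖ ≤ c * ‖ι x‖) →
    ∀ T : P →L[𝕜] (F →L[𝕜] 𝕜), ∃ T' : P →L[𝕜] (G →L[𝕜] 𝕜), ∀ p x, T' p (ι x) = T p x

variable {𝕜 : Type} [RCLike 𝕜]

/-- short exact sequences -/
structure SES {A B C : Type} [NormedAddCommGroup A] [NormedSpace 𝕜 A] [NormedAddCommGroup B]
    [NormedSpace 𝕜 B] [NormedAddCommGroup C] [NormedSpace 𝕜 C] (i : A →L[𝕜] B)
    (q : B →L[𝕜] C) : Prop where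
  inj : Function.Injective i
  ex : ∀ b, q b = 0 ↔ ∃ a, i a = b
  surj : Function.Surjective q

section

variable {A B C : Type} [NormedAddCommGroup A] [NormedSpace 𝕜 A] [CompleteSpace A]
  [NormedAddCommGroup B] [NormedSpace 𝕜 B] [CompleteSpace B]
  [NormedAddCommGroup C] [NormedSpace 𝕜 C] [CompleteSpace C]

theorem bddBelow_of_closed (i : A →L[𝕜] B) (hi : Function.Injective i)
    (hc : IsClosed (Set.range i)) : ∃ c : ℝ, ∀ x, ‖x‖ ≤ c * ‖i x‖ := by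
  obtain ⟨K, hK⟩ := ContinuousLinearMap.antilipschitz_of_injective_of_isClosed_range i hi hc
  refine ⟨K, fun x => ?_⟩
  have := hK.le_mul_dist x 0
  simpa [dist_eq_norm] using this

omit [CompleteSpace C] in
theorem SES.bddBelow {i : A →L[𝕜] B} {q : B →L[𝕜] C} (h : SES i q) :
    ∃ c : ℝ, ∀ x, ‖x‖ ≤ c * ‖i x‖ := by
  apply bddBelow_of_closed i h.inj
  have : Set.range i = (q ⁻¹' {0}) := by
    ext b
    simp only [Set.mem_range, Set.mem_preimage, Set.mem_singleton_iff]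
    exact (h.ex b).symm
  rw [this]
  exact isClosed_singleton.preimage q.continuous

theorem factor {Y : Type} [NormedAddCommGroup Y] [NormedSpace 𝕜 Y] (q : B →L[𝕜] C)
    (hq : Function.Surjective q) (g : B →L[𝕜] Y) (hg : ∀ b, q b = 0 → g b = 0) :
    ∃ h : C →L[𝕜] Y, ∀ b, h (q b) = g b := by
  obtain ⟨K, hK, hpre⟩ := ContinuousLinearMap.exists_preimage_norm_le q hq
  choose r hr hrn using hpre
  have key : ∀ b b', q b = q b' → g b = g b' := by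
    intro b b' h
    rw [← sub_eq_zero, ← map_sub]
    apply hg
    rw [map_sub, h, sub_self]
  refine ⟨LinearMap.mkContinuous
    { toFun := fun y => g (r y)
      map_add' := fun x y => by
        rw [← map_add]
        apply key
        rw [hr, map_add, hr, hr]
      map_smul' := fun a x => by
        rw [RingHom.id_apply, ← map_smul]
        apply key
        rw [hr, map_smul, hr] } (‖g‖ * K) (fun y => ?_), fun b => ?_⟩
  · show ‖g (r y)‖ ≤ ‖g‖ * K * ‖y‖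
    calc ‖g (r y)‖ ≤ ‖g‖ * ‖r y‖ := g.le_opNorm _
      _ ≤ ‖g‖ * (K * ‖y‖) := mul_le_mul_of_nonneg_left (hrn y) (norm_nonneg _)
      _ = ‖g‖ * K * ‖y‖ := by ring
  · show g (r (q b)) = g b
    exact key _ _ (hr _)

omit [CompleteSpace A] [CompleteSpace B] in
theorem extend_functional (i : A →L[𝕜] B) (c : ℝ) (hc : ∀ x, ‖x‖ ≤ c * ‖i x‖)
    (φ : A →L[𝕜] 𝕜) : ∃ ψ : B →L[𝕜] 𝕜, (∀ a, ψ (i a) = φ a) ∧ ‖ψ‖ ≤ |c| * ‖φ‖ := by
  have hc' : ∀ x, ‖x‖ ≤ |c| * ‖i x‖ := fun x =>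
    (hc x).trans (mul_le_mul_of_nonneg_right (le_abs_self c) (norm_nonneg _))
  have hinj : Function.Injective i := by
    intro x y h
    rw [← sub_eq_zero, ← norm_le_zero_iff]
    have := hc' (x - y)
    rwa [map_sub, h, sub_self, norm_zero, mul_zero] at this
  let R : Submodule 𝕜 B := LinearMap.range (i : A →ₗ[𝕜] B)
  let e : A ≃ₗ[𝕜] R := LinearEquiv.ofInjective (i : A →ₗ[𝕜] B) hinj
  have he : ∀ a, ((e a : R) : B) = i a := fun a => rfl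
  let χ : R →L[𝕜] 𝕜 := LinearMap.mkContinuous ((φ : A →ₗ[𝕜] 𝕜).comp (e.symm : R →ₗ[𝕜] A))
    (|c| * ‖φ‖) (fun x => by
      obtain ⟨a, rfl⟩ := e.surjective x
      show ‖φ (e.symm (e a))‖ ≤ _
      rw [e.symm_apply_apply]
      calc ‖φ a‖ ≤ ‖φ‖ * ‖a‖ := φ.le_opNorm a
        _ ≤ ‖φ‖ * (|c| * ‖i a‖) := mul_le_mul_of_nonneg_left (hc' a) (norm_nonneg _)
        _ = |c| * ‖φ‖ * ‖e a‖ := by
          rw [show ‖e a‖ = ‖i a‖ from rfl]; ring)
  have hχ : ∀ a, χ (e a) = φ a := by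
    intro a
    show φ (e.symm (e a)) = φ a
    rw [e.symm_apply_apply]
  obtain ⟨ψ, hψ, hn⟩ := exists_extension_norm_eq R χ
  refine ⟨ψ, fun a => ?_, ?_⟩
  · rw [← he a, hψ, hχ]
  · rw [hn]
    exact LinearMap.mkContinuous_norm_le _ (mul_nonneg (abs_nonneg _) (norm_nonneg _)) _

omit [CompleteSpace A] [CompleteSpace B] in
theorem extend_l1dual (i : A →L[𝕜] B) (hi : ∃ c : ℝ, ∀ x, ‖x‖ ≤ c * ‖i x‖) {I : Type}
    (f : A →L[𝕜] (l1 𝕜 I →L[𝕜] 𝕜)) :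
    ∃ g : B →L[𝕜] (l1 𝕜 I →L[𝕜] 𝕜), ∀ a, g (i a) = f a := by
  obtain ⟨c, hc⟩ := hi
  have h1 : ∀ s : I, ∃ ψ : B →L[𝕜] 𝕜, (∀ a, ψ (i a) = f a (bas 𝕜 s)) ∧ ‖ψ‖ ≤ |c| * ‖f‖ := by
    intro s
    obtain ⟨ψ, h1, h2⟩ := extend_functional i c hc (f.flip (bas 𝕜 s))
    refine ⟨ψ, h1, h2.trans (mul_le_mul_of_nonneg_left ?_ (abs_nonneg _))⟩
    calc ‖f.flip (bas 𝕜 s)‖ ≤ ‖f.flip‖ * ‖(bas 𝕜 s : l1 𝕜 I)‖ := f.flip.le_opNorm _
      _ = ‖f‖ := by rw [norm_bas, mul_one, ContinuousLinearMap.opNorm_flip]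
  choose ψ hψ hn using h1
  refine ⟨(lift ψ (|c| * ‖f‖) hn).flip, fun a => ?_⟩
  apply l1_ext
  intro s
  rw [ContinuousLinearMap.flip_apply, lift_bas, hψ]

/-- the closed unit ball as an index set -/
abbrev Ball (F : Type) [NormedAddCommGroup F] : Type := {x : F // ‖x‖ ≤ 1}

/-- the canonical surjection `ℓ¹(ball) → F` -/
noncomputable def cov (𝕜 : Type) [RCLike 𝕜] (F : Type) [NormedAddCommGroup F] [NormedSpace 𝕜 F]
    [CompleteSpace F] : l1 𝕜 (Ball F) →L[𝕜] F := lift (fun x => (x : F)) 1 (fun x => x.2)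

theorem cov_surj (F : Type) [NormedAddCommGroup F] [NormedSpace 𝕜 F] [CompleteSpace F] :
    Function.Surjective (cov 𝕜 F) := by
  intro x
  by_cases hx : x = 0
  · exact ⟨0, by rw [map_zero, hx]⟩
  · have hx' : ‖x‖ ≠ 0 := norm_ne_zero_iff.2 hx
    have hx'' : (‖x‖ : 𝕜) ≠ 0 := by rw [Ne, RCLike.ofReal_eq_zero]; exact hx'
    have hb : ‖((‖x‖ : 𝕜)⁻¹ • x)‖ ≤ 1 := by
      rw [norm_smul, norm_inv, RCLike.norm_ofReal, abs_norm, inv_mul_cancel₀ hx']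
    refine ⟨(‖x‖ : 𝕜) • bas 𝕜 (⟨(‖x‖ : 𝕜)⁻¹ • x, hb⟩ : Ball F), ?_⟩
    unfold cov
    rw [map_smul, lift_bas, smul_smul, mul_inv_cancel₀ hx'', one_smul]

/-- precomposition -/
noncomputable def pre {X Y : Type} [NormedAddCommGroup X] [NormedSpace 𝕜 X]
    [NormedAddCommGroup Y] [NormedSpace 𝕜 Y] (π : X →L[𝕜] Y) :
    (Y →L[𝕜] 𝕜) →L[𝕜] (X →L[𝕜] 𝕜) :=
  LinearMap.mkContinuous
    { toFun := fun φ => φ.comp π
      map_add' := fun φ ψ => by ext x; rfl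
      map_smul' := fun a φ => by ext x; rfl }
    ‖π‖ (fun φ => by
      show ‖φ.comp π‖ ≤ _
      rw [mul_comm]
      exact φ.opNorm_comp_le π)

theorem pre_apply {X Y : Type} [NormedAddCommGroup X] [NormedSpace 𝕜 X]
    [NormedAddCommGroup Y] [NormedSpace 𝕜 Y] (π : X →L[𝕜] Y) (φ : Y →L[𝕜] 𝕜) (x : X) :
    pre π φ x = φ (π x) := rfl

/-- the kernel of a surjection, as an abstract Banach space -/
theorem exists_ker (q : B →L[𝕜] C) (hq : Function.Surjective q) :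
    ∃ (N : Type) (_ : NormedAddCommGroup N) (_ : NormedSpace 𝕜 N) (_ : CompleteSpace N)
      (ν : N →L[𝕜] B), SES ν q := by
  let N : Submodule 𝕜 B := LinearMap.ker (q : B →ₗ[𝕜] C)
  have hNc : IsClosed (N : Set B) := q.isClosed_ker
  have hN : CompleteSpace N := hNc.completeSpace_coe
  refine ⟨N, inferInstance, inferInstance, hN, N.subtypeL, ?_, ?_, hq⟩
  · exact Subtype.val_injective
  · intro b
    constructor
    · intro hb
      exact ⟨⟨b, hb⟩, rfl⟩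
    · rintro ⟨a, rfl⟩
      exact a.2

theorem extend_dual_aux {i : A →L[𝕜] B} {q : B →L[𝕜] C} (h : SES i q) (hC : PropL 𝕜 C)
    {F : Type} [NormedAddCommGroup F] [NormedSpace 𝕜 F] [CompleteSpace F]
    {I : Type} (π : l1 𝕜 I →L[𝕜] F)
    {N : Type} [NormedAddCommGroup N] [NormedSpace 𝕜 N] [CompleteSpace N] (ν : N →L[𝕜] l1 𝕜 I)
    (hν : SES ν π)
    (f : A →L[𝕜] (F →L[𝕜] 𝕜)) : ∃ g : B →L[𝕜] (F →L[𝕜] 𝕜), ∀ a, g (i a) = f a := by
  have hf' : ∀ a x, (pre π).comp f a x = f a (π x) := fun a x => rfl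
  obtain ⟨g, hg⟩ := extend_l1dual i h.bddBelow ((pre π).comp f)
  have hνg : ∀ b n, (pre ν).comp g b n = g b (ν n) := fun b n => rfl
  have hker : ∀ b, q b = 0 → (pre ν).comp g b = 0 := by
    intro b hb
    obtain ⟨a, rfl⟩ := (h.ex b).1 hb
    ext n
    rw [hνg, hg, hf', (hν.ex (ν n)).2 ⟨n, rfl⟩, map_zero]
    rfl
  obtain ⟨t, ht⟩ := factor q h.surj ((pre ν).comp g) hker
  obtain ⟨t', ht'⟩ := hC N (l1 𝕜 I) ν hν.bddBelow t
  let k : B →L[𝕜] (l1 𝕜 I →L[𝕜] 𝕜) := g - t'.comp q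
  have hk : ∀ b x, k b x = g b x - t' (q b) x := fun b x => rfl
  have hk0 : ∀ x, π x = 0 → k.flip x = 0 := by
    intro x hx
    ext b
    rw [ContinuousLinearMap.flip_apply, hk]
    obtain ⟨n, rfl⟩ := (hν.ex x).1 hx
    rw [ht' (q b) n, ht, hνg]
    simp
  obtain ⟨m, hm⟩ := factor π hν.surj k.flip hk0
  refine ⟨m.flip, fun a => ?_⟩
  ext y
  obtain ⟨x, rfl⟩ := hν.surj y
  rw [ContinuousLinearMap.flip_apply, hm, ContinuousLinearMap.flip_apply, hk, hg, hf',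
    (h.ex (i a)).2 ⟨a, rfl⟩, map_zero]
  simp

/-- The second half of Lemma A. -/
theorem extend_dual {i : A →L[𝕜] B} {q : B →L[𝕜] C} (h : SES i q) (hC : PropL 𝕜 C)
    {F : Type} [NormedAddCommGroup F] [NormedSpace 𝕜 F] [CompleteSpace F]
    (f : A →L[𝕜] (F →L[𝕜] 𝕜)) : ∃ g : B →L[𝕜] (F →L[𝕜] 𝕜), ∀ a, g (i a) = f a := by
  obtain ⟨N, i1, i2, i3, ν, hν⟩ := exists_ker (cov 𝕜 F) (cov_surj F)
  exact extend_dual_aux h hC (cov 𝕜 F) ν hν f

/-- Lemma A -/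
theorem SES.propL {i : A →L[𝕜] B} {q : B →L[𝕜] C} (h : SES i q) (hB : PropL 𝕜 B)
    (hC : PropL 𝕜 C) : PropL 𝕜 A := by
  intro F G _ _ _ _ _ _ ι hι T
  obtain ⟨T1, hT1⟩ := extend_dual h hC T
  obtain ⟨T2, hT2⟩ := hB F G ι hι T1
  exact ⟨T2.comp i, fun p x => by rw [ContinuousLinearMap.comp_apply, hT2, hT1]⟩

end

end Pool.Agent.Helper69.Fd
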