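import Mathlib
import Pool.Agent.Helper69.FdExt

set_option autoImplicit false

/-!
# Resolving classes of Banach spaces and dimension shifting
-/

namespace Pool.Agent.Helper69.Fd

/-- bundled Banach spaces -/
structure Ban (𝕜 : Type) [RCLike 𝕜] where
  /-- the space -/
  C : Type
  [ng : NormedAddCommGroup C]
  [ns : NormedSpace 𝕜 C]
  [cs : CompleteSpace C]

attribute [instance] Ban.ng Ban.ns Ban.cs

variable {𝕜 : Type} [RCLike 𝕜]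

/-- resolving classes -/
structure Resolving (Q : Ban 𝕜 → Prop) : Prop where
  free : ∀ S : Type, Q ⟨l1 𝕜 S⟩
  iso : ∀ X Y : Ban 𝕜, Nonempty (X.C ≃L[𝕜] Y.C) → Q X → Q Y
  prod : ∀ X Y : Ban 𝕜, Q X → Q Y → Q ⟨X.C × Y.C⟩
  fst : ∀ X Y : Ban 𝕜, Q ⟨X.C × Y.C⟩ → Q X
  ker : ∀ (A B C : Ban 𝕜) (i : A.C →L[𝕜] B.C) (q : B.C →L[𝕜] C.C), SES i q → Q B → Q C → Q A

/-- spaces with a resolution of length `m` by members of `Q` -/
def Fm (Q : Ban 𝕜 → Prop) : ℕ → Ban 𝕜 → Prop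
  | 0, X => Q X
  | m + 1, X => ∃ (K P : Ban 𝕜) (i : K.C →L[𝕜] P.C) (q : P.C →L[𝕜] X.C),
      SES i q ∧ Q P ∧ Fm Q m K

/-- projective Banach spaces -/
def Proj (R : Ban 𝕜) : Prop :=
  ∀ (Y Z : Ban 𝕜) (α : Y.C →L[𝕜] Z.C), Function.Surjective α → ∀ β : R.C →L[𝕜] Z.C,
    ∃ γ : R.C →L[𝕜] Y.C, ∀ r, α (γ r) = β r

section colift

variable {A B C M : Type} [NormedAddCommGroup A] [NormedSpace 𝕜 A] [CompleteSpace A]
  [NormedAddCommGroup B] [NormedSpace 𝕜 B] [CompleteSpace B]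
  [NormedAddCommGroup C] [NormedSpace 𝕜 C] [CompleteSpace C]
  [NormedAddCommGroup M] [NormedSpace 𝕜 M]

omit [CompleteSpace C] in
theorem colift {i : A →L[𝕜] B} {q : B →L[𝕜] C} (h : SES i q) (g : M →L[𝕜] B)
    (hg : ∀ m, q (g m) = 0) : ∃ f : M →L[𝕜] A, ∀ m, i (f m) = g m := by
  obtain ⟨c, hc⟩ := h.bddBelow
  have h1 : ∀ m, ∃ a, i a = g m := fun m => (h.ex _).1 (hg m)
  choose r hr using h1
  refine ⟨LinearMap.mkContinuous
    { toFun := r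
      map_add' := fun x y => h.inj (by rw [hr, map_add, map_add, hr, hr])
      map_smul' := fun a x => h.inj (by rw [hr, map_smul, RingHom.id_apply, map_smul, hr]) }
    (|c| * ‖g‖) (fun m => ?_), fun m => hr m⟩
  show ‖r m‖ ≤ _
  calc ‖r m‖ ≤ c * ‖i (r m)‖ := hc _
    _ ≤ |c| * ‖i (r m)‖ := mul_le_mul_of_nonneg_right (le_abs_self c) (norm_nonneg _)
    _ = |c| * ‖g m‖ := by rw [hr]
    _ ≤ |c| * (‖g‖ * ‖m‖) := mul_le_mul_of_nonneg_left (g.le_opNorm m) (abs_nonneg _)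
    _ = |c| * ‖g‖ * ‖m‖ := by ring

end colift

/-! ### projectives -/

theorem proj_l1 (S : Type) : Proj (𝕜 := 𝕜) ⟨l1 𝕜 S⟩ := by
  intro Y Z α hα β
  obtain ⟨K, hK, hpre⟩ := ContinuousLinearMap.exists_preimage_norm_le α hα
  choose r hr hrn using hpre
  have hb : ∀ s : S, ‖r (β (bas 𝕜 s))‖ ≤ K * ‖β‖ := by
    intro s
    refine (hrn _).trans (mul_le_mul_of_nonneg_left ?_ hK.le)
    calc ‖β (bas 𝕜 s)‖ ≤ ‖β‖ * ‖(bas 𝕜 s : l1 𝕜 S)‖ := β.le_opNorm _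
      _ = ‖β‖ := by rw [norm_bas, mul_one]
  refine ⟨lift (fun s => r (β (bas 𝕜 s))) (K * ‖β‖) hb, fun x => ?_⟩
  have : α.comp (lift (fun s => r (β (bas 𝕜 s))) (K * ‖β‖) hb) = β := by
    apply l1_ext
    intro s
    rw [ContinuousLinearMap.comp_apply, lift_bas, hr]
  exact congrArg (fun f => f x) this

theorem Proj.iso {X Y : Ban 𝕜} (e : X.C ≃L[𝕜] Y.C) (h : Proj X) : Proj Y := by
  intro U V α hα β
  obtain ⟨γ, hγ⟩ := h U V α hα (β.comp (e : X.C →L[𝕜] Y.C))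
  refine ⟨γ.comp (e.symm : Y.C →L[𝕜] X.C), fun r => ?_⟩
  rw [ContinuousLinearMap.comp_apply, hγ]
  simp

/-- a retract of a projective is projective -/
theorem Proj.retract {X Y : Ban 𝕜} (h : Proj X) (s : Y.C →L[𝕜] X.C) (q : X.C →L[𝕜] Y.C)
    (hs : ∀ y, q (s y) = y) : Proj Y := by
  intro U V α hα β
  obtain ⟨γ, hγ⟩ := h U V α hα (β.comp q)
  refine ⟨γ.comp s, fun r => ?_⟩
  rw [ContinuousLinearMap.comp_apply, hγ, ContinuousLinearMap.comp_apply, hs]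

theorem Proj.prod {X Y : Ban 𝕜} (hX : Proj X) (hY : Proj Y) : Proj (𝕜 := 𝕜) ⟨X.C × Y.C⟩ := by
  intro U V α hα β
  obtain ⟨γ, hγ⟩ := hX U V α hα (β.comp (ContinuousLinearMap.inl 𝕜 X.C Y.C))
  obtain ⟨δ, hδ⟩ := hY U V α hα (β.comp (ContinuousLinearMap.inr 𝕜 X.C Y.C))
  refine ⟨γ.comp (ContinuousLinearMap.fst 𝕜 X.C Y.C) + δ.comp (ContinuousLinearMap.snd 𝕜 X.C Y.C),
    fun r => ?_⟩
  rw [add_apply, map_add, ContinuousLinearMap.comp_apply,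
    ContinuousLinearMap.comp_apply, hγ, hδ, ContinuousLinearMap.comp_apply,
    ContinuousLinearMap.comp_apply, ← map_add]
  simp

/-- a short exact sequence with projective end splits -/
theorem SES.split {A B C : Ban 𝕜} {i : A.C →L[𝕜] B.C} {q : B.C →L[𝕜] C.C} (h : SES i q)
    (hC : Proj C) : ∃ (s : C.C →L[𝕜] B.C) (r : B.C →L[𝕜] A.C),
      (∀ c, q (s c) = c) ∧ (∀ a, r (i a) = a) ∧ ∀ b, i (r b) + s (q b) = b := by
  obtain ⟨s, hs⟩ := hC B C q h.surj (ContinuousLinearMap.id 𝕜 C.C)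
  have hs' : ∀ c, q (s c) = c := hs
  obtain ⟨r, hr⟩ := colift h (ContinuousLinearMap.id 𝕜 B.C - s.comp q) (fun b => by
    simp [hs'])
  have hr' : ∀ b, i (r b) = b - s (q b) := hr
  refine ⟨s, r, hs', fun a => h.inj ?_, fun b => ?_⟩
  · rw [hr', (h.ex (i a)).2 ⟨a, rfl⟩, map_zero, sub_zero]
  · rw [hr']; abel

theorem resolving_proj : Resolving (𝕜 := 𝕜) Proj where
  free := proj_l1
  iso := fun _ _ ⟨e⟩ h => h.iso e
  prod := fun _ _ hX hY => hX.prod hY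
  fst := fun X Y h => h.retract (X := ⟨X.C × Y.C⟩) (ContinuousLinearMap.inl 𝕜 X.C Y.C)
    (ContinuousLinearMap.fst 𝕜 X.C Y.C) (fun _ => rfl)
  ker := fun A B C i q h hB hC => by
    obtain ⟨s, r, h1, h2, h3⟩ := h.split hC
    exact hB.retract i r h2

/-! ### the lifting property for duals -/

/-- bundled version of `PropL` -/
def QL (X : Ban 𝕜) : Prop := PropL 𝕜 X.C

theorem propL_l1 (S : Type) : PropL 𝕜 (l1 𝕜 S) := by
  intro F G _ _ _ _ _ _ ι hι T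
  obtain ⟨c, hc⟩ := hι
  have h1 : ∀ s : S, ∃ ψ : G →L[𝕜] 𝕜, (∀ a, ψ (ι a) = T (bas 𝕜 s) a) ∧ ‖ψ‖ ≤ |c| * ‖T‖ := by
    intro s
    obtain ⟨ψ, h1, h2⟩ := extend_functional ι c hc (T (bas 𝕜 s))
    refine ⟨ψ, h1, h2.trans (mul_le_mul_of_nonneg_left ?_ (abs_nonneg _))⟩
    calc ‖T (bas 𝕜 s)‖ ≤ ‖T‖ * ‖(bas 𝕜 s : l1 𝕜 S)‖ := T.le_opNorm _
      _ = ‖T‖ := by rw [norm_bas, mul_one]
  choose ψ hψ hn using h1
  refine ⟨lift ψ (|c| * ‖T‖) hn, fun p x => ?_⟩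
  have : (pre ι).comp (lift ψ (|c| * ‖T‖) hn) = T := by
    apply l1_ext
    intro s
    ext y
    rw [ContinuousLinearMap.comp_apply, lift_bas, pre_apply, hψ]
  have h2 := congrArg (fun f => f p x) this
  exact h2

theorem PropL.retract {X Y : Type} [NormedAddCommGroup X] [NormedSpace 𝕜 X]
    [NormedAddCommGroup Y] [NormedSpace 𝕜 Y] (h : PropL 𝕜 X) (s : Y →L[𝕜] X) (q : X →L[𝕜] Y)
    (hs : ∀ y, q (s y) = y) : PropL 𝕜 Y := by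
  intro F G _ _ _ _ _ _ ι hι T
  obtain ⟨T', hT'⟩ := h F G ι hι (T.comp q)
  refine ⟨T'.comp s, fun p x => ?_⟩
  rw [ContinuousLinearMap.comp_apply, hT', ContinuousLinearMap.comp_apply, hs]

theorem PropL.prod {X Y : Type} [NormedAddCommGroup X] [NormedSpace 𝕜 X]
    [NormedAddCommGroup Y] [NormedSpace 𝕜 Y] (hX : PropL 𝕜 X) (hY : PropL 𝕜 Y) :
    PropL 𝕜 (X × Y) := by
  intro F G _ _ _ _ _ _ ι hι T
  obtain ⟨γ, hγ⟩ := hX F G ι hι (T.comp (ContinuousLinearMap.inl 𝕜 X Y))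
  obtain ⟨δ, hδ⟩ := hY F G ι hι (T.comp (ContinuousLinearMap.inr 𝕜 X Y))
  refine ⟨γ.comp (ContinuousLinearMap.fst 𝕜 X Y) + δ.comp (ContinuousLinearMap.snd 𝕜 X Y),
    fun p x => ?_⟩
  rw [add_apply, add_apply,
    ContinuousLinearMap.comp_apply, ContinuousLinearMap.comp_apply, hγ, hδ,
    ContinuousLinearMap.comp_apply, ContinuousLinearMap.comp_apply,
    ← add_apply, ← map_add]
  simp

theorem resolving_QL : Resolving (𝕜 := 𝕜) QL where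
  free := propL_l1
  iso := fun X Y ⟨e⟩ h => PropL.retract (X := X.C) (Y := Y.C) h (e.symm : Y.C →L[𝕜] X.C)
    (e : X.C →L[𝕜] Y.C) (fun y => by simp)
  prod := fun X Y hX hY => PropL.prod hX hY
  fst := fun X Y h => PropL.retract (X := X.C × Y.C) (Y := X.C) h
    (ContinuousLinearMap.inl 𝕜 X.C Y.C) (ContinuousLinearMap.fst 𝕜 X.C Y.C) (fun _ => rfl)
  ker := fun A B C i q h hB hC => SES.propL h hB hC

/-! ### dimension shifting -/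

section shift

variable {Q : Ban 𝕜 → Prop} (hQ : Resolving Q)

include hQ

theorem Fm.iso : ∀ (m : ℕ) (X Y : Ban 𝕜) (_ : X.C ≃L[𝕜] Y.C), Fm Q m X → Fm Q m Y
  | 0, X, Y, e, h => hQ.iso X Y ⟨e⟩ h
  | m + 1, X, Y, e, ⟨K, P, i, q, hs, hP, hK⟩ => by
    refine ⟨K, P, i, (e : X.C →L[𝕜] Y.C).comp q, ⟨hs.inj, fun b => ?_, ?_⟩, hP, hK⟩
    · rw [← hs.ex, ContinuousLinearMap.comp_apply]
      simp
    · exact e.surjective.comp hs.surj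

theorem Fm.prodR : ∀ (m : ℕ) (X R : Ban 𝕜), Fm Q m X → Q R → Fm Q m ⟨X.C × R.C⟩
  | 0, X, R, h, hR => hQ.prod X R h hR
  | m + 1, X, R, ⟨K, P, i, q, hs, hP, hK⟩, hR => by
    refine ⟨K, ⟨P.C × R.C⟩, i.prod 0, q.prodMap (ContinuousLinearMap.id 𝕜 R.C),
      ⟨fun a b h => hs.inj (congrArg Prod.fst h), fun b => ?_, fun y => ?_⟩, hQ.prod P R hP hR, hK⟩
    · obtain ⟨b1, b2⟩ := b
      constructor
      · intro h
        obtain ⟨a, ha⟩ := (hs.ex b1).1 (congrArg Prod.fst h)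
        have h2 : b2 = 0 := congrArg Prod.snd h
        exact ⟨a, Prod.ext ha h2.symm⟩
      · rintro ⟨a, ha⟩
        have h1 : i a = b1 := congrArg Prod.fst ha
        have h2 : (0 : R.C) = b2 := congrArg Prod.snd ha
        exact Prod.ext ((hs.ex b1).2 ⟨a, h1⟩) h2.symm
    · obtain ⟨x, hx⟩ := hs.surj y.1
      exact ⟨(x, y.2), Prod.ext hx rfl⟩

/-- Lemma C -/
theorem Fm.ker : ∀ (m : ℕ) (K Y P : Ban 𝕜) (i : K.C →L[𝕜] Y.C) (p : Y.C →L[𝕜] P.C), SES i p →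
    Fm Q m Y → Q P → Fm Q m K
  | 0, K, Y, P, i, p, hs, hY, hP => hQ.ker K Y P i p hs hY hP
  | m + 1, K, Y, P, i, p, hs, ⟨K'', P', i'', q', hs', hP', hK''⟩, hP => by
    have hr : Function.Surjective (p.comp q') := hs.surj.comp hs'.surj
    obtain ⟨M, i1, i2, i3, μ, hμ⟩ := exists_ker (p.comp q') hr
    have hM : Q ⟨M⟩ := hQ.ker ⟨M⟩ P' P μ (p.comp q') hμ hP' hP
    obtain ⟨h, hh⟩ := colift hs (q'.comp μ) (fun m => (hμ.ex (μ m)).2 ⟨m, rfl⟩)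
    obtain ⟨j, hj⟩ := colift hμ i'' (fun a => by
      rw [ContinuousLinearMap.comp_apply, (hs'.ex (i'' a)).2 ⟨a, rfl⟩, map_zero])
    have hh' : ∀ m, i (h m) = q' (μ m) := hh
    refine ⟨K'', ⟨M⟩, j, h, ⟨fun a b hab => ?_, fun b => ?_, fun k => ?_⟩, hM, hK''⟩
    · apply hs'.inj
      rw [← hj, ← hj, hab]
    · constructor
      · intro hb
        have h1 : q' (μ b) = 0 := by rw [← hh', hb, map_zero]
        obtain ⟨a, ha⟩ := (hs'.ex _).1 h1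
        exact ⟨a, hμ.inj (by rw [hj, ha])⟩
      · rintro ⟨a, rfl⟩
        apply hs.inj
        rw [hh', hj, (hs'.ex (i'' a)).2 ⟨a, rfl⟩, map_zero]
    · obtain ⟨x, hx⟩ := hs'.surj (i k)
      have h1 : (p.comp q') x = 0 := by
        rw [ContinuousLinearMap.comp_apply, hx]
        exact (hs.ex _).2 ⟨k, rfl⟩
      obtain ⟨m, hm⟩ := (hμ.ex x).1 h1
      refine ⟨m, hs.inj ?_⟩
      rw [hh', hm, hx]

/-- Lemma B -/
theorem Fm.syzygy (m : ℕ) (K R X : Ban 𝕜) (i : K.C →L[𝕜] R.C) (β : R.C →L[𝕜] X.C)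
    (hs : SES i β) (hR : Proj R) (hR' : Q R) (hX : Fm Q (m + 1) X) : Fm Q m K := by
  obtain ⟨K', P, i', α, hs', hP, hK'⟩ := hX
  obtain ⟨γ, hγ⟩ := hR P X α hs'.surj β
  obtain ⟨κ, hκ⟩ := colift hs' (γ.comp i) (fun k => by
    rw [ContinuousLinearMap.comp_apply, hγ, (hs.ex (i k)).2 ⟨k, rfl⟩])
  have hκ' : ∀ k, i' (κ k) = γ (i k) := hκ
  have hY := Fm.prodR hQ m K' R hK' hR'
  refine Fm.ker hQ m K ⟨K'.C × R.C⟩ P ((-κ).prod i)
    (i'.comp (ContinuousLinearMap.fst 𝕜 K'.C R.C) + γ.comp (ContinuousLinearMap.snd 𝕜 K'.C R.C))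
    ⟨fun a b h => hs.inj (congrArg Prod.snd h), fun b => ?_, fun x => ?_⟩ hY hP
  · obtain ⟨k', r⟩ := b
    have e1 : (i'.comp (ContinuousLinearMap.fst 𝕜 K'.C R.C) +
        γ.comp (ContinuousLinearMap.snd 𝕜 K'.C R.C)) (k', r) = i' k' + γ r := rfl
    rw [e1]
    constructor
    · intro h
      have h1 : β r = 0 := by
        have h2 := congrArg α h
        rw [map_add, map_zero, (hs'.ex (i' k')).2 ⟨k', rfl⟩, zero_add, hγ] at h2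
        exact h2
      obtain ⟨k, hk⟩ := (hs.ex r).1 h1
      refine ⟨k, Prod.ext (hs'.inj ?_) hk⟩
      show i' (-κ k) = i' k'
      rw [map_neg, hκ', hk]
      exact neg_eq_of_add_eq_zero_left h
    · rintro ⟨k, hk⟩
      have h1 : -κ k = k' := congrArg Prod.fst hk
      have h2 : i k = r := congrArg Prod.snd hk
      rw [← h1, ← h2, map_neg, hκ', neg_add_cancel]
  · obtain ⟨r, hr⟩ := hs.surj (α x)
    have h1 : α (x - γ r) = 0 := by rw [map_sub, hγ, hr, sub_self]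
    obtain ⟨k', hk'⟩ := (hs'.ex _).1 h1
    refine ⟨(k', r), ?_⟩
    show i' k' + γ r = x
    rw [hk', sub_add_cancel]

/-- Lemma D -/
theorem Fm.fst : ∀ (m : ℕ) (X Z : Ban 𝕜), Fm Q m ⟨X.C × Z.C⟩ → Fm Q m X
  | 0, X, Z, h => hQ.fst X Z h
  | m + 1, X, Z, h => by
    obtain ⟨K1, a1, a2, a3, ν1, hν1⟩ := exists_ker (cov 𝕜 X.C) (cov_surj X.C)
    obtain ⟨K2, b1, b2, b3, ν2, hν2⟩ := exists_ker (cov 𝕜 Z.C) (cov_surj Z.C)
    have hs : SES (ν1.prodMap ν2) ((cov 𝕜 X.C).prodMap (cov 𝕜 Z.C)) := by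
      refine ⟨fun a b hab => ?_, fun b => ?_, fun y => ?_⟩
      · exact Prod.ext (hν1.inj (congrArg Prod.fst hab)) (hν2.inj (congrArg Prod.snd hab))
      · obtain ⟨u, v⟩ := b
        constructor
        · intro h
          obtain ⟨x, hx⟩ := (hν1.ex u).1 (congrArg Prod.fst h)
          obtain ⟨y, hy⟩ := (hν2.ex v).1 (congrArg Prod.snd h)
          exact ⟨(x, y), Prod.ext hx hy⟩
        · rintro ⟨⟨x, y⟩, hxy⟩
          exact Prod.ext ((hν1.ex u).2 ⟨x, congrArg Prod.fst hxy⟩)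
            ((hν2.ex v).2 ⟨y, congrArg Prod.snd hxy⟩)
      · obtain ⟨u, hu⟩ := hν1.surj y.1
        obtain ⟨v, hv⟩ := hν2.surj y.2
        exact ⟨(u, v), Prod.ext hu hv⟩
    have hR : Proj (𝕜 := 𝕜) ⟨l1 𝕜 (Ball X.C) × l1 𝕜 (Ball Z.C)⟩ :=
      (proj_l1 (𝕜 := 𝕜) (Ball X.C)).prod (proj_l1 (𝕜 := 𝕜) (Ball Z.C))
    have hR' : Q ⟨l1 𝕜 (Ball X.C) × l1 𝕜 (Ball Z.C)⟩ :=
      hQ.prod ⟨l1 𝕜 (Ball X.C)⟩ ⟨l1 𝕜 (Ball Z.C)⟩ (hQ.free _) (hQ.free _)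
    have h1 : Fm Q m ⟨K1 × K2⟩ :=
      Fm.syzygy hQ m ⟨K1 × K2⟩ ⟨l1 𝕜 (Ball X.C) × l1 𝕜 (Ball Z.C)⟩ ⟨X.C × Z.C⟩
        (ν1.prodMap ν2) ((cov 𝕜 X.C).prodMap (cov 𝕜 Z.C)) hs hR hR' h
    have h2 : Fm Q m ⟨K1⟩ := Fm.fst m ⟨K1⟩ ⟨K2⟩ h1
    exact ⟨⟨K1⟩, ⟨l1 𝕜 (Ball X.C)⟩, ν1, cov 𝕜 X.C, hν1, hQ.free _, h2⟩

end shift

end Pool.Agent.Helper69.Fd
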