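import Mathlib

set_option autoImplicit false

namespace Pool.Agent.Helper69.CG

open Topology Filter

variable {G : Type} [AddCommGroup G]

/-- the isolator (saturation) of a subgroup -/
def sat (U : AddSubgroup G) : AddSubgroup G where
  carrier := {g | ∃ n : ℕ, 0 < n ∧ n • g ∈ U}
  zero_mem' := ⟨1, one_pos, by simp⟩
  add_mem' := by
    rintro a b ⟨n, hn, ha⟩ ⟨m, hm, hb⟩
    refine ⟨n * m, Nat.mul_pos hn hm, ?_⟩
    rw [smul_add]
    exact U.add_mem (by rw [mul_comm, mul_smul]; exact U.nsmul_mem ha m)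
      (by rw [mul_smul]; exact U.nsmul_mem hb n)
  neg_mem' := by
    rintro a ⟨n, hn, ha⟩
    exact ⟨n, hn, by rw [smul_neg]; exact U.neg_mem ha⟩

theorem mem_sat {U : AddSubgroup G} {g : G} : g ∈ sat U ↔ ∃ n : ℕ, 0 < n ∧ n • g ∈ U := Iff.rfl

theorem le_sat (U : AddSubgroup G) : U ≤ sat U := fun g hg => ⟨1, one_pos, by simpa using hg⟩

theorem sat_mono {U V : AddSubgroup G} (h : U ≤ V) : sat U ≤ sat V :=
  fun _ ⟨n, hn, hg⟩ => ⟨n, hn, h hg⟩

theorem sat_sat {U : AddSubgroup G} {g : G} {n : ℕ} (hn : 0 < n) (h : n • g ∈ sat U) :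
    g ∈ sat U := by
  obtain ⟨m, hm, h⟩ := h
  exact ⟨m * n, Nat.mul_pos hm hn, by rwa [mul_smul]⟩

theorem sat_finite (U : AddSubgroup G) [Module.Finite ℤ (G ⧸ U)] :
    ∃ t : Set G, t.Finite ∧ ∀ g ∈ sat U, ∃ x ∈ t, g - x ∈ U := by
  classical
  have h1 : Module.Finite ℤ (Submodule.torsion ℤ (G ⧸ U)) := inferInstance
  have h2 : Finite (Submodule.torsion ℤ (G ⧸ U)) :=
    Module.finite_of_fg_torsion _ Submodule.torsion_isTorsion
  refine ⟨Set.range (fun q : Submodule.torsion ℤ (G ⧸ U) => (Quotient.out q.1 : G)),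
    Set.finite_range _, ?_⟩
  rintro g ⟨n, hn, hg⟩
  have h3 : (QuotientAddGroup.mk g : G ⧸ U) ∈ Submodule.torsion ℤ (G ⧸ U) := by
    rw [Submodule.mem_torsion_iff]
    refine ⟨⟨(n : ℤ), ?_⟩, ?_⟩
    · exact mem_nonZeroDivisors_of_ne_zero (by exact_mod_cast hn.ne')
    · have : ((n : ℤ) • g : G) ∈ U := by simpa using hg
      change (n : ℤ) • (QuotientAddGroup.mk g : G ⧸ U) = 0
      rw [← QuotientAddGroup.mk_zsmul]
      exact (QuotientAddGroup.eq_zero_iff _).2 this
  refine ⟨_, ⟨⟨_, h3⟩, rfl⟩, ?_⟩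
  have h4 : (QuotientAddGroup.mk (Quotient.out (QuotientAddGroup.mk g : G ⧸ U)) : G ⧸ U) =
      QuotientAddGroup.mk g := Quotient.out_eq _
  have h5 := QuotientAddGroup.eq.1 h4
  simpa [sub_eq_neg_add] using h5


/-- quotients by open subgroups of compactly generated groups are finitely generated -/
theorem quot_finite [TopologicalSpace G] [IsTopologicalAddGroup G] {K : Set G} (hK : IsCompact K)
    (hgen : AddSubgroup.closure K = ⊤) (U : AddSubgroup G) (hU : IsOpen (U : Set G)) :
    Module.Finite ℤ (G ⧸ U) := by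
  classical
  have hd : DiscreteTopology (G ⧸ U) := QuotientAddGroup.discreteTopology hU
  have hKf : ((QuotientAddGroup.mk' U) '' K).Finite := by
    have : IsCompact ((QuotientAddGroup.mk' U) '' K) :=
      hK.image (QuotientAddGroup.continuous_mk)
    exact this.finite_of_discrete
  rw [Module.Finite.iff_addGroup_fg, AddGroup.fg_iff]
  refine ⟨(QuotientAddGroup.mk' U) '' K, ?_, hKf⟩
  rw [← AddMonoidHom.map_closure, hgen, ← AddMonoidHom.range_eq_map]
  exact AddMonoidHom.range_eq_top.2 (QuotientAddGroup.mk'_surjective U)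

section Ultra

variable [UniformSpace G] [IsUniformAddGroup G]

/-- an ultrafilter containing all isolators of open subgroups is Cauchy -/
theorem ultra_cauchy {K : Set G} (hK : IsCompact K)
    (hgen : AddSubgroup.closure K = ⊤)
    (hbase : ∀ s ∈ nhds (0 : G), ∃ U : AddSubgroup G, IsOpen (U : Set G) ∧ (U : Set G) ⊆ s)
    (F : Ultrafilter G) (hF : ∀ U : AddSubgroup G, IsOpen (U : Set G) → (sat U : Set G) ∈ F) :
    Cauchy (F : Filter G) := by
  refine ⟨F.neBot, ?_⟩
  intro V hV
  rw [uniformity_eq_comap_nhds_zero] at hV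
  obtain ⟨s, hs, hsV⟩ := hV
  obtain ⟨U, hUo, hUs⟩ := hbase s hs
  have := quot_finite hK hgen U hUo
  obtain ⟨t, ht, hcov⟩ := sat_finite U
  have hsub : (sat U : Set G) ⊆ ⋃ x ∈ t, {g : G | g - x ∈ U} := by
    intro g hg
    obtain ⟨x, hx, hgx⟩ := hcov g hg
    exact Set.mem_biUnion hx hgx
  have hmem : (⋃ x ∈ t, {g : G | g - x ∈ U}) ∈ F := Filter.mem_of_superset (hF U hUo) hsub
  obtain ⟨x, hx, hxF⟩ := (Ultrafilter.finite_biUnion_mem_iff ht).1 hmem
  rw [Filter.mem_prod_iff]
  refine ⟨_, hxF, _, hxF, ?_⟩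
  rintro ⟨a, b⟩ ⟨ha, hb⟩
  apply hsV
  apply hUs
  change b - a ∈ U
  have : b - a = (b - x) - (a - x) := by abel
  rw [this]
  exact U.sub_mem hb ha

/-- closedness of isolators of open subgroups -/
theorem sat_isClopen (U : AddSubgroup G) (hU : IsOpen (U : Set G)) :
    IsClopen (sat U : Set G) := by
  have h : IsOpen (sat U : Set G) := AddSubgroup.isOpen_mono (le_sat U) hU
  exact ⟨AddSubgroup.isClosed_of_isOpen _ h, h⟩

variable [T2Space G] [CompleteSpace G]

theorem ultra_lim {K : Set G} (hK : IsCompact K)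
    (hgen : AddSubgroup.closure K = ⊤)
    (hbase : ∀ s ∈ nhds (0 : G), ∃ U : AddSubgroup G, IsOpen (U : Set G) ∧ (U : Set G) ⊆ s)
    (F : Ultrafilter G) (hF : ∀ U : AddSubgroup G, IsOpen (U : Set G) → (sat U : Set G) ∈ F) :
    ∃ x, (F : Filter G) ≤ nhds x ∧ ∀ U : AddSubgroup G, IsOpen (U : Set G) → x ∈ sat U := by
  obtain ⟨x, hx⟩ := cauchy_iff_exists_le_nhds.1 (ultra_cauchy hK hgen hbase F hF)
  refine ⟨x, hx, fun U hU => ?_⟩
  exact (sat_isClopen U hU).1.mem_of_frequently_of_tendsto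
    (f := id) (Filter.Eventually.frequently (hF U hU)) hx

/-- the intersection of isolators vanishes when the group is compact-free -/
theorem inter_sat {K : Set G} (hK : IsCompact K)
    (hgen : AddSubgroup.closure K = ⊤)
    (hbase : ∀ s ∈ nhds (0 : G), ∃ U : AddSubgroup G, IsOpen (U : Set G) ∧ (U : Set G) ⊆ s)
    (hcf : ∀ H : AddSubgroup G, IsCompact (H : Set G) → H = ⊥)
    (x : G) (hx : ∀ U : AddSubgroup G, IsOpen (U : Set G) → x ∈ sat U) : x = 0 := by
  have hc : IsCompact ((⨅ U : {U : AddSubgroup G // IsOpen (U : Set G)}, sat U.1 :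
      AddSubgroup G) : Set G) := by
    rw [isCompact_iff_ultrafilter_le_nhds]
    intro F hF
    have hF' : ∀ U : AddSubgroup G, IsOpen (U : Set G) → (sat U : Set G) ∈ F := by
      intro U hU
      refine Filter.mem_of_superset (Filter.le_principal_iff.1 hF) ?_
      intro g hg
      exact (AddSubgroup.mem_iInf.1 hg) ⟨U, hU⟩
    obtain ⟨y, hy, hy2⟩ := ultra_lim hK hgen hbase F hF'
    refine ⟨y, ?_, hy⟩
    exact AddSubgroup.mem_iInf.2 fun U => hy2 U.1 U.2
  have h0 := hcf _ hc
  have hxm : x ∈ (⨅ U : {U : AddSubgroup G // IsOpen (U : Set G)}, sat U.1 : AddSubgroup G) :=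
    AddSubgroup.mem_iInf.2 fun U => hx U.1 U.2
  rw [h0] at hxm
  exact (AddSubgroup.mem_bot).1 hxm

/-- isolators of open subgroups form a base at zero -/
theorem sat_base {K : Set G} (hK : IsCompact K)
    (hgen : AddSubgroup.closure K = ⊤)
    (hbase : ∀ s ∈ nhds (0 : G), ∃ U : AddSubgroup G, IsOpen (U : Set G) ∧ (U : Set G) ⊆ s)
    (hcf : ∀ H : AddSubgroup G, IsCompact (H : Set G) → H = ⊥)
    (s : Set G) (hs : s ∈ nhds (0 : G)) :
    ∃ U : AddSubgroup G, IsOpen (U : Set G) ∧ (sat U : Set G) ⊆ s := by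
  classical
  obtain ⟨V, hVo, hVs⟩ := hbase s hs
  by_contra hcon
  push Not at hcon
  have hne : ∀ U : {U : AddSubgroup G // IsOpen (U : Set G)},
      ((sat U.1 : Set G) ∩ (V : Set G)ᶜ).Nonempty := by
    intro U
    have h1 := hcon U.1 U.2
    have h2 : ¬ (sat U.1 : Set G) ⊆ (V : Set G) := fun h => h1 (h.trans hVs)
    obtain ⟨g, hg, hgV⟩ := Set.not_subset.1 h2
    exact ⟨g, hg, hgV⟩
  haveI : Nonempty {U : AddSubgroup G // IsOpen (U : Set G)} := ⟨⟨V, hVo⟩⟩
  let f : {U : AddSubgroup G // IsOpen (U : Set G)} → Filter G :=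
    fun U => 𝓟 ((sat U.1 : Set G) ∩ (V : Set G)ᶜ)
  have hdir : Directed (· ≥ ·) f := by
    intro U1 U2
    refine ⟨⟨U1.1 ⊓ U2.1, U1.2.inter U2.2⟩, ?_, ?_⟩
    · change f _ ≤ f _
      refine Filter.principal_mono.2 (Set.inter_subset_inter_left _ ?_)
      exact sat_mono inf_le_left
    · change f _ ≤ f _
      refine Filter.principal_mono.2 (Set.inter_subset_inter_left _ ?_)
      exact sat_mono inf_le_right
  haveI hnb : (⨅ U, f U).NeBot :=
    Filter.iInf_neBot_of_directed' hdir fun U => Filter.principal_neBot_iff.2 (hne U)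
  let F := Ultrafilter.of (⨅ U, f U)
  have hFle : (F : Filter G) ≤ ⨅ U, f U := Ultrafilter.of_le _
  have hmem : ∀ U : AddSubgroup G, IsOpen (U : Set G) →
      ((sat U : Set G) ∩ (V : Set G)ᶜ) ∈ F := by
    intro U hU
    have : (F : Filter G) ≤ f ⟨U, hU⟩ := hFle.trans (iInf_le _ _)
    exact Filter.le_principal_iff.1 this
  obtain ⟨x, hx, hx2⟩ := ultra_lim hK hgen hbase F
    (fun U hU => Filter.mem_of_superset (hmem U hU) Set.inter_subset_left)
  have hx0 := inter_sat hK hgen hbase hcf x hx2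
  have hVc : IsClosed ((V : Set G)ᶜ) := hVo.isClosed_compl
  have : x ∈ (V : Set G)ᶜ := hVc.mem_of_frequently_of_tendsto
    (f := id) (Filter.Eventually.frequently
      (Filter.mem_of_superset (hmem V hVo) Set.inter_subset_right)) hx
  exact this (by rw [hx0]; exact V.zero_mem)

end Ultra


theorem exists_strong_rec {α : Type} (d : α) (F : ℕ → (ℕ → α) → α) :
    ∃ c : ℕ → α, ∀ n, c n = F n (fun m => if m < n then c m else d) := by
  classical
  let ih : ∀ n : ℕ, (∀ m : ℕ, m < n → α) → α :=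
    fun n ih => F n (fun m => if h : m < n then ih m h else d)
  let c : ℕ → α := fun n => Nat.strongRecOn (motive := fun _ => α) n ih
  refine ⟨c, fun n => ?_⟩
  have h : c n = ih n (fun m _ => c m) := by
    change Nat.strongRecOn (motive := fun _ => α) n ih = _
    rw [Nat.strongRecOn_eq]
  rw [h]
  change F n _ = F n _
  congr 1

/-- unbounded functionals on an infinite rank family -/
theorem unbounded {S A : Type} (r : A → (S →₀ ℤ))
    (hinf : ∀ T : Finset S, ∃ a : A, ∃ s, s ∉ T ∧ r a s ≠ 0) (B : A → ℕ) :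
    ∃ h : (S →₀ ℤ) →ₗ[ℤ] ℤ, ∀ n : ℕ, ∃ a : A, (n : ℤ) * (B a : ℤ) < |h (r a)| := by
  classical
  choose fa fs hfs hne using hinf
  let T : ℕ → Finset S := fun n => Nat.rec ∅ (fun _ t => t ∪ (r (fa t)).support) n
  have hT : ∀ n, T (n + 1) = T n ∪ (r (fa (T n))).support := fun n => rfl
  have hTm : Monotone T := monotone_nat_of_le_succ fun n => by
    rw [hT]; exact Finset.subset_union_left
  let a : ℕ → A := fun n => fa (T n)
  let s : ℕ → S := fun n => fs (T n)
  have hs : ∀ n, s n ∉ T n := fun n => hfs (T n)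
  have hsa : ∀ n, r (a n) (s n) ≠ 0 := fun n => hne (T n)
  have hsupp : ∀ n, (r (a n)).support ⊆ T (n + 1) := fun n => by
    rw [hT]; exact Finset.subset_union_right
  have hs1 : ∀ n, s n ∈ T (n + 1) := fun n => hsupp n (Finsupp.mem_support_iff.2 (hsa n))
  have hinj : Function.Injective s := by
    intro m n hmn
    by_contra hne
    rcases lt_or_gt_of_ne hne with h | h
    · exact hs n (hmn ▸ hTm (Nat.succ_le_of_lt h) (hs1 m))
    · exact hs m (hmn ▸ hTm (Nat.succ_le_of_lt h) (hs1 n))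
  obtain ⟨c, hc⟩ := exists_strong_rec (0 : ℤ) (fun n p =>
    |∑ m ∈ Finset.range n, r (a n) (s m) * p m| + (n : ℤ) * (B (a n) : ℤ) + 1)
  let C : S → ℤ := Function.extend s c 0
  have hC : ∀ n, C (s n) = c n := fun n => hinj.extend_apply _ _ _
  have hC0 : ∀ x, (¬ ∃ n, s n = x) → C x = 0 := fun x hx => by
    change Function.extend s c 0 x = 0
    rw [Function.extend_apply' _ _ _ hx]; rfl
  refine ⟨Finsupp.linearCombination ℤ C, fun n => ⟨a n, ?_⟩⟩
  have key : Finsupp.linearCombination ℤ C (r (a n)) =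
      ∑ m ∈ Finset.range (n + 1), r (a n) (s m) * c m := by
    rw [Finsupp.linearCombination_apply]
    rw [Finsupp.sum_of_support_subset (r (a n))
      (s := (r (a n)).support ∪ (Finset.range (n + 1)).image s) Finset.subset_union_left _
      (by intro i _; simp)]
    rw [← Finset.sum_subset (Finset.subset_union_right
      (s₁ := (r (a n)).support) (s₂ := (Finset.range (n + 1)).image s))]
    · rw [Finset.sum_image (fun _ _ _ _ h => hinj h)]
      refine Finset.sum_congr rfl fun m _ => ?_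
      rw [hC, smul_eq_mul]
    · intro x hx hx2
      by_cases hxs : ∃ m, s m = x
      · obtain ⟨m, rfl⟩ := hxs
        have hm : n + 1 ≤ m := by
          by_contra hlt
          exact hx2 (Finset.mem_image.2 ⟨m, Finset.mem_range.2 (by omega), rfl⟩)
        have h1 : s m ∉ (r (a n)).support := fun h => hs m (hTm hm (hsupp n h))
        rw [Finsupp.notMem_support_iff.1 h1, zero_smul]
      · rw [hC0 x hxs, smul_zero]
  rw [key, Finset.sum_range_succ]
  have hcn : c n = |∑ m ∈ Finset.range n, r (a n) (s m) * c m| + (n : ℤ) * (B (a n) : ℤ) + 1 := by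
    rw [hc n]
    congr 3
    refine Finset.sum_congr rfl fun m hm => ?_
    change r (a n) (s m) * (if m < n then c m else 0) = _
    rw [if_pos (Finset.mem_range.1 hm)]
  set X := ∑ m ∈ Finset.range n, r (a n) (s m) * c m with hX
  have hpos : 0 ≤ (n : ℤ) * (B (a n) : ℤ) := by positivity
  have h1 : |r (a n) (s n) * c n| ≥ |X| + (n : ℤ) * (B (a n) : ℤ) + 1 := by
    rw [abs_mul]
    have hd : 1 ≤ |r (a n) (s n)| := Int.one_le_abs (hsa n)
    have hcabs : |c n| = |X| + (n : ℤ) * (B (a n) : ℤ) + 1 := by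
      rw [hcn, abs_of_nonneg]; positivity
    rw [← hcabs]
    nlinarith [abs_nonneg (c n)]
  have h2 : |r (a n) (s n) * c n| ≤ |X + r (a n) (s n) * c n| + |X| := by
    have : r (a n) (s n) * c n = (X + r (a n) (s n) * c n) - X := by ring
    calc |r (a n) (s n) * c n| = |(X + r (a n) (s n) * c n) - X| := by rw [← this]
      _ ≤ |X + r (a n) (s n) * c n| + |X| := abs_sub _ _
  linarith

/-- quotient by an isolator is torsion-free -/
theorem quot_sat_tf (U : AddSubgroup G) : Module.IsTorsionFree ℤ (G ⧸ sat U) := by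
  refine Module.IsTorsionFree.of_smul_eq_zero ?_
  intro r m h
  obtain ⟨g, rfl⟩ := QuotientAddGroup.mk_surjective m
  by_cases hr : r = 0
  · exact Or.inl hr
  · right
    rw [← QuotientAddGroup.mk_zsmul, QuotientAddGroup.eq_zero_iff] at h
    rw [QuotientAddGroup.eq_zero_iff]
    have hn : 0 < r.natAbs := Int.natAbs_pos.2 hr
    refine sat_sat hn ?_
    rw [← natCast_zsmul]
    rcases Int.natAbs_eq r with h' | h'
    · rw [h'] at h; exact h
    · rw [h'] at h
      have := (sat U).neg_mem h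
      rwa [neg_smul, neg_neg] at this

section Dual

variable [UniformSpace G] [IsUniformAddGroup G]

variable (G) in
/-- continuous integer valued functionals -/
def Gam : Submodule ℤ (G →ₗ[ℤ] ℤ) where
  carrier := {f | IsOpen (f.toAddMonoidHom.ker : Set G)}
  zero_mem' := by
    have : ((0 : G →ₗ[ℤ] ℤ).toAddMonoidHom.ker : Set G) = Set.univ := by
      ext x; simp
    change IsOpen ((0 : G →ₗ[ℤ] ℤ).toAddMonoidHom.ker : Set G)
    rw [this]; exact isOpen_univ
  add_mem' := by
    intro f g hf hg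
    refine AddSubgroup.isOpen_mono (H₁ := f.toAddMonoidHom.ker ⊓ g.toAddMonoidHom.ker) ?_
      (IsOpen.inter hf hg)
    intro x hx
    have h1 : f x = 0 := hx.1
    have h2 : g x = 0 := hx.2
    change f x + g x = 0
    rw [h1, h2, add_zero]
  smul_mem' := by
    intro c f hf
    refine AddSubgroup.isOpen_mono (H₁ := f.toAddMonoidHom.ker) ?_ hf
    intro x hx
    have h1 : f x = 0 := hx
    change c • f x = 0
    rw [h1, smul_zero]

theorem gam_cont (γ : Gam G) : Continuous γ.1 := by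
  have h : Continuous γ.1.toAddMonoidHom := by
    apply continuous_of_continuousAt_zero
    rw [ContinuousAt, map_zero]
    intro s hs
    have h0 : (γ.1.toAddMonoidHom.ker : Set G) ∈ nhds (0 : G) :=
      (show IsOpen (γ.1.toAddMonoidHom.ker : Set G) from γ.2).mem_nhds (zero_mem _)
    rw [Filter.mem_map]
    refine Filter.mem_of_superset h0 ?_
    intro x hx
    have hx' : γ.1.toAddMonoidHom x = 0 := hx
    change γ.1.toAddMonoidHom x ∈ s
    rw [hx']
    exact mem_of_mem_nhds hs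
  exact h

theorem sat_ker (γ : G →ₗ[ℤ] ℤ) : sat γ.toAddMonoidHom.ker ≤ γ.toAddMonoidHom.ker := by
  rintro g ⟨n, hn, hg⟩
  have h1 : γ (n • g) = 0 := hg
  rw [map_nsmul] at h1
  change γ g = 0
  simpa [hn.ne'] using h1

/-- pull back of functionals of the quotient -/
def pull (U : AddSubgroup G) (hU : IsOpen (U : Set G)) :
    Module.Dual ℤ (G ⧸ sat U) →ₗ[ℤ] Gam G where
  toFun φ := ⟨φ ∘ₗ (QuotientAddGroup.mk' (sat U)).toIntLinearMap, by
    refine AddSubgroup.isOpen_mono (H₁ := U) ?_ hU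
    intro x hx
    change φ (QuotientAddGroup.mk x) = 0
    rw [(QuotientAddGroup.eq_zero_iff x).2 (le_sat U hx), map_zero]⟩
  map_add' φ ψ := by
    ext x; rfl
  map_smul' c φ := by
    ext x; rfl

theorem pull_apply (U : AddSubgroup G) (hU : IsOpen (U : Set G)) (φ : Module.Dual ℤ (G ⧸ sat U))
    (x : G) : (pull U hU φ).1 x = φ (QuotientAddGroup.mk x) := rfl

theorem exists_pull (U : AddSubgroup G) (hU : IsOpen (U : Set G)) (γ : Gam G)
    (hγ : ∀ x ∈ sat U, γ.1 x = 0) : ∃ φ, pull U hU φ = γ := by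
  refine ⟨(QuotientAddGroup.lift (sat U) γ.1.toAddMonoidHom hγ).toIntLinearMap, ?_⟩
  ext x
  rfl

theorem sep {K : Set G} (hK : IsCompact K) (hgen : AddSubgroup.closure K = ⊤)
    (U : AddSubgroup G) (hU : IsOpen (U : Set G)) (x : G)
    (hx : ∀ γ : Gam G, (∀ y ∈ sat U, γ.1 y = 0) → γ.1 x = 0) : x ∈ sat U := by
  have h1 : Module.Finite ℤ (G ⧸ sat U) := quot_finite hK hgen (sat U) (sat_isClopen U hU).2
  have h2 := quot_sat_tf U
  have h3 : Module.Free ℤ (G ⧸ sat U) := inferInstance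
  rw [← QuotientAddGroup.eq_zero_iff]
  have hinj := (Module.bijective_dual_eval ℤ (G ⧸ sat U)).1
  apply hinj
  ext φ
  rw [map_zero]
  have := hx (pull U hU φ) (fun y hy => by
    rw [pull_apply, (QuotientAddGroup.eq_zero_iff y).2 hy, map_zero])
  rw [pull_apply] at this
  simpa using this

variable [T2Space G] [CompleteSpace G]

theorem realize {K : Set G} (hK : IsCompact K) (hgen : AddSubgroup.closure K = ⊤)
    (hbase : ∀ s ∈ nhds (0 : G), ∃ U : AddSubgroup G, IsOpen (U : Set G) ∧ (U : Set G) ⊆ s)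
    (hcf : ∀ H : AddSubgroup G, IsCompact (H : Set G) → H = ⊥)
    (h : Gam G →ₗ[ℤ] ℤ) : ∃ g : G, ∀ γ : Gam G, γ.1 g = h γ := by
  classical
  let I := {U : AddSubgroup G // IsOpen (U : Set G)}
  let Q : I → Set G := fun U => {g | ∀ γ : Gam G, (∀ x ∈ sat U.1, γ.1 x = 0) → γ.1 g = h γ}
  have hQne : ∀ U : I, (Q U).Nonempty := by
    intro U
    have h1 : Module.Finite ℤ (G ⧸ sat U.1) :=
      quot_finite hK hgen (sat U.1) (sat_isClopen U.1 U.2).2
    have h2 := quot_sat_tf U.1
    have h3 : Module.Free ℤ (G ⧸ sat U.1) := inferInstance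
    obtain ⟨q, hq⟩ := (Module.bijective_dual_eval ℤ (G ⧸ sat U.1)).2 (h ∘ₗ pull U.1 U.2)
    obtain ⟨g, rfl⟩ := QuotientAddGroup.mk_surjective q
    refine ⟨g, fun γ hγ => ?_⟩
    obtain ⟨φ, rfl⟩ := exists_pull U.1 U.2 γ hγ
    rw [pull_apply]
    have := LinearMap.congr_fun hq φ
    simpa using this
  have hQmono : ∀ U V : I, U.1 ≤ V.1 → Q U ⊆ Q V := by
    intro U V hUV g hg γ hγ
    exact hg γ fun x hx => hγ x (sat_mono hUV hx)
  haveI : Nonempty I := ⟨⟨⊤, isOpen_univ⟩⟩
  have hdir : Directed (· ≥ ·) (fun U : I => 𝓟 (Q U)) := by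
    intro U1 U2
    refine ⟨⟨U1.1 ⊓ U2.1, U1.2.inter U2.2⟩, ?_, ?_⟩
    · exact Filter.principal_mono.2 (hQmono _ _ inf_le_left)
    · exact Filter.principal_mono.2 (hQmono _ _ inf_le_right)
  haveI hnb : (⨅ U : I, 𝓟 (Q U)).NeBot :=
    Filter.iInf_neBot_of_directed' hdir fun U => Filter.principal_neBot_iff.2 (hQne U)
  have hcau : Cauchy (⨅ U : I, 𝓟 (Q U)) := by
    refine ⟨hnb, ?_⟩
    intro V hV
    rw [uniformity_eq_comap_nhds_zero] at hV
    obtain ⟨s, hs, hsV⟩ := hV
    obtain ⟨U, hUo, hUs⟩ := sat_base hK hgen hbase hcf s hs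
    have hmem : Q ⟨U, hUo⟩ ∈ (⨅ U : I, 𝓟 (Q U)) :=
      Filter.mem_iInf_of_mem ⟨U, hUo⟩ (Filter.mem_principal_self _)
    rw [Filter.mem_prod_iff]
    refine ⟨_, hmem, _, hmem, ?_⟩
    rintro ⟨a, b⟩ ⟨ha, hb⟩
    apply hsV
    apply hUs
    change b - a ∈ sat U
    apply sep hK hgen U hUo
    intro γ hγ
    rw [map_sub, ha γ hγ, hb γ hγ, sub_self]
  obtain ⟨g, hg⟩ := cauchy_iff_exists_le_nhds.1 hcau
  refine ⟨g, fun γ => ?_⟩
  let U : I := ⟨γ.1.toAddMonoidHom.ker, γ.2⟩
  have hcl : IsClosed {x : G | γ.1 x = h γ} :=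
    isClosed_eq (gam_cont γ) continuous_const
  have hmem : {x : G | γ.1 x = h γ} ∈ (⨅ U : I, 𝓟 (Q U)) := by
    refine Filter.mem_iInf_of_mem U ?_
    rw [Filter.mem_principal]
    intro x hx
    exact hx γ fun y hy => sat_ker γ.1 hy
  have hfin : g ∈ {x : G | γ.1 x = h γ} :=
    hcl.mem_of_frequently_of_tendsto (f := id) (Filter.Eventually.frequently hmem) hg
  exact hfin

/-- every element of the group generated by `K` gives bounded evaluation -/
theorem eval_bdd {K : Set G} (hgen : AddSubgroup.closure K = ⊤) (g : G) :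
    ∃ N : ℕ, ∀ (γ : G →ₗ[ℤ] ℤ) (B : ℕ), (∀ k ∈ K, |γ k| ≤ B) → |γ g| ≤ (N : ℤ) * (B : ℤ) := by
  have hg : g ∈ AddSubgroup.closure K := by rw [hgen]; trivial
  induction hg using AddSubgroup.closure_induction with
  | mem x hx => exact ⟨1, fun γ B hB => by simpa using hB x hx⟩
  | zero => exact ⟨0, fun γ B _ => by simp⟩
  | add x y _ _ hx hy =>
    obtain ⟨N1, h1⟩ := hx
    obtain ⟨N2, h2⟩ := hy
    refine ⟨N1 + N2, fun γ B hB => ?_⟩
    rw [map_add]
    have := abs_add_le (γ x) (γ y)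
    have := h1 γ B hB
    have := h2 γ B hB
    push_cast
    nlinarith
  | neg x _ hx =>
    obtain ⟨N1, h1⟩ := hx
    refine ⟨N1, fun γ B hB => ?_⟩
    rw [map_neg, abs_neg]
    exact h1 γ B hB

end Dual


/-- restriction of continuous functionals to the compact generating set -/
noncomputable def rho [UniformSpace G] [IsUniformAddGroup G] (K : Set G) :
    Gam G →ₗ[ℤ] LocallyConstant K ℤ where
  toFun γ := ⟨fun k => γ.1 k.1, (IsLocallyConstant.iff_continuous _).2
    ((gam_cont γ).comp continuous_subtype_val)⟩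
  map_add' _ _ := rfl
  map_smul' _ _ := rfl

theorem rho_apply [UniformSpace G] [IsUniformAddGroup G] (K : Set G) (γ : Gam G) (k : K) :
    rho K γ k = γ.1 k.1 := rfl

/-- the discrete case -/
theorem discrete_case [UniformSpace G] [DiscreteTopology G] {K : Set G}
    (hK : IsCompact K) (hgen : AddSubgroup.closure K = ⊤)
    (hcf : ∀ H : AddSubgroup G, IsCompact (H : Set G) → H = ⊥) :
    ∃ n : ℕ, Nonempty (G ≃+ (Fin n → ℤ)) := by
  have hfin : Module.Finite ℤ G := by
    rw [Module.Finite.iff_addGroup_fg, AddGroup.fg_iff]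
    exact ⟨K, hgen, hK.finite_of_discrete⟩
  have htf : Module.IsTorsionFree ℤ G := by
    refine Module.IsTorsionFree.of_smul_eq_zero ?_
    intro r m h
    by_cases hr : r = 0
    · exact Or.inl hr
    · right
      have h1 : IsOfFinAddOrder m := isOfFinAddOrder_iff_zsmul_eq_zero.2 ⟨r, hr, h⟩
      have h2 : (AddSubgroup.zmultiples m : Set G).Finite := by
        rw [finite_zmultiples]; exact h1
      have h3 := hcf _ h2.isCompact
      exact AddSubgroup.zmultiples_eq_bot.1 h3
  have hfree : Module.Free ℤ G := inferInstance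
  exact ⟨_, ⟨(Module.finBasis ℤ G).equivFun.toAddEquiv⟩⟩

theorem main [UniformSpace G] [IsUniformAddGroup G] [T2Space G] [CompleteSpace G]
    (hbase : ∀ s ∈ nhds (0 : G), ∃ U : AddSubgroup G, IsOpen (U : Set G) ∧ (U : Set G) ⊆ s)
    (hKex : ∃ K : Set G, IsCompact K ∧ AddSubgroup.closure K = ⊤)
    (hcf : ∀ H : AddSubgroup G, IsCompact (H : Set G) → H = ⊥) :
    DiscreteTopology G ∧ ∃ n : ℕ, Nonempty (G ≃+ (Fin n → ℤ)) := by
  classical
  obtain ⟨K, hK, hgen⟩ := hKex
  have hna : NonarchimedeanAddGroup G := ⟨fun s hs => by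
    obtain ⟨U, hU, hUs⟩ := hbase s hs
    exact ⟨⟨U, hU⟩, hUs⟩⟩
  have hCK : CompactSpace K := isCompact_iff_compactSpace.1 hK
  have hTD : TotallyDisconnectedSpace K := inferInstance
  have hfree := LocallyConstant.freeOfProfinite (Profinite.of K)
  have hfree' : Module.Free ℤ (LocallyConstant K ℤ) := hfree
  let b := Module.Free.chooseBasis ℤ (LocallyConstant K ℤ)
  let rL := b.repr.toLinearMap ∘ₗ rho K
  have hB : ∀ γ : Gam G, ∃ B : ℕ, ∀ k ∈ K, |γ.1 k| ≤ (B : ℤ) := by
    intro γ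
    have h1 : IsCompact (γ.1 '' K) := hK.image (gam_cont γ)
    have h2 : (γ.1 '' K).Finite := h1.finite_of_discrete
    obtain ⟨B, hB⟩ := (h2.image (fun z => z.natAbs)).bddAbove
    refine ⟨B, fun k hk => ?_⟩
    have := hB ⟨γ.1 k, ⟨k, hk, rfl⟩, rfl⟩
    rw [Int.abs_eq_natAbs]
    exact_mod_cast this
  choose B hB using hB
  have hdisc : DiscreteTopology G := by
    by_cases hinf : ∀ T : Finset _, ∃ a : Gam G, ∃ s, s ∉ T ∧ rL a s ≠ 0
    · exfalso
      obtain ⟨h, hh⟩ := unbounded (fun a => rL a) hinf B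
      obtain ⟨g, hg⟩ := realize hK hgen hbase hcf (h ∘ₗ rL)
      obtain ⟨N, hN⟩ := eval_bdd hgen g
      obtain ⟨γ, hγ⟩ := hh N
      have h1 := hN γ.1 (B γ) (hB γ)
      rw [hg γ] at h1
      exact absurd hγ (not_lt.2 h1)
    · push Not at hinf
      obtain ⟨T, hT⟩ := hinf
      let f : Gam G →ₗ[ℤ] (T → ℤ) := LinearMap.pi fun s => (Finsupp.lapply s.1) ∘ₗ rL
      have hf : Function.Injective f := by
        rw [injective_iff_map_eq_zero]
        intro γ hγ
        have h1 : rL γ = 0 := by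
          ext s
          by_cases hs : s ∈ T
          · exact congr_fun hγ ⟨s, hs⟩
          · exact hT γ s hs
        have h2 : rho K γ = 0 := by
          have : b.repr (rho K γ) = 0 := h1
          simpa using this
        ext x
        obtain ⟨N, hN⟩ := eval_bdd hgen x
        have h3 := hN γ.1 0 (fun k hk => by
          have := congr_fun (congr_arg (fun l : LocallyConstant K ℤ => (l : K → ℤ)) h2) ⟨k, hk⟩
          have h4 : γ.1 k = 0 := this
          simp [h4])
        have h4 : |γ.1 x| ≤ 0 := by simpa using h3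
        simpa using h4
      have hfin : Module.Finite ℤ (Gam G) := Module.Finite.of_injective f hf
      obtain ⟨s, hs⟩ := hfin.fg_top
      have hopen : IsOpen (⋂ γ ∈ s, {x : G | γ.1 x = 0}) :=
        isOpen_biInter_finset fun γ _ => γ.2
      have hzero : (⋂ γ ∈ s, {x : G | γ.1 x = 0}) = {0} := by
        ext x
        constructor
        · intro hx
          have hall : ∀ γ : Gam G, γ.1 x = 0 := by
            intro γ
            have hγ : γ ∈ Submodule.span ℤ (s : Set (Gam G)) := by rw [hs]; trivial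
            induction hγ using Submodule.span_induction with
            | mem y hy => exact Set.mem_iInter₂.1 hx y hy
            | zero => rfl
            | add y z _ _ hy hz =>
              change y.1 x + z.1 x = 0
              rw [hy, hz, add_zero]
            | smul c y _ hy =>
              change c • y.1 x = 0
              rw [hy, smul_zero]
          exact inter_sat hK hgen hbase hcf x fun U hU =>
            sep hK hgen U hU x fun γ _ => hall γ
        · rintro rfl
          exact Set.mem_iInter₂.2 fun γ _ => map_zero _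
      rw [hzero] at hopen
      exact discreteTopology_of_isOpen_singleton_zero hopen
  exact ⟨hdisc, discrete_case hK hgen hcf⟩

end Pool.Agent.Helper69.CG
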