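import Mathlib

set_option autoImplicit false
set_option linter.unusedSectionVars false
set_option linter.style.haveILetI false

namespace Pool.Agent.Helper69.Cantor

open Cardinal

theorem card_interval (n : ℤ) (hn : n ≠ 0) (c ε : ℝ) (hε : 0 < ε) :
    #{t : ℝ | ∃ j : ℤ, |(n : ℝ) * t + c - j| ≤ ε} = 𝔠 := by
  have hn' : (n : ℝ) ≠ 0 := by exact_mod_cast hn
  have hpos : 0 < |(n : ℝ)| := abs_pos.2 hn'
  apply le_antisymm (by rw [← Cardinal.mk_real]; exact mk_set_le _)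
  have h1 : (-c / n - ε / |(n : ℝ)|) < (-c / n + ε / |(n : ℝ)|) := by
    have : 0 < ε / |(n : ℝ)| := div_pos hε hpos
    linarith
  rw [← mk_Ioo_real h1]
  apply mk_le_mk_of_subset
  rintro t ⟨h2, h3⟩
  refine ⟨0, ?_⟩
  have h4 : |t - -c / n| ≤ ε / |(n : ℝ)| := by
    rw [abs_le]; constructor <;> linarith
  have h5 : (n : ℝ) * t + c - (0 : ℤ) = n * (t - -c / n) := by
    field_simp
    push_cast
    ring
  rw [h5, abs_mul]
  calc |(n : ℝ)| * |t - -c / n| ≤ |(n : ℝ)| * (ε / |(n : ℝ)|) := by gcongr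
    _ = ε := by field_simp

section

variable (n : ℕ → ℤ) (c : ℕ → ℝ)

/-- centers of nested intervals -/
noncomputable def T (b : ℕ → Bool) : ℕ → ℝ
  | 0 => -c 0 / n 0
  | k + 1 => ((round ((n (k + 1) : ℝ) * T b k + c (k + 1)) : ℝ) + (if b k then 1 else 0) -
      c (k + 1)) / n (k + 1)

theorem T_congr (b b' : ℕ → Bool) (k : ℕ) (h : ∀ i < k, b i = b' i) : T n c b k = T n c b' k := by
  induction k with
  | zero => rfl
  | succ k ih =>
    rw [T, T, ih (fun i hi => h i (by omega)), h k (by omega)]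

variable {n} {c} (h0 : n 0 ≠ 0) (hg : ∀ k, 2 ^ (k + 4) * |n k| ≤ |n (k + 1)|)
include h0 hg

theorem n_ne (k : ℕ) : n k ≠ 0 := by
  induction k with
  | zero => exact h0
  | succ k ih =>
    intro h
    have h1 := hg k
    rw [h, abs_zero] at h1
    have h2 : 0 < |n k| := abs_pos.2 ih
    have h3 : 0 < 2 ^ (k + 4) * |n k| := by positivity
    linarith

theorem step (b : ℕ → Bool) (k : ℕ) :
    |T n c b (k + 1) - T n c b k| + (1 / 2 ^ (k + 1 + 3)) / |(n (k + 1) : ℝ)| ≤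
      (1 / 2 ^ (k + 3)) / |(n k : ℝ)| := by
  have hk : (n k : ℝ) ≠ 0 := by exact_mod_cast n_ne h0 hg k
  have hk1 : (n (k + 1) : ℝ) ≠ 0 := by exact_mod_cast n_ne h0 hg (k + 1)
  have hkp : 0 < |(n k : ℝ)| := abs_pos.2 hk
  have hk1p : 0 < |(n (k + 1) : ℝ)| := abs_pos.2 hk1
  set x := (n (k + 1) : ℝ) * T n c b k + c (k + 1) with hx
  have h1 : T n c b (k + 1) - T n c b k =
      ((round x : ℝ) - x + (if b k then 1 else 0)) / n (k + 1) := by
    rw [T]
    field_simp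
    rw [← hx]
    ring
  have h2 : |(round x : ℝ) - x + (if b k then 1 else 0)| ≤ 3 / 2 := by
    have h3 : |x - round x| ≤ 1 / 2 := abs_sub_round x
    rw [abs_le] at h3 ⊢
    split_ifs <;> constructor <;> linarith [h3.1, h3.2]
  have h4 : |T n c b (k + 1) - T n c b k| ≤ (3 / 2) / |(n (k + 1) : ℝ)| := by
    rw [h1, abs_div]
    gcongr
  have h5 : (1 / 2 ^ (k + 1 + 3) : ℝ) ≤ 1 / 2 := by
    rw [one_div_le_one_div (by positivity) (by norm_num)]
    calc (2 : ℝ) = 2 ^ 1 := by norm_num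
      _ ≤ 2 ^ (k + 1 + 3) := pow_le_pow_right₀ (by norm_num) (by omega)
  have h6 : (1 / 2 ^ (k + 1 + 3)) / |(n (k + 1) : ℝ)| ≤ (1 / 2) / |(n (k + 1) : ℝ)| := by
    gcongr
  have h7 : (2 : ℝ) ^ (k + 4) * |(n k : ℝ)| ≤ |(n (k + 1) : ℝ)| := by
    exact_mod_cast hg k
  have h8 : 2 / |(n (k + 1) : ℝ)| ≤ (1 / 2 ^ (k + 3)) / |(n k : ℝ)| := by
    rw [div_div, div_le_div_iff₀ hk1p (by positivity)]
    calc 2 * (2 ^ (k + 3) * |(n k : ℝ)|) = 2 ^ (k + 4) * |(n k : ℝ)| := by ring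
      _ ≤ 1 * |(n (k + 1) : ℝ)| := by linarith
  calc |T n c b (k + 1) - T n c b k| + (1 / 2 ^ (k + 1 + 3)) / |(n (k + 1) : ℝ)|
      ≤ (3 / 2) / |(n (k + 1) : ℝ)| + (1 / 2) / |(n (k + 1) : ℝ)| := add_le_add h4 h6
    _ = 2 / |(n (k + 1) : ℝ)| := by ring
    _ ≤ _ := h8

theorem exists_limit (b : ℕ → Bool) :
    ∃ x : ℝ, ∀ k, |x - T n c b k| ≤ (1 / 2 ^ (k + 3)) / |(n k : ℝ)| := by
  let f : ℕ → ℝ := fun k => T n c b k - (1 / 2 ^ (k + 3)) / |(n k : ℝ)|
  let g : ℕ → ℝ := fun k => T n c b k + (1 / 2 ^ (k + 3)) / |(n k : ℝ)|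
  have hf : Monotone f := by
    apply monotone_nat_of_le_succ
    intro k
    have h1 := step (c := c) h0 hg b k
    have h2 := neg_abs_le (T n c b (k + 1) - T n c b k)
    change T n c b k - _ ≤ T n c b (k + 1) - _
    linarith
  have hg' : Antitone g := by
    apply antitone_nat_of_succ_le
    intro k
    have h1 := step (c := c) h0 hg b k
    have h2 := le_abs_self (T n c b (k + 1) - T n c b k)
    change T n c b (k + 1) + _ ≤ T n c b k + _
    linarith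
  have hfg : f ≤ g := by
    intro k
    have : 0 ≤ (1 / 2 ^ (k + 3)) / |(n k : ℝ)| := by positivity
    change T n c b k - _ ≤ T n c b k + _
    linarith
  have h := Monotone.ciSup_mem_iInter_Icc_of_antitone hf hg' hfg
  refine ⟨⨆ k, f k, fun k => ?_⟩
  have h1 := Set.mem_iInter.1 h k
  have h2 : T n c b k - (1 / 2 ^ (k + 3)) / |(n k : ℝ)| ≤ ⨆ k, f k := h1.1
  have h3 : (⨆ k, f k) ≤ T n c b k + (1 / 2 ^ (k + 3)) / |(n k : ℝ)| := h1.2
  rw [abs_le]
  constructor <;> linarith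

theorem near_int (b : ℕ → Bool) (k : ℕ) (x : ℝ)
    (hx : |x - T n c b k| ≤ (1 / 2 ^ (k + 3)) / |(n k : ℝ)|) :
    ∃ j : ℤ, |(n k : ℝ) * x + c k - j| ≤ 1 / 2 ^ (k + 3) := by
  have hk : (n k : ℝ) ≠ 0 := by exact_mod_cast n_ne h0 hg k
  have hkp : 0 < |(n k : ℝ)| := abs_pos.2 hk
  have h1 : ∃ j : ℤ, (n k : ℝ) * T n c b k + c k = j := by
    cases k with
    | zero =>
      refine ⟨0, ?_⟩
      rw [T]
      field_simp
      push_cast
      ring
    | succ k =>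
      refine ⟨round ((n (k + 1) : ℝ) * T n c b k + c (k + 1)) + (if b k then 1 else 0), ?_⟩
      rw [T]
      field_simp
      push_cast
      ring
  obtain ⟨j, hj⟩ := h1
  refine ⟨j, ?_⟩
  have h2 : (n k : ℝ) * x + c k - j = n k * (x - T n c b k) := by
    rw [← hj]; ring
  rw [h2, abs_mul]
  calc |(n k : ℝ)| * |x - T n c b k| ≤ |(n k : ℝ)| * ((1 / 2 ^ (k + 3)) / |(n k : ℝ)|) := by
        gcongr
    _ = 1 / 2 ^ (k + 3) := by field_simp

theorem limit_inj (b b' : ℕ → Bool) (x : ℝ)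
    (hx : ∀ k, |x - T n c b k| ≤ (1 / 2 ^ (k + 3)) / |(n k : ℝ)|)
    (hx' : ∀ k, |x - T n c b' k| ≤ (1 / 2 ^ (k + 3)) / |(n k : ℝ)|) : b = b' := by
  by_contra hne
  have hex : ∃ k, b k ≠ b' k := Function.ne_iff.1 hne
  classical
  let k := Nat.find hex
  have hk : b k ≠ b' k := Nat.find_spec hex
  have hlt : ∀ i < k, b i = b' i := fun i hi => by
    by_contra h
    exact Nat.find_min hex hi h
  have hk1 : (n (k + 1) : ℝ) ≠ 0 := by exact_mod_cast n_ne h0 hg (k + 1)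
  have hk1p : 0 < |(n (k + 1) : ℝ)| := abs_pos.2 hk1
  have hT := T_congr n c b b' k hlt
  have h1 : |T n c b (k + 1) - T n c b' (k + 1)| = 1 / |(n (k + 1) : ℝ)| := by
    have h2 : T n c b (k + 1) - T n c b' (k + 1) =
        ((if b k then 1 else 0) - (if b' k then 1 else 0)) / n (k + 1) := by
      rw [T, T, hT]
      field_simp
      ring
    rw [h2, abs_div]
    congr 1
    cases hb : b k <;> cases hb' : b' k <;> simp_all
  have h3 : |T n c b (k + 1) - T n c b' (k + 1)| ≤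
      2 * ((1 / 2 ^ (k + 1 + 3)) / |(n (k + 1) : ℝ)|) := by
    have h4 := hx (k + 1)
    have h5 := hx' (k + 1)
    have h6 : T n c b (k + 1) - T n c b' (k + 1) =
        (x - T n c b' (k + 1)) - (x - T n c b (k + 1)) := by ring
    rw [h6]
    refine (abs_sub _ _).trans ?_
    linarith
  rw [h1] at h3
  have h5 : (1 / 2 ^ (k + 1 + 3) : ℝ) ≤ 1 / 4 := by
    rw [one_div_le_one_div (by positivity) (by norm_num)]
    calc (4 : ℝ) = 2 ^ 2 := by norm_num
      _ ≤ 2 ^ (k + 1 + 3) := pow_le_pow_right₀ (by norm_num) (by omega)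
  have h7 : 2 * ((1 / 2 ^ (k + 1 + 3)) / |(n (k + 1) : ℝ)|) ≤
      2 * ((1 / 4) / |(n (k + 1) : ℝ)|) := by gcongr
  have h8 : 2 * ((1 / 4) / |(n (k + 1) : ℝ)|) = (1 / 2) * (1 / |(n (k + 1) : ℝ)|) := by ring
  have h9 : 0 < 1 / |(n (k + 1) : ℝ)| := by positivity
  linarith

theorem card_cantor :
    #{t : ℝ | ∀ k, ∃ j : ℤ, |(n k : ℝ) * t + c k - j| ≤ 1 / 2 ^ (k + 3)} = 𝔠 := by
  apply le_antisymm (by rw [← Cardinal.mk_real]; exact mk_set_le _)
  choose L hL using fun b => exists_limit (c := c) h0 hg b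
  have hinj : Function.Injective (fun b : ℕ → Bool =>
      (⟨L b, fun k => near_int h0 hg b k (L b) (hL b k)⟩ :
        {t : ℝ | ∀ k, ∃ j : ℤ, |(n k : ℝ) * t + c k - j| ≤ 1 / 2 ^ (k + 3)})) := by
    intro b b' h
    have h1 : L b = L b' := congr_arg Subtype.val h
    exact limit_inj h0 hg b b' (L b) (hL b) (by rw [h1]; exact hL b')
  have h2 := Cardinal.mk_le_of_injective hinj
  have h3 : #(ℕ → Bool) = 𝔠 := by simp
  rw [h3] at h2
  exact h2

end

end Pool.Agent.Helper69.Cantor
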