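import Mathlib

set_option autoImplicit false
set_option linter.unusedSectionVars false
set_option linter.style.haveILetI false

namespace Pool.Agent.Helper69.Dich

variable {V : Type} [LinearOrder V]

/-- `v` is the largest element of the support -/
def IsMx (z : V →₀ ℤ) (v : V) : Prop := z v ≠ 0 ∧ ∀ u, z u ≠ 0 → u ≤ v

/-- strictly increasing maxima -/
def CaseI (z : ℕ → (V →₀ ℤ)) : Prop := ∃ b : ℕ → V, StrictMono b ∧ ∀ k, IsMx (z k) (b k)

/-- constant maximum and fast growing coefficient -/
def CaseII (z : ℕ → (V →₀ ℤ)) : Prop :=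
  ∃ v, (∀ k, IsMx (z k) v) ∧ ∀ k, 2 ^ (k + 4) * |z k v| ≤ |z (k + 1) v|

def Good (z : ℕ → (V →₀ ℤ)) : Prop := CaseI z ∨ CaseII z

theorem exists_mx (z : V →₀ ℤ) (hz : z ≠ 0) : ∃ v, IsMx z v := by
  have hne : z.support.Nonempty := Finsupp.support_nonempty_iff.2 hz
  refine ⟨z.support.max' hne, Finsupp.mem_support_iff.1 (z.support.max'_mem hne), ?_⟩
  intro u hu
  exact z.support.le_max' u (Finsupp.mem_support_iff.2 hu)

theorem IsMx.unique {z : V →₀ ℤ} {v w : V} (h1 : IsMx z v) (h2 : IsMx z w) : v = w :=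
  le_antisymm (h2.2 v h1.1) (h1.2 w h2.1)

variable [WellFoundedLT V]

theorem step (D : Set (V →₀ ℤ)) (hD : D.Infinite) :
    (∃ v, {d ∈ D | IsMx d v}.Infinite) ∨ ∃ z : ℕ → (V →₀ ℤ), (∀ k, z k ∈ D) ∧ CaseI z := by
  classical
  by_cases hfin : ∃ v, {d ∈ D | IsMx d v}.Infinite
  · exact Or.inl hfin
  right
  push Not at hfin
  have hD0 : (D \ {0}).Infinite := hD.sdiff (Set.finite_singleton 0)
  let f := hD0.natEmbedding
  have hmx : ∀ k, ∃ v, IsMx (f k).1 v := fun k => exists_mx _ (f k).2.2
  choose b hb using hmx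
  obtain ⟨g, hg⟩ := exists_increasing_or_nonincreasing_subseq (· < ·) b
  rcases hg with hg | hg
  · exact ⟨fun k => (f (g k)).1, fun k => (f (g k)).2.1, fun k => b (g k),
      fun m n hmn => hg m n hmn, fun k => hb (g k)⟩
  · exfalso
    obtain ⟨v0, ⟨n0, hn0⟩, hmin⟩ := wellFounded_lt.has_min (Set.range fun k => b (g k))
      (Set.range_nonempty _)
    have hconst : ∀ n, n0 ≤ n → b (g n) = v0 := by
      intro n hn
      rcases hn.eq_or_lt with rfl | hlt
      · exact hn0
      · have h1 := hg n0 n hlt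
        have h2 := hmin (b (g n)) ⟨n, rfl⟩
        have hn0' : b (g n0) = v0 := hn0
        rw [hn0'] at h1
        exact le_antisymm (not_lt.1 h1) (not_lt.1 h2)
    have hinf : Set.Infinite ((fun n => (f (g n)).1) '' Set.Ici n0) := by
      apply Set.Infinite.image
      · intro m _ n _ h
        exact g.injective (f.injective (Subtype.ext h))
      · exact Set.Ici_infinite n0
    refine hinf ((hfin v0).subset ?_)
    rintro d ⟨n, hn, rfl⟩
    refine ⟨(f (g n)).2.1, ?_⟩
    have := hb (g n)
    rw [hconst n hn] at this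
    exact this

/-- conclusion of the extraction lemma -/
def Concl (D : Set (V →₀ ℤ)) : Prop :=
  ∃ (z0 : V →₀ ℤ) (z : ℕ → (V →₀ ℤ)), (∀ k, z0 + z k ∈ D) ∧
    (∀ k u, z k u ≠ 0 → (z0 + z k) u ≠ 0) ∧ (∀ k u, z0 u ≠ 0 → (z0 + z k) u ≠ 0) ∧ Good z

theorem unbdd (A : Set ℤ) (hA : A.Infinite) (B : ℤ) : ∃ a ∈ A, B ≤ |a| := by
  by_contra h
  push Not at h
  apply hA
  refine (Set.finite_Icc (-B) B).subset ?_
  intro a ha
  have := h a ha
  rw [abs_lt] at this
  exact ⟨this.1.le, this.2.le⟩

theorem concl_of_max (v : V) : ∀ D : Set (V →₀ ℤ), D.Infinite → (∀ d ∈ D, IsMx d v) →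
    Concl D := by
  classical
  induction v using WellFoundedLT.induction with
  | ind v ih =>
  intro D hD hmax
  by_cases hval : ((fun d : V →₀ ℤ => d v) '' D).Infinite
  · -- growth case
    have hpick : ∀ B : ℤ, ∃ d ∈ D, B ≤ |d v| := by
      intro B
      obtain ⟨a, ⟨d, hd, rfl⟩, ha⟩ := unbdd _ hval B
      exact ⟨d, hd, ha⟩
    choose p hpD hp using hpick
    let z : ℕ → (V →₀ ℤ) := fun k => Nat.rec (p 0) (fun k prev => p (2 ^ (k + 4) * |prev v|)) k
    have hzs : ∀ k, z (k + 1) = p (2 ^ (k + 4) * |z k v|) := fun k => rfl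
    have hzD : ∀ k, z k ∈ D := by
      intro k
      cases k with
      | zero => exact hpD 0
      | succ k => rw [hzs]; exact hpD _
    refine ⟨0, z, fun k => by rw [zero_add]; exact hzD k, fun k u h => by rwa [zero_add],
      fun k u h => absurd rfl h, Or.inr ⟨v, fun k => hmax _ (hzD k), fun k => ?_⟩⟩
    rw [hzs]
    exact hp _
  · -- constant coefficient
    rw [Set.not_infinite] at hval
    have hex : ∃ e, {d ∈ D | d v = e}.Infinite := by
      by_contra h
      push Not at h
      apply hD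
      have hsub : D ⊆ ⋃ e ∈ ((fun d : V →₀ ℤ => d v) '' D), {d ∈ D | d v = e} := by
        intro d hd
        exact Set.mem_biUnion ⟨d, hd, rfl⟩ ⟨hd, rfl⟩
      exact (hval.biUnion fun e _ => h e).subset hsub
    obtain ⟨e, he⟩ := hex
    let D' := (fun d : V →₀ ℤ => d - Finsupp.single v e) '' {d ∈ D | d v = e}
    have hD' : D'.Infinite := he.image fun a _ b _ h => sub_left_injective h
    have hD'mem : ∀ d' ∈ D', d' + Finsupp.single v e ∈ D ∧ d' v = 0 ∧ ∀ u, d' u ≠ 0 → u < v := by
      rintro _ ⟨d, ⟨hd, hde⟩, rfl⟩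
      refine ⟨by simpa using hd, by simp [hde], ?_⟩
      intro u hu
      have huv : u ≠ v := by
        rintro rfl
        apply hu
        simp [hde]
      have h1 : d u ≠ 0 := by
        have : (d - Finsupp.single v e) u = d u := by
          rw [Finsupp.sub_apply, Finsupp.single_eq_of_ne huv, sub_zero]
        rwa [this] at hu
      exact lt_of_le_of_ne ((hmax d hd).2 u h1) huv
    have he0 : e ≠ 0 := by
      obtain ⟨d, hd, hde⟩ := he.nonempty
      rw [← hde]
      exact (hmax d hd).1
    rcases step D' hD' with ⟨v', hv'⟩ | ⟨z, hzD, hz⟩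
    · have hlt : v' < v := by
        obtain ⟨d, hd, hdm⟩ := hv'.nonempty
        exact (hD'mem d hd).2.2 v' hdm.1
      obtain ⟨z0, z, hz1, hz2, hz3, hz4⟩ := ih v' hlt _ hv' (fun d hd => hd.2)
      have key : ∀ k u, u ≠ v → (z0 + Finsupp.single v e + z k) u = (z0 + z k) u := by
        intro k u hu
        simp only [Finsupp.add_apply]
        rw [Finsupp.single_eq_of_ne hu]
        ring
      have keyv : ∀ k, (z0 + Finsupp.single v e + z k) v = e := by
        intro k
        have h1 := (hD'mem _ (hz1 k).1).2.1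
        simp only [Finsupp.add_apply] at h1 ⊢
        rw [Finsupp.single_eq_same]
        linarith
      refine ⟨z0 + Finsupp.single v e, z, ?_, ?_, ?_, hz4⟩
      · intro k
        have h1 := (hD'mem _ (hz1 k).1).1
        have h2 : z0 + Finsupp.single v e + z k = z0 + z k + Finsupp.single v e := by abel
        rw [h2]; exact h1
      · intro k u hu
        by_cases huv : u = v
        · subst huv; rw [keyv]; exact he0
        · rw [key k u huv]; exact hz2 k u hu
      · intro k u hu
        by_cases huv : u = v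
        · subst huv; rw [keyv]; exact he0
        · rw [key k u huv]
          apply hz3 k u
          rw [Finsupp.add_apply, Finsupp.single_eq_of_ne huv, add_zero] at hu
          exact hu
    · refine ⟨Finsupp.single v e, z, ?_, ?_, ?_, Or.inl hz⟩
      · intro k
        rw [add_comm]
        exact (hD'mem _ (hzD k)).1
      · intro k u hu
        have h1 := (hD'mem _ (hzD k)).2.2 u hu
        rw [Finsupp.add_apply, Finsupp.single_eq_of_ne h1.ne, zero_add]
        exact hu
      · intro k u hu
        have huv : u = v := by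
          by_contra h
          exact hu (Finsupp.single_eq_of_ne h)
        subst huv
        rw [Finsupp.add_apply, Finsupp.single_eq_same, (hD'mem _ (hzD k)).2.1, add_zero]
        exact he0

theorem concl (D : Set (V →₀ ℤ)) (hD : D.Infinite) : Concl D := by
  rcases step D hD with ⟨v, hv⟩ | ⟨z, hzD, hz⟩
  · obtain ⟨z0, z, hz1, hz2, hz3, hz4⟩ := concl_of_max v _ hv (fun d hd => hd.2)
    exact ⟨z0, z, fun k => (hz1 k).1, hz2, hz3, hz4⟩
  · exact ⟨0, z, fun k => by rw [zero_add]; exact hzD k, fun k u h => by rwa [zero_add],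
      fun k u h => absurd rfl h, Or.inl hz⟩

end Pool.Agent.Helper69.Dich
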