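import Mathlib
import Pool.Agent.Helper69.CC

set_option autoImplicit false
set_option linter.unusedSectionVars false
set_option linter.style.haveILetI false

namespace Pool.Agent.Helper69.Dual

open Topology Filter

/-- elements of the subgroup generated by a family of characters are finite products -/
theorem exists_prod {Γ I : Type} [CommGroup Γ] [TopologicalSpace Γ] (b : I → (Γ →ₜ* Circle))
    (χ : Γ →ₜ* Circle) (hχ : χ ∈ Subgroup.closure (Set.range b)) :
    ∃ h : I →₀ ℤ, ∀ x, χ x = h.prod (fun i n => (b i x) ^ n) := by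
  classical
  induction hχ using Subgroup.closure_induction with
  | mem χ hχ =>
    obtain ⟨i, rfl⟩ := hχ
    exact ⟨Finsupp.single i 1, fun x => by simp⟩
  | one => exact ⟨0, fun x => by simp⟩
  | mul χ ψ _ _ h1 h2 =>
    obtain ⟨h, hh⟩ := h1
    obtain ⟨k, hk⟩ := h2
    refine ⟨h + k, fun x => ?_⟩
    rw [Finsupp.prod_add_index' (fun i => zpow_zero _) (fun i m n => zpow_add _ _ _),
      ← hh, ← hk]
    rfl
  | inv χ _ h1 =>
    obtain ⟨h, hh⟩ := h1
    refine ⟨-h, fun x => ?_⟩
    have h2 : (χ⁻¹ : Γ →ₜ* Circle) x = (χ x)⁻¹ := rfl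
    rw [h2, hh]
    rw [Finsupp.prod_neg_index (fun i => zpow_zero _)]
    simp [Finsupp.prod, zpow_neg]

/-- A continuous character of a group whose topology is induced by a family of characters is
a finite product of members of the family. -/
theorem exists_prod_of_inducing {A I : Type} [CommGroup A] [TopologicalSpace A]
    (Φ : A →* (I → Circle)) (hΦ : IsInducing Φ) (ψ : A →ₜ* Circle) :
    ∃ h : I →₀ ℤ, ∀ a, ψ a = h.prod (fun i n => (Φ a i) ^ n) := by
  classical
  let Θ : A →* (I → Circle) × Circle := Φ.prod ψ.toMonoidHom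
  let K : Subgroup ((I → Circle) × Circle) := Θ.range.topologicalClosure
  have hKc : IsClosed (K : Set ((I → Circle) × Circle)) := Subgroup.isClosed_topologicalClosure _
  haveI : CompactSpace K := isCompact_iff_compactSpace.1 hKc.isCompact
  let b : I → (K →ₜ* Circle) := fun i =>
    ⟨((Pi.evalMonoidHom (fun _ : I => Circle) i).comp
      (MonoidHom.fst (I → Circle) Circle)).comp K.subtype, by
        change Continuous (fun k : K => k.1.1 i)
        fun_prop⟩
  let p : K →ₜ* Circle :=
    ⟨(MonoidHom.snd (I → Circle) Circle).comp K.subtype, by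
        change Continuous (fun k : K => k.1.2)
        fun_prop⟩
  have hone : ∀ z : Circle, ((1 : I → Circle), z) ∈ K → z = 1 := by
    intro z hz
    have hz'' : (comap Θ (𝓝 ((1 : I → Circle), z))).NeBot := by
      rw [comap_neBot_iff]
      intro t ht
      have hz3 : ((1 : I → Circle), z) ∈ closure (Set.range Θ) := hz
      rw [mem_closure_iff_nhds] at hz3
      obtain ⟨y, hy, ⟨a, rfl⟩⟩ := hz3 t ht
      exact ⟨a, hy⟩
    have h1 : Tendsto Θ (comap Θ (𝓝 ((1 : I → Circle), z))) (𝓝 ((1 : I → Circle), z)) :=
      tendsto_comap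
    have h2 : Tendsto Φ (comap Θ (𝓝 ((1 : I → Circle), z))) (𝓝 (1 : I → Circle)) :=
      (continuous_fst.tendsto _).comp h1
    have h3 : Tendsto ψ (comap Θ (𝓝 ((1 : I → Circle), z))) (𝓝 z) :=
      (continuous_snd.tendsto _).comp h1
    have h4 : comap Θ (𝓝 ((1 : I → Circle), z)) ≤ 𝓝 (1 : A) := by
      rw [hΦ.nhds_eq_comap, map_one]
      exact tendsto_iff_comap.1 h2
    have h5 : Tendsto ψ (comap Θ (𝓝 ((1 : I → Circle), z))) (𝓝 (ψ 1)) :=
      (ψ.continuous_toFun.tendsto 1).mono_left h4
    rw [map_one] at h5
    exact tendsto_nhds_unique h3 h5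
  have hsep : ∀ x y : K, x ≠ y → ∃ χ ∈ Subgroup.closure (Set.range b), χ x ≠ χ y := by
    intro x y hxy
    by_contra hcon
    push Not at hcon
    apply hxy
    have hfst : x.1.1 = y.1.1 := by
      funext i
      exact hcon (b i) (Subgroup.subset_closure ⟨i, rfl⟩)
    have hm : (x / y).1 ∈ K := (x / y).2
    have hx : (x / y).1 = ((1 : I → Circle), x.1.2 / y.1.2) := by
      apply Prod.ext
      · change x.1.1 / y.1.1 = 1
        rw [hfst, div_self']
      · rfl
    rw [hx] at hm
    have h1 := hone _ hm
    apply Subtype.ext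
    exact Prod.ext hfst (div_eq_one.1 h1)
  have hp := CC.mem_of_separates (Subgroup.closure (Set.range b)) hsep p
  obtain ⟨h, hh⟩ := exists_prod b p hp
  refine ⟨h, fun a => ?_⟩
  have ha : Θ a ∈ K := subset_closure ⟨a, rfl⟩
  exact hh ⟨Θ a, ha⟩

/-- pointwise topology on the space of continuous maps when compact sets are finite -/
theorem inducing_eval {A Y : Type} [TopologicalSpace A] [TopologicalSpace Y]
    (hfin : ∀ K : Set A, IsCompact K → K.Finite) :
    IsInducing (fun (f : C(A, Y)) (a : A) => f a) := by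
  constructor
  apply le_antisymm
  · rw [← continuous_iff_le_induced]
    exact continuous_pi fun a => continuous_eval_const a
  · rw [ContinuousMap.compactOpen_eq]
    apply le_generateFrom
    rintro s ⟨K, hK, U, hU, rfl⟩
    have hKf := hfin K hK
    have : {f : C(A, Y) | Set.MapsTo f K U} =
        (fun (f : C(A, Y)) (a : A) => f a) ⁻¹' (K.pi fun _ => U) := by
      ext f
      simp [Set.MapsTo, Set.mem_pi]
    change IsOpen[TopologicalSpace.induced (fun (f : C(A, Y)) (a : A) => f a)
      Pi.topologicalSpace] {f : C(A, Y) | Set.MapsTo f K U}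
    rw [this]
    exact isOpen_induced (isOpen_set_pi hKf fun _ _ => hU)

theorem dual_inducing {A : Type} [CommGroup A] [TopologicalSpace A] [IsTopologicalGroup A]
    (hfin : ∀ K : Set A, IsCompact K → K.Finite) :
    IsInducing (fun (f : PontryaginDual A) (a : A) => f a) := by
  have h1 : IsInducing (fun f : A →ₜ* Circle => (f : C(A, Circle))) :=
    ContinuousMonoidHom.isInducing_toContinuousMap A Circle
  exact (inducing_eval hfin).comp h1

/-- evaluation homomorphism -/
noncomputable def evHom (A : Type) [CommGroup A] [TopologicalSpace A] [IsTopologicalGroup A] :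
    PontryaginDual A →* (A → Circle) where
  toFun f a := f a
  map_one' := rfl
  map_mul' _ _ := rfl

end Pool.Agent.Helper69.Dual
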