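import Mathlib

set_option autoImplicit false

open scoped BigOperators

namespace Pool.Agent.Helper69.Fd

/-- the generators `y (1, x, …, x^{k-1})`, `s = (x, y)` -/
def gen (p k : ℕ) (s : ZMod p × ZMod p) : Fin k → ZMod p := fun i => s.2 * s.1 ^ (i : ℕ)

section avgl2

variable {V : Type*} [AddCommGroup V] [Fintype V]

open ComplexConjugate in
theorem avg_parsevalC [DecidableEq V] (f : V → ℂ) :
    ∑ ψ : AddChar V ℂ, (∑ v, f v * ψ v) * conj (∑ v, f v * ψ v) =
      (Fintype.card V : ℂ) * ∑ v, f v * conj (f v) := by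
  have h1 : ∀ ψ : AddChar V ℂ, (∑ v, f v * ψ v) * conj (∑ v, f v * ψ v) =
      ∑ v, ∑ w, f v * conj (f w) * ψ (v - w) := by
    intro ψ
    rw [map_sum, Finset.sum_mul_sum]
    refine Finset.sum_congr rfl fun v _ => Finset.sum_congr rfl fun w _ => ?_
    rw [map_mul, sub_eq_add_neg, AddChar.map_add_eq_mul, AddChar.map_neg_eq_conj]
    ring
  simp_rw [h1]
  rw [Finset.sum_comm]
  rw [Finset.mul_sum]
  refine Finset.sum_congr rfl fun v _ => ?_
  rw [Finset.sum_comm]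
  rw [Finset.sum_eq_single v]
  · rw [← Finset.mul_sum, AddChar.sum_apply_eq_ite]
    simp
    ring
  · intro w _ hw
    rw [← Finset.mul_sum, AddChar.sum_apply_eq_ite, if_neg (sub_ne_zero.2 (Ne.symm hw)), mul_zero]
  · simp

theorem avg_parseval (f : V → ℂ) :
    ∑ ψ : AddChar V ℂ, ‖∑ v, f v * ψ v‖ ^ 2 = (Fintype.card V : ℝ) * ∑ v, ‖f v‖ ^ 2 := by
  classical
  have h := avg_parsevalC f
  simp only [Complex.mul_conj'] at h
  exact_mod_cast h

end avgl2

theorem avg_mult (p k : ℕ) [Fact p.Prime] (f : (Fin k → ZMod p) → ℂ)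
    (ψ : AddChar (Fin k → ZMod p) ℂ) :
    ∑ v, (((p : ℂ) ^ 2)⁻¹ * ∑ s : ZMod p × ZMod p, f (v + gen p k s)) * ψ v =
      (((p : ℂ) ^ 2)⁻¹ * ∑ s : ZMod p × ZMod p, ψ (-gen p k s)) * ∑ v, f v * ψ v := by
  have h1 : ∀ s : ZMod p × ZMod p, ∑ v, f (v + gen p k s) * ψ v =
      ψ (-gen p k s) * ∑ v, f v * ψ v := by
    intro s
    rw [← Equiv.sum_comp (Equiv.subRight (gen p k s)) (fun v => f (v + gen p k s) * ψ v)]
    rw [Finset.mul_sum]
    refine Finset.sum_congr rfl fun v _ => ?_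
    simp only [Equiv.subRight_apply, sub_add_cancel]
    rw [sub_eq_add_neg, AddChar.map_add_eq_mul]
    ring
  have h2 : ∀ v, (((p : ℂ) ^ 2)⁻¹ * ∑ s : ZMod p × ZMod p, f (v + gen p k s)) * ψ v =
      ((p : ℂ) ^ 2)⁻¹ * ∑ s : ZMod p × ZMod p, f (v + gen p k s) * ψ v := by
    intro v
    rw [mul_assoc, Finset.sum_mul]
  simp_rw [h2]
  rw [← Finset.mul_sum, Finset.sum_comm]
  simp_rw [h1]
  rw [← Finset.sum_mul, mul_assoc]

/-- the additive character `y ↦ ψ(-y m(x))` -/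
noncomputable def lineChar (p k : ℕ) (ψ : AddChar (Fin k → ZMod p) ℂ) (x : ZMod p) :
    AddChar (ZMod p) ℂ where
  toFun y := ψ (-gen p k (x, y))
  map_zero_eq_one' := by
    have : gen p k (x, 0) = 0 := by
      funext i; simp [gen]
    rw [this]; simp
  map_add_eq_mul' := by
    intro y z
    have : -gen p k (x, y + z) = -gen p k (x, y) + -gen p k (x, z) := by
      funext i; simp [gen]; ring
    rw [this, AddChar.map_add_eq_mul]

theorem map_sum_one {A ι : Type*} [AddCommGroup A] (ψ : AddChar A ℂ) (s : Finset ι) (g : ι → A)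
    (h : ∀ i ∈ s, ψ (g i) = 1) : ψ (∑ i ∈ s, g i) = 1 := by
  classical
  induction s using Finset.induction_on with
  | empty => simp
  | insert a s ha ih =>
    rw [Finset.sum_insert ha, AddChar.map_add_eq_mul, h a (Finset.mem_insert_self a s),
      ih fun i hi => h i (Finset.mem_insert_of_mem hi), one_mul]

theorem lineChar_card (p k : ℕ) [Fact p.Prime] (ψ : AddChar (Fin k → ZMod p) ℂ) (hψ : ψ ≠ 1)
    [DecidablePred fun x : ZMod p => lineChar p k ψ x = 1] :
    (Finset.univ.filter fun x : ZMod p => lineChar p k ψ x = 1).card ≤ k := by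
  classical
  by_contra hlt
  push Not at hlt
  apply hψ
  obtain ⟨t, ht, htc⟩ := Finset.exists_subset_card_eq hlt.le
  let e : Fin k ≃ t := (Finset.equivFinOfCardEq htc).symm
  let E : Fin k → ZMod p := fun i => (e i : ZMod p)
  have hE : Function.Injective E := Subtype.coe_injective.comp e.injective
  have hdet : (Matrix.vandermonde E).det ≠ 0 := Matrix.det_vandermonde_ne_zero_iff.2 hE
  have hunit : IsUnit (Matrix.vandermonde E).det := isUnit_iff_ne_zero.2 hdet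
  ext v
  have hv : v = ∑ i, -gen p k (E i, -(Matrix.vecMul v (Matrix.vandermonde E)⁻¹) i) := by
    have h1 : Matrix.vecMul (Matrix.vecMul v (Matrix.vandermonde E)⁻¹) (Matrix.vandermonde E) = v := by
      rw [Matrix.vecMul_vecMul, Matrix.nonsing_inv_mul _ hunit, Matrix.vecMul_one]
    conv_lhs => rw [← h1]
    funext j
    rw [Finset.sum_apply]
    simp only [Matrix.vecMul, dotProduct, gen, Matrix.vandermonde_apply, Pi.neg_apply]
    refine Finset.sum_congr rfl fun i _ => ?_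
    ring
  rw [hv, AddChar.one_apply]
  refine map_sum_one ψ _ _ fun i _ => ?_
  have hmem : (E i) ∈ Finset.univ.filter fun x : ZMod p => lineChar p k ψ x = 1 := ht (e i).2
  have h2 : lineChar p k ψ (E i) = 1 := (Finset.mem_filter.1 hmem).2
  have h3 := DFunLike.congr_fun h2 (-(Matrix.vecMul v (Matrix.vandermonde E)⁻¹) i)
  exact h3

theorem mult_bound (p k : ℕ) [Fact p.Prime] (ψ : AddChar (Fin k → ZMod p) ℂ) (hψ : ψ ≠ 1) :
    ‖((p : ℂ) ^ 2)⁻¹ * ∑ s : ZMod p × ZMod p, ψ (-gen p k s)‖ ≤ (k : ℝ) / p := by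
  classical
  have hp : (0 : ℝ) < p := by exact_mod_cast (Fact.out : p.Prime).pos
  have h1 : ∑ s : ZMod p × ZMod p, ψ (-gen p k s) =
      ∑ x : ZMod p, if lineChar p k ψ x = 1 then (p : ℂ) else 0 := by
    rw [Fintype.sum_prod_type]
    refine Finset.sum_congr rfl fun x _ => ?_
    have h := AddChar.sum_eq_ite (lineChar p k ψ x)
    rw [ZMod.card] at h
    have h' : ∑ y : ZMod p, ψ (-gen p k (x, y)) = ∑ y : ZMod p, (lineChar p k ψ x) y := rfl
    rw [h', h]
    rfl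
  rw [h1, ← Finset.sum_filter, Finset.sum_const, nsmul_eq_mul]
  have hc := lineChar_card p k ψ hψ
  rw [norm_mul, norm_mul, norm_inv, norm_pow]
  simp only [Complex.norm_natCast]
  have hc' : (((Finset.univ.filter fun x : ZMod p => lineChar p k ψ x = 1).card : ℕ) : ℝ) ≤ k := by
    exact_mod_cast hc
  calc ((p : ℝ) ^ 2)⁻¹ * (((Finset.univ.filter fun x : ZMod p => lineChar p k ψ x = 1).card : ℕ) * (p : ℝ))
      ≤ ((p : ℝ) ^ 2)⁻¹ * ((k : ℝ) * p) := by gcongr
    _ = (k : ℝ) / p := by field_simp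

/-- TARGET: averaging over the generators contracts mean zero functions in `ℓ²`. -/
theorem avg_l2 (p k : ℕ) [Fact p.Prime] (f : (Fin k → ZMod p) → ℂ) (hf : ∑ v, f v = 0) :
    ∑ v, ‖((p : ℂ) ^ 2)⁻¹ * ∑ s : ZMod p × ZMod p, f (v + gen p k s)‖ ^ 2 ≤
      ((k : ℝ) / p) ^ 2 * ∑ v, ‖f v‖ ^ 2 := by
  classical
  have hcard : (0 : ℝ) < Fintype.card (Fin k → ZMod p) := by
    exact_mod_cast Fintype.card_pos
  have hP1 := avg_parseval f
  have hP2 := avg_parseval (fun v => ((p : ℂ) ^ 2)⁻¹ * ∑ s : ZMod p × ZMod p, f (v + gen p k s))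
  have key : ∀ ψ : AddChar (Fin k → ZMod p) ℂ,
      ‖∑ v, (((p : ℂ) ^ 2)⁻¹ * ∑ s : ZMod p × ZMod p, f (v + gen p k s)) * ψ v‖ ^ 2 ≤
        ((k : ℝ) / p) ^ 2 * ‖∑ v, f v * ψ v‖ ^ 2 := by
    intro ψ
    rw [avg_mult, norm_mul, mul_pow]
    by_cases hψ : ψ = 1
    · subst hψ
      simp only [AddChar.one_apply, mul_one, hf, norm_zero]
      simp
    · gcongr
      exact mult_bound p k ψ hψ
  have hsum := Finset.sum_le_sum fun ψ (_ : ψ ∈ (Finset.univ : Finset (AddChar (Fin k → ZMod p) ℂ))) => key ψ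
  rw [← Finset.mul_sum, hP1] at hsum
  rw [hP2] at hsum
  have h3 : (Fintype.card (Fin k → ZMod p) : ℝ) * ∑ v, ‖((p : ℂ) ^ 2)⁻¹ * ∑ s : ZMod p × ZMod p, f (v + gen p k s)‖ ^ 2
      ≤ (Fintype.card (Fin k → ZMod p) : ℝ) * (((k : ℝ) / p) ^ 2 * ∑ v, ‖f v‖ ^ 2) := by
    calc _ ≤ _ := hsum
      _ = _ := by ring
  exact le_of_mul_le_mul_left h3 hcard

end Pool.Agent.Helper69.Fd
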