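import Mathlib

set_option autoImplicit false

/-!
# Finite complexes of finite dimensional `ℓ¹` spaces
-/

open scoped BigOperators

namespace Pool.Agent.Helper69.Fd

/-- the `ℓ¹` norm -/
noncomputable def n1 {𝕜 : Type} [RCLike 𝕜] {S : Type} [Fintype S] (f : S → 𝕜) : ℝ := ∑ s, ‖f s‖

/-- finite complexes of finite dimensional `ℓ¹` spaces -/
structure FC (𝕜 : Type) [RCLike 𝕜] where
  /-- the index sets -/
  S : ℕ → Type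
  [ft : ∀ j, Fintype (S j)]
  /-- the differentials -/
  D : ∀ j, (S (j + 1) → 𝕜) →ₗ[𝕜] (S j → 𝕜)

attribute [instance] FC.ft

/-- exactness with constants -/
structure FC.Good {𝕜 : Type} [RCLike 𝕜] (K : FC 𝕜) (n : ℕ) (B C : ℝ) : Prop where
  ne : Nonempty (K.S n)
  empty : ∀ j, n < j → IsEmpty (K.S j)
  bdd : ∀ j y, n1 (K.D j y) ≤ B * n1 y
  sq : ∀ j y, K.D j (K.D (j + 1) y) = 0
  ex : ∀ j z, K.D j z = 0 → ∃ y, K.D (j + 1) y = z ∧ n1 y ≤ C * n1 z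
  op : ∀ y, ∃ y', K.D 0 y' = K.D 0 y ∧ n1 y' ≤ C * n1 (K.D 0 y)

/-- the certificate -/
def FC.Cert {𝕜 : Type} [RCLike 𝕜] (K : FC 𝕜) (m : ℕ) (τ : ℝ) : Prop :=
  ∃ (θ : K.S (m + 1) → (K.S (m + 1) → 𝕜)) (c : K.S m → ℝ), (∀ t, θ t t = 1) ∧
    (∀ t s, ‖θ t s‖ ≤ 1) ∧ (∀ t u, ‖K.D m (θ t) u‖ ≤ c u) ∧
    ∑ u, c u ≤ τ * Fintype.card (K.S (m + 1))

end Pool.Agent.Helper69.Fd
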