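import Mathlib
import Pool.Agent.Helper69.FdComplex

set_option autoImplicit false

/-!
# The mapping cone of a matrix tensored with a complex
-/

open scoped BigOperators

namespace Pool.Agent.Helper69.Fd

variable {𝕜 : Type} [RCLike 𝕜]

section n1

variable {A B V : Type} [Fintype A] [Fintype B] [Fintype V]

theorem n1_nonneg (f : A → 𝕜) : 0 ≤ n1 f := Finset.sum_nonneg fun _ _ => norm_nonneg _

theorem n1_add (f g : A → 𝕜) : n1 (f + g) ≤ n1 f + n1 g := by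
  unfold n1
  rw [← Finset.sum_add_distrib]
  exact Finset.sum_le_sum fun s _ => norm_add_le _ _

theorem n1_sub (f g : A → 𝕜) : n1 (f - g) ≤ n1 f + n1 g := by
  unfold n1
  rw [← Finset.sum_add_distrib]
  exact Finset.sum_le_sum fun s _ => norm_sub_le _ _

theorem n1_neg (f : A → 𝕜) : n1 (-f) = n1 f := by
  unfold n1
  exact Finset.sum_congr rfl fun s _ => norm_neg _

theorem n1_zero : n1 (0 : A → 𝕜) = 0 := by
  unfold n1
  simp

theorem n1_sum (f : A ⊕ B → 𝕜) :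
    n1 f = n1 (fun a => f (Sum.inl a)) + n1 (fun b => f (Sum.inr b)) := by
  unfold n1
  rw [Fintype.sum_sum_type]

theorem n1_prod (f : V × A → 𝕜) : n1 f = ∑ v, n1 (fun a => f (v, a)) := by
  unfold n1
  rw [Fintype.sum_prod_type]

/-- the matrix `T` acting on functions with values in a module -/
theorem matrix_bound {U X : Type} [Fintype U] [NormedAddCommGroup X] [NormedSpace 𝕜 X]
    (T : U → V → 𝕜) {τ : ℝ} (hT : ∀ v, ∑ u, ‖T u v‖ ≤ τ) (f : V → X) :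
    ∑ u, ‖∑ v, T u v • f v‖ ≤ τ * ∑ v, ‖f v‖ := by
  calc ∑ u, ‖∑ v, T u v • f v‖ ≤ ∑ u, ∑ v, ‖T u v‖ * ‖f v‖ := by
        apply Finset.sum_le_sum
        intro u _
        refine (norm_sum_le _ _).trans (Finset.sum_le_sum fun v _ => ?_)
        rw [norm_smul]
    _ = ∑ v, (∑ u, ‖T u v‖) * ‖f v‖ := by
        rw [Finset.sum_comm]
        exact Finset.sum_congr rfl fun v _ => by rw [Finset.sum_mul]
    _ ≤ ∑ v, τ * ‖f v‖ := Finset.sum_le_sum fun v _ =>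
        mul_le_mul_of_nonneg_right (hT v) (norm_nonneg _)
    _ = _ := by rw [Finset.mul_sum]

end n1

section ops

variable {A A' V U : Type} [Fintype A] [Fintype A'] [Fintype V] [Fintype U]

/-- `T ⊗ 1` -/
noncomputable def tens (T : U → V → 𝕜) (A : Type) : (V × A → 𝕜) →ₗ[𝕜] (U × A → 𝕜) where
  toFun f := fun x => ∑ v, T x.1 v * f (v, x.2)
  map_add' f g := by
    funext x
    simp only [Pi.add_apply, mul_add, Finset.sum_add_distrib]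
  map_smul' a f := by
    funext x
    simp only [Pi.smul_apply, smul_eq_mul, RingHom.id_apply, Finset.mul_sum]
    exact Finset.sum_congr rfl fun v _ => by ring

omit [Fintype A] [Fintype U] in
theorem tens_apply (T : U → V → 𝕜) (f : V × A → 𝕜) (x : U × A) :
    tens T A f x = ∑ v, T x.1 v * f (v, x.2) := rfl

/-- `1 ⊗ D` -/
def tid (V : Type) (D : (A → 𝕜) →ₗ[𝕜] (A' → 𝕜)) : (V × A → 𝕜) →ₗ[𝕜] (V × A' → 𝕜) where
  toFun f := fun x => D (fun a => f (x.1, a)) x.2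
  map_add' f g := by
    funext x
    have : (fun a => (f + g) (x.1, a)) = (fun a => f (x.1, a)) + (fun a => g (x.1, a)) := rfl
    rw [this, map_add]
    rfl
  map_smul' c f := by
    funext x
    have : (fun a => (c • f) (x.1, a)) = c • (fun a => f (x.1, a)) := rfl
    rw [this, map_smul]
    rfl

omit [Fintype A] [Fintype A'] [Fintype V] in
theorem tid_apply (D : (A → 𝕜) →ₗ[𝕜] (A' → 𝕜)) (f : V × A → 𝕜) (x : V × A') :
    tid V D f x = D (fun a => f (x.1, a)) x.2 := rfl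

omit [Fintype A] [Fintype A'] [Fintype V] in
theorem tid_row (D : (A → 𝕜) →ₗ[𝕜] (A' → 𝕜)) (f : V × A → 𝕜) (v : V) :
    (fun a => tid V D f (v, a)) = D (fun a => f (v, a)) := rfl

omit [Fintype A] [Fintype U] in
theorem tens_row (T : U → V → 𝕜) (f : V × A → 𝕜) (u : U) :
    (fun a => tens T A f (u, a)) = ∑ v, T u v • (fun a => f (v, a)) := by
  funext a
  rw [tens_apply, Finset.sum_apply]
  rfl

omit [Fintype A] [Fintype A'] [Fintype U] in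
/-- the two operators commute -/
theorem tens_tid (T : U → V → 𝕜) (D : (A → 𝕜) →ₗ[𝕜] (A' → 𝕜)) (f : V × A → 𝕜) :
    tid U D (tens T A f) = tens T A' (tid V D f) := by
  funext x
  rw [tid_apply, tens_row, map_sum, Finset.sum_apply, tens_apply]
  apply Finset.sum_congr rfl
  intro v _
  rw [map_smul]
  rfl

theorem n1_tens (T : U → V → 𝕜) {τ : ℝ} (hT : ∀ v, ∑ u, ‖T u v‖ ≤ τ) (f : V × A → 𝕜) :
    n1 (tens T A f) ≤ τ * n1 f := by
  have h1 : n1 (tens T A f) = ∑ a, ∑ u, ‖∑ v, T u v • f (v, a)‖ := by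
    unfold n1
    rw [Fintype.sum_prod_type, Finset.sum_comm]
    rfl
  have h2 : n1 f = ∑ a, ∑ v, ‖f (v, a)‖ := by
    unfold n1
    rw [Fintype.sum_prod_type, Finset.sum_comm]
  rw [h1, h2, Finset.mul_sum]
  exact Finset.sum_le_sum fun a _ => matrix_bound T hT (fun v => f (v, a))

theorem n1_tid (D : (A → 𝕜) →ₗ[𝕜] (A' → 𝕜)) {B : ℝ} (hD : ∀ y, n1 (D y) ≤ B * n1 y)
    (f : V × A → 𝕜) : n1 (tid V D f) ≤ B * n1 f := by
  rw [n1_prod, n1_prod, Finset.mul_sum]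
  exact Finset.sum_le_sum fun v _ => hD (fun a => f (v, a))

/-- solving an equation rowwise -/
theorem tid_solve (D : (A → 𝕜) →ₗ[𝕜] (A' → 𝕜)) {C : ℝ} (z : V × A' → 𝕜)
    (h : ∀ v, ∃ y, D y = (fun a => z (v, a)) ∧ n1 y ≤ C * n1 (fun a => z (v, a))) :
    ∃ y, tid V D y = z ∧ n1 y ≤ C * n1 z := by
  choose y hy hn using h
  refine ⟨fun x => y x.1 x.2, ?_, ?_⟩
  · funext x
    rw [tid_apply]
    exact congrFun (hy x.1) x.2
  · rw [n1_prod, n1_prod, Finset.mul_sum]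
    exact Finset.sum_le_sum fun v _ => hn v

end ops

/-- the finite dimensional cokernel with the quotient norm -/
theorem exists_coker {A A' : Type} [Fintype A] [Fintype A'] (D : (A → 𝕜) →ₗ[𝕜] (A' → 𝕜)) :
    ∃ (X : Type) (_ : NormedAddCommGroup X) (_ : NormedSpace 𝕜 X) (_ : FiniteDimensional 𝕜 X)
      (π : (A' → 𝕜) →ₗ[𝕜] X), (∀ x, π x = 0 ↔ ∃ y, D y = x) ∧ (∀ x, ‖π x‖ ≤ n1 x) ∧
      ∀ x, ∃ x', π x' = π x ∧ n1 x' ≤ 2 * ‖π x‖ := by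
  let E : Type := PiLp 1 (fun _ : A' => 𝕜)
  let e : E ≃ₗ[𝕜] (A' → 𝕜) := WithLp.linearEquiv 1 𝕜 (A' → 𝕜)
  let N : Submodule 𝕜 E := (LinearMap.range D).map (e.symm : (A' → 𝕜) →ₗ[𝕜] E)
  have hN : IsClosed (N : Set E) := N.closed_of_finiteDimensional
  have hnorm : ∀ x : A' → 𝕜, ‖e.symm x‖ = n1 x := by
    intro x
    have h1 := PiLp.norm_eq_sum (p := 1) (by simp) (e.symm x)
    rw [h1]
    simp only [ENNReal.toReal_one, Real.rpow_one, one_div_one]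
    rfl
  have : IsClosed (N : Set E) := hN
  refine ⟨E ⧸ N, inferInstance, inferInstance, inferInstance,
    (N.mkQ : E →ₗ[𝕜] E ⧸ N).comp (e.symm : (A' → 𝕜) →ₗ[𝕜] E), fun x => ?_, fun x => ?_,
    fun x => ?_⟩
  · rw [LinearMap.comp_apply, Submodule.mkQ_apply, Submodule.Quotient.mk_eq_zero]
    constructor
    · rintro ⟨y, ⟨z, rfl⟩, hz⟩
      exact ⟨z, e.symm.injective hz⟩
    · rintro ⟨y, rfl⟩
      exact ⟨D y, ⟨y, rfl⟩, rfl⟩
  · rw [LinearMap.comp_apply, Submodule.mkQ_apply, ← hnorm]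
    exact Submodule.Quotient.norm_mk_le _ _
  · by_cases h : ‖((N.mkQ : E →ₗ[𝕜] E ⧸ N).comp (e.symm : (A' → 𝕜) →ₗ[𝕜] E)) x‖ = 0
    · refine ⟨0, ?_, ?_⟩
      · rw [map_zero, eq_comm, ← norm_eq_zero]
        exact h
      · rw [h, n1_zero, mul_zero]
    · have h2 : 0 < ‖((N.mkQ : E →ₗ[𝕜] E ⧸ N).comp (e.symm : (A' → 𝕜) →ₗ[𝕜] E)) x‖ :=
        lt_of_le_of_ne (norm_nonneg _) (Ne.symm h)
      obtain ⟨m, hm1, hm2⟩ := Submodule.Quotient.norm_mk_lt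
        (((N.mkQ : E →ₗ[𝕜] E ⧸ N).comp (e.symm : (A' → 𝕜) →ₗ[𝕜] E)) x) h2
      refine ⟨e m, ?_, ?_⟩
      · rw [LinearMap.comp_apply]
        show N.mkQ (e.symm (e m)) = _
        rw [e.symm_apply_apply]
        exact hm1
      · rw [← hnorm, e.symm_apply_apply]
        linarith

/-! ### the cone -/

section cone

variable {A0 A1 A2 A3 V U : Type} [Fintype A0] [Fintype A1] [Fintype A2] [Fintype A3] [Fintype V]
  [Fintype U]

/-- the bottom differential of the cone -/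
noncomputable def coneD0 (T : U → V → 𝕜) (D : (A1 → 𝕜) →ₗ[𝕜] (A0 → 𝕜)) :
    ((V × A0) ⊕ (U × A1) → 𝕜) →ₗ[𝕜] (U × A0 → 𝕜) :=
  (tens T A0).comp (LinearMap.funLeft 𝕜 𝕜 Sum.inl) + (tid U D).comp (LinearMap.funLeft 𝕜 𝕜 Sum.inr)

/-- the other differentials of the cone -/
noncomputable def coneDs (T : U → V → 𝕜) (D' : (A1 → 𝕜) →ₗ[𝕜] (A0 → 𝕜))
    (D : (A2 → 𝕜) →ₗ[𝕜] (A1 → 𝕜)) :
    ((V × A1) ⊕ (U × A2) → 𝕜) →ₗ[𝕜] ((V × A0) ⊕ (U × A1) → 𝕜) :=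
  (LinearEquiv.sumArrowLequivProdArrow (V × A0) (U × A1) 𝕜 𝕜).symm.toLinearMap.comp
    (LinearMap.prod (-(tid V D').comp (LinearMap.funLeft 𝕜 𝕜 Sum.inl))
      ((tens T A1).comp (LinearMap.funLeft 𝕜 𝕜 Sum.inl) +
        (tid U D).comp (LinearMap.funLeft 𝕜 𝕜 Sum.inr)))

omit [Fintype A0] [Fintype A1] [Fintype U] in
theorem coneD0_elim (T : U → V → 𝕜) (D : (A1 → 𝕜) →ₗ[𝕜] (A0 → 𝕜)) (a : V × A0 → 𝕜)
    (b : U × A1 → 𝕜) : coneD0 T D (Sum.elim a b) = tens T A0 a + tid U D b := rfl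

omit [Fintype A0] [Fintype A1] [Fintype A2] [Fintype U] in
theorem coneDs_elim (T : U → V → 𝕜) (D' : (A1 → 𝕜) →ₗ[𝕜] (A0 → 𝕜))
    (D : (A2 → 𝕜) →ₗ[𝕜] (A1 → 𝕜)) (a : V × A1 → 𝕜)
    (b : U × A2 → 𝕜) :
    coneDs T D' D (Sum.elim a b) = Sum.elim (-tid V D' a) (tens T A1 a + tid U D b) := by
  funext x
  rcases x with x | x <;> rfl

theorem exists_elim {A B : Type} (f : A ⊕ B → 𝕜) : ∃ a b, f = Sum.elim a b :=
  ⟨fun x => f (Sum.inl x), fun x => f (Sum.inr x), by funext x; rcases x with x | x <;> rfl⟩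

theorem n1_elim {A B : Type} [Fintype A] [Fintype B] (a : A → 𝕜) (b : B → 𝕜) :
    n1 (Sum.elim a b) = n1 a + n1 b := by
  rw [n1_sum]
  rfl

theorem cone_bdd0 (T : U → V → 𝕜) (hT : ∀ v, ∑ u, ‖T u v‖ ≤ 3)
    (D : (A1 → 𝕜) →ₗ[𝕜] (A0 → 𝕜)) {B : ℝ} (hB : 0 ≤ B) (hD : ∀ y, n1 (D y) ≤ B * n1 y)
    (f : (V × A0) ⊕ (U × A1) → 𝕜) : n1 (coneD0 T D f) ≤ (B + 3) * n1 f := by
  obtain ⟨a, b, rfl⟩ := exists_elim f
  rw [coneD0_elim, n1_elim]
  have h1 := n1_add (tens T A0 a) (tid U D b)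
  have h2 := n1_tens (A := A0) T hT a
  have h3 := n1_tid (V := U) D hD b
  have h4 := n1_nonneg a
  have h5 := n1_nonneg b
  nlinarith [mul_nonneg hB h4, mul_nonneg hB h5]

theorem cone_bdds (T : U → V → 𝕜) (hT : ∀ v, ∑ u, ‖T u v‖ ≤ 3)
    (D' : (A1 → 𝕜) →ₗ[𝕜] (A0 → 𝕜)) (D : (A2 → 𝕜) →ₗ[𝕜] (A1 → 𝕜)) {B : ℝ} (hB : 0 ≤ B)
    (hD' : ∀ y, n1 (D' y) ≤ B * n1 y) (hD : ∀ y, n1 (D y) ≤ B * n1 y)
    (f : (V × A1) ⊕ (U × A2) → 𝕜) : n1 (coneDs T D' D f) ≤ (B + 3) * n1 f := by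
  obtain ⟨a, b, rfl⟩ := exists_elim f
  rw [coneDs_elim, n1_elim, n1_elim, n1_neg]
  have h1 := n1_add (tens T A1 a) (tid U D b)
  have h2 := n1_tens (A := A1) T hT a
  have h3 := n1_tid (V := U) D hD b
  have h6 := n1_tid (V := V) D' hD' a
  have h4 := n1_nonneg a
  have h5 := n1_nonneg b
  nlinarith [mul_nonneg hB h4, mul_nonneg hB h5]

omit [Fintype A1] [Fintype A0] [Fintype A2] [Fintype V] in
theorem tid_sq (D' : (A1 → 𝕜) →ₗ[𝕜] (A0 → 𝕜)) (D : (A2 → 𝕜) →ₗ[𝕜] (A1 → 𝕜))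
    (h : ∀ y, D' (D y) = 0) (f : V × A2 → 𝕜) : tid V D' (tid V D f) = 0 := by
  funext x
  rw [tid_apply, tid_row, h]
  rfl

omit [Fintype A0] [Fintype A1] [Fintype A2] [Fintype U] in
theorem cone_sq0 (T : U → V → 𝕜) (D' : (A1 → 𝕜) →ₗ[𝕜] (A0 → 𝕜)) (D : (A2 → 𝕜) →ₗ[𝕜] (A1 → 𝕜))
    (h : ∀ y, D' (D y) = 0) (f : (V × A1) ⊕ (U × A2) → 𝕜) :
    coneD0 T D' (coneDs T D' D f) = 0 := by
  obtain ⟨a, b, rfl⟩ := exists_elim f
  rw [coneDs_elim, coneD0_elim, map_neg, map_add, tens_tid, tid_sq D' D h]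
  simp

omit [Fintype A0] [Fintype A1] [Fintype A2] [Fintype A3] [Fintype U] in
theorem cone_sqs (T : U → V → 𝕜) (D'' : (A1 → 𝕜) →ₗ[𝕜] (A0 → 𝕜)) (D' : (A2 → 𝕜) →ₗ[𝕜] (A1 → 𝕜))
    (D : (A3 → 𝕜) →ₗ[𝕜] (A2 → 𝕜))
    (h' : ∀ y, D'' (D' y) = 0) (h : ∀ y, D' (D y) = 0) (f : (V × A2) ⊕ (U × A3) → 𝕜) :
    coneDs T D'' D' (coneDs T D' D f) = 0 := by
  obtain ⟨a, b, rfl⟩ := exists_elim f
  rw [coneDs_elim, coneDs_elim, map_neg, map_neg, map_add, tens_tid, tid_sq D' D h,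
    tid_sq D'' D' h']
  funext x
  rcases x with x | x <;> simp

/-- second half of the exactness proofs -/
theorem cone_half (T : U → V → 𝕜) (hT : ∀ v, ∑ u, ‖T u v‖ ≤ 3)
    (D' : (A1 → 𝕜) →ₗ[𝕜] (A0 → 𝕜)) (D : (A2 → 𝕜) →ₗ[𝕜] (A1 → 𝕜)) {C : ℝ} (hC : 0 ≤ C)
    (hex : ∀ z, D' z = 0 → ∃ y, D y = z ∧ n1 y ≤ C * n1 z)
    (a : V × A0 → 𝕜) (b : U × A1 → 𝕜) (a' : V × A1 → 𝕜) (ha' : tid V D' a' = a)
    (hn : n1 a' ≤ C * n1 a) (hab : tens T A0 a + tid U D' b = 0) :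
    ∃ f, coneDs T D' D f = Sum.elim a b ∧
      n1 f ≤ (20 + 62 * C + 3 * C ^ 2) * n1 (Sum.elim a b) := by
  have h1 : tid U D' (b + tens T A1 a') = 0 := by
    rw [map_add, tens_tid, ha', add_comm, hab]
  obtain ⟨b', hb', hbn⟩ := tid_solve (V := U) D (C := C) (b + tens T A1 a') (fun u => hex _ (by
    have h2 := tid_row (V := U) D' (b + tens T A1 a') u
    rw [h1] at h2
    exact h2.symm))
  refine ⟨Sum.elim (-a') b', ?_, ?_⟩
  · rw [coneDs_elim, hb', map_neg, map_neg, ha', neg_neg]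
    congr 1
    abel
  · rw [n1_elim, n1_elim, n1_neg]
    have h3 := n1_add b (tens T A1 a')
    have h4 := n1_tens (A := A1) T hT a'
    have h5 := n1_nonneg a
    have h6 := n1_nonneg b
    have h7 := n1_nonneg a'
    have h8 : C * n1 (b + tens T A1 a') ≤ C * (n1 b + 3 * (C * n1 a)) := by
      apply mul_le_mul_of_nonneg_left _ hC
      linarith
    have h9 : 0 ≤ C * n1 a := mul_nonneg hC h5
    have h10 : 0 ≤ C * n1 b := mul_nonneg hC h6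
    have h11 : 0 ≤ C ^ 2 * n1 b := mul_nonneg (sq_nonneg C) h6
    have h12 : C * (n1 b + 3 * (C * n1 a)) = C * n1 b + 3 * (C ^ 2 * n1 a) := by ring
    have h13 : (20 + 62 * C + 3 * C ^ 2) * (n1 a + n1 b) = 20 * n1 a + 20 * n1 b + 62 * (C * n1 a)
      + 62 * (C * n1 b) + 3 * (C ^ 2 * n1 a) + 3 * (C ^ 2 * n1 b) := by ring
    linarith

/-- exactness in higher degrees -/
theorem cone_exs (T : U → V → 𝕜) (hT : ∀ v, ∑ u, ‖T u v‖ ≤ 3)
    (D'' : (A1 → 𝕜) →ₗ[𝕜] (A0 → 𝕜)) (D' : (A2 → 𝕜) →ₗ[𝕜] (A1 → 𝕜))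
    (D : (A3 → 𝕜) →ₗ[𝕜] (A2 → 𝕜)) {C : ℝ} (hC : 0 ≤ C)
    (hex' : ∀ z, D'' z = 0 → ∃ y, D' y = z ∧ n1 y ≤ C * n1 z)
    (hex : ∀ z, D' z = 0 → ∃ y, D y = z ∧ n1 y ≤ C * n1 z)
    (z : (V × A1) ⊕ (U × A2) → 𝕜) (hz : coneDs T D'' D' z = 0) :
    ∃ f, coneDs T D' D f = z ∧ n1 f ≤ (20 + 62 * C + 3 * C ^ 2) * n1 z := by
  obtain ⟨a, b, rfl⟩ := exists_elim z
  rw [coneDs_elim] at hz
  have h1 : tid V D'' a = 0 := by
    funext x
    have := congrFun hz (Sum.inl x)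
    simpa using this
  have h2 : tens T A1 a + tid U D' b = 0 := by
    funext x
    have := congrFun hz (Sum.inr x)
    simpa using this
  obtain ⟨a', ha', hn⟩ := tid_solve (V := V) D' (C := C) a (fun v => hex' _ (by
    have h3 := tid_row (V := V) D'' a v
    rw [h1] at h3
    exact h3.symm))
  exact cone_half T hT D' D hC hex a b a' ha' hn h2

/-- properties of the cokernel map -/
structure IsCok (D : (A1 → 𝕜) →ₗ[𝕜] (A0 → 𝕜)) {X : Type} [NormedAddCommGroup X]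
    [NormedSpace 𝕜 X] (π : (A0 → 𝕜) →ₗ[𝕜] X) : Prop where
  ker : ∀ x, π x = 0 ↔ ∃ y, D y = x
  le : ∀ x, ‖π x‖ ≤ n1 x
  lift : ∀ x, ∃ x', π x' = π x ∧ n1 x' ≤ 2 * ‖π x‖

theorem cone_ex0 (T : U → V → 𝕜) (hT : ∀ v, ∑ u, ‖T u v‖ ≤ 3)
    (D' : (A1 → 𝕜) →ₗ[𝕜] (A0 → 𝕜)) (D : (A2 → 𝕜) →ₗ[𝕜] (A1 → 𝕜)) {C : ℝ} (hC : 0 ≤ C)
    (hop : ∀ y, ∃ y', D' y' = D' y ∧ n1 y' ≤ C * n1 (D' y))
    (hex : ∀ z, D' z = 0 → ∃ y, D y = z ∧ n1 y ≤ C * n1 z)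
    {X : Type} [NormedAddCommGroup X] [NormedSpace 𝕜 X] (π : (A0 → 𝕜) →ₗ[𝕜] X)
    (hπ : IsCok D' π)
    (hTX : ∀ f : V → X, ∑ v, ‖f v‖ ≤ 10 * ∑ u, ‖∑ v, T u v • f v‖)
    (z : (V × A0) ⊕ (U × A1) → 𝕜) (hz : coneD0 T D' z = 0) :
    ∃ f, coneDs T D' D f = z ∧ n1 f ≤ (20 + 62 * C + 3 * C ^ 2) * n1 z := by
  obtain ⟨a, b, rfl⟩ := exists_elim z
  rw [coneD0_elim] at hz
  have h0 : ∀ u, ∑ v, T u v • π (fun s => a (v, s)) = 0 := by
    intro u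
    have h1 : ∑ v, T u v • π (fun s => a (v, s)) = π (fun s => tens T A0 a (u, s)) := by
      rw [tens_row, map_sum]
      exact Finset.sum_congr rfl fun v _ => by rw [map_smul]
    have h2 : tens T A0 a = - tid U D' b := eq_neg_of_add_eq_zero_left hz
    rw [h1, h2]
    have h3 : (fun s => (-tid U D' b) (u, s)) = D' (-(fun s => b (u, s))) := by
      rw [map_neg]
      rfl
    rw [h3]
    exact (hπ.ker _).2 ⟨_, rfl⟩
  have h4 : ∀ v, π (fun s => a (v, s)) = 0 := by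
    intro v
    have h5 := hTX (fun v => π (fun s => a (v, s)))
    simp only [h0, norm_zero, Finset.sum_const_zero, mul_zero] at h5
    have h6 := (Finset.single_le_sum (f := fun v => ‖π (fun s => a (v, s))‖)
      (fun _ _ => norm_nonneg _) (Finset.mem_univ v)).trans h5
    exact norm_le_zero_iff.1 h6
  obtain ⟨a', ha', hn⟩ := tid_solve (V := V) D' (C := C) a (fun v => by
    obtain ⟨y, hy⟩ := (hπ.ker _).1 (h4 v)
    obtain ⟨y', hy', hn⟩ := hop y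
    exact ⟨y', hy'.trans hy, by rw [← hy]; exact hn⟩)
  exact cone_half T hT D' D hC hex a b a' ha' hn hz

theorem cone_op (T : U → V → 𝕜) (hT : ∀ v, ∑ u, ‖T u v‖ ≤ 3)
    (D : (A1 → 𝕜) →ₗ[𝕜] (A0 → 𝕜)) {C : ℝ} (hC : 0 ≤ C)
    (hop : ∀ y, ∃ y', D y' = D y ∧ n1 y' ≤ C * n1 (D y))
    {X : Type} [NormedAddCommGroup X] [NormedSpace 𝕜 X] (π : (A0 → 𝕜) →ₗ[𝕜] X)
    (hπ : IsCok D π)
    (hTX : ∀ f : V → X, ∑ v, ‖f v‖ ≤ 10 * ∑ u, ‖∑ v, T u v • f v‖)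
    (y : (V × A0) ⊕ (U × A1) → 𝕜) :
    ∃ y', coneD0 T D y' = coneD0 T D y ∧
      n1 y' ≤ (20 + 62 * C + 3 * C ^ 2) * n1 (coneD0 T D y) := by
  obtain ⟨a, b, rfl⟩ := exists_elim y
  rw [coneD0_elim]
  obtain ⟨x, hx⟩ : ∃ x, x = tens T A0 a + tid U D b := ⟨_, rfl⟩
  rw [← hx]
  have hpx : ∀ u, π (fun s => x (u, s)) = ∑ v, T u v • π (fun s => a (v, s)) := by
    intro u
    have h1 : ∑ v, T u v • π (fun s => a (v, s)) = π (fun s => tens T A0 a (u, s)) := by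
      rw [tens_row, map_sum]
      exact Finset.sum_congr rfl fun v _ => by rw [map_smul]
    have h2 : (fun s => x (u, s)) = (fun s => tens T A0 a (u, s)) + D (fun s => b (u, s)) := by
      rw [hx]
      rfl
    rw [h1, h2, map_add, (hπ.ker (D (fun s => b (u, s)))).2 ⟨_, rfl⟩, add_zero]
  have h3 : ∑ v, ‖π (fun s => a (v, s))‖ ≤ 10 * n1 x := by
    refine (hTX (fun v => π (fun s => a (v, s)))).trans ?_
    rw [n1_prod]
    apply mul_le_mul_of_nonneg_left _ (by norm_num)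
    apply Finset.sum_le_sum
    intro u _
    rw [← hpx]
    exact hπ.le _
  choose α hα hαn using fun v => hπ.lift (fun s => a (v, s))
  obtain ⟨a', ha'⟩ : ∃ a' : V × A0 → 𝕜, a' = fun q => α q.1 q.2 := ⟨_, rfl⟩
  have hrow : ∀ v, (fun s => a' (v, s)) = α v := fun v => by rw [ha']
  have hn : n1 a' ≤ 20 * n1 x := by
    rw [n1_prod]
    calc ∑ v, n1 (fun s => a' (v, s)) ≤ ∑ v, 2 * ‖π (fun s => a (v, s))‖ := by
          apply Finset.sum_le_sum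
          intro v _
          rw [hrow]
          exact hαn v
      _ = 2 * ∑ v, ‖π (fun s => a (v, s))‖ := by rw [Finset.mul_sum]
      _ ≤ 20 * n1 x := by linarith
  have h5 : ∀ u, π (fun s => (x - tens T A0 a') (u, s)) = 0 := by
    intro u
    have e : (fun s => (x - tens T A0 a') (u, s)) =
        (fun s => x (u, s)) - (fun s => tens T A0 a' (u, s)) := rfl
    rw [e, map_sub, hpx, tens_row, map_sum, sub_eq_zero]
    apply Finset.sum_congr rfl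
    intro v _
    rw [map_smul, hrow, hα]
  obtain ⟨b', hb', hbn⟩ := tid_solve (V := U) D (C := C) (x - tens T A0 a') (fun u => by
    obtain ⟨y, hy⟩ := (hπ.ker _).1 (h5 u)
    obtain ⟨y', hy', hn⟩ := hop y
    exact ⟨y', hy'.trans hy, by rw [← hy]; exact hn⟩)
  refine ⟨Sum.elim a' b', ?_, ?_⟩
  · rw [coneD0_elim, hb']
    abel
  · rw [n1_elim]
    have h6 := n1_sub x (tens T A0 a')
    have h7 := n1_tens (A := A0) T hT a'
    have h8 := n1_nonneg x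
    have h9 : C * n1 (x - tens T A0 a') ≤ C * (61 * n1 x) := by
      apply mul_le_mul_of_nonneg_left _ hC
      linarith
    have h10 : 0 ≤ C * n1 x := mul_nonneg hC h8
    have h11 : 0 ≤ C ^ 2 * n1 x := mul_nonneg (sq_nonneg C) h8
    have h13 : (20 + 62 * C + 3 * C ^ 2) * n1 x = 20 * n1 x + 62 * (C * n1 x)
      + 3 * (C ^ 2 * n1 x) := by ring
    linarith

end cone

end Pool.Agent.Helper69.Fd
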