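import Mathlib
import Pool.Agent.Helper69.FdCone

set_option autoImplicit false

/-!
# The blocks: iterated cones
-/

open scoped BigOperators

namespace Pool.Agent.Helper69.Fd

variable {𝕜 : Type} [RCLike 𝕜]

/-- index sets of the cone -/
def coneS (V U : Type) (S : ℕ → Type) : ℕ → Type
  | 0 => U × S 0
  | j + 1 => (V × S j) ⊕ (U × S (j + 1))

/-- they are finite -/
@[instance_reducible] def coneFt (V U : Type) [Fintype V] [Fintype U] (S : ℕ → Type) [∀ j, Fintype (S j)] :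
    ∀ j, Fintype (coneS V U S j)
  | 0 => inferInstanceAs (Fintype (U × S 0))
  | j + 1 => inferInstanceAs (Fintype ((V × S j) ⊕ (U × S (j + 1))))

/-- the cone -/
noncomputable def FC.cone {V U : Type} [Fintype V] [Fintype U] (T : U → V → 𝕜) (K : FC 𝕜) :
    FC 𝕜 where
  S := coneS V U K.S
  ft := coneFt V U K.S
  D := fun j => match j with
    | 0 => coneD0 T (K.D 0)
    | j + 1 => coneDs T (K.D j) (K.D (j + 1))

theorem FC.cone_good {V U : Type} [Fintype V] [Fintype U] [Nonempty V] (T : U → V → 𝕜)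
    (hT : ∀ v, ∑ u, ‖T u v‖ ≤ 3) (K : FC 𝕜) {n : ℕ} {B C : ℝ} (hB : 0 ≤ B) (hC : 0 ≤ C)
    (hK : K.Good n B C) {X : Type} [NormedAddCommGroup X] [NormedSpace 𝕜 X]
    (π : (K.S 0 → 𝕜) →ₗ[𝕜] X) (hπ : IsCok (K.D 0) π)
    (hTX : ∀ f : V → X, ∑ v, ‖f v‖ ≤ 10 * ∑ u, ‖∑ v, T u v • f v‖) :
    (K.cone T).Good (n + 1) (B + 3) (20 + 62 * C + 3 * C ^ 2) where
  ne := by
    have := hK.ne
    exact (inferInstance : Nonempty ((V × K.S n) ⊕ (U × K.S (n + 1))))
  empty := fun j hj => by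
    cases j with
    | zero => exact absurd hj (by omega)
    | succ j =>
      have h1 := hK.empty j (by omega)
      have h2 := hK.empty (j + 1) (by omega)
      exact (inferInstance : IsEmpty ((V × K.S j) ⊕ (U × K.S (j + 1))))
  bdd := fun j y => by
    cases j with
    | zero => exact cone_bdd0 T hT (K.D 0) hB (hK.bdd 0) y
    | succ j => exact cone_bdds T hT (K.D j) (K.D (j + 1)) hB (hK.bdd j) (hK.bdd (j + 1)) y
  sq := fun j y => by
    cases j with
    | zero => exact cone_sq0 T (K.D 0) (K.D 1) (hK.sq 0) y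
    | succ j => exact cone_sqs T (K.D j) (K.D (j + 1)) (K.D (j + 2)) (hK.sq j) (hK.sq (j + 1)) y
  ex := fun j z hz => by
    cases j with
    | zero => exact cone_ex0 T hT (K.D 0) (K.D 1) hC hK.op (hK.ex 0) π hπ hTX z hz
    | succ j =>
      exact cone_exs T hT (K.D j) (K.D (j + 1)) (K.D (j + 2)) hC (hK.ex j) (hK.ex (j + 1)) z hz
  op := fun y => cone_op T hT (K.D 0) hC hK.op π hπ hTX y

/-- the trivial complex `𝕜` -/
noncomputable def FC.triv (𝕜 : Type) [RCLike 𝕜] : FC 𝕜 where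
  S := fun j => match j with
    | 0 => Unit
    | _ + 1 => Empty
  ft := fun j => match j with
    | 0 => inferInstanceAs (Fintype Unit)
    | _ + 1 => inferInstanceAs (Fintype Empty)
  D := fun _ => 0

theorem FC.triv_good : (FC.triv 𝕜).Good 0 0 0 where
  ne := (inferInstance : Nonempty Unit)
  empty := fun j hj => by
    cases j with
    | zero => exact absurd hj (by omega)
    | succ j => exact (inferInstance : IsEmpty Empty)
  bdd := fun j y => by
    show n1 (0 : (FC.triv 𝕜).S j → 𝕜) ≤ 0 * n1 y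
    rw [n1_zero, zero_mul]
  sq := fun j y => rfl
  ex := fun j z hz => by
    have : IsEmpty ((FC.triv 𝕜).S (j + 1)) := (inferInstance : IsEmpty Empty)
    refine ⟨0, Subsingleton.elim _ _, ?_⟩
    rw [n1_zero, zero_mul]
  op := fun y => by
    refine ⟨0, rfl, ?_⟩
    rw [n1_zero, zero_mul]

/-- certificate of the first cone -/
theorem FC.cone_cert0 {V U : Type} [Fintype V] [Fintype U] (T : U → V → 𝕜)
    (θ : V → V → 𝕜) (c : U → ℝ) (h1 : ∀ v, θ v v = 1) (h2 : ∀ v w, ‖θ v w‖ ≤ 1)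
    (h3 : ∀ v u, ‖∑ w, T u w * θ v w‖ ≤ c u) {ε : ℝ} (h4 : ∑ u, c u ≤ ε * Fintype.card V) :
    ((FC.triv 𝕜).cone T).Cert 0 ε := by
  refine ⟨fun (t : (V × Unit) ⊕ (U × Empty)) => fun (s : (V × Unit) ⊕ (U × Empty)) =>
    match t, s with
    | Sum.inl t, Sum.inl s => θ t.1 s.1
    | Sum.inr t, _ => t.2.elim
    | _, Sum.inr s => s.2.elim, fun (u : U × Unit) => c u.1, ?_, ?_, ?_, ?_⟩
  · rintro (t | t)
    · exact h1 t.1
    · exact t.2.elim
  · rintro (t | t) (s | s)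
    · exact h2 t.1 s.1
    · exact s.2.elim
    · exact t.2.elim
    · exact t.2.elim
  · rintro (t | t) u
    · have h5 := h3 t.1 u.1
      have h6 : ((FC.triv 𝕜).cone T).D 0 (fun (s : (V × Unit) ⊕ (U × Empty)) =>
          match s with
          | Sum.inl s => θ t.1 s.1
          | Sum.inr s => s.2.elim) u = ∑ w, T u.1 w * θ t.1 w := by
        show ∑ w, T u.1 w * θ t.1 w + 0 = _
        rw [add_zero]
      rw [← h6] at h5
      refine le_trans (le_of_eq ?_) h5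
      congr 3
    · exact t.2.elim
  · have e1 : Fintype.card (((FC.triv 𝕜).cone T).S (0 + 1)) = Fintype.card V := by
      have : Fintype.card ((V × Unit) ⊕ (U × Empty)) = Fintype.card V := by
        simp
      exact this
    rw [e1]
    refine le_trans (le_of_eq ?_) h4
    show ∑ u : U × Unit, c u.1 = _
    rw [Fintype.sum_prod_type]
    simp

/-- the product certificate -/
def tens2 {V A : Type} (θ : V → V → 𝕜) (θ' : A → A → 𝕜) (B U : Type) :
    (V × A) ⊕ (U × B) → (V × A) ⊕ (U × B) → 𝕜 := fun t =>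
  Sum.elim (fun s => match t with
    | Sum.inl t => θ t.1 s.1 * θ' t.2 s.2
    | Sum.inr _ => 0) (fun _ => 0)

theorem FC.cone_certs {V U : Type} [Fintype V] [Fintype U] (T : U → V → 𝕜)
    (θ : V → V → 𝕜) (c : U → ℝ) (h1 : ∀ v, θ v v = 1) (h2 : ∀ v w, ‖θ v w‖ ≤ 1)
    (h3 : ∀ v u, ‖∑ w, T u w * θ v w‖ ≤ c u) {ε : ℝ} (h4 : ∑ u, c u ≤ ε * Fintype.card V)
    (K : FC 𝕜) {m : ℕ} {τ : ℝ} (hK : K.Cert m τ) (hne : Nonempty (K.S (m + 1)))
    (hemp : IsEmpty (K.S (m + 2))) :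
    (K.cone T).Cert (m + 1) (τ + ε) := by
  obtain ⟨θ', c', g1, g2, g3, g4⟩ := hK
  refine ⟨tens2 θ θ' (K.S (m + 2)) U, Sum.elim (fun u => c' u.2) (fun u => c u.1),
    ?_, ?_, ?_, ?_⟩
  · rintro (t | t)
    · show θ t.1 t.1 * θ' t.2 t.2 = 1
      rw [h1, g1, one_mul]
    · exact (hemp.false t.2).elim
  · rintro (t | t) (s | s)
    · show ‖θ t.1 s.1 * θ' t.2 s.2‖ ≤ 1
      rw [norm_mul]
      exact mul_le_one₀ (h2 _ _) (norm_nonneg _) (g2 _ _)
    · exact (hemp.false s.2).elim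
    · exact (hemp.false t.2).elim
    · exact (hemp.false t.2).elim
  · rintro (t | t) u
    · obtain ⟨a, ha⟩ : ∃ a : V × K.S (m + 1) → 𝕜, a = fun s => θ t.1 s.1 * θ' t.2 s.2 := ⟨_, rfl⟩
      obtain ⟨b, hb⟩ : ∃ b : U × K.S (m + 2) → 𝕜, b = 0 := ⟨_, rfl⟩
      have e : tens2 θ θ' (K.S (m + 2)) U (Sum.inl t) = Sum.elim a b := by
        rw [ha, hb]; rfl
      have h5 : ∀ u, (K.cone T).D (m + 1) (Sum.elim a b) u =
          Sum.elim (-tid V (K.D m) a) (tens T (K.S (m + 1)) a + tid U (K.D (m + 1)) b) u :=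
        fun u => congrFun (coneDs_elim T (K.D m) (K.D (m + 1)) a b) u
      rw [e, h5]
      rcases u with u | u
      · show ‖-(K.D m (fun s => a (u.1, s)) u.2)‖ ≤ c' u.2
        have e1 : (fun s => a (u.1, s)) = θ t.1 u.1 • θ' t.2 := by
          rw [ha]; rfl
        rw [norm_neg, e1, map_smul, Pi.smul_apply, norm_smul]
        have e2 := g3 t.2 u.2
        calc ‖θ t.1 u.1‖ * ‖K.D m (θ' t.2) u.2‖ ≤ 1 * ‖K.D m (θ' t.2) u.2‖ :=
              mul_le_mul_of_nonneg_right (h2 _ _) (norm_nonneg _)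
          _ ≤ c' u.2 := by rw [one_mul]; exact e2
      · have e3 : tid U (K.D (m + 1)) b = 0 := by rw [hb, map_zero]
        show ‖(tens T (K.S (m + 1)) a + tid U (K.D (m + 1)) b) u‖ ≤ c u.1
        rw [e3, add_zero, tens_apply]
        have e1 : ∑ v, T u.1 v * a (v, u.2) = (∑ v, T u.1 v * θ t.1 v) * θ' t.2 u.2 := by
          rw [Finset.sum_mul, ha]
          exact Finset.sum_congr rfl fun v _ => by ring
        rw [e1, norm_mul]
        calc ‖∑ v, T u.1 v * θ t.1 v‖ * ‖θ' t.2 u.2‖ ≤ ‖∑ v, T u.1 v * θ t.1 v‖ * 1 :=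
              mul_le_mul_of_nonneg_left (g2 _ _) (norm_nonneg _)
          _ ≤ c u.1 := by rw [mul_one]; exact h3 _ _
    · exact (hemp.false t.2).elim
  · have e1 : Fintype.card ((K.cone T).S (m + 1 + 1)) =
        Fintype.card V * Fintype.card (K.S (m + 1)) := by
      have : Fintype.card ((V × K.S (m + 1)) ⊕ (U × K.S (m + 2))) =
          Fintype.card V * Fintype.card (K.S (m + 1)) := by
        rw [Fintype.card_sum, Fintype.card_prod, Fintype.card_prod, Fintype.card_eq_zero (α := K.S (m + 2)),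
          mul_zero, add_zero]
      exact this
    rw [e1]
    show ∑ u : (V × K.S m) ⊕ (U × K.S (m + 1)),
      (Sum.elim (fun u => c' u.2) (fun u => c u.1) : (V × K.S m) ⊕ (U × K.S (m + 1)) → ℝ) u ≤ _
    rw [Fintype.sum_sum_type, Fintype.sum_prod_type, Fintype.sum_prod_type]
    show ∑ _v : V, ∑ s, c' s + ∑ u, ∑ _s : K.S (m + 1), c u ≤ _
    rw [Finset.sum_const, Finset.card_univ, nsmul_eq_mul]
    have e2 : ∑ u, ∑ _s : K.S (m + 1), c u = Fintype.card (K.S (m + 1)) * ∑ u, c u := by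
      rw [Finset.mul_sum]
      exact Finset.sum_congr rfl fun u _ => by rw [Finset.sum_const, Finset.card_univ, nsmul_eq_mul]
    rw [e2]
    have e3 : (Fintype.card V : ℝ) * ∑ s, c' s ≤
        Fintype.card V * (τ * Fintype.card (K.S (m + 1))) :=
      mul_le_mul_of_nonneg_left g4 (Nat.cast_nonneg _)
    have e4 : (Fintype.card (K.S (m + 1)) : ℝ) * ∑ u, c u ≤
        Fintype.card (K.S (m + 1)) * (ε * Fintype.card V) :=
      mul_le_mul_of_nonneg_left h4 (Nat.cast_nonneg _)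
    push_cast
    have e5 : (τ + ε) * ((Fintype.card V : ℝ) * (Fintype.card (K.S (m + 1)) : ℝ)) =
        Fintype.card V * (τ * Fintype.card (K.S (m + 1))) +
        Fintype.card (K.S (m + 1)) * (ε * Fintype.card V) := by ring
    linarith

/-- the existence of good matrices -/
def GoodMat (𝕜 : Type) [RCLike 𝕜] : Prop :=
  ∀ (X : Type) [NormedAddCommGroup X] [NormedSpace 𝕜 X] [FiniteDimensional 𝕜 X] (ε : ℝ), 0 < ε →
    ∃ (V U : Type) (_ : Fintype V) (_ : Fintype U) (_ : Nonempty V) (T : U → V → 𝕜)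
      (θ : V → V → 𝕜) (c : U → ℝ),
      (∀ v, ∑ u, ‖T u v‖ ≤ 3) ∧
      (∀ f : V → X, ∑ v, ‖f v‖ ≤ 10 * ∑ u, ‖∑ v, T u v • f v‖) ∧
      (∀ v, θ v v = 1) ∧ (∀ v w, ‖θ v w‖ ≤ 1) ∧
      (∀ v u, ‖∑ w, T u w * θ v w‖ ≤ c u) ∧ ∑ u, c u ≤ ε * Fintype.card V

theorem exists_block (hG : GoodMat 𝕜) (n : ℕ) : ∃ B C : ℝ, 0 ≤ B ∧ 0 ≤ C ∧ ∀ ε : ℝ, 0 < ε →
    ∃ K : FC 𝕜, K.Good (n + 1) B C ∧ K.Cert n ε := by
  induction n with
  | zero =>
    refine ⟨0 + 3, 20 + 62 * 0 + 3 * 0 ^ 2, by norm_num, by norm_num, fun ε hε => ?_⟩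
    obtain ⟨X, i1, i2, i3, π, p1, p2, p3⟩ := exists_coker ((FC.triv 𝕜).D 0)
    obtain ⟨V, U, j1, j2, j3, T, θ, c, t1, t2, t3, t4, t5, t6⟩ := hG X ε hε
    exact ⟨(FC.triv 𝕜).cone T, FC.cone_good T t1 (FC.triv 𝕜) le_rfl le_rfl FC.triv_good π
      ⟨p1, p2, p3⟩ t2, FC.cone_cert0 T θ c t3 t4 t5 t6⟩
  | succ n ih =>
    obtain ⟨B, C, hB, hC, h⟩ := ih
    refine ⟨B + 3, 20 + 62 * C + 3 * C ^ 2, by positivity, by positivity, fun ε hε => ?_⟩
    obtain ⟨K, hK, hc⟩ := h (ε / 2) (by positivity)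
    obtain ⟨X, i1, i2, i3, π, p1, p2, p3⟩ := exists_coker (K.D 0)
    obtain ⟨V, U, j1, j2, j3, T, θ, c, t1, t2, t3, t4, t5, t6⟩ := hG X (ε / 2) (by positivity)
    refine ⟨K.cone T, FC.cone_good T t1 K hB hC hK π ⟨p1, p2, p3⟩ t2, ?_⟩
    have h1 := FC.cone_certs T θ c t3 t4 t5 t6 K hc hK.ne (hK.empty _ (by omega))
    rwa [add_halves] at h1

end Pool.Agent.Helper69.Fd
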