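import Mathlib

set_option autoImplicit false

namespace Pool.Agent.Helper69.Fd

theorem lp_one_hasSum {𝕜 : Type} [RCLike 𝕜] {S : Type} (x : lp (fun _ : S => 𝕜) 1) :
    HasSum (fun s => ‖x s‖) ‖x‖ := by
  have h1 := lp.hasSum_norm (p := 1) (by simp) x
  simpa using h1

/-- TARGET: a Banach space with a bush of norm one vectors does not embed into `ℓ¹(S)`. -/
theorem no_embedding {𝕜 : Type} [RCLike 𝕜] {W : Type} [NormedAddCommGroup W] [NormedSpace 𝕜 W]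
    (D : Set W) (hne : D.Nonempty) (hb : ∀ f ∈ D, ‖f‖ ≤ 1)
    (h : ∀ f ∈ D, ∀ (Φ : Finset (W →L[𝕜] 𝕜)) (ε : ℝ), 0 < ε →
      ∃ g, 1 ≤ ‖g‖ ∧ f + g ∈ D ∧ ∀ φ ∈ Φ, ‖φ g‖ ≤ ε) :
    ¬ ∃ (S : Type) (j : W →L[𝕜] lp (fun _ : S => 𝕜) 1) (c : ℝ), ∀ w, ‖w‖ ≤ c * ‖j w‖ := by
  classical
  rintro ⟨S, j, c, hj⟩
  have hc : 0 < c := by
    obtain ⟨f, hf⟩ := hne
    obtain ⟨g, hg, -, -⟩ := h f hf ∅ 1 one_pos
    by_contra hc
    push Not at hc
    have h1 := hj g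
    have h2 : c * ‖j g‖ ≤ 0 := mul_nonpos_of_nonpos_of_nonneg hc (norm_nonneg _)
    linarith
  set δ : ℝ := 1 / (10 * c) with hδ
  have hδpos : 0 < δ := by positivity
  have hδc : 5 * δ < 1 / c := by
    rw [hδ, mul_one_div, div_lt_div_iff₀ (by positivity) hc]
    nlinarith
  have hbdd : BddAbove ((fun f => ‖j f‖) '' D) := by
    refine ⟨‖j‖, ?_⟩
    rintro _ ⟨f, hf, rfl⟩
    calc ‖j f‖ ≤ ‖j‖ * ‖f‖ := j.le_opNorm f
      _ ≤ ‖j‖ * 1 := by gcongr; exact hb f hf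
      _ = ‖j‖ := mul_one _
  obtain ⟨_, ⟨f, hf, rfl⟩, hfa⟩ := exists_lt_of_lt_csSup (hne.image (fun f => ‖j f‖))
    (sub_lt_self (sSup ((fun f => ‖j f‖) '' D)) hδpos)
  -- finite set
  have hsf := lp_one_hasSum (j f)
  obtain ⟨A, hA⟩ : ∃ A : Finset S, ‖j f‖ - δ < ∑ s ∈ A, ‖(j f) s‖ := by
    have := hsf.eventually (lt_mem_nhds (sub_lt_self ‖j f‖ hδpos))
    exact this.exists
  let φ : S → (W →L[𝕜] 𝕜) := fun s =>
    (lp.evalCLM 𝕜 (fun _ : S => 𝕜) 1 s).comp j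
  obtain ⟨g, hg1, hfg, hgφ⟩ := h f hf (A.image φ) (δ / (A.card + 1)) (by positivity)
  have hgA : ∑ s ∈ A, ‖(j g) s‖ ≤ δ := by
    calc ∑ s ∈ A, ‖(j g) s‖ ≤ ∑ s ∈ A, δ / (A.card + 1) := by
          refine Finset.sum_le_sum fun s hs => ?_
          exact hgφ (φ s) (Finset.mem_image_of_mem φ hs)
      _ = A.card * (δ / (A.card + 1)) := by simp
      _ ≤ δ := by
          rw [mul_div_assoc', div_le_iff₀ (by positivity)]
          nlinarith [hδpos]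
  have hsg := lp_one_hasSum (j g)
  have hsfg := lp_one_hasSum (j (f + g))
  have hcorr : HasSum (fun s => if s ∈ A then ‖(j g) s‖ - ‖(j f) s‖ else 0)
      (∑ s ∈ A, (‖(j g) s‖ - ‖(j f) s‖)) := by
    have : HasSum (fun s => if s ∈ A then ‖(j g) s‖ - ‖(j f) s‖ else 0)
        (∑ s ∈ A, (if s ∈ A then ‖(j g) s‖ - ‖(j f) s‖ else 0)) :=
      hasSum_sum_of_ne_finset_zero (fun b hb => by simp [hb])
    have h2 : ∑ s ∈ A, (if s ∈ A then ‖(j g) s‖ - ‖(j f) s‖ else 0)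
        = ∑ s ∈ A, (‖(j g) s‖ - ‖(j f) s‖) :=
      Finset.sum_congr rfl fun s hs => by simp [hs]
    rwa [h2] at this
  have hm := hcorr.add hsf
  have hlow := (hsf.add hsg).sub (hm.mul_left 2)
  have hle := hasSum_le (fun s => ?_) hlow hsfg
  · rw [Finset.sum_sub_distrib] at hle
    have h3 : 1 / c ≤ ‖j g‖ := by
      rw [div_le_iff₀ hc]
      calc (1:ℝ) ≤ ‖g‖ := hg1
        _ ≤ c * ‖j g‖ := hj g
        _ = ‖j g‖ * c := mul_comm _ _
    have h4 : ‖j (f + g)‖ ≤ sSup ((fun f => ‖j f‖) '' D) := le_csSup hbdd ⟨_, hfg, rfl⟩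
    simp only at hfa
    linarith
  · have e : (j (f + g)) s = (j f) s + (j g) s := by rw [map_add]; rfl
    rw [e]
    by_cases hs : s ∈ A
    · simp only [hs, if_true]
      have := norm_sub_norm_le ((j f) s) (-(j g) s)
      rw [norm_neg, sub_neg_eq_add] at this
      linarith
    · simp only [hs, if_false]
      have := norm_sub_norm_le ((j g) s) (-(j f) s)
      rw [norm_neg, sub_neg_eq_add, add_comm] at this
      linarith

end Pool.Agent.Helper69.Fd
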