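import Mathlib
import Pool.Agent.Helper69.FdDefs
import Pool.Agent.Helper69.FdExt

set_option autoImplicit false

namespace Pool.Agent.Helper69.Fd



/-- Hahn–Banach along a map that is bounded below. -/
theorem extend_functional_aux (𝕜 : Type) [RCLike 𝕜] {F G : Type} [NormedAddCommGroup F]
    [NormedSpace 𝕜 F] [NormedAddCommGroup G] [NormedSpace 𝕜 G] (ι : F →L[𝕜] G) (c : ℝ)
    (hc0 : 0 ≤ c) (hc : ∀ x, ‖x‖ ≤ c * ‖ι x‖) (φ : F →L[𝕜] 𝕜) :
    ∃ ψ : G →L[𝕜] 𝕜, (∀ x, ψ (ι x) = φ x) ∧ ‖ψ‖ ≤ c * ‖φ‖ := by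
  have hinj : Function.Injective (ι : F →ₗ[𝕜] G) := by
    rw [← LinearMap.ker_eq_bot, LinearMap.ker_eq_bot']
    intro x hx
    have h1 := hc x
    have h2 : ι x = 0 := hx
    rw [h2, norm_zero, mul_zero] at h1
    exact norm_le_zero_iff.mp h1
  set e := LinearEquiv.ofInjective (ι : F →ₗ[𝕜] G) hinj with he
  have hbound : ∀ y : LinearMap.range (ι : F →ₗ[𝕜] G),
      ‖((φ : F →ₗ[𝕜] 𝕜).comp (e.symm : _ →ₗ[𝕜] F)) y‖ ≤ (c * ‖φ‖) * ‖y‖ := by
    intro y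
    have h1 : ι (e.symm y) = (y : G) := by
      have := e.apply_symm_apply y
      have h2 : ((e (e.symm y) : LinearMap.range (ι : F →ₗ[𝕜] G)) : G) = ι (e.symm y) := by
        rw [he]; rfl
      rw [← h2, this]
    calc ‖((φ : F →ₗ[𝕜] 𝕜).comp (e.symm : _ →ₗ[𝕜] F)) y‖ = ‖φ (e.symm y)‖ := rfl
      _ ≤ ‖φ‖ * ‖e.symm y‖ := φ.le_opNorm _
      _ ≤ ‖φ‖ * (c * ‖ι (e.symm y)‖) := by gcongr; exact hc _
      _ = (c * ‖φ‖) * ‖y‖ := by rw [h1]; rw [Submodule.coe_norm]; ring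
  obtain ⟨g, hg1, hg2⟩ := exists_extension_norm_eq (𝕜 := 𝕜) (LinearMap.range (ι : F →ₗ[𝕜] G))
    (LinearMap.mkContinuous _ (c * ‖φ‖) hbound)
  refine ⟨g, fun x => ?_, ?_⟩
  · have h3 := hg1 (e x)
    have h4 : ((e x : LinearMap.range (ι : F →ₗ[𝕜] G)) : G) = ι x := by rw [he]; rfl
    rw [h4] at h3
    rw [h3, LinearMap.mkContinuous_apply]
    change φ (e.symm (e x)) = φ x
    rw [e.symm_apply_apply]
  · rw [hg2]
    exact LinearMap.mkContinuous_norm_le _ (by positivity) _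

/-- One finite step. -/
theorem finite_step (𝕜 : Type) [RCLike 𝕜] (P : Type) [NormedAddCommGroup P]
    [NormedSpace 𝕜 P] {F G : Type} [NormedAddCommGroup F]
    [NormedSpace 𝕜 F] [NormedAddCommGroup G] [NormedSpace 𝕜 G] (ι : F →L[𝕜] G) (c : ℝ)
    (hc0 : 0 ≤ c) (hc : ∀ x, ‖x‖ ≤ c * ‖ι x‖) (T : P →L[𝕜] (F →L[𝕜] 𝕜)) (lam : ℝ)
    (hlam : ∀ F : Submodule 𝕜 P, FiniteDimensional 𝕜 F →
    ∃ G : Submodule 𝕜 P, F ≤ G ∧ FiniteDimensional 𝕜 G ∧
      ∃ T : G ≃L[𝕜] PiLp 1 (fun _ : Fin (Module.finrank 𝕜 G) => 𝕜),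
        ‖(T : G →L[𝕜] PiLp 1 (fun _ : Fin (Module.finrank 𝕜 G) => 𝕜))‖ *
        ‖(T.symm : PiLp 1 (fun _ : Fin (Module.finrank 𝕜 G) => 𝕜) →L[𝕜] G)‖ ≤ lam)
    (s : Finset P) : ∃ A : P → (G →L[𝕜] 𝕜),
      (∀ x ∈ Submodule.span 𝕜 (s : Set P), ∀ y, A x (ι y) = T x y) ∧
      (∀ x ∈ Submodule.span 𝕜 (s : Set P), ∀ y ∈ Submodule.span 𝕜 (s : Set P),
        A (x + y) = A x + A y) ∧
      (∀ x ∈ Submodule.span 𝕜 (s : Set P), ∀ k : 𝕜, A (k • x) = k • A x) ∧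
      (∀ x, ‖A x‖ ≤ (c * ‖T‖ * max lam 0) * ‖x‖) := by
  classical
  obtain ⟨H, hsH, hfin, u, hu⟩ := hlam (Submodule.span 𝕜 (s : Set P))
    (FiniteDimensional.span_finset 𝕜 s)
  let e : Fin (Module.finrank 𝕜 H) → H := fun i => u.symm (PiLp.single 1 i (1 : 𝕜))
  have hψ : ∀ i : Fin (Module.finrank 𝕜 H), ∃ ψ : G →L[𝕜] 𝕜, (∀ x, ψ (ι x) = T (e i : P) x) ∧
      ‖ψ‖ ≤ c * ‖T (e i : P)‖ := fun i => extend_functional_aux 𝕜 ι c hc0 hc _
  choose ψ hψ1 hψ2 using hψ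
  have hen : ∀ i, ‖e i‖ ≤ ‖(u.symm : PiLp 1 (fun _ : Fin (Module.finrank 𝕜 H) => 𝕜) →L[𝕜] H)‖ := by
    intro i
    have h1 := (u.symm : PiLp 1 (fun _ : Fin (Module.finrank 𝕜 H) => 𝕜) →L[𝕜] H).le_opNorm (PiLp.single 1 i (1 : 𝕜))
    have h2 : ‖(PiLp.single 1 i (1 : 𝕜) : PiLp 1 (fun _ : Fin (Module.finrank 𝕜 H) => 𝕜))‖ = 1 := by
      rw [PiLp.norm_single, norm_one]
    rw [h2, mul_one] at h1
    exact h1
  have hdecomp : ∀ x : H, x = ∑ i, (u x) i • e i := by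
    intro x
    have h1 : u x = ∑ i, (u x) i • (PiLp.single 1 i (1 : 𝕜) : PiLp 1 (fun _ : Fin (Module.finrank 𝕜 H) => 𝕜)) := by
      have h2 := (PiLp.basisFun 1 𝕜 (Fin (Module.finrank 𝕜 H))).sum_repr (u x)
      simp only [PiLp.basisFun_repr, PiLp.basisFun_apply, PiLp.toLp_single] at h2
      exact h2.symm
    have h3 : u.symm (u x) = u.symm (∑ i, (u x) i •
        (PiLp.single 1 i (1 : 𝕜) : PiLp 1 (fun _ : Fin (Module.finrank 𝕜 H) => 𝕜))) := by rw [← h1]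
    rw [u.symm_apply_apply, map_sum] at h3
    conv_lhs => rw [h3]
    exact Finset.sum_congr rfl fun i _ => map_smul _ _ _
  let B : H → (G →L[𝕜] 𝕜) := fun x => ∑ i, (u x) i • ψ i
  have hBadd : ∀ x y, B (x + y) = B x + B y := by
    intro x y
    have h1 : B (x + y) = ∑ i, ((u x) i • ψ i + (u y) i • ψ i) :=
      Finset.sum_congr rfl fun i _ => by
        rw [map_add]
        exact add_smul ((u x) i) ((u y) i) (ψ i)
    rw [h1, Finset.sum_add_distrib]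
  have hBsmul : ∀ (k : 𝕜) x, B (k • x) = k • B x := by
    intro k x
    simp only [B, map_smul, PiLp.smul_apply, smul_eq_mul, mul_smul, Finset.smul_sum]
  have hBnorm : ∀ x : H, ‖B x‖ ≤ (c * ‖T‖ * max lam 0) * ‖x‖ := by
    intro x
    have h1 : ‖B x‖ ≤ ∑ i, ‖(u x) i‖ * (c * (‖T‖ * ‖(u.symm : PiLp 1 (fun _ : Fin (Module.finrank 𝕜 H) => 𝕜) →L[𝕜] H)‖)) := by
      refine (norm_sum_le _ _).trans (Finset.sum_le_sum fun i _ => ?_)
      rw [norm_smul]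
      refine mul_le_mul_of_nonneg_left ((hψ2 i).trans ?_) (norm_nonneg _)
      refine mul_le_mul_of_nonneg_left ?_ hc0
      refine (T.le_opNorm _).trans ?_
      refine mul_le_mul_of_nonneg_left ?_ (norm_nonneg _)
      exact hen i
    rw [← Finset.sum_mul] at h1
    have h2 : ∑ i, ‖(u x) i‖ = ‖u x‖ := by
      rw [PiLp.norm_eq_of_nat 1 (by norm_num)]
      simp
    rw [h2] at h1
    have h3 : ‖u x‖ ≤ ‖(u : H →L[𝕜] PiLp 1 (fun _ : Fin (Module.finrank 𝕜 H) => 𝕜))‖ * ‖x‖ :=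
      (u : H →L[𝕜] PiLp 1 (fun _ : Fin (Module.finrank 𝕜 H) => 𝕜)).le_opNorm x
    calc ‖B x‖ ≤ ‖u x‖ * (c * (‖T‖ * ‖(u.symm : PiLp 1 (fun _ : Fin (Module.finrank 𝕜 H) => 𝕜) →L[𝕜] H)‖)) := h1
      _ ≤ (‖(u : H →L[𝕜] PiLp 1 (fun _ : Fin (Module.finrank 𝕜 H) => 𝕜))‖ * ‖x‖) *
          (c * (‖T‖ * ‖(u.symm : PiLp 1 (fun _ : Fin (Module.finrank 𝕜 H) => 𝕜) →L[𝕜] H)‖)) :=
          mul_le_mul_of_nonneg_right h3 (by positivity)
      _ = (c * ‖T‖ * (‖(u : H →L[𝕜] PiLp 1 (fun _ : Fin (Module.finrank 𝕜 H) => 𝕜))‖ *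
          ‖(u.symm : PiLp 1 (fun _ : Fin (Module.finrank 𝕜 H) => 𝕜) →L[𝕜] H)‖)) * ‖x‖ := by ring
      _ ≤ (c * ‖T‖ * max lam 0) * ‖x‖ := by
          refine mul_le_mul_of_nonneg_right ?_ (norm_nonneg _)
          refine mul_le_mul_of_nonneg_left (hu.trans (le_max_left _ _)) (by positivity)
  have hBι : ∀ (x : H) y, B x (ι y) = T (x : P) y := by
    intro x y
    have h1 : T (x : P) = ∑ i, (u x) i • T (e i : P) := by
      conv_lhs => rw [hdecomp x]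
      rw [Submodule.coe_sum, map_sum]
      exact Finset.sum_congr rfl fun i _ => by rw [Submodule.coe_smul, map_smul]
    rw [h1]
    simp only [B, ContinuousLinearMap.sum_apply, ContinuousLinearMap.smul_apply, hψ1]
  refine ⟨fun x => if hx : x ∈ H then B ⟨x, hx⟩ else 0, ?_, ?_, ?_, ?_⟩
  · intro x hx y
    have hxH := hsH hx
    simp only [dif_pos hxH]
    exact hBι ⟨x, hxH⟩ y
  · intro x hx y hy
    have hxH := hsH hx
    have hyH := hsH hy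
    have hxyH := H.add_mem hxH hyH
    simp only [dif_pos hxH, dif_pos hyH, dif_pos hxyH]
    exact hBadd ⟨x, hxH⟩ ⟨y, hyH⟩
  · intro x hx k
    have hxH := hsH hx
    have hkH := H.smul_mem k hxH
    simp only [dif_pos hxH, dif_pos hkH]
    exact hBsmul k ⟨x, hxH⟩
  · intro x
    by_cases hx : x ∈ H
    · simp only [dif_pos hx]
      exact hBnorm ⟨x, hx⟩
    · simp only [dif_neg hx, norm_zero]
      positivity

/-- TARGET -/
theorem propL_of_isL1Space (𝕜 : Type) [RCLike 𝕜] (P : Type) [NormedAddCommGroup P]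
    [NormedSpace 𝕜 P] (h : IsL1Space 𝕜 P) : PropL 𝕜 P := by
  classical
  obtain ⟨lam, hlam⟩ := h
  intro F G _ _ _ _ _ _ ι hc T
  obtain ⟨c0, hc0⟩ := hc
  have hc' : ∀ x, ‖x‖ ≤ max c0 0 * ‖ι x‖ := fun x =>
    (hc0 x).trans (mul_le_mul_of_nonneg_right (le_max_left _ _) (norm_nonneg _))
  have hcn : 0 ≤ max c0 0 := le_max_right _ _
  have hstep := fun s : Finset P => finite_step 𝕜 P ι (max c0 0) hcn hc' T lam hlam s
  choose A hA1 hA2 hA3 hA4 using hstep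
  set C : ℝ := max c0 0 * ‖T‖ * max lam 0 with hC
  have hC0 : 0 ≤ C := by positivity
  let U : Ultrafilter (Finset P) := Ultrafilter.of Filter.atTop
  have hU : (U : Filter (Finset P)) ≤ Filter.atTop := Ultrafilter.of_le _
  have hlim : ∀ (x : P) (g : G), ∃ a : 𝕜, ‖a‖ ≤ C * ‖x‖ * ‖g‖ ∧
      Filter.Tendsto (fun s => A s x g) U (nhds a) := by
    intro x g
    have hK : IsCompact (Metric.closedBall (0 : 𝕜) (C * ‖x‖ * ‖g‖)) := isCompact_closedBall _ _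
    have hmem : ∀ s, A s x g ∈ Metric.closedBall (0 : 𝕜) (C * ‖x‖ * ‖g‖) := by
      intro s
      rw [mem_closedBall_zero_iff]
      calc ‖A s x g‖ ≤ ‖A s x‖ * ‖g‖ := (A s x).le_opNorm g
        _ ≤ C * ‖x‖ * ‖g‖ := mul_le_mul_of_nonneg_right (hA4 s x) (norm_nonneg _)
    obtain ⟨a, ha, hle⟩ := hK.ultrafilter_le_nhds (U.map (fun s => A s x g)) (by
      rw [Filter.le_principal_iff]
      exact Filter.mem_map.mpr (Filter.univ_mem' hmem))
    exact ⟨a, by simpa using ha, hle⟩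
  choose L hL1 hL2 using hlim
  have hev : ∀ t : Finset P, ∀ᶠ s in (U : Filter (Finset P)), t ≤ s := fun t =>
    hU (Filter.eventually_ge_atTop t)
  have hmemspan : ∀ {s t : Finset P} {x : P}, x ∈ t → t ≤ s → x ∈ Submodule.span 𝕜 (s : Set P) :=
    fun hx hts => Submodule.subset_span (hts hx)
  let M : P →ₗ[𝕜] G →ₗ[𝕜] 𝕜 := LinearMap.mk₂ 𝕜 L
    (by
      intro x y g
      refine tendsto_nhds_unique_of_eventuallyEq (hL2 (x + y) g) ((hL2 x g).add (hL2 y g)) ?_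
      filter_upwards [hev {x, y}] with s hs
      rw [hA2 s x (hmemspan (by simp) hs) y (hmemspan (by simp) hs)]
      rfl)
    (by
      intro k x g
      refine tendsto_nhds_unique_of_eventuallyEq (hL2 (k • x) g) ((hL2 x g).const_smul k) ?_
      filter_upwards [hev {x}] with s hs
      rw [hA3 s x (hmemspan (by simp) hs) k]
      rfl)
    (by
      intro x g g'
      refine tendsto_nhds_unique_of_eventuallyEq (hL2 x (g + g')) ((hL2 x g).add (hL2 x g')) ?_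
      filter_upwards with s
      rw [map_add])
    (by
      intro k x g
      refine tendsto_nhds_unique_of_eventuallyEq (hL2 x (k • g)) ((hL2 x g).const_smul k) ?_
      filter_upwards with s
      rw [map_smul])
  refine ⟨M.mkContinuous₂ C (fun x g => hL1 x g), fun p x => ?_⟩
  change L p (ι x) = T p x
  refine tendsto_nhds_unique_of_eventuallyEq (hL2 p (ι x)) tendsto_const_nhds ?_
  filter_upwards [hev {p}] with s hs
  exact hA1 s p (hmemspan (by simp) hs) x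

end Pool.Agent.Helper69.Fd
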