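import Mathlib
import Pool.Agent.Helper69.FdDefs

set_option autoImplicit false

namespace Pool.Agent.Helper69.Fd



/-- helper: from pointwise bounds and an arbitrary finite index type. -/
theorem exists_T_of {𝕜 : Type} [RCLike 𝕜] {E : Type} [NormedAddCommGroup E] [NormedSpace 𝕜 E]
    (G : Submodule 𝕜 E) {ι : Type} [Fintype ι] (T : G ≃L[𝕜] PiLp 1 (fun _ : ι => 𝕜))
    (a b lam : ℝ) (ha : 0 ≤ a) (hb : 0 ≤ b) (h1 : ∀ x, ‖T x‖ ≤ a * ‖x‖)
    (h2 : ∀ y, ‖T.symm y‖ ≤ b * ‖y‖) (hab : a * b ≤ lam) :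
    FiniteDimensional 𝕜 G ∧ ∃ T : G ≃L[𝕜] PiLp 1 (fun _ : Fin (Module.finrank 𝕜 G) => 𝕜),
        ‖(T : G →L[𝕜] PiLp 1 (fun _ : Fin (Module.finrank 𝕜 G) => 𝕜))‖ *
        ‖(T.symm : PiLp 1 (fun _ : Fin (Module.finrank 𝕜 G) => 𝕜) →L[𝕜] G)‖ ≤ lam := by
  have hfd : FiniteDimensional 𝕜 G := LinearEquiv.finiteDimensional T.symm.toLinearEquiv
  have hcard : Module.finrank 𝕜 G = Fintype.card ι := by
    have h3 := LinearEquiv.finrank_eq T.toLinearEquiv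
    rw [h3]
    have h4 := LinearEquiv.finrank_eq (WithLp.linearEquiv 1 𝕜 (ι → 𝕜))
    rw [Module.finrank_fintype_fun_eq_card] at h4
    exact h4
  refine ⟨hfd, ?_⟩
  have e : ι ≃ Fin (Module.finrank 𝕜 G) := Fintype.equivFinOfCardEq hcard.symm
  let L := LinearIsometryEquiv.piLpCongrLeft 1 𝕜 𝕜 e
  refine ⟨T.trans L.toContinuousLinearEquiv, ?_⟩
  have n1 : ‖((T.trans L.toContinuousLinearEquiv : G ≃L[𝕜] PiLp 1 (fun _ : Fin (Module.finrank 𝕜 G) => 𝕜)) :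
      G →L[𝕜] PiLp 1 (fun _ : Fin (Module.finrank 𝕜 G) => 𝕜))‖ ≤ a := by
    refine ContinuousLinearMap.opNorm_le_bound _ ha (fun x => ?_)
    have : ‖L (T x)‖ ≤ a * ‖x‖ := by rw [L.norm_map]; exact h1 x
    exact this
  have n2 : ‖((T.trans L.toContinuousLinearEquiv : G ≃L[𝕜] PiLp 1 (fun _ : Fin (Module.finrank 𝕜 G) => 𝕜)).symm :
      PiLp 1 (fun _ : Fin (Module.finrank 𝕜 G) => 𝕜) →L[𝕜] G)‖ ≤ b := by
    refine ContinuousLinearMap.opNorm_le_bound _ hb (fun x => ?_)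
    have : ‖T.symm (L.symm x)‖ ≤ b * ‖x‖ := by
      refine (h2 _).trans ?_
      rw [L.symm.norm_map]
    exact this
  exact (mul_le_mul n1 n2 (norm_nonneg _) ha).trans hab

/-- helper: pointwise bounds from the norm bound. -/
theorem bounds_of {𝕜 : Type} [RCLike 𝕜] {E F : Type} [NormedAddCommGroup E] [NormedSpace 𝕜 E]
    [NormedAddCommGroup F] [NormedSpace 𝕜 F] (T : E ≃L[𝕜] F) (x : E) :
    ‖T x‖ ≤ ‖(T : E →L[𝕜] F)‖ * ‖x‖ := (T : E →L[𝕜] F).le_opNorm x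

/-- TARGET 1: it is enough to approximate finitely many points by copies of `ℓ₁^n`. -/
theorem isL1Space_of_approx {𝕜 : Type} [RCLike 𝕜] {E : Type} [NormedAddCommGroup E]
    [NormedSpace 𝕜 E] [CompleteSpace E] (lam : ℝ)
    (h : ∀ (s : Finset E) (ε : ℝ), 0 < ε → ∃ H : Submodule 𝕜 E, FiniteDimensional 𝕜 H ∧
      (∀ x ∈ s, ∃ y ∈ H, ‖x - y‖ ≤ ε) ∧
      ∃ T : H ≃L[𝕜] PiLp 1 (fun _ : Fin (Module.finrank 𝕜 H) => 𝕜),
        ‖(T : H →L[𝕜] PiLp 1 (fun _ : Fin (Module.finrank 𝕜 H) => 𝕜))‖ *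
        ‖(T.symm : PiLp 1 (fun _ : Fin (Module.finrank 𝕜 H) => 𝕜) →L[𝕜] H)‖ ≤ lam) :
    IsL1Space 𝕜 E := by
  classical
  refine ⟨3 * lam, fun F hF => ?_⟩
  let b := Module.finBasis 𝕜 F
  have hext : ∀ i, ∃ g : E →L[𝕜] 𝕜, (∀ x : F, g x = b.coord i x) := by
    intro i
    obtain ⟨g, hg, -⟩ := exists_extension_norm_eq F (LinearMap.toContinuousLinearMap (b.coord i))
    exact ⟨g, fun x => by rw [hg]; rfl⟩
  choose f hf using hext
  set M : ℝ := ∑ i, ‖f i‖ with hM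
  have hM0 : 0 ≤ M := Finset.sum_nonneg (fun i _ => norm_nonneg _)
  obtain ⟨H, hH, happ, T, hT⟩ := h (Finset.univ.image (fun i => ((b i : F) : E))) (1 / (2 * (M + 1)))
    (by positivity)
  have happ' : ∀ i, ∃ y ∈ H, ‖((b i : F) : E) - y‖ ≤ 1 / (2 * (M + 1)) := fun i =>
    happ _ (Finset.mem_image_of_mem _ (Finset.mem_univ i))
  choose y hyH hy using happ'
  let D : E →L[𝕜] E := ∑ i, (f i).smulRight (((b i : F) : E) - y i)
  have hDn : ‖D‖ ≤ 1 / 2 := by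
    calc ‖D‖ ≤ ∑ i, ‖(f i).smulRight (((b i : F) : E) - y i)‖ := norm_sum_le _ _
      _ ≤ ∑ i, ‖f i‖ * (1 / (2 * (M + 1))) := by
          refine Finset.sum_le_sum (fun i _ => ?_)
          rw [ContinuousLinearMap.norm_smulRight_apply]
          exact mul_le_mul_of_nonneg_left (hy i) (norm_nonneg _)
      _ = M * (1 / (2 * (M + 1))) := by rw [← Finset.sum_mul]
      _ ≤ 1 / 2 := by
          rw [mul_one_div, div_le_div_iff₀ (by positivity) (by norm_num)]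
          nlinarith
  have hD1 : ‖D‖ < 1 := by linarith
  let u := Units.oneSub D hD1
  let e : E ≃L[𝕜] E := ContinuousLinearEquiv.unitsEquiv 𝕜 E u
  have he : ∀ x, e x = x - D x := fun x => by
    simp only [e, ContinuousLinearEquiv.unitsEquiv_apply, u, Units.val_oneSub]
    rfl
  have hDx : ∀ x, ‖D x‖ ≤ 1 / 2 * ‖x‖ := fun x =>
    (D.le_opNorm x).trans (mul_le_mul_of_nonneg_right hDn (norm_nonneg _))
  have he1 : ∀ x, ‖e x‖ ≤ 3 / 2 * ‖x‖ := fun x => by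
    rw [he]
    have := norm_sub_le x (D x)
    have := hDx x
    linarith
  have he2 : ∀ x, ‖e.symm x‖ ≤ 2 * ‖x‖ := fun x => by
    have h1 : x = e.symm x - D (e.symm x) := by rw [← he]; simp
    have h2 : ‖e.symm x‖ ≤ ‖x‖ + ‖D (e.symm x)‖ := by
      have : e.symm x = x + D (e.symm x) := by
        rw [eq_sub_iff_add_eq] at h1
        exact h1.symm
      calc ‖e.symm x‖ = ‖x + D (e.symm x)‖ := by rw [← this]
        _ ≤ _ := norm_add_le _ _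
    have h3 := hDx (e.symm x)
    linarith
  have heb : ∀ i, e ((b i : F) : E) = y i := fun i => by
    rw [he]
    have : D ((b i : F) : E) = ((b i : F) : E) - y i := by
      simp only [D, sum_apply, ContinuousLinearMap.smulRight_apply]
      rw [Finset.sum_eq_single i]
      · rw [hf]; simp
      · intro j _ hj
        rw [hf]
        simp [hj.symm]
      · simp
    rw [this]; abel
  let G : Submodule 𝕜 E := H.map (e.symm : E →ₗ[𝕜] E)
  have hFG : F ≤ G := by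
    intro x hx
    have hx2 : x = ∑ i, (b.repr ⟨x, hx⟩ i) • ((b i : F) : E) := by
      have := b.sum_repr ⟨x, hx⟩
      have h2 := congrArg (fun z : F => (z : E)) this
      simp only at h2
      refine h2.symm.trans ?_
      rw [Submodule.coe_sum]
      rfl
    rw [hx2]
    refine Submodule.sum_mem _ (fun i _ => Submodule.smul_mem _ _ ?_)
    refine ⟨y i, hyH i, ?_⟩
    show e.symm (y i) = _
    rw [← heb i]; simp
  let S : H ≃L[𝕜] G := e.symm.submoduleMap H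
  have hS1 : ∀ x, ‖S x‖ ≤ 2 * ‖x‖ := fun x => he2 x
  have hS2 : ∀ x, ‖S.symm x‖ ≤ 3 / 2 * ‖x‖ := fun x => he1 x
  obtain ⟨hfd, T', hT'⟩ := exists_T_of G (S.symm.trans T)
    (‖(T : H →L[𝕜] PiLp 1 (fun _ : Fin (Module.finrank 𝕜 H) => 𝕜))‖ * (3 / 2))
    (2 * ‖(T.symm : PiLp 1 (fun _ : Fin (Module.finrank 𝕜 H) => 𝕜) →L[𝕜] H)‖) (3 * lam)
    (by positivity) (by positivity)
    (fun x => by
      have h1 := bounds_of T (S.symm x)
      have h2 := hS2 x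
      have h3 : (S.symm.trans T) x = T (S.symm x) := rfl
      rw [h3]
      refine h1.trans ?_
      rw [mul_assoc]
      exact mul_le_mul_of_nonneg_left h2 (norm_nonneg _))
    (fun x => by
      have h1 := hS1 (T.symm x)
      have h2 := bounds_of T.symm x
      have h3 : (S.symm.trans T).symm x = S (T.symm x) := rfl
      rw [h3]
      refine h1.trans ?_
      rw [mul_assoc]
      exact mul_le_mul_of_nonneg_left h2 (by norm_num))
    (by nlinarith)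
  exact ⟨G, hFG, hfd, T', hT'⟩

/-- TARGET 2 -/
theorem isL1Space_l1 (𝕜 : Type) [RCLike 𝕜] (S : Type) :
    IsL1Space 𝕜 (lp (fun _ : S => 𝕜) 1) := by
  classical
  refine isL1Space_of_approx 1 (fun s ε hε => ?_)
  have h1 : ∀ x ∈ s, ∀ᶠ A : Finset S in Filter.atTop,
      ‖x - ∑ i ∈ A, lp.single 1 i (x i)‖ ≤ ε := by
    intro x _
    have h2 := lp.hasSum_single (p := 1) ENNReal.one_ne_top x
    have h3 := (Metric.tendsto_nhds.mp h2) ε hε
    filter_upwards [h3] with A hA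
    rw [dist_comm, dist_eq_norm] at hA
    exact hA.le
  obtain ⟨A, hA⟩ := ((Filter.eventually_all_finset s).mpr h1).exists
  let Φ₀ : PiLp 1 (fun _ : A => 𝕜) →ₗ[𝕜] lp (fun _ : S => 𝕜) 1 :=
    { toFun := fun v => ∑ i : A, lp.single 1 (i : S) (v i)
      map_add' := fun v w => by
        rw [← Finset.sum_add_distrib]
        refine Finset.sum_congr rfl (fun i _ => ?_)
        rw [← lp.single_add]; rfl
      map_smul' := fun c v => by
        simp only [RingHom.id_apply]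
        rw [Finset.smul_sum]
        refine Finset.sum_congr rfl (fun i _ => ?_)
        rw [← lp.single_smul]; rfl }
  have hΦ : ∀ v, ‖Φ₀ v‖ = ‖v‖ := by
    intro v
    rw [PiLp.norm_eq_of_L1]
    let f : ∀ _ : S, 𝕜 := fun i => if h : i ∈ A then v ⟨i, h⟩ else 0
    have h4 : Φ₀ v = ∑ i ∈ A, lp.single 1 i (f i) := by
      rw [← Finset.sum_coe_sort A (fun i => (lp.single 1 i (f i) : lp (fun _ : S => 𝕜) 1))]
      show ∑ i : A, _ = _
      refine Finset.sum_congr rfl (fun i _ => ?_)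
      simp [f]
    have h5 := lp.norm_sum_single (p := 1) (E := fun _ : S => 𝕜) (by norm_num) f A
    rw [h4]
    simp only [ENNReal.toReal_one, Real.rpow_one] at h5
    rw [h5, ← Finset.sum_coe_sort A (fun i => ‖f i‖)]
    refine Finset.sum_congr rfl (fun i _ => ?_)
    simp [f]
  let Φ : PiLp 1 (fun _ : A => 𝕜) →ₗᵢ[𝕜] lp (fun _ : S => 𝕜) 1 := ⟨Φ₀, hΦ⟩
  let T := Φ.equivRange
  obtain ⟨hfd, T', hT'⟩ := exists_T_of (LinearMap.range Φ.toLinearMap) T.symm.toContinuousLinearEquiv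
    1 1 1 (by norm_num) (by norm_num)
    (fun x => by rw [one_mul]; exact (T.symm.norm_map x).le)
    (fun x => by rw [one_mul]; exact (T.norm_map x).le) (by norm_num)
  refine ⟨LinearMap.range Φ.toLinearMap, hfd, fun x hx => ?_, T', hT'⟩
  refine ⟨∑ i ∈ A, lp.single 1 i (x i), ?_, hA x hx⟩
  refine ⟨WithLp.toLp 1 (fun i : A => x i), ?_⟩
  show ∑ i : A, (lp.single 1 (i : S) (x i) : lp (fun _ : S => 𝕜) 1) = _
  rw [Finset.sum_coe_sort A (fun i => (lp.single 1 i (x i) : lp (fun _ : S => 𝕜) 1))]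

/-- helper: normalised `T`. -/
theorem exists_normalised {𝕜 : Type} [RCLike 𝕜] {E F : Type} [NormedAddCommGroup E]
    [NormedSpace 𝕜 E] [NormedAddCommGroup F] [NormedSpace 𝕜 F] (T : E ≃L[𝕜] F) (lam : ℝ)
    (hT : ‖(T : E →L[𝕜] F)‖ * ‖(T.symm : F →L[𝕜] E)‖ ≤ lam) :
    ∃ T' : E ≃L[𝕜] F, (∀ x, ‖T' x‖ ≤ ‖x‖) ∧ ∀ y, ‖T'.symm y‖ ≤ lam * ‖y‖ := by
  by_cases h0 : ‖(T : E →L[𝕜] F)‖ = 0
  · have hT0 : ∀ x, T x = 0 := fun x => by
      have := bounds_of T x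
      rw [h0, zero_mul] at this
      exact norm_le_zero_iff.mp this
    refine ⟨T, fun x => by rw [hT0]; simp, fun y => ?_⟩
    have hy : y = 0 := by rw [← T.apply_symm_apply y]; exact hT0 _
    subst hy
    simp
  · have hc : ((‖(T : E →L[𝕜] F)‖ : ℝ) : 𝕜) ≠ 0 := by
      simpa using h0
    let e : F ≃L[𝕜] F := ContinuousLinearEquiv.smulLeft (Units.mk0 ((‖(T : E →L[𝕜] F)‖ : ℝ) : 𝕜) hc)⁻¹
    refine ⟨T.trans e, fun x => ?_, fun y => ?_⟩
    · have h1 : (T.trans e) x = ((‖(T : E →L[𝕜] F)‖ : ℝ) : 𝕜)⁻¹ • T x := rfl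
      rw [h1, norm_smul, norm_inv, RCLike.norm_ofReal, abs_norm]
      have h2 := bounds_of T x
      rw [inv_mul_le_iff₀ (lt_of_le_of_ne (norm_nonneg _) (Ne.symm h0))]
      exact h2
    · have h1 : (T.trans e).symm y = T.symm (((‖(T : E →L[𝕜] F)‖ : ℝ) : 𝕜) • y) := by
        show T.symm (e.symm y) = _
        congr 1
      rw [h1, map_smul, norm_smul, RCLike.norm_ofReal, abs_norm]
      have h2 := bounds_of T.symm y
      calc ‖(T : E →L[𝕜] F)‖ * ‖T.symm y‖ ≤ ‖(T : E →L[𝕜] F)‖ * (‖(T.symm : F →L[𝕜] E)‖ * ‖y‖) :=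
            mul_le_mul_of_nonneg_left h2 (norm_nonneg _)
        _ = (‖(T : E →L[𝕜] F)‖ * ‖(T.symm : F →L[𝕜] E)‖) * ‖y‖ := by ring
        _ ≤ lam * ‖y‖ := mul_le_mul_of_nonneg_right hT (norm_nonneg _)

/-- helper: the product of two submodules. -/
def prodEquivL {𝕜 : Type} [RCLike 𝕜] {E F : Type} [NormedAddCommGroup E]
    [NormedSpace 𝕜 E] [NormedAddCommGroup F] [NormedSpace 𝕜 F] (G : Submodule 𝕜 E)
    (H : Submodule 𝕜 F) : (G.prod H) ≃L[𝕜] (G × H) where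
  toFun x := (⟨x.1.1, x.2.1⟩, ⟨x.1.2, x.2.2⟩)
  invFun y := ⟨(y.1.1, y.2.1), ⟨y.1.2, y.2.2⟩⟩
  map_add' x y := rfl
  map_smul' c x := rfl
  left_inv x := rfl
  right_inv y := rfl
  continuous_toFun := by fun_prop
  continuous_invFun := by fun_prop

/-- TARGET 3 -/
theorem isL1Space_prod {𝕜 : Type} [RCLike 𝕜] {E F : Type} [NormedAddCommGroup E]
    [NormedSpace 𝕜 E] [NormedAddCommGroup F] [NormedSpace 𝕜 F]
    (hE : IsL1Space 𝕜 E) (hF : IsL1Space 𝕜 F) : IsL1Space 𝕜 (E × F) := by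
  obtain ⟨l1, hl1⟩ := hE
  obtain ⟨l2, hl2⟩ := hF
  refine ⟨2 * (|l1| + |l2|), fun F0 hF0 => ?_⟩
  obtain ⟨G1, hG1, hfd1, T1, hT1⟩ := hl1 (F0.map (LinearMap.fst 𝕜 E F)) inferInstance
  obtain ⟨G2, hG2, hfd2, T2, hT2⟩ := hl2 (F0.map (LinearMap.snd 𝕜 E F)) inferInstance
  obtain ⟨S1, a1, b1⟩ := exists_normalised T1 l1 hT1
  obtain ⟨S2, a2, b2⟩ := exists_normalised T2 l2 hT2
  let Q : (WithLp 1 (PiLp 1 (fun _ : Fin (Module.finrank 𝕜 G1) => 𝕜) ×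
      PiLp 1 (fun _ : Fin (Module.finrank 𝕜 G2) => 𝕜))) ≃ₗᵢ[𝕜]
      PiLp 1 (fun _ : Fin (Module.finrank 𝕜 G1) ⊕ Fin (Module.finrank 𝕜 G2) => 𝕜) :=
    (PiLp.sumPiLpEquivProdLpPiLp 1 (fun _ => 𝕜)).symm
  let P := WithLp.prodContinuousLinearEquiv 1 𝕜 (PiLp 1 (fun _ : Fin (Module.finrank 𝕜 G1) => 𝕜))
    (PiLp 1 (fun _ : Fin (Module.finrank 𝕜 G2) => 𝕜))
  let T : (G1.prod G2) ≃L[𝕜]
      PiLp 1 (fun _ : Fin (Module.finrank 𝕜 G1) ⊕ Fin (Module.finrank 𝕜 G2) => 𝕜) :=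
    (prodEquivL G1 G2).trans ((S1.prodCongr S2).trans (P.symm.trans Q.toContinuousLinearEquiv))
  obtain ⟨hfd, T', hT'⟩ := exists_T_of (G1.prod G2) T 2 (|l1| + |l2|) (2 * (|l1| + |l2|))
    (by norm_num) (by positivity)
    (fun x => by
      have h1 : T x = Q (P.symm (S1 ⟨x.1.1, x.2.1⟩, S2 ⟨x.1.2, x.2.2⟩)) := rfl
      rw [h1, Q.norm_map, WithLp.prod_norm_eq_of_L1]
      have h2 : ‖S1 ⟨x.1.1, x.2.1⟩‖ ≤ ‖x.1.1‖ := a1 _
      have h3 : ‖S2 ⟨x.1.2, x.2.2⟩‖ ≤ ‖x.1.2‖ := a2 _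
      have h4 : ‖x.1.1‖ ≤ ‖x‖ := norm_fst_le x.1
      have h5 : ‖x.1.2‖ ≤ ‖x‖ := norm_snd_le x.1
      have h6 : ‖(P.symm (S1 ⟨x.1.1, x.2.1⟩, S2 ⟨x.1.2, x.2.2⟩)).fst‖ = ‖S1 ⟨x.1.1, x.2.1⟩‖ := rfl
      have h7 : ‖(P.symm (S1 ⟨x.1.1, x.2.1⟩, S2 ⟨x.1.2, x.2.2⟩)).snd‖ = ‖S2 ⟨x.1.2, x.2.2⟩‖ := rfl
      rw [h6, h7]
      linarith)
    (fun z => by
      have h0 : ‖z‖ = ‖(Q.symm z).fst‖ + ‖(Q.symm z).snd‖ := by
        rw [← WithLp.prod_norm_eq_of_L1, Q.symm.norm_map]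
      have h1 : ‖T.symm z‖ = max ‖(S1.symm (Q.symm z).fst : G1)‖ ‖(S2.symm (Q.symm z).snd : G2)‖ := rfl
      rw [h1]
      have h2 := b1 (Q.symm z).fst
      have h3 := b2 (Q.symm z).snd
      have e1 := norm_nonneg (Q.symm z).fst
      have e2 := norm_nonneg (Q.symm z).snd
      have e3 := le_abs_self l1
      have e4 := le_abs_self l2
      have e5 := abs_nonneg l1
      have e6 := abs_nonneg l2
      refine max_le ?_ ?_
      · rw [h0]
        nlinarith [mul_le_mul_of_nonneg_right e3 e1, mul_nonneg e5 e2, mul_nonneg e6 e1, mul_nonneg e6 e2]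
      · rw [h0]
        nlinarith [mul_le_mul_of_nonneg_right e4 e2, mul_nonneg e6 e1, mul_nonneg e5 e1, mul_nonneg e5 e2])
    le_rfl
  refine ⟨G1.prod G2, fun x hx => ?_, hfd, T', hT'⟩
  exact ⟨hG1 ⟨x, hx, rfl⟩, hG2 ⟨x, hx, rfl⟩⟩

/-- TARGET 4 -/
theorem isL1Space_of_subsingleton {𝕜 : Type} [RCLike 𝕜] {E : Type} [NormedAddCommGroup E]
    [NormedSpace 𝕜 E] [Subsingleton E] : IsL1Space 𝕜 E := by
  refine ⟨0, fun F hF => ?_⟩
  have e0 : F ≃ₗ[𝕜] PiLp 1 (fun _ : Empty => 𝕜) :=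
    { toFun := fun _ => 0
      invFun := fun _ => 0
      map_add' := fun _ _ => by simp
      map_smul' := fun _ _ => by simp
      left_inv := fun x => Subsingleton.elim _ _
      right_inv := fun x => by ext i; exact i.elim }
  obtain ⟨hfd, T', hT'⟩ := exists_T_of F e0.toContinuousLinearEquiv 0 0 0 le_rfl le_rfl
    (fun x => by
      have : x = 0 := Subsingleton.elim _ _
      subst this; simp)
    (fun y => by
      have : e0.toContinuousLinearEquiv.symm y = 0 := Subsingleton.elim _ _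
      rw [this]; simp) (by norm_num)
  exact ⟨F, le_rfl, hfd, T', hT'⟩

/-- TARGET 5 -/
theorem IsL1Space.of_equiv {𝕜 : Type} [RCLike 𝕜] {E F : Type} [NormedAddCommGroup E]
    [NormedSpace 𝕜 E] [NormedAddCommGroup F] [NormedSpace 𝕜 F] (e : E ≃L[𝕜] F)
    (hE : IsL1Space 𝕜 E) : IsL1Space 𝕜 F := by
  obtain ⟨lam, hl⟩ := hE
  refine ⟨(‖(e : E →L[𝕜] F)‖ * ‖(e.symm : F →L[𝕜] E)‖) * lam, fun F0 hF0 => ?_⟩
  obtain ⟨G, hG, hfd, T, hT⟩ := hl (F0.map (e.symm : F →ₗ[𝕜] E)) inferInstance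
  let S : G ≃L[𝕜] (G.map (e : E →ₗ[𝕜] F)) := e.submoduleMap G
  have hS1 : ∀ x, ‖S x‖ ≤ ‖(e : E →L[𝕜] F)‖ * ‖x‖ := fun x => bounds_of e x
  have hS2 : ∀ x, ‖S.symm x‖ ≤ ‖(e.symm : F →L[𝕜] E)‖ * ‖x‖ := fun x => bounds_of e.symm x
  obtain ⟨hfd, T', hT'⟩ := exists_T_of (G.map (e : E →ₗ[𝕜] F)) (S.symm.trans T)
    (‖(T : G →L[𝕜] PiLp 1 (fun _ : Fin (Module.finrank 𝕜 G) => 𝕜))‖ * ‖(e.symm : F →L[𝕜] E)‖)
    (‖(e : E →L[𝕜] F)‖ * ‖(T.symm : PiLp 1 (fun _ : Fin (Module.finrank 𝕜 G) => 𝕜) →L[𝕜] G)‖)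
    ((‖(e : E →L[𝕜] F)‖ * ‖(e.symm : F →L[𝕜] E)‖) * lam)
    (by positivity) (by positivity)
    (fun x => by
      have h1 := bounds_of T (S.symm x)
      have h2 := hS2 x
      have h3 : (S.symm.trans T) x = T (S.symm x) := rfl
      rw [h3]
      refine h1.trans ?_
      rw [mul_assoc]
      exact mul_le_mul_of_nonneg_left h2 (norm_nonneg _))
    (fun x => by
      have h1 := hS1 (T.symm x)
      have h2 := bounds_of T.symm x
      have h3 : (S.symm.trans T).symm x = S (T.symm x) := rfl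
      rw [h3]
      refine h1.trans ?_
      rw [mul_assoc]
      exact mul_le_mul_of_nonneg_left h2 (norm_nonneg _))
    (by
      have : 0 ≤ ‖(e : E →L[𝕜] F)‖ * ‖(e.symm : F →L[𝕜] E)‖ := by positivity
      nlinarith [mul_le_mul_of_nonneg_left hT this])
  refine ⟨_, ?_, hfd, T', hT'⟩
  intro x hx
  refine ⟨e.symm x, hG ⟨x, hx, rfl⟩, ?_⟩
  show e (e.symm x) = x
  simp

end Pool.Agent.Helper69.Fd

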