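import Mathlib
import Pool.Agent.Helper69.FdClass

set_option autoImplicit false

/-!
# Resolutions: comparison with the recursive classes, `Ext`-vanishing
-/

namespace Pool.Agent.Helper69.Fd

variable {𝕜 : Type} [RCLike 𝕜]

section

variable {X : Type} [NormedAddCommGroup X] [NormedSpace 𝕜 X] [CompleteSpace X]

/-- the tail of a resolution resolves the first kernel -/
theorem Resolution.shift (R : Resolution 𝕜 X) :
    ∃ (K : Type) (_ : NormedAddCommGroup K) (_ : NormedSpace 𝕜 K) (_ : CompleteSpace K)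
      (ν : K →L[𝕜] R.P 0) (δ : R.P 1 →L[𝕜] K), SES ν R.ε ∧ Function.Surjective δ ∧
      (∀ x, ν (δ x) = R.d 0 x) ∧ ∀ x, δ x = 0 ↔ ∃ y, R.d 1 y = x := by
  obtain ⟨K, i1, i2, i3, ν, hν⟩ := exists_ker R.ε R.surj
  obtain ⟨δ, hδ⟩ := colift hν (R.d 0) (fun x => (R.exact_zero _).2 ⟨x, rfl⟩)
  refine ⟨K, i1, i2, i3, ν, δ, hν, fun k => ?_, hδ, fun x => ?_⟩
  · obtain ⟨y, hy⟩ := (R.exact_zero (ν k)).1 ((hν.ex _).2 ⟨k, rfl⟩)
    exact ⟨y, hν.inj (by rw [hδ, hy])⟩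
  · rw [← R.exact 0 x]
    constructor
    · intro h; rw [← hδ, h, map_zero]
    · intro h; apply hν.inj; rw [hδ, h, map_zero]

/-- the shifted resolution -/
def Resolution.tail (R : Resolution 𝕜 X) {K : Type} [NormedAddCommGroup K] [NormedSpace 𝕜 K]
    (δ : R.P 1 →L[𝕜] K) (h1 : Function.Surjective δ) (h2 : ∀ x, δ x = 0 ↔ ∃ y, R.d 1 y = x) :
    Resolution 𝕜 K where
  P := fun i => R.P (i + 1)
  d := fun i => R.d (i + 1)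
  ε := δ
  surj := h1
  exact_zero := h2
  exact := fun i x => R.exact (i + 1) x

end

theorem fm_of_resolution {Q : Ban 𝕜 → Prop} (hQ : Resolving Q) :
    ∀ (n : ℕ) (X : Ban 𝕜) (R : Resolution 𝕜 X.C), (∀ i, Q ⟨R.P i⟩) →
      (∀ i, n < i → Subsingleton (R.P i)) → Fm Q n X
  | 0, X, R, hP, hn => by
    have hinj : Function.Injective R.ε := by
      rw [injective_iff_map_eq_zero]
      intro x hx
      obtain ⟨y, rfl⟩ := (R.exact_zero x).1 hx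
      have := hn 1 zero_lt_one
      rw [Subsingleton.elim y 0, map_zero]
    have e : R.P 0 ≃L[𝕜] X.C := ContinuousLinearEquiv.ofBijective R.ε
      (LinearMap.ker_eq_bot.2 hinj) (LinearMap.range_eq_top.2 R.surj)
    exact hQ.iso ⟨R.P 0⟩ X ⟨e⟩ (hP 0)
  | n + 1, X, R, hP, hn => by
    obtain ⟨K, i1, i2, i3, ν, δ, hν, h1, h2, h3⟩ := R.shift
    exact ⟨⟨K⟩, ⟨R.P 0⟩, ν, R.ε, hν, hP 0,
      fm_of_resolution hQ n ⟨K⟩ (R.tail δ h1 h3) (fun i => hP (i + 1))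
        (fun i hi => hn (i + 1) (by omega))⟩

/-- The vanishing of `Ext^{j+1}(X, F^*)`, `j ≥ m`, for `X` of flat dimension at most `m`. -/
theorem ext_vanish : ∀ (m j : ℕ), m ≤ j → ∀ (X : Ban 𝕜) (R : Resolution 𝕜 X.C),
    (∀ i, Proj (𝕜 := 𝕜) ⟨R.P i⟩) → (∀ i, QL (𝕜 := 𝕜) ⟨R.P i⟩) → Fm QL m X →
    ∀ (F : Type) [NormedAddCommGroup F] [NormedSpace 𝕜 F] [CompleteSpace F]
      (f : R.P (j + 1) →L[𝕜] (F →L[𝕜] 𝕜)), (∀ y, f (R.d (j + 1) y) = 0) →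
      ∃ g : R.P j →L[𝕜] (F →L[𝕜] 𝕜), ∀ x, g (R.d j x) = f x
  | 0, 0, _, X, R, hP, hP', hX, F, _, _, _, f, hf => by
    obtain ⟨K, i1, i2, i3, ν, δ, hν, h1, h2, h3⟩ := R.shift
    obtain ⟨f', hf'⟩ := factor δ h1 f (fun x hx => by
      obtain ⟨y, rfl⟩ := (h3 x).1 hx
      exact hf y)
    obtain ⟨g, hg⟩ := extend_dual hν hX f'
    exact ⟨g, fun x => by rw [← h2, hg, hf']⟩
  | 0, j + 1, _, X, R, hP, hP', hX, F, _, _, _, f, hf => by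
    obtain ⟨K, i1, i2, i3, ν, δ, hν, h1, h2, h3⟩ := R.shift
    have hK : QL (𝕜 := 𝕜) ⟨K⟩ := SES.propL hν (hP' 0) hX
    exact ext_vanish 0 j (Nat.zero_le _) ⟨K⟩ (R.tail δ h1 h3) (fun i => hP (i + 1))
      (fun i => hP' (i + 1)) hK F f hf
  | m + 1, 0, h, _, _, _, _, _, _, _, _, _, _, _ => absurd h (by omega)
  | m + 1, j + 1, h, X, R, hP, hP', hX, F, _, _, _, f, hf => by
    obtain ⟨K, i1, i2, i3, ν, δ, hν, h1, h2, h3⟩ := R.shift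
    have hK : Fm (QL (𝕜 := 𝕜)) m ⟨K⟩ :=
      Fm.syzygy resolving_QL m ⟨K⟩ ⟨R.P 0⟩ X ν R.ε hν (hP 0) (hP' 0) hX
    exact ext_vanish m j (by omega) ⟨K⟩ (R.tail δ h1 h3) (fun i => hP (i + 1))
      (fun i => hP' (i + 1)) hK F f hf

/-- If the first map `P (n+1) = ℓ¹(S) → P n` of a projective resolution of length `n + 1` has no
left inverse then there is no resolution of length `n` by spaces with the lifting property. -/
theorem not_fm_of_no_retract (n : ℕ) (X : Ban 𝕜) (R : Resolution 𝕜 X.C)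
    (hP : ∀ i, ∃ S : Type, Nonempty (R.P i ≃L[𝕜] l1 𝕜 S))
    (htop : ∀ y : R.P (n + 2), R.d (n + 1) y = 0)
    (hno : ¬ ∃ r : R.P n →L[𝕜] R.P (n + 1), ∀ x, r (R.d n x) = x) : ¬ Fm QL n X := by
  intro hX
  apply hno
  have hproj : ∀ i, Proj (𝕜 := 𝕜) ⟨R.P i⟩ := by
    intro i
    obtain ⟨S, ⟨e⟩⟩ := hP i
    exact Proj.iso (X := ⟨l1 𝕜 S⟩) (Y := ⟨R.P i⟩) e.symm (proj_l1 S)
  have hQL : ∀ i, QL (𝕜 := 𝕜) ⟨R.P i⟩ := by
    intro i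
    obtain ⟨S, ⟨e⟩⟩ := hP i
    exact resolving_QL.iso ⟨l1 𝕜 S⟩ ⟨R.P i⟩ ⟨e.symm⟩ (resolving_QL.free S)
  obtain ⟨S, ⟨e⟩⟩ := hP (n + 1)
  obtain ⟨g, hg⟩ := ext_vanish n n le_rfl X R hproj hQL hX (linf 𝕜 S)
    ((kap 𝕜 S).comp (e : R.P (n + 1) →L[𝕜] l1 𝕜 S)) (fun y => by rw [htop, map_zero])
  refine ⟨(e.symm : l1 𝕜 S →L[𝕜] R.P (n + 1)).comp ((rho 𝕜 S).comp g), fun x => ?_⟩
  rw [ContinuousLinearMap.comp_apply, ContinuousLinearMap.comp_apply, hg,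
    ContinuousLinearMap.comp_apply, rho_kap]
  simp

/-! ### the dichotomy for the projective dimension of flat spaces -/

theorem Proj.propL {X : Ban 𝕜} (h : Proj X) : PropL 𝕜 X.C := by
  obtain ⟨s, hs⟩ := h ⟨l1 𝕜 (Ball X.C)⟩ X (cov 𝕜 X.C) (cov_surj X.C)
    (ContinuousLinearMap.id 𝕜 X.C)
  exact PropL.retract (propL_l1 (Ball X.C)) s (cov 𝕜 X.C) hs

theorem proj_of_fm : ∀ (m : ℕ) (W : Ban 𝕜), PropL 𝕜 W.C → Fm Proj m W → Proj W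
  | 0, _, _, h => h
  | m + 1, W, hW, ⟨K, P, i, q, hs, hP, hK⟩ => by
    have hKL : PropL 𝕜 K.C := hs.propL hP.propL hW
    have hKP : Proj K := proj_of_fm m K hKL hK
    obtain ⟨σ, hσ⟩ := hKP ⟨l1 𝕜 (Ball K.C)⟩ K (cov 𝕜 K.C) (cov_surj K.C)
      (ContinuousLinearMap.id 𝕜 K.C)
    have hσ' : ∀ k, cov 𝕜 K.C (σ k) = k := hσ
    obtain ⟨g, hg⟩ := extend_dual hs hW ((kap 𝕜 (Ball K.C)).comp σ)
    let r : P.C →L[𝕜] K.C := (cov 𝕜 K.C).comp ((rho 𝕜 (Ball K.C)).comp g)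
    have hr : ∀ k, r (i k) = k := by
      intro k
      show cov 𝕜 K.C (rho 𝕜 (Ball K.C) (g (i k))) = k
      rw [hg, ContinuousLinearMap.comp_apply, rho_kap, hσ']
    obtain ⟨s, hs'⟩ := factor q hs.surj (ContinuousLinearMap.id 𝕜 P.C - i.comp r) (fun b hb => by
      obtain ⟨k, rfl⟩ := (hs.ex b).1 hb
      show i k - i (r (i k)) = 0
      rw [hr, sub_self])
    have hs'' : ∀ b, s (q b) = b - i (r b) := hs'
    refine Proj.retract hP s q (fun y => ?_)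
    obtain ⟨b, rfl⟩ := hs.surj y
    rw [hs'', map_sub, (hs.ex (i (r b))).2 ⟨_, rfl⟩, sub_zero]

/-- a projective space embeds into some `ℓ¹(S)` -/
theorem Proj.embeds {W : Ban 𝕜} (h : Proj W) :
    ∃ (S : Type) (j : W.C →L[𝕜] l1 𝕜 S) (c : ℝ), ∀ w, ‖w‖ ≤ c * ‖j w‖ := by
  obtain ⟨s, hs⟩ := h ⟨l1 𝕜 (Ball W.C)⟩ W (cov 𝕜 W.C) (cov_surj W.C)
    (ContinuousLinearMap.id 𝕜 W.C)
  have hs' : ∀ w, cov 𝕜 W.C (s w) = w := hs
  refine ⟨Ball W.C, s, ‖cov 𝕜 W.C‖, fun w => ?_⟩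
  calc ‖w‖ = ‖cov 𝕜 W.C (s w)‖ := by rw [hs']
    _ ≤ ‖cov 𝕜 W.C‖ * ‖s w‖ := (cov 𝕜 W.C).le_opNorm _

end Pool.Agent.Helper69.Fd
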