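import Mathlib
import Pool.Agent.Helper69.FdL1
import Pool.Agent.Helper69.FdDefs
import Pool.Agent.Helper69.FdComplex

set_option autoImplicit false

open scoped ENNReal Topology BigOperators

namespace Pool.Agent.Helper69.Fd

namespace SumAux

variable {𝕜 : Type} [RCLike 𝕜]


/-! ### blocks -/

section blocks

variable {T U V : ℕ → Type} [∀ L, Fintype (T L)] [∀ L, Fintype (U L)] [∀ L, Fintype (V L)]

/-- the `L`-th block -/
def blk {T : ℕ → Type} (x : l1 𝕜 (Σ L, T L)) (L : ℕ) : T L → 𝕜 := fun s => x ⟨L, s⟩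

theorem n1_nonneg {S : Type} [Fintype S] (f : S → 𝕜) : 0 ≤ n1 f :=
  Finset.sum_nonneg fun _ _ => norm_nonneg _

theorem blk_hasSum (x : l1 𝕜 (Σ L, T L)) : HasSum (fun L => n1 (blk x L)) ‖x‖ :=
  HasSum.sigma (l1_hasSum x) fun _ => hasSum_fintype _

theorem n1_blk_le (x : l1 𝕜 (Σ L, T L)) (L : ℕ) : n1 (blk x L) ≤ ‖x‖ :=
  le_hasSum (blk_hasSum x) L fun _ _ => n1_nonneg _

omit [∀ L, Fintype (T L)] in
theorem blk_ext {x y : l1 𝕜 (Σ L, T L)} (h : ∀ L, blk x L = blk y L) : x = y := by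
  ext ⟨L, s⟩
  exact congrFun (h L) s

theorem summable_glue (y : ∀ L, T L → 𝕜) (h : Summable fun L => n1 (y L)) :
    Summable fun s : (Σ L, T L) => ‖y s.1 s.2‖ := by
  rw [summable_sigma_of_nonneg (fun s => norm_nonneg _)]
  refine ⟨fun L => Summable.of_finite, ?_⟩
  convert h using 1
  funext L
  rw [tsum_fintype]
  rfl

theorem summable_of_le (y : ∀ L, T L → 𝕜) (x : l1 𝕜 (Σ L, U L)) (c : ℝ)
    (h : ∀ L, n1 (y L) ≤ c * n1 (blk x L)) : Summable fun L => n1 (y L) :=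
  Summable.of_nonneg_of_le (fun _ => n1_nonneg _) h ((blk_hasSum x).summable.mul_left c)

theorem glue_ex (y : ∀ L, T L → 𝕜) (x : l1 𝕜 (Σ L, U L)) (c : ℝ)
    (h : ∀ L, n1 (y L) ≤ c * n1 (blk x L)) :
    ∃ z : l1 𝕜 (Σ L, T L), (∀ L, blk z L = y L) ∧ ‖z‖ ≤ c * ‖x‖ := by
  refine ⟨mk1 _ (summable_glue y (summable_of_le y x c h)), fun L => rfl, ?_⟩
  have h1 := blk_hasSum (mk1 _ (summable_glue y (summable_of_le y x c h)))
  exact hasSum_le h h1 ((blk_hasSum x).mul_left c)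

/-- the block diagonal operator -/
noncomputable def dop (D : ∀ L, (T L → 𝕜) →ₗ[𝕜] (U L → 𝕜)) (B : ℝ)
    (hB : ∀ L y, n1 (D L y) ≤ B * n1 y) : l1 𝕜 (Σ L, T L) →L[𝕜] l1 𝕜 (Σ L, U L) :=
  LinearMap.mkContinuous
    { toFun := fun x => mk1 (fun s : (Σ L, U L) => D s.1 (blk x s.1) s.2)
        (summable_glue (fun L => D L (blk x L)) (summable_of_le _ x B fun L => hB L _))
      map_add' := fun x y => by
        ext ⟨L, s⟩
        show D L (blk (x + y) L) s = D L (blk x L) s + D L (blk y L) s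
        have : blk (x + y) L = blk x L + blk y L := rfl
        rw [this, map_add]
        rfl
      map_smul' := fun a x => by
        ext ⟨L, s⟩
        show D L (blk (a • x) L) s = a • D L (blk x L) s
        have : blk (a • x) L = a • blk x L := rfl
        rw [this, map_smul]
        rfl }
    B (fun x => by
      have h1 := blk_hasSum (mk1 (fun s : (Σ L, U L) => D s.1 (blk x s.1) s.2)
        (summable_glue (fun L => D L (blk x L)) (summable_of_le _ x B fun L => hB L _)))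
      exact hasSum_le (fun L => hB L (blk x L)) h1 ((blk_hasSum x).mul_left B))

theorem blk_dop (D : ∀ L, (T L → 𝕜) →ₗ[𝕜] (U L → 𝕜)) (B : ℝ)
    (hB : ∀ L y, n1 (D L y) ≤ B * n1 y) (x : l1 𝕜 (Σ L, T L)) (L : ℕ) :
    blk (dop D B hB x) L = D L (blk x L) := rfl

/-- exactness -/
theorem dop_exact (D : ∀ L, (T L → 𝕜) →ₗ[𝕜] (U L → 𝕜)) (D' : ∀ L, (V L → 𝕜) →ₗ[𝕜] (T L → 𝕜))
    (B B' C : ℝ) (hB : ∀ L y, n1 (D L y) ≤ B * n1 y) (hB' : ∀ L y, n1 (D' L y) ≤ B' * n1 y)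
    (hsq : ∀ L y, D L (D' L y) = 0)
    (hex : ∀ L z, D L z = 0 → ∃ y, D' L y = z ∧ n1 y ≤ C * n1 z) (x : l1 𝕜 (Σ L, T L)) :
    dop D B hB x = 0 ↔ ∃ y, dop D' B' hB' y = x := by
  constructor
  · intro hx
    have h1 : ∀ L, D L (blk x L) = 0 := by
      intro L
      rw [← blk_dop D B hB x L, hx]
      rfl
    choose y hy1 hy2 using fun L => hex L (blk x L) (h1 L)
    obtain ⟨z, hz, -⟩ := glue_ex y x C hy2
    refine ⟨z, blk_ext fun L => ?_⟩
    rw [blk_dop, hz, hy1]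
  · rintro ⟨y, rfl⟩
    apply blk_ext
    intro L
    rw [blk_dop, blk_dop, hsq]
    rfl

/-- coordinate maps are continuous -/
theorem continuous_blk (L : ℕ) : Continuous fun x : l1 𝕜 (Σ L, T L) => blk x L := by
  apply continuous_pi
  intro s
  have : LipschitzWith 1 fun x : l1 𝕜 (Σ L, T L) => x ⟨L, s⟩ := by
    apply LipschitzWith.of_dist_le_mul
    intro x y
    rw [NNReal.coe_one, one_mul, dist_eq_norm, dist_eq_norm]
    exact lp.norm_apply_le_norm (by simp) (x - y) ⟨L, s⟩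
  exact this.continuous

theorem range_closed (D : ∀ L, (T L → 𝕜) →ₗ[𝕜] (U L → 𝕜))
    (B C : ℝ) (hB : ∀ L y, n1 (D L y) ≤ B * n1 y)
    (hop : ∀ L y, ∃ y', D L y' = D L y ∧ n1 y' ≤ C * n1 (D L y)) :
    IsClosed ((LinearMap.range (dop D B hB).toLinearMap : Submodule 𝕜 (l1 𝕜 (Σ L, U L))) :
      Set (l1 𝕜 (Σ L, U L))) := by
  have e : ((LinearMap.range (dop D B hB).toLinearMap : Submodule 𝕜 (l1 𝕜 (Σ L, U L))) :
      Set (l1 𝕜 (Σ L, U L))) = ⋂ L, (fun x => blk x L) ⁻¹' (LinearMap.range (D L) : Set _) := by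
    ext x
    simp only [SetLike.mem_coe, LinearMap.mem_range, Set.mem_iInter, Set.mem_preimage]
    constructor
    · rintro ⟨y, rfl⟩ L
      exact ⟨blk y L, (blk_dop D B hB y L).symm⟩
    · intro hx
      have h1 : ∀ L, ∃ y', D L y' = blk x L ∧ n1 y' ≤ C * n1 (blk x L) := by
        intro L
        obtain ⟨y, hy⟩ := hx L
        obtain ⟨y', h1, h2⟩ := hop L y
        exact ⟨y', by rw [h1, hy], by rw [← hy]; exact h2⟩
      choose y hy1 hy2 using h1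
      obtain ⟨z, hz, -⟩ := glue_ex y x C hy2
      refine ⟨z, blk_ext fun L => ?_⟩
      show blk (dop D B hB z) L = _
      rw [blk_dop, hz, hy1]
  rw [e]
  refine isClosed_iInter fun L => ?_
  exact (Submodule.closed_of_finiteDimensional _).preimage (continuous_blk L)

/-- inclusion of a block -/
noncomputable def inc (L : ℕ) (f : T L → 𝕜) : l1 𝕜 (Σ L, T L) :=
  ∑ s, f s • bas 𝕜 (⟨L, s⟩ : Σ L, T L)

theorem sum_apply' {S : Type} {κ : Type} (F : Finset κ) (g : κ → l1 𝕜 S) (t : S) :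
    (∑ k ∈ F, g k) t = ∑ k ∈ F, g k t := by
  classical
  induction F using Finset.induction_on with
  | empty => rfl
  | insert a F ha ih =>
    rw [Finset.sum_insert ha, Finset.sum_insert ha, ← ih]
    rfl

theorem inc_same (L : ℕ) (f : T L → 𝕜) : blk (inc L f) L = f := by
  classical
  funext s
  unfold blk inc
  rw [sum_apply', Finset.sum_eq_single s]
  · rw [lp.coeFn_smul, Pi.smul_apply, bas_apply, if_pos rfl, smul_eq_mul, mul_one]
  · intro t _ hts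
    rw [lp.coeFn_smul, Pi.smul_apply, bas_apply, if_neg, smul_zero]
    intro h
    apply hts
    rw [Sigma.mk.injEq] at h
    exact (eq_of_heq h.2).symm
  · intro h
    exact absurd (Finset.mem_univ _) h

theorem inc_ne {L L' : ℕ} (hL : L' ≠ L) (f : T L → 𝕜) : blk (inc L f) L' = 0 := by
  classical
  funext s
  unfold blk inc
  rw [sum_apply']
  apply Finset.sum_eq_zero
  intro t _
  rw [lp.coeFn_smul, Pi.smul_apply, bas_apply, if_neg, smul_zero]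
  intro h
  rw [Sigma.mk.injEq] at h
  exact hL h.1

theorem dop_inc (D : ∀ L, (T L → 𝕜) →ₗ[𝕜] (U L → 𝕜)) (B : ℝ)
    (hB : ∀ L y, n1 (D L y) ≤ B * n1 y) (L : ℕ) (f : T L → 𝕜) :
    dop D B hB (inc L f) = inc L (D L f) := by
  apply blk_ext
  intro L'
  rw [blk_dop]
  by_cases h : L' = L
  · subst h
    rw [inc_same, inc_same]
  · rw [inc_ne h, inc_ne h, map_zero]

theorem no_left_inverse (D : ∀ L, (T L → 𝕜) →ₗ[𝕜] (U L → 𝕜)) (B : ℝ)
    (hB : ∀ L y, n1 (D L y) ≤ B * n1 y) (hne : ∀ L, Nonempty (T L))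
    (hcert : ∀ L : ℕ, ∃ (θ : T L → (T L → 𝕜)) (c : U L → ℝ), (∀ t, θ t t = 1) ∧
      (∀ t u, ‖D L (θ t) u‖ ≤ c u) ∧
      ∑ u, c u ≤ (1 / ((L : ℝ) + 1)) * Fintype.card (T L)) :
    ¬ ∃ r : l1 𝕜 (Σ L, U L) →L[𝕜] l1 𝕜 (Σ L, T L), ∀ x, r (dop D B hB x) = x := by
  rintro ⟨r, hr⟩
  obtain ⟨L, hL⟩ := exists_nat_gt ‖r‖
  obtain ⟨θ, c, h1, h2, h3⟩ := hcert L
  obtain ⟨t0⟩ := hne L
  have hc0 : ∀ u, 0 ≤ c u := fun u => (norm_nonneg _).trans (h2 t0 u)
  have key : ∀ t, (1 : ℝ) ≤ ∑ u, c u * ‖(r (bas 𝕜 (⟨L, u⟩ : Σ L, U L))) ⟨L, t⟩‖ := by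
    intro t
    have e1 := hr (inc L (θ t))
    rw [dop_inc] at e1
    have e2 : (r (inc L (D L (θ t)))) ⟨L, t⟩ =
        ∑ u, D L (θ t) u * (r (bas 𝕜 (⟨L, u⟩ : Σ L, U L))) ⟨L, t⟩ := by
      unfold inc
      rw [map_sum, sum_apply']
      refine Finset.sum_congr rfl fun u _ => ?_
      rw [map_smul, lp.coeFn_smul, Pi.smul_apply, smul_eq_mul]
    have e3 : (inc L (θ t) : l1 𝕜 (Σ L, T L)) ⟨L, t⟩ = 1 := by
      rw [← h1 t]
      exact congrFun (inc_same L (θ t)) t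
    rw [e1, e3] at e2
    have e4 : (1 : ℝ) = ‖∑ u, D L (θ t) u * (r (bas 𝕜 (⟨L, u⟩ : Σ L, U L))) ⟨L, t⟩‖ := by
      rw [← e2, norm_one]
    rw [e4]
    refine (norm_sum_le _ _).trans (Finset.sum_le_sum fun u _ => ?_)
    rw [norm_mul]
    exact mul_le_mul_of_nonneg_right (h2 t u) (norm_nonneg _)
  have hsum : (Fintype.card (T L) : ℝ) ≤
      ∑ t, ∑ u, c u * ‖(r (bas 𝕜 (⟨L, u⟩ : Σ L, U L))) ⟨L, t⟩‖ := by
    have : (Fintype.card (T L) : ℝ) = ∑ t : T L, (1 : ℝ) := by simp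
    rw [this]
    exact Finset.sum_le_sum fun t _ => key t
  rw [Finset.sum_comm] at hsum
  have h4 : ∑ u, ∑ t, c u * ‖(r (bas 𝕜 (⟨L, u⟩ : Σ L, U L))) ⟨L, t⟩‖ ≤ ∑ u, c u * ‖r‖ := by
    refine Finset.sum_le_sum fun u _ => ?_
    rw [← Finset.mul_sum]
    refine mul_le_mul_of_nonneg_left ?_ (hc0 u)
    refine (n1_blk_le (r (bas 𝕜 (⟨L, u⟩ : Σ L, U L))) L).trans ?_
    refine (r.le_opNorm _).trans ?_
    rw [norm_bas, mul_one]
  rw [← Finset.sum_mul] at h4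
  have h5 : (∑ u, c u) * ‖r‖ ≤ (1 / ((L : ℝ) + 1)) * Fintype.card (T L) * ‖r‖ :=
    mul_le_mul_of_nonneg_right h3 (norm_nonneg _)
  have hN : (0 : ℝ) < Fintype.card (T L) := by
    have : 0 < Fintype.card (T L) := Fintype.card_pos_iff.mpr ⟨t0⟩
    exact_mod_cast this
  have h6 : (Fintype.card (T L) : ℝ) ≤ (1 / ((L : ℝ) + 1)) * Fintype.card (T L) * ‖r‖ := by
    linarith
  have hL1 : (0 : ℝ) < (L : ℝ) + 1 := by positivity
  have h7 : (Fintype.card (T L) : ℝ) * ((L : ℝ) + 1) ≤ Fintype.card (T L) * ‖r‖ := by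
    have := mul_le_mul_of_nonneg_right h6 hL1.le
    have e : (1 / ((L : ℝ) + 1)) * Fintype.card (T L) * ‖r‖ * ((L : ℝ) + 1) =
        Fintype.card (T L) * ‖r‖ := by field_simp
    rw [e] at this
    exact this
  have h8 : (L : ℝ) + 1 ≤ ‖r‖ := le_of_mul_le_mul_left h7 hN
  linarith

end blocks

end SumAux

open SumAux in
theorem exists_sum (𝕜 : Type) [RCLike 𝕜] (m : ℕ) (B C : ℝ) (hB : 0 ≤ B) (hC : 0 ≤ C)
    (h : ∀ ε : ℝ, 0 < ε → ∃ K : FC 𝕜, K.Good (m + 1) B C ∧ K.Cert m ε) :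
    ∃ (X : Type) (_ : NormedAddCommGroup X) (_ : NormedSpace 𝕜 X) (_ : CompleteSpace X)
      (R : Resolution 𝕜 X), (∀ i, ∃ S : Type, Nonempty (R.P i ≃ₗᵢ[𝕜] l1 𝕜 S)) ∧
      (∀ i, m + 1 < i → Subsingleton (R.P i)) ∧
      ¬ ∃ r : R.P m →L[𝕜] R.P (m + 1), ∀ x, r (R.d m x) = x := by
  choose K hK hcert using fun L : ℕ => h (1 / ((L : ℝ) + 1)) (by positivity)
  let d : ∀ j : ℕ, l1 𝕜 (Σ L, (K L).S (j + 1)) →L[𝕜] l1 𝕜 (Σ L, (K L).S j) := fun j =>
    dop (fun L => (K L).D j) B (fun L y => (hK L).bdd j y)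
  let N : Submodule 𝕜 (l1 𝕜 (Σ L, (K L).S 0)) := LinearMap.range (d 0).toLinearMap
  have hcl : IsClosed (N : Set (l1 𝕜 (Σ L, (K L).S 0))) :=
    range_closed _ B C _ fun L y => (hK L).op y
  let ε : l1 𝕜 (Σ L, (K L).S 0) →L[𝕜] (l1 𝕜 (Σ L, (K L).S 0) ⧸ N) :=
    LinearMap.mkContinuous N.mkQ 1 (fun x => by
      rw [one_mul]
      exact Submodule.Quotient.norm_mk_le N x)
  let R : Resolution 𝕜 (l1 𝕜 (Σ L, (K L).S 0) ⧸ N) :=
    { P := fun j => l1 𝕜 (Σ L, (K L).S j)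
      d := d
      ε := ε
      surj := Submodule.mkQ_surjective N
      exact_zero := fun x => by
        show N.mkQ x = 0 ↔ _
        rw [Submodule.mkQ_apply, Submodule.Quotient.mk_eq_zero]
        exact Iff.rfl
      exact := fun j x => dop_exact _ _ B B C _ _ (fun L y => (hK L).sq j y)
        (fun L z hz => (hK L).ex j z hz) x }
  refine ⟨l1 𝕜 (Σ L, (K L).S 0) ⧸ N, inferInstance, inferInstance, inferInstance, R, ?_, ?_, ?_⟩
  · intro i
    exact ⟨_, ⟨LinearIsometryEquiv.refl 𝕜 _⟩⟩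
  · intro i hi
    have hemp : ∀ L, IsEmpty ((K L).S i) := fun L => (hK L).empty i hi
    show Subsingleton (l1 𝕜 (Σ L, (K L).S i))
    constructor
    intro x y
    ext ⟨L, s⟩
    exact (hemp L).elim s
  · refine no_left_inverse (fun L => (K L).D m) B (fun L y => (hK L).bdd m y)
      (fun L => (hK L).ne) ?_
    intro L
    obtain ⟨θ, c, h1, -, h3, h4⟩ := hcert L
    exact ⟨θ, c, h1, h3, h4⟩

end Pool.Agent.Helper69.Fd
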