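import Mathlib
import Pool.Agent.Helper69.FdAvg

set_option autoImplicit false

open scoped BigOperators

namespace Pool.Agent.Helper69.Fd



open MeasureTheory in
theorem aux833_int (x y : ℝ) :
    Integrable (fun t : ℝ => |(if t < x then (1 : ℝ) else 0) - (if t < y then (1 : ℝ) else 0)|) ∧
    ∫ t : ℝ, |(if t < x then (1 : ℝ) else 0) - (if t < y then (1 : ℝ) else 0)| = |x - y| := by
  have e : (fun t : ℝ => |(if t < x then (1 : ℝ) else 0) - (if t < y then (1 : ℝ) else 0)|)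
      = (Set.Ico (min x y) (max x y)).indicator (fun _ => (1 : ℝ)) := by
    funext t
    by_cases h : t ∈ Set.Ico (min x y) (max x y)
    · rw [Set.indicator_of_mem h]
      rw [Set.mem_Ico, min_le_iff, lt_max_iff] at h
      obtain ⟨h1, h2⟩ := h
      by_cases hx : t < x
      · by_cases hy : t < y
        · rcases h1 with h1 | h1
          · exact absurd hx (not_lt.2 h1)
          · exact absurd hy (not_lt.2 h1)
        · rw [if_pos hx, if_neg hy]; simp
      · by_cases hy : t < y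
        · rw [if_neg hx, if_pos hy]; simp
        · rcases h2 with h2 | h2
          · exact absurd h2 hx
          · exact absurd h2 hy
    · rw [Set.indicator_of_notMem h]
      rw [Set.mem_Ico, min_le_iff, lt_max_iff, not_and_or, not_or, not_or] at h
      rcases h with h | h
      · rw [if_pos (not_le.1 h.1), if_pos (not_le.1 h.2)]; simp
      · rw [if_neg h.1, if_neg h.2]; simp
  rw [e]
  constructor
  · refine (integrable_indicator_iff measurableSet_Ico).2 ?_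
    exact integrableOn_const (by simp) 
  · rw [integral_indicator measurableSet_Ico]
    simp only [integral_const, smul_eq_mul, mul_one, MeasurableSet.univ, measureReal_restrict_apply,
      Set.univ_inter, Real.volume_real_Ico]
    rw [max_sub_min_eq_abs, max_eq_left (abs_nonneg _), abs_sub_comm]

open MeasureTheory in
open Classical in
theorem aux833_layer {ι J1 J2 : Type*} [Fintype J1] [Fintype J2] (α β : ℝ) (a b : J1 → ι)
    (a' b' : J2 → ι)
    (H : ∀ g : ι → ℝ, (∀ i, g i = 0 ∨ g i = 1) →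
      α * ∑ j, |g (a j) - g (b j)| ≤ β * ∑ j, |g (a' j) - g (b' j)|) (h : ι → ℝ) :
    α * ∑ j, |h (a j) - h (b j)| ≤ β * ∑ j, |h (a' j) - h (b' j)| := by
  have e1 : α * ∑ j, |h (a j) - h (b j)| = ∫ t : ℝ, α * ∑ j,
      |(if t < h (a j) then (1 : ℝ) else 0) - (if t < h (b j) then (1 : ℝ) else 0)| := by
    rw [integral_const_mul, integral_finsetSum _ (fun j _ => (aux833_int _ _).1)]
    congr 1
    exact Finset.sum_congr rfl (fun j _ => (aux833_int _ _).2.symm)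
  have e2 : β * ∑ j, |h (a' j) - h (b' j)| = ∫ t : ℝ, β * ∑ j,
      |(if t < h (a' j) then (1 : ℝ) else 0) - (if t < h (b' j) then (1 : ℝ) else 0)| := by
    rw [integral_const_mul, integral_finsetSum _ (fun j _ => (aux833_int _ _).1)]
    congr 1
    exact Finset.sum_congr rfl (fun j _ => (aux833_int _ _).2.symm)
  rw [e1, e2]
  refine integral_mono ?_ ?_ ?_
  · exact (integrable_finsetSum _ (fun j _ => (aux833_int _ _).1)).const_mul α
  · exact (integrable_finsetSum _ (fun j _ => (aux833_int _ _).1)).const_mul β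
  · intro t
    exact H (fun i => if t < h i then (1 : ℝ) else 0) (fun i => by
      by_cases hi : t < h i
      · right; exact if_pos hi
      · left; exact if_neg hi)

theorem aux833_card (p k : ℕ) [Fact p.Prime] : Fintype.card (Fin k → ZMod p) = p ^ k := by
  simp [ZMod.card]

theorem aux833_l2 (p k : ℕ) [Fact p.Prime] (hkp : 2 * k ≤ p) (h : (Fin k → ZMod p) → ℝ) :
    ((p : ℝ) ^ k)⁻¹ * ∑ v, ∑ w, (h v - h w) ^ 2 ≤
      2 * (((p : ℝ) ^ 2)⁻¹ * ∑ v, ∑ s : ZMod p × ZMod p, (h (v + gen p k s) - h v) ^ 2) := by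
  have hp0 : (0 : ℝ) < p := by exact_mod_cast (Fact.out : p.Prime).pos
  have hN : ((Fintype.card (Fin k → ZMod p) : ℕ) : ℝ) = (p : ℝ) ^ k := by
    rw [aux833_card]; push_cast; rfl
  have hNpos : (0 : ℝ) < (p : ℝ) ^ k := by positivity
  obtain ⟨μ, hμ⟩ : ∃ μ : ℝ, μ = (∑ w, h w) / (p : ℝ) ^ k := ⟨_, rfl⟩
  obtain ⟨g, hg⟩ : ∃ g : (Fin k → ZMod p) → ℝ, ∀ v, g v = h v - μ := ⟨_, fun _ => rfl⟩
  have hg0 : ∑ v, g v = 0 := by
    simp only [hg]
    rw [Finset.sum_sub_distrib, Finset.sum_const, Finset.card_univ, nsmul_eq_mul, hN, hμ]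
    field_simp
    ring
  obtain ⟨Q, hQ⟩ : ∃ Q : ℝ, Q = ∑ v, (g v) ^ 2 := ⟨_, rfl⟩
  obtain ⟨r, hr⟩ : ∃ r : (Fin k → ZMod p) → ℝ,
      ∀ v, r v = ((p : ℝ) ^ 2)⁻¹ * ∑ s : ZMod p × ZMod p, g (v + gen p k s) := ⟨_, fun _ => rfl⟩
  have hL : ∑ v, ∑ w, (h v - h w) ^ 2 = 2 * (p : ℝ) ^ k * Q := by
    have h1 : ∀ v w, (h v - h w) ^ 2 = (g v) ^ 2 + (g w) ^ 2 - 2 * (g v * g w) := by
      intro v w
      rw [hg, hg]; ring
    simp only [h1, Finset.sum_sub_distrib, Finset.sum_add_distrib, Finset.sum_const,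
      Finset.card_univ, nsmul_eq_mul, ← Finset.mul_sum, hg0, hN, ← hQ]
    simp
    ring
  have hR : ∑ v, ∑ s : ZMod p × ZMod p, (h (v + gen p k s) - h v) ^ 2
      = 2 * (p : ℝ) ^ 2 * (Q - ∑ v, g v * r v) := by
    have h1 : ∀ v s, (h (v + gen p k s) - h v) ^ 2 =
        (g (v + gen p k s)) ^ 2 + (g v) ^ 2 - 2 * (g v * g (v + gen p k s)) := by
      intro v s
      rw [hg, hg]; ring
    have hS : ((Fintype.card (ZMod p × ZMod p) : ℕ) : ℝ) = (p : ℝ) ^ 2 := by
      simp [ZMod.card]; ring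
    have h2 : ∑ v, ∑ s : ZMod p × ZMod p, (g (v + gen p k s)) ^ 2 = (p : ℝ) ^ 2 * Q := by
      rw [Finset.sum_comm]
      have h3 : ∀ s : ZMod p × ZMod p, ∑ v, (g (v + gen p k s)) ^ 2 = Q := by
        intro s
        rw [hQ]
        exact Equiv.sum_comp (Equiv.addRight (gen p k s)) (fun v => (g v) ^ 2)
      simp only [h3, Finset.sum_const, Finset.card_univ, nsmul_eq_mul, hS]
    have h4 : ∑ v, ∑ s : ZMod p × ZMod p, (g v) ^ 2 = (p : ℝ) ^ 2 * Q := by
      simp only [Finset.sum_const, Finset.card_univ, nsmul_eq_mul, hS, ← Finset.mul_sum, ← hQ]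
    have h5 : ∑ v, ∑ s : ZMod p × ZMod p, 2 * (g v * g (v + gen p k s))
        = 2 * (p : ℝ) ^ 2 * ∑ v, g v * r v := by
      rw [Finset.mul_sum]
      refine Finset.sum_congr rfl (fun v _ => ?_)
      rw [hr, ← Finset.mul_sum, ← Finset.mul_sum]
      field_simp
    simp only [h1, Finset.sum_sub_distrib, Finset.sum_add_distrib]
    rw [h2, h4, h5]
    ring
  have hgr : ∑ v, g v * r v ≤ 1 / 2 * Q := by
    have h1 := avg_l2 p k (fun v => ((g v : ℝ) : ℂ)) (by exact_mod_cast hg0)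
    have h2 : ∀ v, ‖((p : ℂ) ^ 2)⁻¹ * ∑ s : ZMod p × ZMod p, ((g (v + gen p k s) : ℝ) : ℂ)‖ ^ 2
        = (r v) ^ 2 := by
      intro v
      have : ((p : ℂ) ^ 2)⁻¹ * ∑ s : ZMod p × ZMod p, ((g (v + gen p k s) : ℝ) : ℂ)
          = ((r v : ℝ) : ℂ) := by
        rw [hr]; push_cast; rfl
      rw [this, Complex.norm_real, Real.norm_eq_abs, sq_abs]
    have h3 : ∀ v, ‖((g v : ℝ) : ℂ)‖ ^ 2 = (g v) ^ 2 := by
      intro v
      rw [Complex.norm_real, Real.norm_eq_abs, sq_abs]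
    simp only [h2, h3] at h1
    rw [← hQ] at h1
    have hQ0 : 0 ≤ Q := by rw [hQ]; exact Finset.sum_nonneg (fun _ _ => sq_nonneg _)
    have h4 : ((k : ℝ) / p) ^ 2 ≤ 1 / 4 := by
      have h5 : (k : ℝ) / p ≤ 1 / 2 := by
        rw [div_le_iff₀ hp0]
        have : (2 : ℝ) * k ≤ p := by exact_mod_cast hkp
        linarith
      have h6 : 0 ≤ (k : ℝ) / p := by positivity
      nlinarith
    have h7 : ∑ v, (r v) ^ 2 ≤ 1 / 4 * Q := h1.trans (mul_le_mul_of_nonneg_right h4 hQ0)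
    have h8 : ∑ v, g v * r v ≤ ∑ v, (1 / 4 * (g v) ^ 2 + (r v) ^ 2) := by
      refine Finset.sum_le_sum (fun v _ => ?_)
      nlinarith [sq_nonneg (1 / 2 * g v - r v)]
    rw [Finset.sum_add_distrib, ← Finset.mul_sum, ← hQ] at h8
    linarith
  rw [hL, hR]
  have e1 : ((p : ℝ) ^ k)⁻¹ * (2 * (p : ℝ) ^ k * Q) = 2 * Q := by field_simp
  have e2 : 2 * (((p : ℝ) ^ 2)⁻¹ * (2 * (p : ℝ) ^ 2 * (Q - ∑ v, g v * r v)))
      = 4 * (Q - ∑ v, g v * r v) := by
    field_simp
    ring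
  rw [e1, e2]
  linarith

/-- TARGET: `ℓ¹` Poincare inequality for real functions. -/
theorem scalar_poincare (p k : ℕ) [Fact p.Prime] (hkp : 2 * k ≤ p)
    (h : (Fin k → ZMod p) → ℝ) :
    ∑ v, |h v - (∑ w, h w) / (p : ℝ) ^ k| ≤
      2 * (((p : ℝ) ^ 2)⁻¹ * ∑ v, ∑ s : ZMod p × ZMod p, |h (v + gen p k s) - h v|) := by
  have hp0 : (0 : ℝ) < p := by exact_mod_cast (Fact.out : p.Prime).pos
  have hNpos : (0 : ℝ) < (p : ℝ) ^ k := by positivity
  have hN : ((Fintype.card (Fin k → ZMod p) : ℕ) : ℝ) = (p : ℝ) ^ k := by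
    rw [aux833_card]; push_cast; rfl
  have hone : ∑ v, |h v - (∑ w, h w) / (p : ℝ) ^ k| ≤ ((p : ℝ) ^ k)⁻¹ * ∑ v, ∑ w, |h v - h w| := by
    rw [Finset.mul_sum]
    refine Finset.sum_le_sum (fun v _ => ?_)
    have h1 : h v - (∑ w, h w) / (p : ℝ) ^ k = ((p : ℝ) ^ k)⁻¹ * ∑ w, (h v - h w) := by
      rw [Finset.sum_sub_distrib, Finset.sum_const, Finset.card_univ, nsmul_eq_mul, hN]
      field_simp
    rw [h1, abs_mul, abs_of_pos (inv_pos.2 hNpos)]
    exact mul_le_mul_of_nonneg_left (Finset.abs_sum_le_sum_abs _ _) (inv_pos.2 hNpos).le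
  refine hone.trans ?_
  have hlayer := aux833_layer (ι := Fin k → ZMod p)
    (J1 := (Fin k → ZMod p) × (Fin k → ZMod p)) (J2 := (Fin k → ZMod p) × (ZMod p × ZMod p))
    ((p : ℝ) ^ k)⁻¹ (2 * ((p : ℝ) ^ 2)⁻¹) (fun j => j.1) (fun j => j.2)
    (fun j => j.1 + gen p k j.2) (fun j => j.1) (by
      intro g hg
      have habs : ∀ v w, |g v - g w| = (g v - g w) ^ 2 := by
        intro v w
        rcases hg v with h1 | h1 <;> rcases hg w with h2 | h2 <;> rw [h1, h2] <;> norm_num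
      simp only [habs]
      have := aux833_l2 p k hkp g
      rw [Fintype.sum_prod_type, Fintype.sum_prod_type, mul_assoc]
      exact this) h
  rw [Fintype.sum_prod_type, Fintype.sum_prod_type, mul_assoc] at hlayer
  exact hlayer

end Pool.Agent.Helper69.Fd
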