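import Mathlib
import Pool.Agent.Helper69.FdScal

set_option autoImplicit false

open scoped BigOperators

namespace Pool.Agent.Helper69.Fd




section realcase

variable {X : Type} [NormedAddCommGroup X] [NormedSpace ℝ X]

/-- averaging operator -/
noncomputable def Av (p k : ℕ) [Fact p.Prime] (u : (Fin k → ZMod p) → X) (v : Fin k → ZMod p) : X :=
  ((p : ℝ) ^ 2)⁻¹ • ∑ s : ZMod p × ZMod p, u (v + gen p k s)

/-- the energy -/
noncomputable def EE (p k : ℕ) [Fact p.Prime] (f : (Fin k → ZMod p) → X) : ℝ :=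
  ((p : ℝ) ^ 2)⁻¹ * ∑ v, ∑ s : ZMod p × ZMod p, ‖f (v + gen p k s) - f v‖

theorem p_pos (p : ℕ) [hp : Fact p.Prime] : (0 : ℝ) < p := by
  exact_mod_cast hp.out.pos

theorem card_pp (p : ℕ) [Fact p.Prime] : (Fintype.card (ZMod p × ZMod p) : ℝ) = (p : ℝ) ^ 2 := by
  rw [Fintype.card_prod, ZMod.card]
  push_cast
  ring

theorem card_V (p k : ℕ) [Fact p.Prime] : (Fintype.card (Fin k → ZMod p) : ℝ) = (p : ℝ) ^ k := by
  rw [Fintype.card_fun, ZMod.card, Fintype.card_fin]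
  push_cast
  ring

theorem EE_nonneg (p k : ℕ) [Fact p.Prime] (f : (Fin k → ZMod p) → X) : 0 ≤ EE p k f := by
  unfold EE
  positivity

theorem sub_Av (p k : ℕ) [Fact p.Prime] (f : (Fin k → ZMod p) → X) :
    ∑ v, ‖f v - Av p k f v‖ ≤ EE p k f := by
  have hp := p_pos p
  unfold EE Av
  rw [Finset.mul_sum]
  apply Finset.sum_le_sum
  intro v _
  have e : f v - ((p : ℝ) ^ 2)⁻¹ • ∑ s : ZMod p × ZMod p, f (v + gen p k s) =
      ((p : ℝ) ^ 2)⁻¹ • ∑ s : ZMod p × ZMod p, (f v - f (v + gen p k s)) := by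
    rw [Finset.sum_sub_distrib, Finset.sum_const, Finset.card_univ, smul_sub,
      ← Nat.cast_smul_eq_nsmul ℝ, card_pp, smul_smul, inv_mul_cancel₀ (by positivity), one_smul]
  rw [e, norm_smul, Real.norm_eq_abs, abs_of_nonneg (by positivity)]
  apply mul_le_mul_of_nonneg_left _ (by positivity)
  refine (norm_sum_le _ _).trans ?_
  apply Finset.sum_le_sum
  intro s _
  rw [norm_sub_rev]

theorem Av_norm (p k : ℕ) [Fact p.Prime] (u : (Fin k → ZMod p) → X) :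
    ∑ v, ‖Av p k u v‖ ≤ ∑ v, ‖u v‖ := by
  have hp := p_pos p
  calc ∑ v, ‖Av p k u v‖ ≤ ∑ v, ((p : ℝ) ^ 2)⁻¹ * ∑ s : ZMod p × ZMod p, ‖u (v + gen p k s)‖ := by
        apply Finset.sum_le_sum
        intro v _
        unfold Av
        rw [norm_smul, Real.norm_eq_abs, abs_of_nonneg (by positivity)]
        exact mul_le_mul_of_nonneg_left (norm_sum_le _ _) (by positivity)
    _ = ((p : ℝ) ^ 2)⁻¹ * ∑ s : ZMod p × ZMod p, ∑ v, ‖u (v + gen p k s)‖ := by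
        rw [← Finset.mul_sum, Finset.sum_comm]
    _ = ((p : ℝ) ^ 2)⁻¹ * ∑ s : ZMod p × ZMod p, ∑ v, ‖u v‖ := by
        congr 1
        apply Finset.sum_congr rfl
        intro s _
        exact Equiv.sum_comp (Equiv.addRight (gen p k s)) (fun v => ‖u v‖)
    _ = ∑ v, ‖u v‖ := by
        rw [Finset.sum_const, Finset.card_univ, nsmul_eq_mul, card_pp, ← mul_assoc,
          inv_mul_cancel₀ (by positivity), one_mul]

theorem Av_sub (p k : ℕ) [Fact p.Prime] (u w : (Fin k → ZMod p) → X) (v : Fin k → ZMod p) :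
    Av p k (fun v => u v - w v) v = Av p k u v - Av p k w v := by
  unfold Av
  rw [Finset.sum_sub_distrib, smul_sub]

theorem Av_const (p k : ℕ) [Fact p.Prime] (c : X) (v : Fin k → ZMod p) :
    Av p k (fun _ => c) v = c := by
  have hp := p_pos p
  unfold Av
  rw [Finset.sum_const, Finset.card_univ, ← Nat.cast_smul_eq_nsmul ℝ, card_pp, smul_smul,
    inv_mul_cancel₀ (by positivity), one_smul]

theorem Av_flat (X : Type) [NormedAddCommGroup X] [NormedSpace ℝ X] [FiniteDimensional ℝ X] :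
    ∃ K : ℝ, 0 ≤ K ∧ ∀ (k p : ℕ) (_ : Fact p.Prime)
    (u : (Fin k → ZMod p) → X) (B : ℝ), (∑ v, u v = 0) → (∀ v, ‖u v‖ ≤ B) →
    ∑ v, ‖Av p k u v‖ ≤ K * ((k : ℝ) / p) * (p : ℝ) ^ k * B := by
  obtain ⟨d, hd⟩ : ∃ d, d = Module.finrank ℝ X := ⟨_, rfl⟩
  obtain ⟨e⟩ : Nonempty (X ≃L[ℝ] (Fin d → ℝ)) :=
    ⟨ContinuousLinearEquiv.ofFinrankEq (by rw [Module.finrank_fin_fun, hd])⟩
  obtain ⟨K1, hK1⟩ : ∃ K1 : ℝ, K1 = ‖(e : X →L[ℝ] (Fin d → ℝ))‖ := ⟨_, rfl⟩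
  obtain ⟨K2, hK2⟩ : ∃ K2 : ℝ, K2 = ‖(e.symm : (Fin d → ℝ) →L[ℝ] X)‖ := ⟨_, rfl⟩
  have hK1' : 0 ≤ K1 := by rw [hK1]; positivity
  have hK2' : 0 ≤ K2 := by rw [hK2]; positivity
  have h1 : ∀ (x : X) (i : Fin d), |e x i| ≤ K1 * ‖x‖ := by
    intro x i
    calc |e x i| = ‖e x i‖ := rfl
      _ ≤ ‖e x‖ := norm_le_pi_norm (e x) i
      _ ≤ K1 * ‖x‖ := by rw [hK1]; exact (e : X →L[ℝ] (Fin d → ℝ)).le_opNorm x
  have h2 : ∀ x : X, ‖x‖ ≤ K2 * ∑ i, |e x i| := by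
    intro x
    have h3 : ‖e x‖ ≤ ∑ i, |e x i| := by
      rw [pi_norm_le_iff_of_nonneg (Finset.sum_nonneg (fun _ _ => abs_nonneg _))]
      intro i
      exact Finset.single_le_sum (f := fun i => |e x i|) (fun _ _ => abs_nonneg _) (Finset.mem_univ i)
    calc ‖x‖ = ‖e.symm (e x)‖ := by rw [e.symm_apply_apply]
      _ ≤ K2 * ‖e x‖ := by rw [hK2]; exact (e.symm : (Fin d → ℝ) →L[ℝ] X).le_opNorm (e x)
      _ ≤ K2 * ∑ i, |e x i| := mul_le_mul_of_nonneg_left h3 hK2'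
  refine ⟨K2 * (d * K1), by positivity, ?_⟩
  intro k p hpf u B hu hB
  have hp := p_pos p
  have hB0 : 0 ≤ B := (norm_nonneg _).trans (hB 0)
  have h4 : ∀ i : Fin d, ∑ v, |e (Av p k u v) i| ≤ K1 * ((k : ℝ) / p) * (p : ℝ) ^ k * B := by
    intro i
    have h5 := avg_l2 p k (fun v => ((e (u v) i : ℝ) : ℂ)) (by
      rw [← Complex.ofReal_sum, ← Finset.sum_apply, ← map_sum, hu, map_zero]
      simp)
    have h6 : ∀ v, ‖((p : ℂ) ^ 2)⁻¹ * ∑ s : ZMod p × ZMod p, ((e (u (v + gen p k s)) i : ℝ) : ℂ)‖ =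
        |e (Av p k u v) i| := by
      intro v
      have h7 : e (Av p k u v) i = ((p : ℝ) ^ 2)⁻¹ * ∑ s : ZMod p × ZMod p, e (u (v + gen p k s)) i := by
        unfold Av
        rw [map_smul, map_sum, Pi.smul_apply, Finset.sum_apply, smul_eq_mul]
      rw [h7]
      have h8 : ((p : ℂ) ^ 2)⁻¹ * ∑ s : ZMod p × ZMod p, ((e (u (v + gen p k s)) i : ℝ) : ℂ) =
          ((((p : ℝ) ^ 2)⁻¹ * ∑ s : ZMod p × ZMod p, e (u (v + gen p k s)) i : ℝ) : ℂ) := by
        push_cast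
        rfl
      rw [h8, Complex.norm_real, Real.norm_eq_abs]
    simp only [h6] at h5
    have h9 : ∑ v, ‖((e (u v) i : ℝ) : ℂ)‖ ^ 2 ≤ (p : ℝ) ^ k * (K1 * B) ^ 2 := by
      calc ∑ v, ‖((e (u v) i : ℝ) : ℂ)‖ ^ 2 ≤ ∑ _v : (Fin k → ZMod p), (K1 * B) ^ 2 := by
            apply Finset.sum_le_sum
            intro v _
            rw [Complex.norm_real, Real.norm_eq_abs]
            apply pow_le_pow_left₀ (abs_nonneg _)
            exact (h1 _ _).trans (mul_le_mul_of_nonneg_left (hB v) hK1')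
        _ = (p : ℝ) ^ k * (K1 * B) ^ 2 := by
            rw [Finset.sum_const, Finset.card_univ, nsmul_eq_mul, card_V]
    have h10 : (∑ v, |e (Av p k u v) i|) ^ 2 ≤ (K1 * ((k : ℝ) / p) * (p : ℝ) ^ k * B) ^ 2 := by
      calc (∑ v, |e (Av p k u v) i|) ^ 2 ≤
            ((Finset.univ : Finset (Fin k → ZMod p)).card : ℝ) * ∑ v, |e (Av p k u v) i| ^ 2 :=
            sq_sum_le_card_mul_sum_sq
        _ = (p : ℝ) ^ k * ∑ v, |e (Av p k u v) i| ^ 2 := by
            rw [Finset.card_univ, card_V]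
        _ ≤ (p : ℝ) ^ k * (((k : ℝ) / p) ^ 2 * ((p : ℝ) ^ k * (K1 * B) ^ 2)) := by
            apply mul_le_mul_of_nonneg_left _ (by positivity)
            exact h5.trans (mul_le_mul_of_nonneg_left h9 (by positivity))
        _ = _ := by ring
    exact (pow_le_pow_iff_left₀ (by positivity) (by positivity) (by norm_num)).1 h10
  calc ∑ v, ‖Av p k u v‖ ≤ ∑ v, K2 * ∑ i, |e (Av p k u v) i| := Finset.sum_le_sum fun v _ => h2 _
    _ = K2 * ∑ i, ∑ v, |e (Av p k u v) i| := by rw [← Finset.mul_sum, Finset.sum_comm]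
    _ ≤ K2 * ∑ _i : Fin d, K1 * ((k : ℝ) / p) * (p : ℝ) ^ k * B :=
        mul_le_mul_of_nonneg_left (Finset.sum_le_sum fun i _ => h4 i) hK2'
    _ = _ := by
        rw [Finset.sum_const, Finset.card_univ, Fintype.card_fin, nsmul_eq_mul]
        ring

open Classical in
/-- truncation -/
noncomputable def trunc (t : ℝ) (x : X) : X := if ‖x‖ ≤ 2 * t then x else (2 * t / ‖x‖) • x

theorem trunc_norm {t : ℝ} (ht : 0 ≤ t) (x : X) : ‖trunc t x‖ ≤ 2 * t := by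
  unfold trunc
  split_ifs with h
  · exact h
  · push Not at h
    have hx : 0 < ‖x‖ := by linarith
    rw [norm_smul, Real.norm_eq_abs, abs_of_nonneg (by positivity), div_mul_cancel₀ _ hx.ne']

theorem trunc_sub {t : ℝ} (ht : 0 ≤ t) (x : X) : ‖x - trunc t x‖ ≤ |‖x‖ - t| := by
  unfold trunc
  split_ifs with h
  · rw [sub_self, norm_zero]
    exact abs_nonneg _
  · push Not at h
    have hx : 0 < ‖x‖ := by linarith
    have e : x - (2 * t / ‖x‖) • x = (1 - 2 * t / ‖x‖) • x := by rw [sub_smul, one_smul]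
    have h1 : 0 ≤ 1 - 2 * t / ‖x‖ := by
      rw [sub_nonneg, div_le_one hx]
      exact h.le
    rw [e, norm_smul, Real.norm_eq_abs, abs_of_nonneg h1, sub_mul, div_mul_cancel₀ _ hx.ne', one_mul]
    refine le_trans ?_ (le_abs_self _)
    linarith

theorem sum_zero_case (X : Type) [NormedAddCommGroup X] [NormedSpace ℝ X] [FiniteDimensional ℝ X]
    (k : ℕ) : ∃ p₀ : ℕ, ∀ p : ℕ, p₀ ≤ p → ∀ _ : Fact p.Prime, ∀ f : (Fin k → ZMod p) → X,
      ∑ v, f v = 0 → ∑ v, ‖f v‖ ≤ 10 * EE p k f := by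
  obtain ⟨K, hK0, hK⟩ := Av_flat X
  refine ⟨max (2 * k) (⌈8 * K * k⌉₊), ?_⟩
  intro p hp0 hpf f hf
  have hp := p_pos p
  have hpk : 2 * k ≤ p := (le_max_left _ _).trans hp0
  have hpK : 8 * K * k ≤ p := by
    have h1 : ⌈8 * K * k⌉₊ ≤ p := (le_max_right _ _).trans hp0
    exact (Nat.le_ceil _).trans (by exact_mod_cast h1)
  have hN : (0 : ℝ) < (p : ℝ) ^ k := by positivity
  obtain ⟨S, hS⟩ : ∃ S : ℝ, S = ∑ v, ‖f v‖ := ⟨_, rfl⟩
  obtain ⟨t, ht⟩ : ∃ t : ℝ, t = S / (p : ℝ) ^ k := ⟨_, rfl⟩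
  have hS0 : 0 ≤ S := by rw [hS]; positivity
  have ht0 : 0 ≤ t := by rw [ht]; positivity
  obtain ⟨η, hη⟩ : ∃ η : ℝ, η = EE p k f := ⟨_, rfl⟩
  -- scalar Poincare
  have h1 : ∑ v, |‖f v‖ - t| ≤ 2 * η := by
    have h2 := scalar_poincare p k hpk (fun v => ‖f v‖)
    simp only [← hS, ← ht] at h2
    refine h2.trans ?_
    rw [hη]
    unfold EE
    apply mul_le_mul_of_nonneg_left _ (by norm_num)
    apply mul_le_mul_of_nonneg_left _ (by positivity)
    apply Finset.sum_le_sum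
    intro v _
    apply Finset.sum_le_sum
    intro s _
    exact abs_norm_sub_norm_le _ _
  obtain ⟨g, hg⟩ : ∃ g : (Fin k → ZMod p) → X, g = fun v => trunc t (f v) := ⟨_, rfl⟩
  have hg1 : ∀ v, ‖g v‖ ≤ 2 * t := by
    intro v
    rw [hg]
    exact trunc_norm ht0 _
  have hg2 : ∑ v, ‖f v - g v‖ ≤ 2 * η := by
    refine le_trans ?_ h1
    apply Finset.sum_le_sum
    intro v _
    rw [hg]
    exact trunc_sub ht0 _
  obtain ⟨m, hm⟩ : ∃ m : X, m = ((p : ℝ) ^ k)⁻¹ • ∑ v, g v := ⟨_, rfl⟩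
  have hgs : ‖∑ v, g v‖ ≤ 2 * η := by
    have e : ∑ v, g v = -∑ v, (f v - g v) := by
      rw [Finset.sum_sub_distrib, hf]
      simp
    rw [e, norm_neg]
    exact (norm_sum_le _ _).trans hg2
  have hm1 : (p : ℝ) ^ k * ‖m‖ ≤ 2 * η := by
    rw [hm, norm_smul, Real.norm_eq_abs, abs_of_nonneg (by positivity), ← mul_assoc,
      mul_inv_cancel₀ hN.ne', one_mul]
    exact hgs
  have hm2 : ‖m‖ ≤ 2 * t := by
    rw [hm, norm_smul, Real.norm_eq_abs, abs_of_nonneg (by positivity)]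
    have h3 : ‖∑ v, g v‖ ≤ (p : ℝ) ^ k * (2 * t) := by
      calc ‖∑ v, g v‖ ≤ ∑ v, ‖g v‖ := norm_sum_le _ _
        _ ≤ ∑ _v : (Fin k → ZMod p), 2 * t := Finset.sum_le_sum fun v _ => hg1 v
        _ = (p : ℝ) ^ k * (2 * t) := by
            rw [Finset.sum_const, Finset.card_univ, nsmul_eq_mul, card_V]
    calc ((p : ℝ) ^ k)⁻¹ * ‖∑ v, g v‖ ≤ ((p : ℝ) ^ k)⁻¹ * ((p : ℝ) ^ k * (2 * t)) :=
          mul_le_mul_of_nonneg_left h3 (by positivity)
      _ = 2 * t := by rw [← mul_assoc, inv_mul_cancel₀ hN.ne', one_mul]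
  have hflat : ∑ v, ‖Av p k (fun v => g v - m) v‖ ≤ K * ((k : ℝ) / p) * (p : ℝ) ^ k * (4 * t) := by
    apply hK k p hpf
    · rw [Finset.sum_sub_distrib, Finset.sum_const, Finset.card_univ, ← Nat.cast_smul_eq_nsmul ℝ,
        card_V, hm, smul_smul, mul_inv_cancel₀ hN.ne', one_smul, sub_self]
    · intro v
      calc ‖g v - m‖ ≤ ‖g v‖ + ‖m‖ := norm_sub_le _ _
        _ ≤ 4 * t := by linarith [hg1 v]
  have htN : (p : ℝ) ^ k * t = S := by
    rw [ht]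
    field_simp
  have hflat2 : K * ((k : ℝ) / p) * (p : ℝ) ^ k * (4 * t) ≤ S / 2 := by
    have e : K * ((k : ℝ) / p) * (p : ℝ) ^ k * (4 * t) = (4 * K * k) / p * S := by
      rw [← htN]
      ring
    rw [e]
    have h4 : (4 * K * k) / p ≤ 1 / 2 := by
      rw [div_le_div_iff₀ hp (by norm_num)]
      linarith
    nlinarith
  have hdec : ∀ v, ‖f v‖ ≤ ‖f v - Av p k f v‖ + ‖Av p k (fun v => f v - g v) v‖ +
      ‖Av p k (fun v => g v - m) v‖ + ‖m‖ := by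
    intro v
    have e : f v = (f v - Av p k f v) + Av p k (fun v => f v - g v) v +
        Av p k (fun v => g v - m) v + m := by
      rw [Av_sub, Av_sub p k g (fun _ => m), Av_const]
      abel
    calc ‖f v‖ = ‖(f v - Av p k f v) + Av p k (fun v => f v - g v) v +
        Av p k (fun v => g v - m) v + m‖ := by rw [← e]
      _ ≤ _ := norm_add₄_le
  have hsum : S ≤ η + 2 * η + S / 2 + 2 * η := by
    calc S = ∑ v, ‖f v‖ := hS
      _ ≤ ∑ v, (‖f v - Av p k f v‖ + ‖Av p k (fun v => f v - g v) v‖ +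
          ‖Av p k (fun v => g v - m) v‖ + ‖m‖) := Finset.sum_le_sum fun v _ => hdec v
      _ = ∑ v, ‖f v - Av p k f v‖ + ∑ v, ‖Av p k (fun v => f v - g v) v‖ +
          ∑ v, ‖Av p k (fun v => g v - m) v‖ + (p : ℝ) ^ k * ‖m‖ := by
          rw [Finset.sum_add_distrib, Finset.sum_add_distrib, Finset.sum_add_distrib,
            Finset.sum_const, Finset.card_univ, nsmul_eq_mul, card_V]
      _ ≤ η + 2 * η + S / 2 + 2 * η := by
          have a1 := sub_Av p k f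
          have a2 := (Av_norm p k (fun v => f v - g v)).trans hg2
          have a3 := hflat.trans hflat2
          rw [← hη] at a1
          linarith
  rw [← hS, ← hη]
  linarith

theorem real_case (X : Type) [NormedAddCommGroup X] [NormedSpace ℝ X] [FiniteDimensional ℝ X]
    (k : ℕ) : ∃ p₀ : ℕ, ∀ p : ℕ, p₀ ≤ p → ∀ _ : Fact p.Prime, ∀ f : (Fin k → ZMod p) → X,
      ∑ v, ‖f v‖ ≤
        10 * (((p : ℝ) ^ 2)⁻¹ * ∑ v, ∑ s : ZMod p × ZMod p, ‖f (v + gen p k s) - f v‖) +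
        ‖∑ v, f v‖ := by
  obtain ⟨p₀, hp₀⟩ := sum_zero_case X k
  refine ⟨p₀, ?_⟩
  intro p hp hpf f
  have hpp := p_pos p
  have hN : (0 : ℝ) < (p : ℝ) ^ k := by positivity
  obtain ⟨c, hc⟩ : ∃ c : X, c = ((p : ℝ) ^ k)⁻¹ • ∑ v, f v := ⟨_, rfl⟩
  have h1 := hp₀ p hp hpf (fun v => f v - c) (by
    rw [Finset.sum_sub_distrib, Finset.sum_const, Finset.card_univ, ← Nat.cast_smul_eq_nsmul ℝ,
      card_V, hc, smul_smul, mul_inv_cancel₀ hN.ne', one_smul, sub_self])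
  unfold EE at h1
  simp only [sub_sub_sub_cancel_right] at h1
  have h2 : ∑ v, ‖f v‖ ≤ ∑ v, ‖f v - c‖ + (p : ℝ) ^ k * ‖c‖ := by
    calc ∑ v, ‖f v‖ ≤ ∑ v, (‖f v - c‖ + ‖c‖) := by
          apply Finset.sum_le_sum
          intro v _
          calc ‖f v‖ = ‖(f v - c) + c‖ := by rw [sub_add_cancel]
            _ ≤ _ := norm_add_le _ _
      _ = _ := by
          rw [Finset.sum_add_distrib, Finset.sum_const, Finset.card_univ, nsmul_eq_mul, card_V]
  have h3 : (p : ℝ) ^ k * ‖c‖ = ‖∑ v, f v‖ := by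
    rw [hc, norm_smul, Real.norm_eq_abs, abs_of_nonneg (by positivity), ← mul_assoc,
      mul_inv_cancel₀ hN.ne', one_mul]
  linarith

end realcase

/-- TARGET: `ℓ¹` Poincare inequality with absolute constant for functions with values in a fixed
finite dimensional space, for all large primes. -/
theorem vector_poincare {𝕜 : Type} [RCLike 𝕜] (X : Type) [NormedAddCommGroup X]
    [NormedSpace 𝕜 X] [FiniteDimensional 𝕜 X] (k : ℕ) :
    ∃ p₀ : ℕ, ∀ p : ℕ, p₀ ≤ p → ∀ _ : Fact p.Prime, ∀ f : (Fin k → ZMod p) → X,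
      ∑ v, ‖f v‖ ≤
        10 * (((p : ℝ) ^ 2)⁻¹ * ∑ v, ∑ s : ZMod p × ZMod p, ‖f (v + gen p k s) - f v‖) +
        ‖∑ v, f v‖ := by
  letI : NormedSpace ℝ X := NormedSpace.restrictScalars ℝ 𝕜 X
  haveI : IsScalarTower ℝ 𝕜 X := RestrictScalars.isScalarTower ℝ 𝕜 X
  haveI : FiniteDimensional ℝ X := FiniteDimensional.trans ℝ 𝕜 X
  exact real_case X k

end Pool.Agent.Helper69.Fd
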