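import Mathlib
import Pool.Agent.Helper69.FdVec
import Pool.Agent.Helper69.FdBlock

set_option autoImplicit false

open scoped BigOperators

namespace Pool.Agent.Helper69.Fd

namespace TAux


/-- a proved Poincare inequality; given here as a hypothesis `VP` -/
def VP (𝕜 : Type) [RCLike 𝕜] : Prop := ∀ (X : Type) [NormedAddCommGroup X]
    [NormedSpace 𝕜 X] [FiniteDimensional 𝕜 X] (k : ℕ),
    ∃ p₀ : ℕ, ∀ p : ℕ, p₀ ≤ p → ∀ _ : Fact p.Prime, ∀ f : (Fin k → ZMod p) → X,
      ∑ v, ‖f v‖ ≤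
        10 * (((p : ℝ) ^ 2)⁻¹ * ∑ v, ∑ s : ZMod p × ZMod p, ‖f (v + gen p k s) - f v‖) +
        ‖∑ v, f v‖

/-- balls in the Cayley graph -/
def Bs {V S : Type} [AddCommGroup V] [Fintype S] [DecidableEq V] (gn : S → V) : ℕ → Finset V
  | 0 => {0}
  | (j+1) => ((Bs gn j) ×ˢ (Finset.univ : Finset S)).image (fun q => q.1 + gn q.2)

section
variable {V S : Type} [AddCommGroup V] [Fintype S] [DecidableEq V] (gn : S → V)

lemma Bs_step {g : V} {j : ℕ} (h : g ∈ Bs gn j) (s : S) : g + gn s ∈ Bs gn (j+1) := by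
  rw [Bs, Finset.mem_image]
  exact ⟨(g, s), Finset.mem_product.2 ⟨h, Finset.mem_univ _⟩, rfl⟩

lemma Bs_zero (s0 : S) (h0 : gn s0 = 0) (j : ℕ) : (0:V) ∈ Bs gn j := by
  induction j with
  | zero => simp [Bs]
  | succ j ih =>
    have := Bs_step gn ih s0
    rwa [h0, add_zero] at this

lemma Bs_card (j : ℕ) : (Bs gn j).card ≤ (Fintype.card S)^j := by
  induction j with
  | zero => simp [Bs]
  | succ j ih =>
    rw [Bs]
    refine Finset.card_image_le.trans ?_
    rw [Finset.card_product, Finset.card_univ, pow_succ]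
    exact Nat.mul_le_mul_right _ ih

/-- the tent function -/
noncomputable def th (L : ℕ) (g : V) : ℝ := (1/(L:ℝ)) * (((Finset.range L).filter (fun j => g ∈ Bs gn j)).card : ℝ)

lemma th_zero (s0 : S) (h0 : gn s0 = 0) (L : ℕ) (hL : 1 ≤ L) : th gn L 0 = 1 := by
  unfold th
  have : (Finset.range L).filter (fun j => (0:V) ∈ Bs gn j) = Finset.range L := by
    rw [Finset.filter_eq_self]
    intro j _; exact Bs_zero gn s0 h0 j
  rw [this, Finset.card_range]
  have : (L:ℝ) ≠ 0 := by exact_mod_cast (by omega : L ≠ 0)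
  field_simp

lemma th_nonneg (L : ℕ) (g : V) : 0 ≤ th gn L g := by unfold th; positivity

lemma th_le (L : ℕ) (hL : 1 ≤ L) (g : V) : th gn L g ≤ 1 := by
  unfold th
  have hLr : (0:ℝ) < L := by exact_mod_cast (by omega : 0 < L)
  have : (((Finset.range L).filter (fun j => g ∈ Bs gn j)).card : ℝ) ≤ L := by
    have := Finset.card_filter_le (Finset.range L) (fun j => g ∈ Bs gn j)
    rw [Finset.card_range] at this
    exact_mod_cast this
  rw [one_div, inv_mul_le_iff₀ hLr]
  linarith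

lemma card_step (L : ℕ) (g : V) (s : S) : ((Finset.range L).filter (fun j => g ∈ Bs gn j)).card ≤
    ((Finset.range L).filter (fun j => g + gn s ∈ Bs gn j)).card + 1 := by
  have h1 : ((Finset.range L).filter (fun j => g ∈ Bs gn j)).card = 
      (((Finset.range L).filter (fun j => g ∈ Bs gn j)).image (fun j => j + 1)).card := by
    rw [Finset.card_image_of_injective _ (fun a b h => by simpa using h)]
  rw [h1]
  have h2 : ((Finset.range L).filter (fun j => g ∈ Bs gn j)).image (fun j => j + 1) ⊆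
      insert L ((Finset.range L).filter (fun j => g + gn s ∈ Bs gn j)) := by
    intro i hi
    rw [Finset.mem_image] at hi
    obtain ⟨j, hj, rfl⟩ := hi
    rw [Finset.mem_filter, Finset.mem_range] at hj
    rw [Finset.mem_insert, Finset.mem_filter, Finset.mem_range]
    by_cases h : j + 1 = L
    · left; exact h
    · right; exact ⟨by omega, Bs_step gn hj.2 s⟩
  exact (Finset.card_le_card h2).trans (Finset.card_insert_le _ _)

lemma th_diff (hneg : ∀ s, ∃ s', gn s' = - gn s) (L : ℕ) (hL : 1 ≤ L) (g : V) (s : S) : 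
    |th gn L (g + gn s) - th gn L g| ≤ 1/(L:ℝ) := by
  have hLr : (0:ℝ) < L := by exact_mod_cast (by omega : 0 < L)
  obtain ⟨s', hs'⟩ := hneg s
  have h1 := card_step gn L g s
  have h2 := card_step gn L (g + gn s) s'
  have e : g + gn s + gn s' = g := by rw [hs']; abel
  rw [e] at h2
  unfold th
  rw [← mul_sub, abs_mul, abs_of_pos (by positivity : 0 < 1/(L:ℝ))]
  have h1' : (((Finset.range L).filter (fun j => g ∈ Bs gn j)).card : ℝ) ≤
    (((Finset.range L).filter (fun j => g + gn s ∈ Bs gn j)).card : ℝ) + 1 := by exact_mod_cast h1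
  have h2' : (((Finset.range L).filter (fun j => g + gn s ∈ Bs gn j)).card : ℝ) ≤
    (((Finset.range L).filter (fun j => g ∈ Bs gn j)).card : ℝ) + 1 := by exact_mod_cast h2
  have h3 : |(((Finset.range L).filter (fun j => g + gn s ∈ Bs gn j)).card : ℝ) -
    (((Finset.range L).filter (fun j => g ∈ Bs gn j)).card : ℝ)| ≤ 1 := by
    rw [abs_le]; constructor <;> linarith
  calc 1/(L:ℝ) * _ ≤ 1/(L:ℝ) * 1 := mul_le_mul_of_nonneg_left h3 (by positivity)
    _ = 1/(L:ℝ) := mul_one _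

lemma th_sum [Fintype V] [Nonempty S] (L : ℕ) (hL : 1 ≤ L) : 
    ∑ g : V, th gn L g ≤ ((Fintype.card S : ℝ))^(L-1) := by
  have hLr : (0:ℝ) < L := by exact_mod_cast (by omega : 0 < L)
  unfold th
  rw [← Finset.mul_sum]
  have h1 : ∑ g : V, (((Finset.range L).filter (fun j => g ∈ Bs gn j)).card : ℝ) = 
      ∑ j ∈ Finset.range L, ((Bs gn j).card : ℝ) := by
    have : ∀ g : V, (((Finset.range L).filter (fun j => g ∈ Bs gn j)).card : ℝ) = 
        ∑ j ∈ Finset.range L, (if g ∈ Bs gn j then (1:ℝ) else 0) := by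
      intro g
      rw [Finset.card_filter]; push_cast; rfl
    simp_rw [this]
    rw [Finset.sum_comm]
    apply Finset.sum_congr rfl
    intro j _
    rw [Finset.sum_ite_mem, Finset.univ_inter]
    simp
  rw [h1]
  have hS : (1:ℝ) ≤ Fintype.card S := by
    exact_mod_cast Fintype.card_pos
  have h2 : ∑ j ∈ Finset.range L, ((Bs gn j).card : ℝ) ≤ ∑ j ∈ Finset.range L, ((Fintype.card S : ℝ))^(L-1) := by
    apply Finset.sum_le_sum
    intro j hj
    rw [Finset.mem_range] at hj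
    have := Bs_card gn j
    calc ((Bs gn j).card : ℝ) ≤ ((Fintype.card S : ℝ))^j := by exact_mod_cast this
      _ ≤ ((Fintype.card S : ℝ))^(L-1) := pow_le_pow_right₀ hS (by omega)
  rw [Finset.sum_const, Finset.card_range, nsmul_eq_mul] at h2
  rw [one_div, inv_mul_le_iff₀ hLr]
  exact h2

end

theorem core (𝕜 : Type) [RCLike 𝕜] {V S : Type} [AddCommGroup V] [Fintype V] [Fintype S] [Nonempty S] (gn : S → V)
    (s0 : S) (h0 : gn s0 = 0) (hneg : ∀ s, ∃ s', gn s' = - gn s) (L : ℕ) (hL : 1 ≤ L) 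
    (hV : (Fintype.card V : ℝ) = (Fintype.card S : ℝ)^L) (hLS : L ≤ Fintype.card S)
    (X : Type) [NormedAddCommGroup X] [NormedSpace 𝕜 X] (ε : ℝ) (hε : 2 / (L:ℝ) ≤ ε)
    (hP : ∀ f : V → X, ∑ v, ‖f v‖ ≤
        10 * (((Fintype.card S : ℝ))⁻¹ * ∑ v, ∑ s : S, ‖f (v + gn s) - f v‖) + ‖∑ v, f v‖) :
    ∃ (V U : Type) (_ : Fintype V) (_ : Fintype U) (_ : Nonempty V) (T : U → V → 𝕜)
      (θ : V → V → 𝕜) (c : U → ℝ),
      (∀ v, ∑ u, ‖T u v‖ ≤ 3) ∧
      (∀ f : V → X, ∑ v, ‖f v‖ ≤ 10 * ∑ u, ‖∑ v, T u v • f v‖) ∧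
      (∀ v, θ v v = 1) ∧ (∀ v w, ‖θ v w‖ ≤ 1) ∧
      (∀ v u, ‖∑ w, T u w * θ v w‖ ≤ c u) ∧ ∑ u, c u ≤ ε * Fintype.card V := by
  classical
  set m : ℝ := ((Fintype.card S : ℕ) : ℝ) with hm
  have hLr : (0:ℝ) < L := by exact_mod_cast (by omega : 0 < L)
  have hm1 : (1:ℝ) ≤ m := by rw [hm]; exact_mod_cast Fintype.card_pos
  have hm0 : (0:ℝ) < m := by linarith
  have hLm : (L:ℝ) ≤ m := by rw [hm]; exact_mod_cast hLS
  let T : Option (V × S) → V → 𝕜 := fun u w => u.elim 1 
    (fun q => ((m:ℝ):𝕜)⁻¹ * ((if w = q.1 + gn q.2 then 1 else 0) - (if w = q.1 then 1 else 0)))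
  have nm : ‖((m:ℝ):𝕜)⁻¹‖ = m⁻¹ := by
    rw [norm_inv, RCLike.norm_ofReal, abs_of_pos hm0]
  refine ⟨V, Option (V × S), inferInstance, inferInstance, ⟨0⟩, T, fun v w => ((th gn L (w - v) : ℝ) : 𝕜), 
    fun u => u.elim (m^(L-1)) (fun _ => m⁻¹ * (1/(L:ℝ))), ?_, ?_, ?_, ?_, ?_, ?_⟩
  · intro w
    rw [Fintype.sum_option]
    have e1 : ‖T none w‖ = 1 := by simp [T]
    have e2 : ∑ q : V × S, ‖T (some q) w‖ ≤ 2 := by
      have hb : ∀ q : V × S, ‖T (some q) w‖ ≤ m⁻¹ * ((if w = q.1 + gn q.2 then 1 else 0) + (if w = q.1 then 1 else 0)) := by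
        intro q
        simp only [T, Option.elim_some, norm_mul, nm]
        refine mul_le_mul_of_nonneg_left ?_ (by positivity)
        refine (norm_sub_le _ _).trans ?_
        refine add_le_add ?_ ?_
        · split_ifs <;> simp
        · split_ifs <;> simp
      refine (Finset.sum_le_sum fun q _ => hb q).trans ?_
      rw [← Finset.mul_sum, Fintype.sum_prod_type_right]
      have : ∀ s : S, ∑ v : V, (((if w = v + gn s then (1:ℝ) else 0) + (if w = v then 1 else 0))) = 2 := by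
        intro s
        rw [Finset.sum_add_distrib]
        have a1 : ∑ v : V, (if w = v + gn s then (1:ℝ) else 0) = 1 := by
          have : ∀ v : V, (w = v + gn s) ↔ (w - gn s = v) := fun v => by
            rw [sub_eq_iff_eq_add]
          simp_rw [this]
          simp
        have a2 : ∑ v : V, (if w = v then (1:ℝ) else 0) = 1 := by simp
        rw [a1, a2]; norm_num
      simp only [this]
      rw [Finset.sum_const, Finset.card_univ, nsmul_eq_mul, ← hm]
      field_simp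
      exact le_refl _
    rw [e1]; linarith
  · intro f
    rw [Fintype.sum_option]
    have e1 : ∑ v, T none v • f v = ∑ v, f v := by simp [T]
    have e2 : ∀ q : V × S, ‖∑ v, T (some q) v • f v‖ = m⁻¹ * ‖f (q.1 + gn q.2) - f q.1‖ := by
      intro q
      have : ∑ v, T (some q) v • f v = ((m:ℝ):𝕜)⁻¹ • (f (q.1 + gn q.2) - f q.1) := by
        simp only [T, Option.elim_some]
        rw [smul_sub]
        have a : ∀ v : V, (((m:ℝ):𝕜)⁻¹ * ((if v = q.1 + gn q.2 then (1:𝕜) else 0) - (if v = q.1 then 1 else 0))) • f v = 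
          (if v = q.1 + gn q.2 then ((m:ℝ):𝕜)⁻¹ • f v else 0) - (if v = q.1 then ((m:ℝ):𝕜)⁻¹ • f v else 0) := by
          intro v
          rw [mul_sub, sub_smul]
          congr 1
          · split_ifs <;> simp
          · split_ifs <;> simp
        simp_rw [a]
        rw [Finset.sum_sub_distrib, Finset.sum_ite_eq', Finset.sum_ite_eq']
        simp
      rw [this, norm_smul, nm]
    simp only [e1, e2]
    rw [← Finset.mul_sum, Fintype.sum_prod_type]
    have h := hP f
    have hn : 0 ≤ ‖∑ v, f v‖ := norm_nonneg _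
    linarith
  · intro v
    show ((th gn L (v - v) : ℝ) : 𝕜) = 1
    rw [sub_self, th_zero gn s0 h0 L hL]; simp
  · intro v w
    rw [RCLike.norm_ofReal, abs_of_nonneg (th_nonneg gn L _)]
    exact th_le gn L hL _
  · intro v u
    rcases u with _ | q
    · simp only [T, Option.elim_none, one_mul]
      have : ∑ w, ((th gn L (w - v) : ℝ) : 𝕜) = ((∑ w, th gn L w : ℝ) : 𝕜) := by
        push_cast
        exact (Equiv.subRight v).sum_comp (fun w => ((th gn L w : ℝ) : 𝕜))
      rw [this, RCLike.norm_ofReal, abs_of_nonneg (Finset.sum_nonneg fun w _ => th_nonneg gn L w)]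
      exact th_sum gn L hL
    · simp only [T, Option.elim_some]
      have : ∑ w, (((m:ℝ):𝕜)⁻¹ * ((if w = q.1 + gn q.2 then (1:𝕜) else 0) - (if w = q.1 then 1 else 0))) * 
          ((th gn L (w - v) : ℝ) : 𝕜) = 
          ((m:ℝ):𝕜)⁻¹ * (((th gn L (q.1 - v + gn q.2) - th gn L (q.1 - v) : ℝ)) : 𝕜) := by
        have a : ∀ w : V, (((m:ℝ):𝕜)⁻¹ * ((if w = q.1 + gn q.2 then (1:𝕜) else 0) - (if w = q.1 then 1 else 0))) * 
          ((th gn L (w - v) : ℝ) : 𝕜) = 
          (if w = q.1 + gn q.2 then ((m:ℝ):𝕜)⁻¹ * ((th gn L (w - v) : ℝ) : 𝕜) else 0) - 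
          (if w = q.1 then ((m:ℝ):𝕜)⁻¹ * ((th gn L (w - v) : ℝ) : 𝕜) else 0) := by
          intro w
          rw [mul_sub, sub_mul]
          congr 1
          · split_ifs <;> simp
          · split_ifs <;> simp
        simp_rw [a]
        rw [Finset.sum_sub_distrib, Finset.sum_ite_eq', Finset.sum_ite_eq']
        simp only [Finset.mem_univ, if_true]
        rw [← mul_sub]
        congr 1
        push_cast
        congr 3
        abel
      rw [this, norm_mul, nm, RCLike.norm_ofReal]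
      exact mul_le_mul_of_nonneg_left (th_diff gn hneg L hL _ _) (by positivity)
  · rw [Fintype.sum_option]
    simp only [Option.elim_none, Option.elim_some]
    rw [Finset.sum_const, Finset.card_univ, Fintype.card_prod, nsmul_eq_mul]
    push_cast
    rw [hV, ← hm]
    have hpow : m^L = m^(L-1) * m := by
      rw [← pow_succ]; congr 1; omega
    have hp0 : (0:ℝ) < m^(L-1) := by positivity
    have e1 : m^(L-1) ≤ m^L / L := by
      rw [le_div_iff₀ hLr, hpow]
      exact mul_le_mul_of_nonneg_left hLm hp0.le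
    have e2 : m^L * m * (m⁻¹ * (1/(L:ℝ))) = m^L / L := by field_simp
    rw [e2]
    calc m^(L-1) + m^L / L ≤ m^L / L + m^L / L := by linarith
      _ = (2/(L:ℝ)) * m^L := by ring
      _ ≤ ε * m^L := mul_le_mul_of_nonneg_right hε (by positivity)

end TAux

open TAux

/-- TARGET -/
theorem TAux.exists_T (𝕜 : Type) [RCLike 𝕜] (hVP : VP 𝕜) (X : Type) [NormedAddCommGroup X]
    [NormedSpace 𝕜 X] [FiniteDimensional 𝕜 X] (ε : ℝ) (hε : 0 < ε) :
    ∃ (V U : Type) (_ : Fintype V) (_ : Fintype U) (_ : Nonempty V) (T : U → V → 𝕜)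
      (θ : V → V → 𝕜) (c : U → ℝ),
      (∀ v, ∑ u, ‖T u v‖ ≤ 3) ∧
      (∀ f : V → X, ∑ v, ‖f v‖ ≤ 10 * ∑ u, ‖∑ v, T u v • f v‖) ∧
      (∀ v, θ v v = 1) ∧ (∀ v w, ‖θ v w‖ ≤ 1) ∧
      (∀ v u, ‖∑ w, T u w * θ v w‖ ≤ c u) ∧ ∑ u, c u ≤ ε * Fintype.card V := by
  obtain ⟨L, hLe⟩ := exists_nat_gt (2/ε)
  have hL0 : (0:ℝ) < L := lt_trans (by positivity) hLe
  have hL : 1 ≤ L := by
    have : 0 < L := by exact_mod_cast hL0
    omega
  obtain ⟨p₀, hp0⟩ := hVP X (2*L)
  obtain ⟨p, hpge, hp⟩ := Nat.exists_infinite_primes (max p₀ L)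
  have : Fact p.Prime := ⟨hp⟩
  have hcS : Fintype.card (ZMod p × ZMod p) = p^2 := by
    rw [Fintype.card_prod, ZMod.card]; ring
  have hcV : Fintype.card (Fin (2*L) → ZMod p) = (p^2)^L := by
    rw [Fintype.card_fun, ZMod.card, Fintype.card_fin, pow_mul]
  refine core 𝕜 (V := Fin (2*L) → ZMod p) (S := ZMod p × ZMod p) (gen p (2*L)) (0, 0) ?_ ?_ L hL ?_ ?_ X ε ?_ ?_
  · funext i; simp [gen]
  · rintro ⟨x, y⟩
    refine ⟨(x, -y), ?_⟩
    funext i; simp [gen]
  · rw [hcS, hcV]; push_cast; ring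
  · rw [hcS]
    have h1 : L ≤ p := (le_max_right _ _).trans hpge
    have h2 : p ≤ p^2 := Nat.le_self_pow (by norm_num) p
    exact h1.trans h2
  · rw [div_le_iff₀ hL0]
    rw [div_lt_iff₀ hε] at hLe
    linarith
  · intro f
    have := hp0 p ((le_max_left _ _).trans hpge) ⟨hp⟩ f
    rw [hcS]
    push_cast
    exact this

theorem goodMat (𝕜 : Type) [RCLike 𝕜] : GoodMat 𝕜 := by
  intro X _ _ _ ε hε
  exact TAux.exists_T 𝕜 (fun X _ _ _ k => vector_poincare (𝕜 := 𝕜) X k) X ε hε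

end Pool.Agent.Helper69.Fd
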