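import Mathlib
import Pool.Agent.Helper69.FdDefs
import Pool.Agent.Helper69.FdPert

set_option autoImplicit false

namespace Pool.Agent.Helper69.Fd



section aux

open MeasureTheory
open scoped ENNReal

variable {𝕜 : Type} [RCLike 𝕜] {X : Type} [MeasurableSpace X] {μ : Measure X} [IsFiniteMeasure μ]

/-- step functions on a partition -/
noncomputable def stepFn {ι : Type} [Fintype ι] (A : ι → Set X) (hA : ∀ i, MeasurableSet (A i))
    (c : ι → 𝕜) : Lp 𝕜 1 μ :=
  ∑ i, indicatorConstLp 1 (hA i) (measure_ne_top μ _) (c i)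

theorem stepFn_coe {ι : Type} [Fintype ι] (A : ι → Set X) (hA : ∀ i, MeasurableSet (A i))
    (c : ι → 𝕜) : (stepFn (μ := μ) A hA c : X → 𝕜) =ᵐ[μ] fun x => ∑ i, (A i).indicator (fun _ => c i) x := by
  unfold stepFn
  refine (Lp.coeFn_finsetSum _ _).trans ?_
  have h : ∀ i : ι, ∀ᵐ x ∂μ, (indicatorConstLp 1 (hA i) (measure_ne_top μ _) (c i) : X → 𝕜) x =
      (A i).indicator (fun _ => c i) x := fun i => indicatorConstLp_coeFn
  filter_upwards [ae_all_iff.2 h] with x hx
  rw [Finset.sum_apply]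
  exact Finset.sum_congr rfl fun i _ => hx i

theorem norm_stepFn {ι : Type} [Fintype ι] (A : ι → Set X) (hA : ∀ i, MeasurableSet (A i))
    (hd : ∀ i j, i ≠ j → Disjoint (A i) (A j)) (c : ι → 𝕜) :
    ‖stepFn (μ := μ) A hA c‖ = ∑ i, ‖c i‖ * μ.real (A i) := by
  classical
  rw [L1.norm_eq_integral_norm]
  have h1 : (fun x => ‖(stepFn (μ := μ) A hA c : X → 𝕜) x‖) =ᵐ[μ]
      fun x => ∑ i, (A i).indicator (fun _ => ‖c i‖) x := by
    filter_upwards [stepFn_coe (μ := μ) A hA c] with x hx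
    rw [hx]
    by_cases h : ∃ i, x ∈ A i
    · obtain ⟨i, hi⟩ := h
      have hne : ∀ j, j ≠ i → x ∉ A j := fun j hj hxj =>
        Set.disjoint_left.1 (hd j i hj) hxj hi
      rw [Finset.sum_eq_single i, Finset.sum_eq_single i]
      · rw [Set.indicator_of_mem hi, Set.indicator_of_mem hi]
      · intro j _ hj; exact Set.indicator_of_notMem (hne j hj) _
      · intro h; exact absurd (Finset.mem_univ i) h
      · intro j _ hj; exact Set.indicator_of_notMem (hne j hj) _
      · intro h; exact absurd (Finset.mem_univ i) h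
    · push Not at h
      rw [Finset.sum_eq_zero fun i _ => Set.indicator_of_notMem (h i) _,
        Finset.sum_eq_zero fun i _ => Set.indicator_of_notMem (h i) _, norm_zero]
  rw [integral_congr_ae h1, integral_finsetSum]
  · refine Finset.sum_congr rfl fun i _ => ?_
    rw [integral_indicator_const _ (hA i), smul_eq_mul, mul_comm]
  · intro i _
    exact (integrable_const _).indicator (hA i)

theorem indLp_smul {p : ℝ≥0∞} {A : Set X} (hA : MeasurableSet A) (k c : 𝕜) :
    indicatorConstLp p hA (measure_ne_top μ _) (k * c) =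
      k • indicatorConstLp p hA (measure_ne_top μ _) c := by
  apply Lp.ext
  filter_upwards [indicatorConstLp_coeFn (p := p) (hs := hA) (hμs := measure_ne_top μ A) (c := k * c),
    Lp.coeFn_smul k (indicatorConstLp p hA (measure_ne_top μ _) c),
    indicatorConstLp_coeFn (p := p) (hs := hA) (hμs := measure_ne_top μ A) (c := c)] with x h1 h2 h3
  rw [h1, h2, Pi.smul_apply, h3]
  by_cases hx : x ∈ A
  · rw [Set.indicator_of_mem hx, Set.indicator_of_mem hx, smul_eq_mul]
  · rw [Set.indicator_of_notMem hx, Set.indicator_of_notMem hx, smul_zero]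

/-- the isometric embedding of `ℓ₁` given by a partition -/
noncomputable def embed {ι : Type} [Fintype ι] (A : ι → Set X) (hA : ∀ i, MeasurableSet (A i))
    (hd : ∀ i j, i ≠ j → Disjoint (A i) (A j)) (h0 : ∀ i, μ (A i) ≠ 0) :
    PiLp 1 (fun _ : ι => 𝕜) →ₗᵢ[𝕜] Lp 𝕜 1 μ where
  toFun c := stepFn A hA (fun i => c i * ((μ.real (A i))⁻¹ : ℝ))
  map_add' c c' := by
    unfold stepFn
    rw [← Finset.sum_add_distrib]
    refine Finset.sum_congr rfl fun i _ => ?_
    simp only [PiLp.add_apply, add_mul]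
    exact indicatorConstLp_add.symm
  map_smul' k c := by
    unfold stepFn
    rw [RingHom.id_apply, Finset.smul_sum]
    refine Finset.sum_congr rfl fun i _ => ?_
    simp only [PiLp.smul_apply, smul_eq_mul, mul_assoc]
    exact indLp_smul _ _ _
  norm_map' c := by
    show ‖stepFn A hA (fun i => c i * ((μ.real (A i))⁻¹ : ℝ))‖ = _
    rw [norm_stepFn A hA hd, PiLp.norm_eq_of_L1]
    refine Finset.sum_congr rfl fun i _ => ?_
    have hpos : 0 < μ.real (A i) := ENNReal.toReal_pos (h0 i) (measure_ne_top μ _)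
    rw [norm_mul, RCLike.norm_ofReal, abs_of_pos (inv_pos.2 hpos), mul_assoc,
      inv_mul_cancel₀ hpos.ne', mul_one]

theorem isL1Space_Lp (μ : Measure X) [IsFiniteMeasure μ] : IsL1Space 𝕜 (Lp 𝕜 1 μ) := by
  classical
  refine isL1Space_of_approx 1 fun s ε hε => ?_
  have hdense : ∀ x : Lp 𝕜 1 μ, ∃ y : Lp.simpleFunc 𝕜 1 μ, dist x (y : Lp 𝕜 1 μ) < ε := fun x =>
    (Lp.simpleFunc.denseRange (by norm_num)).exists_dist_lt x hε
  choose y hy using hdense
  let g : Lp 𝕜 1 μ → SimpleFunc X 𝕜 := fun x => Lp.simpleFunc.toSimpleFunc (y x)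
  let F : X → (s → 𝕜) := fun a x => g x a
  have hfin : (Set.range F).Finite := by
    refine (Set.Finite.pi' fun x : s => (g x).finite_range).subset ?_
    rintro _ ⟨a, rfl⟩ x
    exact ⟨a, rfl⟩
  have hmeas : ∀ c : s → 𝕜, MeasurableSet (F ⁻¹' {c}) := by
    intro c
    have : F ⁻¹' {c} = ⋂ x : s, (g x) ⁻¹' {c x} := by
      ext a
      simp only [Set.mem_preimage, Set.mem_singleton_iff, Set.mem_iInter]
      exact funext_iff
    rw [this]
    exact MeasurableSet.iInter fun x => (g x).measurableSet_fiber _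
  let ι : Type := {c : hfin.toFinset // μ (F ⁻¹' {c.1}) ≠ 0}
  let A : ι → Set X := fun i => F ⁻¹' {i.1.1}
  have hA : ∀ i, MeasurableSet (A i) := fun i => hmeas _
  have hd : ∀ i j : ι, i ≠ j → Disjoint (A i) (A j) := by
    intro i j hij
    rw [Set.disjoint_left]
    intro a hi hj
    apply hij
    apply Subtype.ext
    apply Subtype.ext
    have h1 : F a = i.1.1 := hi
    have h2 : F a = j.1.1 := hj
    rw [← h1, ← h2]
  have h0 : ∀ i : ι, μ (A i) ≠ 0 := fun i => i.2
  let J := embed (𝕜 := 𝕜) (μ := μ) A hA hd h0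
  let H : Submodule 𝕜 (Lp 𝕜 1 μ) := LinearMap.range J.toLinearMap
  have hfinrank : Module.finrank 𝕜 H = Fintype.card ι := by
    have h1 : Module.finrank 𝕜 H = Module.finrank 𝕜 (PiLp 1 (fun _ : ι => 𝕜)) :=
      LinearMap.finrank_range_of_inj J.injective
    have h2 : Module.finrank 𝕜 (PiLp 1 (fun _ : ι => 𝕜)) = Module.finrank 𝕜 (ι → 𝕜) :=
      (WithLp.linearEquiv 1 𝕜 (ι → 𝕜)).finrank_eq
    rw [h1, h2, Module.finrank_pi]
  refine ⟨H, inferInstance, ?_, ?_⟩
  · intro x hx
    refine ⟨(y x : Lp 𝕜 1 μ), ?_, ?_⟩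
    · -- membership
      let cx : ι → 𝕜 := fun i => i.1.1 ⟨x, hx⟩
      refine ⟨WithLp.toLp 1 fun i => cx i * (μ.real (A i) : 𝕜), ?_⟩
      show stepFn A hA (fun i => (cx i * (μ.real (A i) : 𝕜)) * ((μ.real (A i))⁻¹ : ℝ)) = _
      have h1 : (fun i => (cx i * (μ.real (A i) : 𝕜)) * (((μ.real (A i))⁻¹ : ℝ) : 𝕜)) = cx := by
        funext i
        have hpos : 0 < μ.real (A i) := ENNReal.toReal_pos (h0 i) (measure_ne_top μ _)
        rw [mul_assoc, ← RCLike.ofReal_mul, mul_inv_cancel₀ hpos.ne', RCLike.ofReal_one, mul_one]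
      rw [h1]
      apply Lp.ext
      have hnull : ∀ᵐ a ∂μ, ∀ c : hfin.toFinset, μ (F ⁻¹' {c.1}) = 0 → a ∉ F ⁻¹' {c.1} := by
        rw [ae_all_iff]
        intro c
        by_cases hc : μ (F ⁻¹' {c.1}) = 0
        · have := measure_eq_zero_iff_ae_notMem.1 hc
          filter_upwards [this] with a ha _ using ha
        · filter_upwards with a h using absurd h hc
      filter_upwards [stepFn_coe (μ := μ) A hA cx, hnull,
        Lp.simpleFunc.toSimpleFunc_eq_toFun (y x)] with a ha1 ha2 ha3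
      rw [ha1]
      have hFa : F a ∈ hfin.toFinset := by
        rw [Set.Finite.mem_toFinset]; exact ⟨a, rfl⟩
      have hne : μ (F ⁻¹' {F a}) ≠ 0 := fun h => ha2 ⟨F a, hFa⟩ h rfl
      let i0 : ι := ⟨⟨F a, hFa⟩, hne⟩
      have hi0 : a ∈ A i0 := rfl
      rw [Finset.sum_eq_single i0]
      · rw [Set.indicator_of_mem hi0]
        show F a ⟨x, hx⟩ = _
        exact ha3
      · intro j _ hj
        refine Set.indicator_of_notMem (fun hxj => ?_) _
        exact Set.disjoint_left.1 (hd j i0 hj) hxj hi0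
      · intro h; exact absurd (Finset.mem_univ i0) h
    · have := hy x
      rw [dist_eq_norm] at this
      exact this.le
  · let e : ι ≃ Fin (Module.finrank 𝕜 H) := Fintype.equivFinOfCardEq hfinrank.symm
    let T : H ≃ₗᵢ[𝕜] PiLp 1 (fun _ : Fin (Module.finrank 𝕜 H) => 𝕜) :=
      J.equivRange.symm.trans (LinearIsometryEquiv.piLpCongrLeft 1 𝕜 𝕜 e)
    refine ⟨T.toContinuousLinearEquiv, ?_⟩
    have h1 : ‖(T.toContinuousLinearEquiv : H →L[𝕜] PiLp 1 (fun _ : Fin (Module.finrank 𝕜 H) => 𝕜))‖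
        ≤ 1 := T.toLinearIsometry.norm_toContinuousLinearMap_le
    have h2 : ‖(T.toContinuousLinearEquiv.symm :
        PiLp 1 (fun _ : Fin (Module.finrank 𝕜 H) => 𝕜) →L[𝕜] H)‖ ≤ 1 :=
      T.symm.toLinearIsometry.norm_toContinuousLinearMap_le
    calc _ ≤ (1 : ℝ) * 1 := by gcongr
      _ = 1 := one_mul 1

/-- the inclusion of `L²` in `L¹` -/
noncomputable def inc (𝕜 : Type) [RCLike 𝕜] (μ : Measure X) [IsProbabilityMeasure μ] :
    Lp 𝕜 2 μ →L[𝕜] Lp 𝕜 1 μ :=
  LinearMap.mkContinuous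
    { toFun := fun h => ((Lp.memLp h).mono_exponent one_le_two).toLp h
      map_add' := by
        intro f g
        apply Lp.ext
        filter_upwards [MemLp.coeFn_toLp ((Lp.memLp (f + g)).mono_exponent one_le_two),
          Lp.coeFn_add f g,
          Lp.coeFn_add (((Lp.memLp f).mono_exponent one_le_two).toLp f)
            (((Lp.memLp g).mono_exponent one_le_two).toLp g),
          MemLp.coeFn_toLp ((Lp.memLp f).mono_exponent one_le_two),
          MemLp.coeFn_toLp ((Lp.memLp g).mono_exponent one_le_two)] with x h1 h2 h3 h4 h5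
        rw [h1, h2, h3, Pi.add_apply, Pi.add_apply, h4, h5]
      map_smul' := by
        intro k f
        apply Lp.ext
        filter_upwards [MemLp.coeFn_toLp ((Lp.memLp (k • f)).mono_exponent one_le_two),
          Lp.coeFn_smul k f,
          Lp.coeFn_smul k (((Lp.memLp f).mono_exponent one_le_two).toLp f),
          MemLp.coeFn_toLp ((Lp.memLp f).mono_exponent one_le_two)] with x h1 h2 h3 h4
        rw [RingHom.id_apply, h1, h2, h3, Pi.smul_apply, Pi.smul_apply, h4] } 1 (by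
    intro h
    rw [one_mul]
    show ‖((Lp.memLp h).mono_exponent one_le_two).toLp h‖ ≤ ‖h‖
    rw [Lp.norm_toLp, Lp.norm_def]
    exact ENNReal.toReal_mono (Lp.memLp h).2.ne
      (eLpNorm_le_eLpNorm_of_exponent_le one_le_two (Lp.memLp h).1))

theorem inc_indicator (μ : Measure X) [IsProbabilityMeasure μ] {A : Set X} (hA : MeasurableSet A)
    (c : 𝕜) : inc 𝕜 μ (indicatorConstLp 2 hA (measure_ne_top μ _) c) =
      indicatorConstLp 1 hA (measure_ne_top μ _) c := by
  apply Lp.ext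
  have h0 : (inc 𝕜 μ (indicatorConstLp 2 hA (measure_ne_top μ _) c)) =
    ((Lp.memLp (indicatorConstLp 2 hA (measure_ne_top μ _) c)).mono_exponent one_le_two).toLp
      (indicatorConstLp 2 hA (measure_ne_top μ _) c : Lp 𝕜 2 μ) := rfl
  rw [h0]
  filter_upwards [MemLp.coeFn_toLp ((Lp.memLp
      (indicatorConstLp 2 hA (measure_ne_top μ _) c : Lp 𝕜 2 μ)).mono_exponent one_le_two),
    indicatorConstLp_coeFn (p := 2) (hs := hA) (hμs := measure_ne_top μ A) (c := c),
    indicatorConstLp_coeFn (p := 1) (hs := hA) (hμs := measure_ne_top μ A) (c := c)] with x h1 h2 h3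
  rw [h1, h2, h3]

/-- fair coin -/
noncomputable def coin : Measure Bool := (2 : ℝ≥0∞)⁻¹ • (Measure.dirac true + Measure.dirac false)

instance : IsProbabilityMeasure coin := by
  refine ⟨?_⟩
  unfold coin
  simp only [Measure.smul_apply, Measure.add_apply, measure_univ, smul_eq_mul]
  rw [one_add_one_eq_two]
  exact ENNReal.inv_mul_cancel (by norm_num) (by norm_num)

theorem coin_true : coin {true} = (2 : ℝ≥0∞)⁻¹ := by
  unfold coin
  simp

/-- coin tossing -/
noncomputable def cube : Measure (ℕ → Bool) := Measure.infinitePi fun _ => coin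

instance : IsProbabilityMeasure cube := by unfold cube; infer_instance

/-- cylinder -/
def cyl (A : Finset ℕ) : Set (ℕ → Bool) := (A : Set ℕ).pi fun _ => {true}

theorem mem_cyl {A : Finset ℕ} {x : ℕ → Bool} : x ∈ cyl A ↔ ∀ n ∈ A, x n = true := by
  simp [cyl, Set.mem_pi]

theorem meas_cyl (A : Finset ℕ) : MeasurableSet (cyl A) := by
  unfold cyl
  exact MeasurableSet.pi A.countable_toSet fun _ _ => measurableSet_singleton _

theorem cube_cyl (A : Finset ℕ) : cube.real (cyl A) = (2⁻¹ : ℝ) ^ A.card := by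
  have h : cube (cyl A) = (2⁻¹ : ℝ≥0∞) ^ A.card := by
    unfold cube cyl
    rw [Measure.infinitePi_pi _ (fun _ _ => measurableSet_singleton _), coin_true,
      Finset.prod_const]
  rw [measureReal_def, h, ENNReal.toReal_pow, ENNReal.toReal_inv]
  norm_num

/-- the bush -/
noncomputable def bush (𝕜 : Type) [RCLike 𝕜] (A : Finset ℕ) : Lp 𝕜 1 cube :=
  indicatorConstLp 1 (meas_cyl A) (measure_ne_top cube _) ((2 : 𝕜) ^ A.card)

theorem norm_bush (A : Finset ℕ) : ‖bush 𝕜 A‖ = 1 := by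
  unfold bush
  rw [norm_indicatorConstLp one_ne_zero ENNReal.one_ne_top, cube_cyl]
  simp

theorem norm_sub_bush (A : Finset ℕ) {n : ℕ} (hn : n ∉ A) :
    ‖bush 𝕜 (insert n A) - bush 𝕜 A‖ = 1 := by
  rw [L1.norm_eq_integral_norm]
  have h1 : (fun x => ‖((bush 𝕜 (insert n A) - bush 𝕜 A : Lp 𝕜 1 cube) : (ℕ → Bool) → 𝕜) x‖)
      =ᵐ[cube] (cyl A).indicator fun _ => (2 : ℝ) ^ A.card := by
    filter_upwards [Lp.coeFn_sub (bush 𝕜 (insert n A)) (bush 𝕜 A),
      indicatorConstLp_coeFn (p := 1) (hs := meas_cyl (insert n A))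
        (hμs := measure_ne_top cube _) (c := (2 : 𝕜) ^ (insert n A).card),
      indicatorConstLp_coeFn (p := 1) (hs := meas_cyl A)
        (hμs := measure_ne_top cube _) (c := (2 : 𝕜) ^ A.card)] with x h1 h2 h3
    rw [h1, Pi.sub_apply]
    have h2' : (bush 𝕜 (insert n A) : (ℕ → Bool) → 𝕜) x = (cyl (insert n A)).indicator
      (fun _ => (2 : 𝕜) ^ (insert n A).card) x := h2
    have h3' : (bush 𝕜 A : (ℕ → Bool) → 𝕜) x = (cyl A).indicator
      (fun _ => (2 : 𝕜) ^ A.card) x := h3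
    rw [h2', h3']
    by_cases hx : x ∈ cyl A
    · rw [Set.indicator_of_mem hx, Set.indicator_of_mem hx]
      by_cases hx' : x ∈ cyl (insert n A)
      · rw [Set.indicator_of_mem hx', Finset.card_insert_of_notMem hn, pow_succ]
        have : (2 : 𝕜) ^ A.card * 2 - 2 ^ A.card = 2 ^ A.card := by ring
        rw [this, norm_pow, RCLike.norm_ofNat]
      · rw [Set.indicator_of_notMem hx', zero_sub, norm_neg, norm_pow, RCLike.norm_ofNat]
    · have hx' : x ∉ cyl (insert n A) := by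
        intro h
        apply hx
        rw [mem_cyl] at h ⊢
        exact fun m hm => h m (Finset.mem_insert_of_mem hm)
      rw [Set.indicator_of_notMem hx, Set.indicator_of_notMem hx', Set.indicator_of_notMem hx]
      simp
  rw [integral_congr_ae h1, integral_indicator_const _ (meas_cyl A), cube_cyl, smul_eq_mul,
    ← mul_pow]
  norm_num

/-- the orthogonal sequence -/
noncomputable def vv (𝕜 : Type) [RCLike 𝕜] (A : Finset ℕ) (n : ℕ) : Lp 𝕜 2 cube :=
  (2 : 𝕜) • indicatorConstLp 2 (meas_cyl (insert n A)) (measure_ne_top cube _) (1 : 𝕜) -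
    indicatorConstLp 2 (meas_cyl A) (measure_ne_top cube _) (1 : 𝕜)

theorem cyl_inter (A B : Finset ℕ) : cyl A ∩ cyl B = cyl (A ∪ B) := by
  ext x
  simp only [Set.mem_inter_iff, mem_cyl, Finset.mem_union]
  constructor
  · rintro ⟨h1, h2⟩ n (h | h)
    · exact h1 n h
    · exact h2 n h
  · intro h
    exact ⟨fun n hn => h n (Or.inl hn), fun n hn => h n (Or.inr hn)⟩

open scoped InnerProductSpace in
theorem inner_vv (A : Finset ℕ) {m n : ℕ} (hm : m ∉ A) (hn : n ∉ A) :
    ⟪vv 𝕜 A m, vv 𝕜 A n⟫_𝕜 = if m = n then ((2⁻¹ : ℝ) ^ A.card : 𝕜) else 0 := by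
  have key : ∀ B C : Finset ℕ,
      ⟪(indicatorConstLp 2 (meas_cyl B) (measure_ne_top cube _) (1 : 𝕜) : Lp 𝕜 2 cube),
        indicatorConstLp 2 (meas_cyl C) (measure_ne_top cube _) (1 : 𝕜)⟫_𝕜 =
        (((2⁻¹ : ℝ) ^ (B ∪ C).card : ℝ) : 𝕜) := by
    intro B C
    rw [L2.inner_indicatorConstLp_one_indicatorConstLp_one, cyl_inter, cube_cyl]
  unfold vv
  simp only [inner_sub_left, inner_sub_right, inner_smul_left, inner_smul_right, key]
  have c1 : (insert m A ∪ A).card = A.card + 1 := by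
    rw [Finset.insert_union, Finset.union_self, Finset.card_insert_of_notMem hm]
  have c2 : (A ∪ insert n A).card = A.card + 1 := by
    rw [Finset.union_insert, Finset.union_self, Finset.card_insert_of_notMem hn]
  have c3 : (A ∪ A).card = A.card := by rw [Finset.union_self]
  rw [c1, c2, c3]
  have h2 : (starRingEnd 𝕜) (2 : 𝕜) = 2 := by
    exact RCLike.conj_ofNat 2
  rw [h2]
  split_ifs with h
  · subst h
    have c4 : (insert m A ∪ insert m A).card = A.card + 1 := by
      rw [Finset.union_self, Finset.card_insert_of_notMem hm]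
    rw [c4]
    push_cast
    ring
  · have c4 : (insert m A ∪ insert n A).card = A.card + 2 := by
      rw [Finset.insert_union, Finset.union_insert, Finset.union_self,
        Finset.card_insert_of_notMem, Finset.card_insert_of_notMem hn]
      rw [Finset.mem_insert]
      push Not
      exact ⟨h, hm⟩
    rw [c4]
    push_cast
    ring

theorem bush_sub_eq (A : Finset ℕ) {n : ℕ} (hn : n ∉ A) :
    bush 𝕜 (insert n A) - bush 𝕜 A = (2 : 𝕜) ^ A.card • inc 𝕜 cube (vv 𝕜 A n) := by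
  unfold vv
  rw [map_sub, map_smul, inc_indicator, inc_indicator, smul_sub, ← indLp_smul, ← indLp_smul,
    ← indLp_smul]
  unfold bush
  rw [Finset.card_insert_of_notMem hn]
  congr 1
  · congr 1
    rw [pow_succ]; ring
  · congr 1
    ring

open scoped InnerProductSpace in
theorem weak_null (A : Finset ℕ) (φ : Lp 𝕜 1 cube →L[𝕜] 𝕜) :
    Filter.Tendsto (fun n : ℕ => ‖φ (bush 𝕜 (insert (A.sup id + 1 + n) A) - bush 𝕜 A)‖)
      Filter.atTop (nhds 0) := by
  have hnot : ∀ n : ℕ, A.sup id + 1 + n ∉ A := by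
    intro n hn
    have : A.sup id + 1 + n ≤ A.sup id := Finset.le_sup (f := id) hn
    omega
  set m : ℝ := (2⁻¹ : ℝ) ^ A.card with hm
  have hmpos : 0 < m := by positivity
  let ψ : Lp 𝕜 2 cube →L[𝕜] 𝕜 := φ.comp (inc 𝕜 cube)
  let y : Lp 𝕜 2 cube := (InnerProductSpace.toDual 𝕜 (Lp 𝕜 2 cube)).symm ψ
  have hy : ∀ h, ψ h = ⟪y, h⟫_𝕜 := by
    intro h
    rw [← InnerProductSpace.toDual_apply_apply (𝕜 := 𝕜), LinearIsometryEquiv.apply_symm_apply]
  let w : ℕ → Lp 𝕜 2 cube := fun n => (((Real.sqrt m)⁻¹ : ℝ) : 𝕜) • vv 𝕜 A (A.sup id + 1 + n)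
  have hw : Orthonormal 𝕜 w := by
    rw [orthonormal_iff_ite]
    intro i j
    simp only [w, inner_smul_left, inner_smul_right]
    rw [inner_vv A (hnot i) (hnot j), RCLike.conj_ofReal]
    by_cases h : i = j
    · subst h
      rw [if_pos rfl, if_pos rfl]
      have h1 : (((2⁻¹ : ℝ) : 𝕜)) ^ A.card = ((m : ℝ) : 𝕜) := by rw [hm]; push_cast; rfl
      rw [h1, ← RCLike.ofReal_mul, ← RCLike.ofReal_mul]
      have : (Real.sqrt m)⁻¹ * ((Real.sqrt m)⁻¹ * m) = 1 := by
        rw [← mul_assoc, ← mul_inv, Real.mul_self_sqrt hmpos.le, inv_mul_cancel₀ hmpos.ne']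
      rw [this, RCLike.ofReal_one]
    · rw [if_neg (by omega), if_neg h, mul_zero, mul_zero]
  have hsum := (hw.inner_products_summable (x := y)).tendsto_atTop_zero
  have h1 : Filter.Tendsto (fun n => ‖⟪w n, y⟫_𝕜‖) Filter.atTop (nhds 0) := by
    have h2 := hsum.sqrt
    simp only [Real.sqrt_sq (norm_nonneg _), Real.sqrt_zero] at h2
    exact h2
  have h2 : ∀ n, ‖φ (bush 𝕜 (insert (A.sup id + 1 + n) A) - bush 𝕜 A)‖ =
      2 ^ A.card * Real.sqrt m * ‖⟪w n, y⟫_𝕜‖ := by
    intro n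
    rw [bush_sub_eq A (hnot n), map_smul, norm_smul, norm_pow, RCLike.norm_ofNat]
    have h3 : φ (inc 𝕜 cube (vv 𝕜 A (A.sup id + 1 + n))) = ⟪y, vv 𝕜 A (A.sup id + 1 + n)⟫_𝕜 :=
      hy _
    rw [h3, norm_inner_symm]
    simp only [w, inner_smul_left]
    rw [norm_mul, RCLike.norm_conj, RCLike.norm_ofReal, abs_of_pos (by positivity)]
    have hs : Real.sqrt m ≠ 0 := (Real.sqrt_pos.2 hmpos).ne'
    field_simp
  simp_rw [h2]
  have := h1.const_mul (2 ^ A.card * Real.sqrt m)
  simpa using this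

end aux

/-- TARGET: `W = L¹` of the Cantor cube (you choose the model). -/
theorem exists_W (𝕜 : Type) [RCLike 𝕜] :
    ∃ (W : Type) (_ : NormedAddCommGroup W) (_ : NormedSpace 𝕜 W) (_ : CompleteSpace W),
      IsL1Space 𝕜 W ∧ ∃ D : Set W, D.Nonempty ∧ (∀ f ∈ D, ‖f‖ ≤ 1) ∧
        ∀ f ∈ D, ∀ (Φ : Finset (W →L[𝕜] 𝕜)) (ε : ℝ), 0 < ε →
          ∃ g, 1 ≤ ‖g‖ ∧ f + g ∈ D ∧ ∀ φ ∈ Φ, ‖φ g‖ ≤ ε := by
  refine ⟨MeasureTheory.Lp 𝕜 1 cube, inferInstance, inferInstance, inferInstance,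
    isL1Space_Lp cube, Set.range (bush 𝕜), ⟨_, ⟨∅, rfl⟩⟩, ?_, ?_⟩
  · rintro _ ⟨A, rfl⟩
    exact (norm_bush A).le
  · rintro _ ⟨A, rfl⟩ Φ ε hε
    have hnot : ∀ n : ℕ, A.sup id + 1 + n ∉ A := by
      intro n hn
      have : A.sup id + 1 + n ≤ A.sup id := Finset.le_sup (f := id) hn
      omega
    have hev : ∀ᶠ n in Filter.atTop, ∀ φ ∈ Φ,
        ‖φ (bush 𝕜 (insert (A.sup id + 1 + n) A) - bush 𝕜 A)‖ < ε := by
      rw [Filter.eventually_all_finset]
      intro φ _
      exact (weak_null A φ).eventually (gt_mem_nhds hε)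
    obtain ⟨n, hn⟩ := hev.exists
    refine ⟨bush 𝕜 (insert (A.sup id + 1 + n) A) - bush 𝕜 A, ?_, ?_, fun φ hφ => (hn φ hφ).le⟩
    · rw [norm_sub_bush A (hnot n)]
    · rw [add_sub_cancel]
      exact ⟨_, rfl⟩

end Pool.Agent.Helper69.Fd
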