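import Mathlib
import Pool.Agent.Helper69.FdRes
import Pool.Agent.Helper69.FdLift
import Pool.Agent.Helper69.FdPert
import Pool.Agent.Helper69.FdW
import Pool.Agent.Helper69.FdBush
import Pool.Agent.Helper69.FdSum
import Pool.Agent.Helper69.FdT

set_option autoImplicit false

/-!
# All values of the flat dimension occur
-/

namespace Pool.Agent.Helper69.Fd

variable {𝕜 : Type} [RCLike 𝕜]

/-! ### retracts -/

theorem Fm.retract {Q : Ban 𝕜 → Prop} (hQ : Resolving Q) (m : ℕ) (X Y : Ban 𝕜)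
    (s : Y.C →L[𝕜] X.C) (q : X.C →L[𝕜] Y.C) (hs : ∀ y, q (s y) = y) (h : Fm Q m X) :
    Fm Q m Y := by
  have hq : Function.Surjective q := fun y => ⟨s y, hs y⟩
  obtain ⟨N, i1, i2, i3, ν, hν⟩ := exists_ker q hq
  have hqν : ∀ n, q (ν n) = 0 := fun n => (hν.ex (ν n)).2 ⟨n, rfl⟩
  let f : (Y.C × N) →L[𝕜] X.C := s.comp (ContinuousLinearMap.fst 𝕜 Y.C N) +
    ν.comp (ContinuousLinearMap.snd 𝕜 Y.C N)
  have hf : ∀ y n, f (y, n) = s y + ν n := fun y n => rfl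
  have hinj : Function.Injective f := by
    rw [injective_iff_map_eq_zero]
    rintro ⟨y, n⟩ h0
    rw [hf] at h0
    have h1 := congrArg q h0
    rw [map_add, hs, hqν, add_zero, map_zero] at h1
    rw [h1, map_zero, zero_add] at h0
    have h2 : n = 0 := hν.inj (by rw [h0, map_zero])
    rw [h1, h2]
    rfl
  have hsurj : Function.Surjective f := by
    intro x
    have h1 : q (x - s (q x)) = 0 := by rw [map_sub, hs, sub_self]
    obtain ⟨n, hn⟩ := (hν.ex _).1 h1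
    exact ⟨(q x, n), by rw [hf, hn]; abel⟩
  have e : (Y.C × N) ≃L[𝕜] X.C := ContinuousLinearEquiv.ofBijective f
    (LinearMap.ker_eq_bot.2 hinj) (LinearMap.range_eq_top.2 hsurj)
  exact Fm.fst hQ m Y ⟨N⟩ (Fm.iso hQ m X ⟨Y.C × N⟩ e.symm h)

/-! ### infima -/

section inf

variable {X : Type} [NormedAddCommGroup X] [NormedSpace 𝕜 X]

theorem fd_eq_of {n : ℕ} (h : HasFlatRes 𝕜 X n) (h' : ∀ m, m < n → ¬ HasFlatRes 𝕜 X m) :
    fd 𝕜 X = n := by
  unfold fd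
  apply le_antisymm
  · exact iInf₂_le n h
  · refine le_iInf₂ fun m hm => ?_
    by_contra h1
    push Not at h1
    exact h' m (by exact_mod_cast h1) hm

theorem fd_eq_top (h : ∀ m, ¬ HasFlatRes 𝕜 X m) : fd 𝕜 X = ⊤ := by
  unfold fd
  rw [iInf₂_eq_top]
  exact fun m hm => absurd hm (h m)

theorem pd_eq_top (h : ∀ m, ¬ HasProjRes 𝕜 X m) : pd 𝕜 X = ⊤ := by
  unfold pd
  rw [iInf₂_eq_top]
  exact fun m hm => absurd hm (h m)

theorem HasProjRes.flat {n : ℕ} (h : HasProjRes 𝕜 X n) : HasFlatRes 𝕜 X n := by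
  obtain ⟨R, h1, h2⟩ := h
  refine ⟨R, fun i => ?_, h2⟩
  obtain ⟨S, ⟨e⟩⟩ := h1 i
  exact IsL1Space.of_equiv e.symm.toContinuousLinearEquiv (isL1Space_l1 𝕜 S)

theorem HasFlatRes.mono {m n : ℕ} (hmn : m ≤ n) (h : HasFlatRes 𝕜 X m) : HasFlatRes 𝕜 X n := by
  obtain ⟨R, h1, h2⟩ := h
  exact ⟨R, h1, fun i hi => h2 i (hmn.trans_lt hi)⟩

variable [CompleteSpace X]

theorem HasFlatRes.fm {n : ℕ} (h : HasFlatRes 𝕜 X n) : Fm (QL (𝕜 := 𝕜)) n ⟨X⟩ := by
  obtain ⟨R, h1, h2⟩ := h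
  exact fm_of_resolution resolving_QL n ⟨X⟩ R (fun i => propL_of_isL1Space 𝕜 _ (h1 i)) h2

theorem HasProjRes.fm {n : ℕ} (h : HasProjRes 𝕜 X n) : Fm (Proj (𝕜 := 𝕜)) n ⟨X⟩ := by
  obtain ⟨R, h1, h2⟩ := h
  refine fm_of_resolution resolving_proj n ⟨X⟩ R (fun i => ?_) h2
  obtain ⟨S, ⟨e⟩⟩ := h1 i
  exact Proj.iso (X := ⟨l1 𝕜 S⟩) (Y := ⟨R.P i⟩) e.symm.toContinuousLinearEquiv (proj_l1 S)

end inf

/-! ### the product with `W` -/

section prod

variable {Y : Type} [NormedAddCommGroup Y] [NormedSpace 𝕜 Y]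
  {W : Type} [NormedAddCommGroup W] [NormedSpace 𝕜 W] [CompleteSpace W]

/-- the terms of the resolution of the product -/
def extP (R : Resolution 𝕜 Y) (W : Type) : ℕ → Type
  | 0 => R.P 0 × W
  | i + 1 => R.P (i + 1)

@[instance_reducible] instance extNg (R : Resolution 𝕜 Y) : ∀ i, NormedAddCommGroup (extP R W i)
  | 0 => inferInstanceAs (NormedAddCommGroup (R.P 0 × W))
  | i + 1 => inferInstanceAs (NormedAddCommGroup (R.P (i + 1)))

@[instance_reducible] instance extNs (R : Resolution 𝕜 Y) : ∀ i, NormedSpace 𝕜 (extP R W i)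
  | 0 => inferInstanceAs (NormedSpace 𝕜 (R.P 0 × W))
  | i + 1 => inferInstanceAs (NormedSpace 𝕜 (R.P (i + 1)))

instance extCs (R : Resolution 𝕜 Y) : ∀ i, CompleteSpace (extP R W i)
  | 0 => inferInstanceAs (CompleteSpace (R.P 0 × W))
  | i + 1 => inferInstanceAs (CompleteSpace (R.P (i + 1)))

/-- the differentials -/
def extD (R : Resolution 𝕜 Y) : ∀ i, extP R W (i + 1) →L[𝕜] extP R W i
  | 0 => ((R.d 0).prod (0 : R.P 1 →L[𝕜] W) : R.P 1 →L[𝕜] R.P 0 × W)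
  | i + 1 => (R.d (i + 1) : R.P (i + 2) →L[𝕜] R.P (i + 1))

/-- the resolution of the product -/
def extR (R : Resolution 𝕜 Y) : Resolution 𝕜 (Y × W) where
  P := extP R W
  d := extD R
  ε := (R.ε.prodMap (ContinuousLinearMap.id 𝕜 W) : R.P 0 × W →L[𝕜] Y × W)
  surj := fun y => by
    obtain ⟨x, hx⟩ := R.surj y.1
    exact ⟨((x, y.2) : R.P 0 × W), Prod.ext hx rfl⟩
  exact_zero := fun x => by
    obtain ⟨x, w⟩ : R.P 0 × W := x
    constructor
    · intro h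
      have h1 : R.ε x = 0 := congrArg Prod.fst h
      have h2 : w = 0 := congrArg Prod.snd h
      obtain ⟨y, hy⟩ := (R.exact_zero x).1 h1
      exact ⟨y, Prod.ext hy h2.symm⟩
    · rintro ⟨y, hy⟩
      have h1 : R.d 0 y = x := congrArg Prod.fst hy
      have h2 : (0 : W) = w := congrArg Prod.snd hy
      exact Prod.ext ((R.exact_zero x).2 ⟨y, h1⟩) h2.symm
  exact := fun i x => by
    cases i with
    | zero =>
      constructor
      · intro h
        exact (R.exact 0 x).1 (congrArg Prod.fst h)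
      · intro h
        exact Prod.ext ((R.exact 0 x).2 h) rfl
    | succ i => exact R.exact (i + 1) x

theorem hasFlatRes_prod {n : ℕ} (R : Resolution 𝕜 Y) (h1 : ∀ i, IsL1Space 𝕜 (R.P i))
    (h2 : ∀ i, n < i → Subsingleton (R.P i)) (hW : IsL1Space 𝕜 W) : HasFlatRes 𝕜 (Y × W) n := by
  refine ⟨extR R, fun i => ?_, fun i hi => ?_⟩
  · cases i with
    | zero => exact (isL1Space_prod (h1 0) hW : IsL1Space 𝕜 (R.P 0 × W))
    | succ i => exact h1 (i + 1)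
  · cases i with
    | zero => exact absurd hi (by omega)
    | succ i => exact h2 (i + 1) hi

/-- the trivial resolution of the zero space -/
def zeroRes (𝕜 : Type) [RCLike 𝕜] : Resolution 𝕜 PUnit where
  P := fun _ => PUnit
  d := fun _ => 0
  ε := 0
  surj := fun y => ⟨0, Subsingleton.elim _ _⟩
  exact_zero := fun x => ⟨fun _ => ⟨0, Subsingleton.elim _ _⟩, fun _ => Subsingleton.elim _ _⟩
  exact := fun _ x => ⟨fun _ => ⟨0, Subsingleton.elim _ _⟩, fun _ => Subsingleton.elim _ _⟩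

end prod

/-! ### the examples -/

/-- no finite projective resolution for products with `W` -/
theorem exists_W' (𝕜 : Type) [RCLike 𝕜] :
    ∃ (W : Type) (_ : NormedAddCommGroup W) (_ : NormedSpace 𝕜 W) (_ : CompleteSpace W),
      IsL1Space 𝕜 W ∧ ∀ m, ¬ Fm (Proj (𝕜 := 𝕜)) m ⟨W⟩ := by
  obtain ⟨W, i1, i2, i3, hW, D, hD1, hD2, hD3⟩ := exists_W 𝕜
  refine ⟨W, i1, i2, i3, hW, fun m hm => ?_⟩
  have h1 : Proj (𝕜 := 𝕜) ⟨W⟩ := proj_of_fm m ⟨W⟩ (propL_of_isL1Space 𝕜 W hW) hm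
  exact no_embedding D hD1 hD2 hD3 h1.embeds

/-- the spaces `X_n`, with all the properties used -/
theorem exists_Xn (𝕜 : Type) [RCLike 𝕜] (m : ℕ) :
    ∃ (X : Type) (_ : NormedAddCommGroup X) (_ : NormedSpace 𝕜 X) (_ : CompleteSpace X)
      (R : Resolution 𝕜 X), (∀ i, ∃ S : Type, Nonempty (R.P i ≃ₗᵢ[𝕜] l1 𝕜 S)) ∧
      (∀ i, m + 1 < i → Subsingleton (R.P i)) ∧ ¬ Fm (QL (𝕜 := 𝕜)) m ⟨X⟩ := by
  obtain ⟨B, C, hB, hC, h⟩ := exists_block (goodMat 𝕜) m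
  obtain ⟨X, i1, i2, i3, R, h1, h2, h3⟩ := exists_sum 𝕜 m B C hB hC h
  refine ⟨X, i1, i2, i3, R, h1, h2, ?_⟩
  refine not_fm_of_no_retract m ⟨X⟩ R (fun i => ?_) (fun y => ?_) h3
  · obtain ⟨S, ⟨e⟩⟩ := h1 i
    exact ⟨S, ⟨e.toContinuousLinearEquiv⟩⟩
  · have := h2 (m + 2) (by omega)
    rw [Subsingleton.elim y 0, map_zero]

theorem exists_fd_zero (𝕜 : Type) [RCLike 𝕜] :
    ∃ (X : Type) (_ : NormedAddCommGroup X) (_ : NormedSpace 𝕜 X) (_ : CompleteSpace X),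
      pd 𝕜 X = ⊤ ∧ fd 𝕜 X = (0 : ℕ) := by
  obtain ⟨W, i1, i2, i3, hW, hW'⟩ := exists_W' 𝕜
  refine ⟨PUnit × W, inferInstance, inferInstance, inferInstance, ?_, ?_⟩
  · apply pd_eq_top
    intro m hm
    refine hW' m (Fm.fst resolving_proj m ⟨W⟩ ⟨PUnit⟩ ?_)
    exact Fm.iso resolving_proj m ⟨PUnit × W⟩ ⟨W × PUnit⟩ (ContinuousLinearEquiv.prodComm 𝕜 PUnit W)
      hm.fm
  · apply fd_eq_of
    · have hs : ∀ i, Subsingleton ((zeroRes 𝕜).P i) :=
        fun i => (inferInstance : Subsingleton PUnit)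
      refine hasFlatRes_prod (zeroRes 𝕜) (fun i => ?_) (fun i _ => hs i) hW
      have := hs i
      exact isL1Space_of_subsingleton
    · intro m hm
      exact absurd hm (by omega)

theorem exists_fd_succ (𝕜 : Type) [RCLike 𝕜] (n : ℕ) :
    ∃ (X : Type) (_ : NormedAddCommGroup X) (_ : NormedSpace 𝕜 X) (_ : CompleteSpace X),
      pd 𝕜 X = ⊤ ∧ fd 𝕜 X = (n + 1 : ℕ) := by
  obtain ⟨W, i1, i2, i3, hW, hW'⟩ := exists_W' 𝕜
  obtain ⟨Y, j1, j2, j3, R, h1, h2, h3⟩ := exists_Xn 𝕜 n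
  refine ⟨Y × W, inferInstance, inferInstance, inferInstance, ?_, ?_⟩
  · apply pd_eq_top
    intro m hm
    refine hW' m (Fm.fst resolving_proj m ⟨W⟩ ⟨Y⟩ ?_)
    exact Fm.iso resolving_proj m ⟨Y × W⟩ ⟨W × Y⟩ (ContinuousLinearEquiv.prodComm 𝕜 Y W) hm.fm
  · apply fd_eq_of
    · refine hasFlatRes_prod R (fun i => ?_) h2 hW
      obtain ⟨S, ⟨e⟩⟩ := h1 i
      exact IsL1Space.of_equiv e.symm.toContinuousLinearEquiv (isL1Space_l1 𝕜 S)
    · intro m hm hm'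
      have h4 := (hm'.mono (Nat.lt_succ_iff.1 hm)).fm
      exact h3 (Fm.fst resolving_QL n ⟨Y⟩ ⟨W⟩ h4)

theorem exists_fd_top (𝕜 : Type) [RCLike 𝕜] :
    ∃ (X : Type) (_ : NormedAddCommGroup X) (_ : NormedSpace 𝕜 X) (_ : CompleteSpace X),
      pd 𝕜 X = ⊤ ∧ fd 𝕜 X = ⊤ := by
  choose X i1 i2 i3 R h1 h2 h3 using exists_Xn 𝕜
  have key : ∀ m, ¬ HasFlatRes 𝕜 (lp X 1) m := by
    intro m hm
    refine h3 m (Fm.retract resolving_QL m ⟨lp X 1⟩ ⟨X m⟩
      (lp.singleContinuousLinearMap 𝕜 X 1 m) (lp.evalCLM 𝕜 X 1 m) (fun y => ?_) hm.fm)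
    show lp.single 1 m y m = y
    exact lp.single_apply_self 1 m y
  refine ⟨lp X 1, inferInstance, inferInstance, inferInstance, ?_, ?_⟩
  · exact pd_eq_top fun m hm => key m hm.flat
  · exact fd_eq_top key

/-- every value of the flat dimension occurs among the Banach spaces of infinite projective
dimension -/
theorem all_values (𝕜 : Type) [RCLike 𝕜] :
    {n : ℕ∞ | ∃ (X : Type) (_ : NormedAddCommGroup X) (_ : NormedSpace 𝕜 X)
      (_ : CompleteSpace X), pd 𝕜 X = ⊤ ∧ fd 𝕜 X = n} = Set.univ := by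
  rw [Set.eq_univ_iff_forall]
  intro n
  induction n using ENat.recTopCoe with
  | top => exact exists_fd_top 𝕜
  | coe n =>
    cases n with
    | zero => exact exists_fd_zero 𝕜
    | succ n => exact exists_fd_succ 𝕜 n

end Pool.Agent.Helper69.Fd
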