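import Mathlib
import Pool.Agent.Helper69.FdClass

set_option autoImplicit false

/-!
# Relative coresolutions and dimension shifting
-/

namespace Pool.Agent.Helper69.Fd

variable {𝕜 : Type} [RCLike 𝕜]

/-- injectivity relative to a class of maps -/
def RelInj (M : ∀ A B : Ban 𝕜, (A.C →L[𝕜] B.C) → Prop) (I : Ban 𝕜) : Prop :=
  ∀ (A B : Ban 𝕜) (i : A.C →L[𝕜] B.C), M A B i → ∀ T : A.C →L[𝕜] I.C,
    ∃ T' : B.C →L[𝕜] I.C, ∀ a, T' (i a) = T a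

/-- a class of admissible embeddings together with a coresolving class of spaces -/
structure CoFrame (M : ∀ A B : Ban 𝕜, (A.C →L[𝕜] B.C) → Prop) (Q : Ban 𝕜 → Prop) : Prop where
  bdd : ∀ (A B : Ban 𝕜) (i : A.C →L[𝕜] B.C), M A B i → ∃ c : ℝ, ∀ x, ‖x‖ ≤ c * ‖i x‖
  isoM : ∀ (A B : Ban 𝕜) (e : A.C ≃L[𝕜] B.C), M A B (e : A.C →L[𝕜] B.C)
  comp : ∀ (A B D : Ban 𝕜) (i : A.C →L[𝕜] B.C) (j : B.C →L[𝕜] D.C), M A B i → M B D j →
    M A D (j.comp i)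
  push : ∀ (X I P D : Ban 𝕜) (i : X.C →L[𝕜] I.C) (i' : X.C →L[𝕜] P.C) (q' : P.C →L[𝕜] D.C)
    (e : P.C →L[𝕜] I.C), M X I i → SES i' q' → (∀ x, e (i' x) = i x) →
    M P ⟨I.C × D.C⟩ (e.prod q')
  quot : ∀ (P Y D P' N : Ban 𝕜) (j : P.C →L[𝕜] Y.C) (p : Y.C →L[𝕜] D.C) (i : Y.C →L[𝕜] P'.C)
    (π : P'.C →L[𝕜] N.C) (h : D.C →L[𝕜] N.C), SES j p → M Y P' i → SES (i.comp j) π →
    (∀ y, h (p y) = π (i y)) → M D N h
  prodM : ∀ (A B A' B' : Ban 𝕜) (i : A.C →L[𝕜] B.C) (i' : A'.C →L[𝕜] B'.C), M A B i →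
    M A' B' i' → M ⟨A.C × A'.C⟩ ⟨B.C × B'.C⟩ (i.prodMap i')
  iso : ∀ X Y : Ban 𝕜, Nonempty (X.C ≃L[𝕜] Y.C) → Q X → Q Y
  prod : ∀ X Y : Ban 𝕜, Q X → Q Y → Q ⟨X.C × Y.C⟩
  fst : ∀ X Y : Ban 𝕜, Q ⟨X.C × Y.C⟩ → Q X
  coker : ∀ (A B D : Ban 𝕜) (i : A.C →L[𝕜] B.C) (q : B.C →L[𝕜] D.C), SES i q → M A B i →
    Q A → Q B → Q D
  enough : ∀ X : Ban 𝕜, ∃ (I : Ban 𝕜) (i : X.C →L[𝕜] I.C), M X I i ∧ RelInj M I ∧ Q I

/-- spaces with a coresolution of length `m` by members of `Q` -/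
def Gm (M : ∀ A B : Ban 𝕜, (A.C →L[𝕜] B.C) → Prop) (Q : Ban 𝕜 → Prop) : ℕ → Ban 𝕜 → Prop
  | 0, X => Q X
  | m + 1, X => ∃ (P D : Ban 𝕜) (i : X.C →L[𝕜] P.C) (q : P.C →L[𝕜] D.C),
      SES i q ∧ M X P i ∧ Q P ∧ Gm M Q m D

/-- the cokernel of a map bounded below, as an abstract Banach space -/
theorem exists_coker_ban {A B : Type} [NormedAddCommGroup A] [NormedSpace 𝕜 A] [CompleteSpace A]
    [NormedAddCommGroup B] [NormedSpace 𝕜 B] [CompleteSpace B] (i : A →L[𝕜] B)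
    (hi : ∃ c : ℝ, ∀ x, ‖x‖ ≤ c * ‖i x‖) :
    ∃ (N : Type) (_ : NormedAddCommGroup N) (_ : NormedSpace 𝕜 N) (_ : CompleteSpace N)
      (π : B →L[𝕜] N), SES i π := by
  obtain ⟨c, hc⟩ := hi
  have hinj : Function.Injective i := by
    rw [injective_iff_map_eq_zero]
    intro x hx
    have := hc x
    rw [hx, norm_zero, mul_zero] at this
    exact norm_le_zero_iff.1 this
  have hanti : AntilipschitzWith (Real.toNNReal c) i := by
    apply AddMonoidHomClass.antilipschitz_of_bound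
    intro x
    refine (hc x).trans (mul_le_mul_of_nonneg_right ?_ (norm_nonneg _))
    exact Real.le_coe_toNNReal c
  have hcl : IsClosed (Set.range i) := hanti.isClosed_range i.uniformContinuous
  let N : Submodule 𝕜 B := LinearMap.range (i : A →ₗ[𝕜] B)
  have hN : IsClosed (N : Set B) := by
    have : (N : Set B) = Set.range i := by
      ext x
      simp [N]
    rw [this]
    exact hcl
  have : IsClosed (N : Set B) := hN
  let π : B →L[𝕜] B ⧸ N := LinearMap.mkContinuous N.mkQ 1 (fun x => by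
    rw [one_mul]
    exact Submodule.Quotient.norm_mk_le _ _)
  refine ⟨B ⧸ N, inferInstance, inferInstance, inferInstance, π, hinj, fun b => ?_, ?_⟩
  · show N.mkQ b = 0 ↔ _
    rw [Submodule.mkQ_apply, Submodule.Quotient.mk_eq_zero]
    exact LinearMap.mem_range
  · exact N.mkQ_surjective

section shift

variable {M : ∀ A B : Ban 𝕜, (A.C →L[𝕜] B.C) → Prop} {Q : Ban 𝕜 → Prop} (hQ : CoFrame M Q)

include hQ

theorem Gm.iso : ∀ (m : ℕ) (X Y : Ban 𝕜) (_ : X.C ≃L[𝕜] Y.C), Gm M Q m X → Gm M Q m Y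
  | 0, X, Y, e, h => hQ.iso X Y ⟨e⟩ h
  | m + 1, X, Y, e, ⟨P, D, i, q, hs, hM, hP, hD⟩ => by
    refine ⟨P, D, i.comp (e.symm : Y.C →L[𝕜] X.C), q, ⟨?_, fun b => ?_, hs.surj⟩,
      hQ.comp Y X P _ _ (hQ.isoM Y X e.symm) hM, hP, hD⟩
    · exact hs.inj.comp e.symm.injective
    · rw [hs.ex]
      constructor
      · rintro ⟨a, rfl⟩
        exact ⟨e a, by simp⟩
      · rintro ⟨a, rfl⟩
        exact ⟨e.symm a, rfl⟩

/-- multiplication with a member of `Q` -/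
theorem Gm.prodL : ∀ (m : ℕ) (I X : Ban 𝕜), Q I → Gm M Q m X → Gm M Q m ⟨I.C × X.C⟩
  | 0, I, X, hI, h => hQ.prod I X hI h
  | m + 1, I, X, hI, ⟨P, D, i, q, hs, hM, hP, hD⟩ => by
    refine ⟨⟨I.C × P.C⟩, D, (ContinuousLinearMap.id 𝕜 I.C).prodMap i,
      q.comp (ContinuousLinearMap.snd 𝕜 I.C P.C), ⟨?_, fun b => ?_, ?_⟩, ?_, hQ.prod I P hI hP, hD⟩
    · rintro ⟨a1, a2⟩ ⟨b1, b2⟩ h
      have h' : ((a1, i a2) : I.C × P.C) = (b1, i b2) := h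
      have h1 : a1 = b1 := congrArg Prod.fst h'
      have h2 : i a2 = i b2 := congrArg Prod.snd h'
      exact Prod.ext h1 (hs.inj h2)
    · obtain ⟨b1, b2⟩ := b
      constructor
      · intro h
        obtain ⟨a, ha⟩ := (hs.ex b2).1 h
        exact ⟨(b1, a), Prod.ext rfl ha⟩
      · rintro ⟨⟨a1, a2⟩, ha⟩
        exact (hs.ex b2).2 ⟨a2, congrArg Prod.snd ha⟩
    · intro y
      obtain ⟨x, hx⟩ := hs.surj y
      exact ⟨(0, x), hx⟩
    · exact hQ.prodM I I X P (ContinuousLinearMap.id 𝕜 I.C) i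
        (hQ.isoM I I (ContinuousLinearEquiv.refl 𝕜 I.C)) hM

/-- cokernels -/
theorem Gm.coker : ∀ (m : ℕ) (P Y D : Ban 𝕜) (j : P.C →L[𝕜] Y.C) (p : Y.C →L[𝕜] D.C), SES j p →
    M P Y j → Gm M Q m Y → Q P → Gm M Q m D
  | 0, P, Y, D, j, p, hs, hM, hY, hP => hQ.coker P Y D j p hs hM hP hY
  | m + 1, P, Y, D, j, p, hs, hM, ⟨P', D', i', q', hs', hM', hP', hD'⟩, hP => by
    have hMc : M P P' (i'.comp j) := hQ.comp P Y P' j i' hM hM'
    obtain ⟨N, i1, i2, i3, π, hπ⟩ := exists_coker_ban (i'.comp j) (hQ.bdd _ _ _ hMc)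
    have hN : Q ⟨N⟩ := hQ.coker P P' ⟨N⟩ (i'.comp j) π hπ hMc hP hP'
    obtain ⟨h, hh⟩ := factor p hs.surj (π.comp i') (fun b hb => by
      obtain ⟨a, rfl⟩ := (hs.ex b).1 hb
      exact (hπ.ex _).2 ⟨a, rfl⟩)
    obtain ⟨k, hk⟩ := factor π hπ.surj q' (fun b hb => by
      obtain ⟨a, ha⟩ := (hπ.ex b).1 hb
      rw [← ha]
      exact (hs'.ex _).2 ⟨j a, rfl⟩)
    refine ⟨⟨N⟩, D', h, k, ⟨?_, fun b => ?_, ?_⟩, ?_, hN, hD'⟩
    · rw [injective_iff_map_eq_zero]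
      intro x hx
      obtain ⟨y, rfl⟩ := hs.surj x
      rw [hh] at hx
      obtain ⟨a, ha⟩ := (hπ.ex _).1 hx
      have h1 : j a = y := hs'.inj ha
      exact (hs.ex y).2 ⟨a, h1⟩
    · obtain ⟨c, rfl⟩ := hπ.surj b
      rw [hk]
      constructor
      · intro h0
        obtain ⟨y, rfl⟩ := (hs'.ex c).1 h0
        exact ⟨p y, hh y⟩
      · rintro ⟨x, hx⟩
        obtain ⟨y, rfl⟩ := hs.surj x
        rw [hh] at hx
        have h1 : π (c - i' y) = 0 := by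
          rw [map_sub, sub_eq_zero]
          exact hx.symm
        obtain ⟨a, ha⟩ := (hπ.ex _).1 h1
        have h2 : c = i' (j a + y) := by
          rw [map_add]
          have : (i'.comp j) a = i' (j a) := rfl
          rw [← this, ha, sub_add_cancel]
        rw [h2]
        exact (hs'.ex _).2 ⟨_, rfl⟩
    · intro y
      obtain ⟨x, hx⟩ := hs'.surj y
      exact ⟨π x, by rw [hk, hx]⟩
    · exact hQ.quot P Y D P' ⟨N⟩ j p i' π h hs hM' hπ hh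

/-- cosyzygies -/
theorem Gm.cosyzygy (m : ℕ) (X I D : Ban 𝕜) (i : X.C →L[𝕜] I.C) (q : I.C →L[𝕜] D.C)
    (hs : SES i q) (hM : M X I i) (hI : RelInj M I) (hI' : Q I) (hX : Gm M Q (m + 1) X) :
    Gm M Q m D := by
  obtain ⟨P, D', i', q', hs', hM', hP, hD'⟩ := hX
  obtain ⟨e, he⟩ := hI X P i' hM' i
  obtain ⟨κ, hκ⟩ := factor q' hs'.surj (q.comp e) (fun b hb => by
    obtain ⟨a, rfl⟩ := (hs'.ex b).1 hb
    rw [ContinuousLinearMap.comp_apply, he]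
    exact (hs.ex _).2 ⟨a, rfl⟩)
  have hκ' : ∀ b, κ (q' b) = q (e b) := hκ
  have hY : Gm M Q m ⟨I.C × D'.C⟩ := Gm.prodL hQ m I D' hI' hD'
  refine Gm.coker hQ m P ⟨I.C × D'.C⟩ D (e.prod q')
    (q.comp (ContinuousLinearMap.fst 𝕜 I.C D'.C) - κ.comp (ContinuousLinearMap.snd 𝕜 I.C D'.C))
    ⟨?_, fun b => ?_, fun y => ?_⟩ (hQ.push X I P D' i i' q' e hM hs' he) hY hP
  · rw [injective_iff_map_eq_zero]
    intro x hx
    have h1 : e x = 0 := congrArg Prod.fst hx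
    have h2 : q' x = 0 := congrArg Prod.snd hx
    obtain ⟨a, rfl⟩ := (hs'.ex x).1 h2
    rw [he] at h1
    have h3 : a = 0 := hs.inj (by rw [h1, map_zero])
    rw [h3, map_zero]
  · obtain ⟨x, c⟩ := b
    have e1 : (q.comp (ContinuousLinearMap.fst 𝕜 I.C D'.C) -
        κ.comp (ContinuousLinearMap.snd 𝕜 I.C D'.C)) (x, c) = q x - κ c := rfl
    rw [e1]
    constructor
    · intro h
      obtain ⟨b, rfl⟩ := hs'.surj c
      rw [hκ', ← map_sub] at h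
      obtain ⟨a, ha⟩ := (hs.ex _).1 h
      refine ⟨b + i' a, Prod.ext ?_ ?_⟩
      · show e (b + i' a) = x
        rw [map_add, he, ha]
        abel
      · show q' (b + i' a) = q' b
        rw [map_add, (hs'.ex (i' a)).2 ⟨a, rfl⟩, add_zero]
    · rintro ⟨b, hb⟩
      have h1 : e b = x := congrArg Prod.fst hb
      have h2 : q' b = c := congrArg Prod.snd hb
      rw [← h1, ← h2, hκ', sub_self]
  · obtain ⟨x, hx⟩ := hs.surj y
    refine ⟨(x, 0), ?_⟩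
    show q x - κ 0 = y
    rw [map_zero, sub_zero, hx]

/-- direct summands -/
theorem Gm.fst : ∀ (m : ℕ) (X Z : Ban 𝕜), Gm M Q m ⟨X.C × Z.C⟩ → Gm M Q m X
  | 0, X, Z, h => hQ.fst X Z h
  | m + 1, X, Z, h => by
    obtain ⟨I, i, hMi, hI, hI'⟩ := hQ.enough X
    obtain ⟨J, j, hMj, hJ, hJ'⟩ := hQ.enough Z
    obtain ⟨D, a1, a2, a3, π, hπ⟩ := exists_coker_ban i (hQ.bdd _ _ _ hMi)
    obtain ⟨E, b1, b2, b3, ρ, hρ⟩ := exists_coker_ban j (hQ.bdd _ _ _ hMj)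
    have hs : SES (i.prodMap j) (π.prodMap ρ) := by
      refine ⟨fun a b hab => ?_, fun b => ?_, fun y => ?_⟩
      · exact Prod.ext (hπ.inj (congrArg Prod.fst hab)) (hρ.inj (congrArg Prod.snd hab))
      · obtain ⟨u, v⟩ := b
        constructor
        · intro h
          obtain ⟨x, hx⟩ := (hπ.ex u).1 (congrArg Prod.fst h)
          obtain ⟨y, hy⟩ := (hρ.ex v).1 (congrArg Prod.snd h)
          exact ⟨(x, y), Prod.ext hx hy⟩
        · rintro ⟨⟨x, y⟩, hxy⟩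
          exact Prod.ext ((hπ.ex u).2 ⟨x, congrArg Prod.fst hxy⟩)
            ((hρ.ex v).2 ⟨y, congrArg Prod.snd hxy⟩)
      · obtain ⟨u, hu⟩ := hπ.surj y.1
        obtain ⟨v, hv⟩ := hρ.surj y.2
        exact ⟨(u, v), Prod.ext hu hv⟩
    have hIJ : RelInj M (⟨I.C × J.C⟩ : Ban 𝕜) := by
      intro A B k hk T
      obtain ⟨T1, hT1⟩ := hI A B k hk ((ContinuousLinearMap.fst 𝕜 I.C J.C).comp T)
      obtain ⟨T2, hT2⟩ := hJ A B k hk ((ContinuousLinearMap.snd 𝕜 I.C J.C).comp T)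
      exact ⟨T1.prod T2, fun a => Prod.ext (hT1 a) (hT2 a)⟩
    have h1 : Gm M Q m ⟨D × E⟩ :=
      Gm.cosyzygy hQ m ⟨X.C × Z.C⟩ ⟨I.C × J.C⟩ ⟨D × E⟩ (i.prodMap j) (π.prodMap ρ) hs
        (hQ.prodM X I Z J i j hMi hMj) hIJ (hQ.prod I J hI' hJ') h
    have h2 : Gm M Q m ⟨D⟩ := Gm.fst m ⟨D⟩ ⟨E⟩ h1
    exact ⟨I, ⟨D⟩, i, π, hπ, hMi, hI', h2⟩

theorem Gm.retract (m : ℕ) (X Y : Ban 𝕜)
    (s : Y.C →L[𝕜] X.C) (q : X.C →L[𝕜] Y.C) (hs : ∀ y, q (s y) = y) (h : Gm M Q m X) :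
    Gm M Q m Y := by
  have hq : Function.Surjective q := fun y => ⟨s y, hs y⟩
  obtain ⟨N, i1, i2, i3, ν, hν⟩ := exists_ker q hq
  have hqν : ∀ n, q (ν n) = 0 := fun n => (hν.ex (ν n)).2 ⟨n, rfl⟩
  let f : (Y.C × N) →L[𝕜] X.C := s.comp (ContinuousLinearMap.fst 𝕜 Y.C N) +
    ν.comp (ContinuousLinearMap.snd 𝕜 Y.C N)
  have hf : ∀ y n, f (y, n) = s y + ν n := fun y n => rfl
  have hinj : Function.Injective f := by
    rw [injective_iff_map_eq_zero]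
    rintro ⟨y, n⟩ h0
    rw [hf] at h0
    have h1 := congrArg q h0
    rw [map_add, hs, hqν, add_zero, map_zero] at h1
    rw [h1, map_zero, zero_add] at h0
    have h2 : n = 0 := hν.inj (by rw [h0, map_zero])
    rw [h1, h2]
    rfl
  have hsurj : Function.Surjective f := by
    intro x
    have h1 : q (x - s (q x)) = 0 := by rw [map_sub, hs, sub_self]
    obtain ⟨n, hn⟩ := (hν.ex _).1 h1
    exact ⟨(q x, n), by rw [hf, hn]; abel⟩
  have e : (Y.C × N) ≃L[𝕜] X.C := ContinuousLinearEquiv.ofBijective f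
    (LinearMap.ker_eq_bot.2 hinj) (LinearMap.range_eq_top.2 hsurj)
  exact Gm.fst hQ m Y ⟨N⟩ (Gm.iso hQ m X ⟨Y.C × N⟩ e.symm h)

end shift

end Pool.Agent.Helper69.Fd
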