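import Mathlib

set_option autoImplicit false

open scoped ENNReal

namespace Pool.Agent.Helper69.Fd

namespace CovAux

open Filter Topology

variable {𝕜 : Type} [RCLike 𝕜] (Y : Type) [NormedAddCommGroup Y] [NormedSpace 𝕜 Y]

/-- the spaces -/
abbrev FF (𝕜 : Type) [RCLike 𝕜] (Y : Type) [NormedAddCommGroup Y] [NormedSpace 𝕜 Y]
    (A : Finset Y) : Type := ↥(Submodule.span 𝕜 (A : Set Y))

/-- the sum -/
abbrev LL (𝕜 : Type) [RCLike 𝕜] (Y : Type) [NormedAddCommGroup Y] [NormedSpace 𝕜 Y] : Type :=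
  lp (FF 𝕜 Y) 1

variable {Y}

theorem hasSum_norm' (x : LL 𝕜 Y) : HasSum (fun A => ‖x A‖) ‖x‖ := by
  have := lp.hasSum_norm (p := 1) (by norm_num) x
  simpa using this

theorem summable' [CompleteSpace Y] (x : LL 𝕜 Y) : Summable (fun A => ((x A : FF 𝕜 Y A) : Y)) :=
  Summable.of_norm (hasSum_norm' x).summable

/-- the quotient map -/
noncomputable def qq [CompleteSpace Y] : LL 𝕜 Y →L[𝕜] Y :=
  LinearMap.mkContinuous
    { toFun := fun x => ∑' A, ((x A : FF 𝕜 Y A) : Y)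
      map_add' := fun x y => by
        rw [← (summable' x).tsum_add (summable' y)]
        refine tsum_congr fun A => ?_
        rw [lp.coeFn_add, Pi.add_apply, Submodule.coe_add]
      map_smul' := fun c x => by
        rw [RingHom.id_apply, ← tsum_const_smul'' c]
        refine tsum_congr fun A => ?_
        rw [lp.coeFn_smul, Pi.smul_apply, Submodule.coe_smul] } 1
    (fun x => by
      rw [one_mul]
      exact tsum_of_norm_bounded (hasSum_norm' x) (fun A => le_rfl))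

theorem qq_apply [CompleteSpace Y] (x : LL 𝕜 Y) : qq x = ∑' A, ((x A : FF 𝕜 Y A) : Y) := rfl

theorem qq_single [CompleteSpace Y] [DecidableEq (Finset Y)] (A : Finset Y) (v : FF 𝕜 Y A) :
    qq (lp.single 1 A v : LL 𝕜 Y) = (v : Y) := by
  rw [qq_apply, tsum_eq_single A]
  · rw [lp.single_apply_self]
  · intro B hB
    rw [lp.single_apply_ne _ _ _ hB]
    rfl

open Classical in
/-- the approximations -/
noncomputable def gg (ψ : LL 𝕜 Y →L[𝕜] 𝕜) (y : Y) (A : Finset Y) : 𝕜 :=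
  if h : y ∈ Submodule.span 𝕜 (A : Set Y) then ψ (lp.single 1 A ⟨y, h⟩) else 0

theorem gg_norm (ψ : LL 𝕜 Y →L[𝕜] 𝕜) (y : Y) (A : Finset Y) : ‖gg ψ y A‖ ≤ ‖ψ‖ * ‖y‖ := by
  classical
  unfold gg
  split_ifs with h
  · refine (ψ.le_opNorm _).trans (mul_le_mul_of_nonneg_left (le_of_eq ?_) (norm_nonneg _))
    rw [lp.norm_single (by norm_num)]
    rfl
  · rw [norm_zero]
    positivity

/-- the ultrafilter -/
noncomputable def UU (Y : Type) : Ultrafilter (Finset Y) := Ultrafilter.of atTop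

theorem UU_le (Y : Type) : (UU Y : Filter (Finset Y)) ≤ atTop := Ultrafilter.of_le _

/-- the limit -/
noncomputable def LM (ψ : LL 𝕜 Y →L[𝕜] 𝕜) (y : Y) : 𝕜 := limUnder (UU Y : Filter (Finset Y)) (gg ψ y)

theorem LM_spec (ψ : LL 𝕜 Y →L[𝕜] 𝕜) (y : Y) :
    Tendsto (gg ψ y) (UU Y : Filter (Finset Y)) (𝓝 (LM ψ y)) := by
  apply tendsto_nhds_limUnder
  obtain ⟨x, _, hx⟩ := (isCompact_closedBall (0 : 𝕜) (‖ψ‖ * ‖y‖)).ultrafilter_le_nhds'
    ((UU Y).map (gg ψ y)) (by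
      rw [Ultrafilter.mem_map]
      refine Filter.univ_mem' fun A => ?_
      show gg ψ y A ∈ Metric.closedBall (0 : 𝕜) (‖ψ‖ * ‖y‖)
      rw [mem_closedBall_zero_iff]
      exact gg_norm ψ y A)
  exact ⟨x, hx⟩

theorem LM_unique (ψ : LL 𝕜 Y →L[𝕜] 𝕜) (y : Y) {c : 𝕜}
    (h : Tendsto (gg ψ y) (UU Y : Filter (Finset Y)) (𝓝 c)) : LM ψ y = c :=
  tendsto_nhds_unique (LM_spec ψ y) h

theorem LM_norm (ψ : LL 𝕜 Y →L[𝕜] 𝕜) (y : Y) : ‖LM ψ y‖ ≤ ‖ψ‖ * ‖y‖ :=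
  le_of_tendsto (LM_spec ψ y).norm (Eventually.of_forall fun A => gg_norm ψ y A)

theorem ev_mem (y : Y) : ∀ᶠ A : Finset Y in (UU Y : Filter (Finset Y)),
    y ∈ Submodule.span 𝕜 (A : Set Y) := by
  apply UU_le Y
  filter_upwards [eventually_ge_atTop ({y} : Finset Y)] with A hA
  apply Submodule.subset_span
  exact hA (Finset.mem_singleton_self y)

theorem gg_of_mem (ψ : LL 𝕜 Y →L[𝕜] 𝕜) (y : Y) (A : Finset Y) [DecidableEq (Finset Y)]
    (h : y ∈ Submodule.span 𝕜 (A : Set Y)) : gg ψ y A = ψ (lp.single 1 A ⟨y, h⟩) := by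
  unfold gg
  rw [dif_pos h]
  have key : ∀ (i1 i2 : DecidableEq (Finset Y)),
      (@lp.single (Finset Y) (FF 𝕜 Y) _ i1 1 A ⟨y, h⟩ : LL 𝕜 Y) =
        @lp.single (Finset Y) (FF 𝕜 Y) _ i2 1 A ⟨y, h⟩ := by
    intro i1 i2
    have : i1 = i2 := Subsingleton.elim _ _
    subst this
    rfl
  exact congrArg ψ (key _ _)

/-- the bilinear map -/
noncomputable def BB : (LL 𝕜 Y →L[𝕜] 𝕜) →ₗ[𝕜] Y →ₗ[𝕜] 𝕜 :=
  LinearMap.mk₂ 𝕜 LM
    (fun ψ ψ' y => by
      apply LM_unique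
      refine ((LM_spec ψ y).add (LM_spec ψ' y)).congr fun A => ?_
      unfold gg
      split_ifs
      · rfl
      · rw [add_zero])
    (fun c ψ y => by
      apply LM_unique
      refine ((LM_spec ψ y).const_smul c).congr fun A => ?_
      unfold gg
      split_ifs
      · rfl
      · rw [smul_zero])
    (fun ψ y y' => by
      classical
      apply LM_unique
      refine ((LM_spec ψ y).add (LM_spec ψ y')).congr' ?_
      filter_upwards [ev_mem (𝕜 := 𝕜) y, ev_mem (𝕜 := 𝕜) y'] with A h1 h2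
      rw [gg_of_mem ψ y A h1, gg_of_mem ψ y' A h2, gg_of_mem ψ (y + y') A (add_mem h1 h2),
        ← map_add, ← lp.single_add]
      rfl)
    (fun c ψ y => by
      classical
      apply LM_unique
      refine ((LM_spec ψ y).const_smul c).congr' ?_
      filter_upwards [ev_mem (𝕜 := 𝕜) y] with A h1
      rw [gg_of_mem ψ y A h1, gg_of_mem ψ (c • y) A (Submodule.smul_mem _ c h1),
        ← map_smul, ← lp.single_smul]
      rfl)

theorem BB_norm (ψ : LL 𝕜 Y →L[𝕜] 𝕜) (y : Y) : ‖BB ψ y‖ ≤ 1 * ‖ψ‖ * ‖y‖ := by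
  rw [one_mul]
  exact LM_norm ψ y

/-- the functional -/
noncomputable def l1 (ψ : LL 𝕜 Y →L[𝕜] 𝕜) : Y →L[𝕜] 𝕜 :=
  (BB ψ).mkContinuous (1 * ‖ψ‖) (BB_norm ψ)

theorem l1_norm (ψ : LL 𝕜 Y →L[𝕜] 𝕜) : ‖l1 ψ‖ ≤ 1 * ‖ψ‖ :=
  LinearMap.mkContinuous_norm_le _ (by positivity) _

theorem l1_apply (ψ : LL 𝕜 Y →L[𝕜] 𝕜) (y : Y) : l1 ψ y = BB ψ y := rfl

/-- the linear map -/
noncomputable def l2 : (LL 𝕜 Y →L[𝕜] 𝕜) →ₗ[𝕜] (Y →L[𝕜] 𝕜) where
  toFun ψ := l1 ψ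
  map_add' ψ ψ' := by
    refine ContinuousLinearMap.ext fun y => ?_
    rw [l1_apply, map_add]
    rfl
  map_smul' c ψ := by
    refine ContinuousLinearMap.ext fun y => ?_
    rw [l1_apply, map_smul]
    rfl

/-- the left inverse -/
noncomputable def lamm : (LL 𝕜 Y →L[𝕜] 𝕜) →L[𝕜] (Y →L[𝕜] 𝕜) where
  toLinearMap := l2
  cont := AddMonoidHomClass.continuous_of_bound (l2 : (LL 𝕜 Y →L[𝕜] 𝕜) →ₗ[𝕜] (Y →L[𝕜] 𝕜)) 1 l1_norm

theorem lamm_apply (ψ : LL 𝕜 Y →L[𝕜] 𝕜) (y : Y) : lamm ψ y = LM ψ y := rfl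

end CovAux

open CovAux in
/-- TARGET: every Banach space `Y` is a quotient of an `ℓ¹`-sum of finite dimensional spaces, in
such a way that the dual map has a left inverse. -/
theorem exists_fd_cover {𝕜 : Type} [RCLike 𝕜] (Y : Type) [NormedAddCommGroup Y] [NormedSpace 𝕜 Y]
    [CompleteSpace Y] :
    ∃ (I : Type) (F : I → Type) (_ : ∀ t, NormedAddCommGroup (F t))
      (_ : ∀ t, NormedSpace 𝕜 (F t)) (_ : ∀ t, FiniteDimensional 𝕜 (F t))
      (q : lp F 1 →L[𝕜] Y) (lam : (lp F 1 →L[𝕜] 𝕜) →L[𝕜] (Y →L[𝕜] 𝕜)),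
      Function.Surjective q ∧ ∀ φ : Y →L[𝕜] 𝕜, lam (φ.comp q) = φ := by
  classical
  refine ⟨Finset Y, FF 𝕜 Y, fun A => inferInstance, fun A => inferInstance,
    fun A => FiniteDimensional.span_finset 𝕜 A, (qq : LL 𝕜 Y →L[𝕜] Y),
    (lamm : (LL 𝕜 Y →L[𝕜] 𝕜) →L[𝕜] (Y →L[𝕜] 𝕜)), ?_, ?_⟩
  · intro y
    have hy : y ∈ Submodule.span 𝕜 (({y} : Finset Y) : Set Y) :=
      Submodule.subset_span (by simp)
    exact ⟨lp.single 1 {y} ⟨y, hy⟩, qq_single _ _⟩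
  · intro φ
    ext y
    rw [lamm_apply]
    apply LM_unique
    refine Filter.Tendsto.congr' ?_ tendsto_const_nhds
    filter_upwards [ev_mem (𝕜 := 𝕜) y] with A h1
    rw [gg_of_mem _ y A h1, ContinuousLinearMap.comp_apply, qq_single]

end Pool.Agent.Helper69.Fd
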