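import Mathlib
import Pool.Agent.Helper69.FdDefs

set_option autoImplicit false

/-!
# Injective, absolutely pure and pure-injective dimensions: definitions
-/

open scoped ENNReal

namespace Pool.Agent.Helper69.Fd

/-- `E` is an `𝓛_∞`-space: for some `lam`, every finite dimensional subspace `F` of `E` lies in a
finite dimensional subspace `G` with Banach-Mazur distance at most `lam` to `ℓ_∞^{dim G}`. -/
def IsLinfSpace (𝕜 : Type) [RCLike 𝕜] (E : Type) [NormedAddCommGroup E] [NormedSpace 𝕜 E] :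
    Prop :=
  ∃ lam : ℝ, ∀ F : Submodule 𝕜 E, FiniteDimensional 𝕜 F →
    ∃ G : Submodule 𝕜 E, F ≤ G ∧ FiniteDimensional 𝕜 G ∧
      ∃ T : G ≃L[𝕜] PiLp ∞ (fun _ : Fin (Module.finrank 𝕜 G) => 𝕜),
        ‖(T : G →L[𝕜] PiLp ∞ (fun _ : Fin (Module.finrank 𝕜 G) => 𝕜))‖ *
        ‖(T.symm : PiLp ∞ (fun _ : Fin (Module.finrank 𝕜 G) => 𝕜) →L[𝕜] G)‖ ≤ lam

/-- `Q` is an injective Banach space: every operator from a closed subspace of a Banach space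
into `Q` extends to the whole space. -/
def IsInjectiveSpace (𝕜 : Type) [RCLike 𝕜] (Q : Type) [NormedAddCommGroup Q]
    [NormedSpace 𝕜 Q] : Prop :=
  ∀ (E : Type) [NormedAddCommGroup E] [NormedSpace 𝕜 E] [CompleteSpace E] (F : Submodule 𝕜 E),
    IsClosed (F : Set E) → ∀ T : F →L[𝕜] Q, ∃ T' : E →L[𝕜] Q, ∀ x : F, T' x = T x

/-- `Q` is complemented in its bidual under the canonical embedding. -/
def ComplementedInBidual (𝕜 : Type) [RCLike 𝕜] (Q : Type) [NormedAddCommGroup Q]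
    [NormedSpace 𝕜 Q] : Prop :=
  ∃ p : ((Q →L[𝕜] 𝕜) →L[𝕜] 𝕜) →L[𝕜] Q,
    ∀ x, p (NormedSpace.inclusionInDoubleDual 𝕜 Q x) = x

/-- An exact sequence `0 → X → Q 0 → Q 1 → Q 2 → ⋯` of Banach spaces and bounded operators. -/
structure Coresolution (𝕜 : Type) [RCLike 𝕜] (X : Type) [NormedAddCommGroup X]
    [NormedSpace 𝕜 X] where
  /-- the terms -/
  Q : ℕ → Type
  [ng : ∀ i, NormedAddCommGroup (Q i)]
  [ns : ∀ i, NormedSpace 𝕜 (Q i)]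
  [cs : ∀ i, CompleteSpace (Q i)]
  /-- the coaugmentation -/
  η : X →L[𝕜] Q 0
  /-- the differentials -/
  d : ∀ i, Q i →L[𝕜] Q (i + 1)
  inj : Function.Injective η
  exact_zero : ∀ x : Q 0, d 0 x = 0 ↔ ∃ y, η y = x
  exact : ∀ i, ∀ x : Q (i + 1), d (i + 1) x = 0 ↔ ∃ y, d i y = x

attribute [instance] Coresolution.ng Coresolution.ns Coresolution.cs

section dual

variable {𝕜 : Type} [RCLike 𝕜] {X Y Z : Type} [NormedAddCommGroup X] [NormedSpace 𝕜 X]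
  [NormedAddCommGroup Y] [NormedSpace 𝕜 Y] [NormedAddCommGroup Z] [NormedSpace 𝕜 Z]

/-- bounded operators between the dual spaces `X^* → Y^*` -/
abbrev DualMap (𝕜 : Type) [RCLike 𝕜] (X Y : Type) [NormedAddCommGroup X] [NormedSpace 𝕜 X]
    [NormedAddCommGroup Y] [NormedSpace 𝕜 Y] : Type :=
  (X →L[𝕜] 𝕜) →L[𝕜] (Y →L[𝕜] 𝕜)

/-- `h : X^* → Y^*` is a right inverse of the dual operator `f^* : Y^* → X^*`. -/
def DualSection (f : X →L[𝕜] Y) (h : DualMap 𝕜 X Y) : Prop :=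
  ∀ φ : X →L[𝕜] 𝕜, (h φ).comp f = φ

/-- `h f^* + g^* h' = id` on `Y^*`, for `f : X → Y`, `g : Y → Z`, `h : X^* → Y^*` and
`h' : Y^* → Z^*`. -/
def DualHomotopy (f : X →L[𝕜] Y) (g : Y →L[𝕜] Z) (h : DualMap 𝕜 X Y) (h' : DualMap 𝕜 Y Z) :
    Prop :=
  ∀ ψ : Y →L[𝕜] 𝕜, h (ψ.comp f) + (h' ψ).comp g = ψ

end dual

/-- The dual complex `0 ← X^* ← (Q 0)^* ← (Q 1)^* ← ⋯` is chain homotopic to zero through
bounded operators. -/
def Coresolution.DualContractible {𝕜 : Type} [RCLike 𝕜] {X : Type} [NormedAddCommGroup X]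
    [NormedSpace 𝕜 X] (R : Coresolution 𝕜 X) : Prop :=
  ∃ (h0 : DualMap 𝕜 X (R.Q 0)) (h : ∀ i, DualMap 𝕜 (R.Q i) (R.Q (i + 1))),
    DualSection R.η h0 ∧ DualHomotopy R.η (R.d 0) h0 (h 0) ∧
    ∀ i, DualHomotopy (R.d i) (R.d (i + 1)) (h i) (h (i + 1))

/-- `X` has an injective resolution `0 → X → Q 0 → ⋯ → Q n → 0`. -/
def HasInjRes (𝕜 : Type) [RCLike 𝕜] (X : Type) [NormedAddCommGroup X] [NormedSpace 𝕜 X]
    (n : ℕ) : Prop :=
  ∃ R : Coresolution 𝕜 X, (∀ i, IsInjectiveSpace 𝕜 (R.Q i)) ∧ ∀ i, n < i → Subsingleton (R.Q i)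

/-- `X` has an absolutely-pure resolution `0 → X → Q 0 → ⋯ → Q n → 0`, with `Q i` an
`𝓛_∞`-space. -/
def HasApRes (𝕜 : Type) [RCLike 𝕜] (X : Type) [NormedAddCommGroup X] [NormedSpace 𝕜 X]
    (n : ℕ) : Prop :=
  ∃ R : Coresolution 𝕜 X, (∀ i, IsLinfSpace 𝕜 (R.Q i)) ∧ ∀ i, n < i → Subsingleton (R.Q i)

/-- `X` has a pure-injective resolution `0 → X → Q 0 → ⋯ → Q n → 0`. -/
def HasPiRes (𝕜 : Type) [RCLike 𝕜] (X : Type) [NormedAddCommGroup X] [NormedSpace 𝕜 X]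
    (n : ℕ) : Prop :=
  ∃ R : Coresolution 𝕜 X, R.DualContractible ∧ (∀ i, ComplementedInBidual 𝕜 (R.Q i)) ∧
    ∀ i, n < i → Subsingleton (R.Q i)

/-- The injective dimension. -/
noncomputable def injDim (𝕜 : Type) [RCLike 𝕜] (X : Type) [NormedAddCommGroup X]
    [NormedSpace 𝕜 X] : ℕ∞ :=
  ⨅ (n : ℕ) (_ : HasInjRes 𝕜 X n), (n : ℕ∞)

/-- The absolutely-pure dimension. -/
noncomputable def apd (𝕜 : Type) [RCLike 𝕜] (X : Type) [NormedAddCommGroup X]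
    [NormedSpace 𝕜 X] : ℕ∞ :=
  ⨅ (n : ℕ) (_ : HasApRes 𝕜 X n), (n : ℕ∞)

/-- The pure-injective dimension. -/
noncomputable def pid (𝕜 : Type) [RCLike 𝕜] (X : Type) [NormedAddCommGroup X]
    [NormedSpace 𝕜 X] : ℕ∞ :=
  ⨅ (n : ℕ) (_ : HasPiRes 𝕜 X n), (n : ℕ∞)

end Pool.Agent.Helper69.Fd
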