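import Mathlib
import Pool.Agent.Helper69.FdRes
import Pool.Agent.Helper69.HdDefs
import Pool.Agent.Helper69.HdCo

set_option autoImplicit false

/-!
# Duals of exact sequences; truncation of coresolutions
-/

namespace Pool.Agent.Helper69.Fd

variable {𝕜 : Type} [RCLike 𝕜]

section

variable {A B C : Type} [NormedAddCommGroup A] [NormedSpace 𝕜 A]
  [NormedAddCommGroup B] [NormedSpace 𝕜 B]
  [NormedAddCommGroup C] [NormedSpace 𝕜 C]

theorem pre_comp (f : A →L[𝕜] B) (g : B →L[𝕜] C) (φ : C →L[𝕜] 𝕜) :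
    pre f (pre g φ) = pre (g.comp f) φ := rfl

/-- extension of functionals along maps with closed range -/
theorem closed_range_dual [CompleteSpace A] [CompleteSpace B] (d : A →L[𝕜] B)
    (hcl : IsClosed (Set.range d)) (φ : A →L[𝕜] 𝕜) (h : ∀ a, d a = 0 → φ a = 0) :
    ∃ ψ : B →L[𝕜] 𝕜, ∀ a, ψ (d a) = φ a := by
  let N : Submodule 𝕜 B := LinearMap.range (d : A →ₗ[𝕜] B)
  have hN : IsClosed (N : Set B) := by
    have : (N : Set B) = Set.range d := by
      ext x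
      simp [N]
    rw [this]
    exact hcl
  have : CompleteSpace N := hN.completeSpace_coe
  let d' : A →L[𝕜] N := d.codRestrict N (fun a => ⟨a, rfl⟩)
  have hd' : Function.Surjective d' := by
    rintro ⟨x, a, rfl⟩
    exact ⟨a, rfl⟩
  obtain ⟨χ, hχ⟩ := factor d' hd' φ (fun b hb => h b (congrArg Subtype.val hb))
  obtain ⟨ψ, hψ, -⟩ := exists_extension_norm_eq N χ
  refine ⟨ψ, fun a => ?_⟩
  have h1 := hψ (d' a)
  rw [hχ] at h1
  exact h1

theorem dual_exact [CompleteSpace B] [CompleteSpace C] (d' : A →L[𝕜] B) (d : B →L[𝕜] C)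
    (hex : ∀ x, d x = 0 ↔ ∃ y, d' y = x) (hcl : IsClosed (Set.range d)) (φ : B →L[𝕜] 𝕜) :
    pre d' φ = 0 ↔ ∃ ψ, pre d ψ = φ := by
  constructor
  · intro h
    obtain ⟨ψ, hψ⟩ := closed_range_dual d hcl φ (fun b hb => by
      obtain ⟨y, rfl⟩ := (hex b).1 hb
      have := congrArg (fun f => f y) h
      exact this)
    refine ⟨ψ, ?_⟩
    ext b
    exact hψ b
  · rintro ⟨ψ, rfl⟩
    ext a
    show ψ (d (d' a)) = 0
    rw [(hex (d' a)).2 ⟨a, rfl⟩, map_zero]

theorem closed_range_of_exact (d : A →L[𝕜] B) (e : B →L[𝕜] C)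
    (hex : ∀ x, e x = 0 ↔ ∃ y, d y = x) : IsClosed (Set.range d) := by
  have : Set.range d = (e ⁻¹' {0}) := by
    ext b
    simp only [Set.mem_range, Set.mem_preimage, Set.mem_singleton_iff]
    exact (hex b).symm
  rw [this]
  exact isClosed_singleton.preimage e.continuous

/-- the dual of a short exact sequence -/
theorem SES.dual [CompleteSpace A] [CompleteSpace B] [CompleteSpace C] {i : A →L[𝕜] B}
    {q : B →L[𝕜] C} (h : SES i q) : SES (pre q) (pre i) := by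
  refine ⟨?_, fun φ => ?_, fun φ => ?_⟩
  · rw [injective_iff_map_eq_zero]
    intro φ hφ
    ext c
    obtain ⟨b, rfl⟩ := h.surj c
    have := congrArg (fun f => f b) hφ
    exact this
  · refine dual_exact i q h.ex ?_ φ
    rw [Set.range_eq_univ.2 h.surj]
    exact isClosed_univ
  · obtain ⟨ψ, hψ⟩ := closed_range_dual i (closed_range_of_exact i q h.ex) φ (fun a ha => by
      have : a = 0 := h.inj (by rw [ha, map_zero])
      rw [this, map_zero])
    refine ⟨ψ, ?_⟩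
    ext a
    exact hψ a

end

/-- the dual of a resolution -/
noncomputable def Resolution.dual {X : Type} [NormedAddCommGroup X] [NormedSpace 𝕜 X]
    [CompleteSpace X] (R : Resolution 𝕜 X) : Coresolution 𝕜 (X →L[𝕜] 𝕜) where
  Q := fun i => R.P i →L[𝕜] 𝕜
  η := pre R.ε
  d := fun i => pre (R.d i)
  inj := by
    rw [injective_iff_map_eq_zero]
    intro φ hφ
    ext c
    obtain ⟨b, rfl⟩ := R.surj c
    have := congrArg (fun f => f b) hφ
    exact this
  exact_zero := fun φ => by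
    refine dual_exact (R.d 0) R.ε R.exact_zero ?_ φ
    rw [Set.range_eq_univ.2 R.surj]
    exact isClosed_univ
  exact := fun i φ => by
    refine dual_exact (R.d (i + 1)) (R.d i) (R.exact i) ?_ φ
    cases i with
    | zero => exact closed_range_of_exact _ R.ε R.exact_zero
    | succ i => exact closed_range_of_exact _ (R.d i) (R.exact i)

theorem Coresolution.eta_bdd {X : Type} [NormedAddCommGroup X] [NormedSpace 𝕜 X]
    [CompleteSpace X] (R : Coresolution 𝕜 X) : ∃ c : ℝ, ∀ x, ‖x‖ ≤ c * ‖R.η x‖ :=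
  bddBelow_of_closed R.η R.inj (closed_range_of_exact _ (R.d 0) R.exact_zero)

/-- the first cosyzygy -/
theorem Coresolution.shift {X : Type} [NormedAddCommGroup X] [NormedSpace 𝕜 X]
    [CompleteSpace X] (R : Coresolution 𝕜 X) :
    ∃ (K : Type) (_ : NormedAddCommGroup K) (_ : NormedSpace 𝕜 K) (_ : CompleteSpace K)
      (π : R.Q 0 →L[𝕜] K) (δ : K →L[𝕜] R.Q 1), SES R.η π ∧ Function.Injective δ ∧
      (∀ x, δ (π x) = R.d 0 x) ∧ ∀ x, R.d 1 x = 0 ↔ ∃ y, δ y = x := by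
  obtain ⟨K, i1, i2, i3, π, hπ⟩ := exists_coker_ban R.η R.eta_bdd
  obtain ⟨δ, hδ⟩ := factor π hπ.surj (R.d 0) (fun b hb => by
    obtain ⟨a, rfl⟩ := (hπ.ex b).1 hb
    exact (R.exact_zero _).2 ⟨a, rfl⟩)
  refine ⟨K, i1, i2, i3, π, δ, hπ, ?_, hδ, fun x => ?_⟩
  · rw [injective_iff_map_eq_zero]
    intro k hk
    obtain ⟨x, rfl⟩ := hπ.surj k
    rw [hδ] at hk
    obtain ⟨a, ha⟩ := (R.exact_zero x).1 hk
    exact (hπ.ex x).2 ⟨a, ha⟩
  · rw [R.exact 0 x]
    constructor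
    · rintro ⟨y, rfl⟩
      exact ⟨π y, hδ y⟩
    · rintro ⟨k, rfl⟩
      obtain ⟨y, rfl⟩ := hπ.surj k
      exact ⟨y, (hδ y).symm⟩

/-- the shifted coresolution -/
def Coresolution.tail {X : Type} [NormedAddCommGroup X] [NormedSpace 𝕜 X]
    (R : Coresolution 𝕜 X) {K : Type} [NormedAddCommGroup K]
    [NormedSpace 𝕜 K] (δ : K →L[𝕜] R.Q 1) (h1 : Function.Injective δ)
    (h2 : ∀ x, R.d 1 x = 0 ↔ ∃ y, δ y = x) : Coresolution 𝕜 K where
  Q := fun i => R.Q (i + 1)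
  η := δ
  d := fun i => R.d (i + 1)
  inj := h1
  exact_zero := h2
  exact := fun i x => R.exact (i + 1) x

/-- a coresolution gives a chain of short exact sequences -/
theorem gm_of_coresolution {M : ∀ A B : Ban 𝕜, (A.C →L[𝕜] B.C) → Prop} {Q : Ban 𝕜 → Prop}
    (hQ : CoFrame M Q) (hM : ∀ (A B D : Ban 𝕜) (i : A.C →L[𝕜] B.C) (q : B.C →L[𝕜] D.C),
      SES i q → M A B i) :
    ∀ (n : ℕ) (X : Ban 𝕜) (R : Coresolution 𝕜 X.C), (∀ i, Q ⟨R.Q i⟩) →
      (∀ i, n < i → Subsingleton (R.Q i)) → Gm M Q n X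
  | 0, X, R, hP, hn => by
    have hsurj : Function.Surjective R.η := by
      intro x
      have := hn 1 zero_lt_one
      exact (R.exact_zero x).1 (Subsingleton.elim _ _)
    have e : X.C ≃L[𝕜] R.Q 0 := ContinuousLinearEquiv.ofBijective R.η
      (LinearMap.ker_eq_bot.2 R.inj) (LinearMap.range_eq_top.2 hsurj)
    exact hQ.iso ⟨R.Q 0⟩ X ⟨e.symm⟩ (hP 0)
  | n + 1, X, R, hP, hn => by
    obtain ⟨K, i1, i2, i3, π, δ, hπ, h1, h2, h3⟩ := R.shift
    exact ⟨⟨R.Q 0⟩, ⟨K⟩, R.η, π, hπ, hM X ⟨R.Q 0⟩ ⟨K⟩ R.η π hπ, hP 0,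
      gm_of_coresolution hQ hM n ⟨K⟩ (R.tail δ h1 h3) (fun i => hP (i + 1))
        (fun i hi => hn (i + 1) (by omega))⟩

end Pool.Agent.Helper69.Fd
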