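import Mathlib

set_option autoImplicit false

open scoped ENNReal

namespace Pool.Agent.Helper69.Fd

section LN

variable {𝕜 : Type} [RCLike 𝕜]

theorem LN_hasSum {I : Type} {F : I → Type}
    [∀ t, NormedAddCommGroup (F t)] (x : lp F 1) :
    HasSum (fun s => ‖x s‖) ‖x‖ := by
  have h1 := lp.hasSum_norm (p := 1) (by simp) x
  simpa using h1

/-- finite combinations of the unit vectors -/
noncomputable def LN_s (A : Finset ℕ) (u : ℕ → 𝕜) : lp (fun _ : ℕ => 𝕜) ∞ :=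
  ∑ n ∈ A, lp.single ∞ n (u n)

theorem LN_s_apply (A : Finset ℕ) (u : ℕ → 𝕜) (k : ℕ) :
    LN_s A u k = if k ∈ A then u k else 0 := by
  unfold LN_s
  rw [lp.coeFn_sum, Finset.sum_apply]
  split_ifs with h
  · rw [Finset.sum_eq_single k]
    · rw [lp.single_apply_self]
    · intro j _ hj
      rw [lp.single_apply_ne _ _ _ (Ne.symm hj)]
    · intro h'
      exact absurd h h'
  · apply Finset.sum_eq_zero
    intro j hj
    rw [lp.single_apply_ne]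
    rintro rfl
    exact h hj

theorem LN_s_norm (A : Finset ℕ) (u : ℕ → 𝕜) (hu : ∀ n, ‖u n‖ ≤ 1) : ‖LN_s A u‖ ≤ 1 := by
  apply lp.norm_le_of_forall_le zero_le_one
  intro k
  rw [LN_s_apply]
  split_ifs
  · exact hu k
  · rw [norm_zero]
    exact zero_le_one

theorem LN_sum (φ : lp (fun _ : ℕ => 𝕜) ∞ →L[𝕜] 𝕜) (A : Finset ℕ) :
    ∑ n ∈ A, ‖φ (lp.single ∞ n (1 : 𝕜))‖ ≤ ‖φ‖ := by
  have hu : ∀ n, ∃ u : 𝕜, ‖u‖ ≤ 1 ∧ u * φ (lp.single ∞ n (1 : 𝕜)) = ‖φ (lp.single ∞ n (1 : 𝕜))‖ := by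
    intro n
    generalize φ (lp.single ∞ n (1 : 𝕜)) = z
    by_cases hz : z = 0
    · exact ⟨0, by simp, by simp [hz]⟩
    · have hz' : ‖z‖ ≠ 0 := norm_ne_zero_iff.2 hz
      refine ⟨(starRingEnd 𝕜) z / (‖z‖ : 𝕜), ?_, ?_⟩
      · rw [norm_div, RCLike.norm_conj, RCLike.norm_ofReal, abs_of_nonneg (norm_nonneg _),
          div_self hz']
      · rw [div_mul_eq_mul_div, RCLike.conj_mul, div_eq_iff (by exact_mod_cast hz'), sq]
  choose u hu1 hu2 using hu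
  have h1 : φ (LN_s A u) = ((∑ n ∈ A, ‖φ (lp.single ∞ n (1 : 𝕜))‖ : ℝ) : 𝕜) := by
    unfold LN_s
    rw [map_sum, RCLike.ofReal_sum]
    apply Finset.sum_congr rfl
    intro n _
    rw [← hu2 n, ← smul_eq_mul, ← map_smul, ← lp.single_smul]
    simp
  have h2 : ‖φ (LN_s A u)‖ ≤ ‖φ‖ := by
    calc ‖φ (LN_s A u)‖ ≤ ‖φ‖ * ‖LN_s A u‖ := φ.le_opNorm _
      _ ≤ ‖φ‖ * 1 := mul_le_mul_of_nonneg_left (LN_s_norm A u hu1) (norm_nonneg _)
      _ = ‖φ‖ := mul_one _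
  rw [h1, RCLike.norm_ofReal, abs_of_nonneg (Finset.sum_nonneg (fun _ _ => norm_nonneg _))] at h2
  exact h2

theorem LN_tend (φ : lp (fun _ : ℕ => 𝕜) ∞ →L[𝕜] 𝕜) :
    Filter.Tendsto (fun n : ℕ => φ (lp.single ∞ n (1 : 𝕜))) Filter.cofinite (nhds 0) := by
  have h1 : Summable (fun n : ℕ => ‖φ (lp.single ∞ n (1 : 𝕜))‖) :=
    summable_of_sum_le (fun n => norm_nonneg _) (LN_sum φ)
  exact tendsto_zero_iff_norm_tendsto_zero.2 h1.tendsto_cofinite_zero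

theorem LN_tend_fd {E : Type} [NormedAddCommGroup E] [NormedSpace 𝕜 E] [FiniteDimensional 𝕜 E]
    (L : lp (fun _ : ℕ => 𝕜) ∞ →L[𝕜] E) :
    Filter.Tendsto (fun n : ℕ => L (lp.single ∞ n (1 : 𝕜))) Filter.cofinite (nhds 0) := by
  obtain ⟨e⟩ : Nonempty (E ≃L[𝕜] (Fin (Module.finrank 𝕜 E) → 𝕜)) :=
    ⟨(Module.finBasis 𝕜 E).equivFun.toContinuousLinearEquiv⟩
  have h1 : Filter.Tendsto (fun n : ℕ => e (L (lp.single ∞ n (1 : 𝕜)))) Filter.cofinite (nhds 0) := by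
    rw [tendsto_pi_nhds]
    intro i
    exact LN_tend ((ContinuousLinearMap.proj (R := 𝕜) (φ := fun _ : Fin (Module.finrank 𝕜 E) => 𝕜) i).comp
      ((e : E →L[𝕜] (Fin (Module.finrank 𝕜 E) → 𝕜)).comp L))
  have h2 := (e.symm.continuous.tendsto 0).comp h1
  rw [map_zero] at h2
  refine h2.congr ?_
  intro n
  simp

end LN

/-- TARGET: `ℓ^∞(ℕ)` does not embed into an `ℓ¹`-sum of finite dimensional spaces. -/
theorem linf_no_embedding {𝕜 : Type} [RCLike 𝕜] {I : Type} (F : I → Type)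
    [∀ t, NormedAddCommGroup (F t)] [∀ t, NormedSpace 𝕜 (F t)] [∀ t, FiniteDimensional 𝕜 (F t)]
    (j : lp (fun _ : ℕ => 𝕜) ∞ →L[𝕜] lp F 1) (c : ℝ) (hj : ∀ w, ‖w‖ ≤ c * ‖j w‖) : False := by
  classical
  have hen : ∀ n : ℕ, ‖lp.single (E := fun _ : ℕ => 𝕜) ∞ n (1 : 𝕜)‖ = 1 := by
    intro n
    rw [lp.norm_single (by simp), norm_one]
  have hc : 0 < c := by
    by_contra hc
    push Not at hc
    have h1 := hj (lp.single ∞ 0 (1 : 𝕜))
    rw [hen 0] at h1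
    have h2 : c * ‖j (lp.single ∞ 0 (1 : 𝕜))‖ ≤ 0 := mul_nonpos_of_nonpos_of_nonneg hc (norm_nonneg _)
    linarith
  obtain ⟨δ, hδ⟩ : ∃ δ : ℝ, δ = 1 / (10 * c) := ⟨_, rfl⟩
  have hδpos : 0 < δ := by rw [hδ]; positivity
  have hδc : 5 * δ < 1 / c := by
    rw [hδ, mul_one_div, div_lt_div_iff₀ (by positivity) hc]
    nlinarith
  obtain ⟨D, hD⟩ : ∃ D : Set (lp (fun _ : ℕ => 𝕜) ∞), D = Set.range (fun A : Finset ℕ => LN_s A (fun _ => (1 : 𝕜))) :=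
    ⟨_, rfl⟩
  have hDb : ∀ f ∈ D, ‖f‖ ≤ 1 := by
    rw [hD]
    rintro _ ⟨A, rfl⟩
    exact LN_s_norm A _ (fun _ => by simp)
  have hDne : D.Nonempty := by
    rw [hD]
    exact Set.range_nonempty _
  have hbdd : BddAbove ((fun f => ‖j f‖) '' D) := by
    refine ⟨‖j‖, ?_⟩
    rintro _ ⟨f, hf, rfl⟩
    calc ‖j f‖ ≤ ‖j‖ * ‖f‖ := j.le_opNorm f
      _ ≤ ‖j‖ * 1 := mul_le_mul_of_nonneg_left (hDb f hf) (norm_nonneg _)
      _ = ‖j‖ := mul_one _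
  obtain ⟨_, ⟨f, hf, rfl⟩, hfa⟩ := exists_lt_of_lt_csSup (hDne.image (fun f => ‖j f‖))
    (sub_lt_self (sSup ((fun f => ‖j f‖) '' D)) hδpos)
  have hsf := LN_hasSum (j f)
  obtain ⟨A, hA⟩ : ∃ A : Finset I, ‖j f‖ - δ < ∑ s ∈ A, ‖(j f) s‖ := by
    have := hsf.eventually (lt_mem_nhds (sub_lt_self ‖j f‖ hδpos))
    exact this.exists
  -- choose the new unit vector
  obtain ⟨g, hg1, hfg, hgA⟩ : ∃ g, 1 ≤ ‖g‖ ∧ f + g ∈ D ∧ ∑ s ∈ A, ‖(j g) s‖ ≤ δ := by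
    rw [hD] at hf
    obtain ⟨B, rfl⟩ := hf
    have h1 : Filter.Tendsto (fun n : ℕ => ∑ s ∈ A, ‖(j (lp.single ∞ n (1 : 𝕜))) s‖) Filter.cofinite
        (nhds 0) := by
      have h2 : Filter.Tendsto (fun n : ℕ => ∑ s ∈ A, ‖(j (lp.single ∞ n (1 : 𝕜))) s‖) Filter.cofinite
          (nhds (∑ s ∈ A, 0)) := by
        apply tendsto_finsetSum
        intro s _
        have h3 := (LN_tend_fd ((lp.evalCLM 𝕜 F 1 s).comp j)).norm
        rw [norm_zero] at h3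
        exact h3
      rwa [Finset.sum_const_zero] at h2
    have h4 : ∀ᶠ n in Filter.cofinite, ∑ s ∈ A, ‖(j (lp.single ∞ n (1 : 𝕜))) s‖ < δ :=
      h1.eventually (gt_mem_nhds hδpos)
    have h5 : ∀ᶠ n in Filter.cofinite, n ∉ B := B.eventually_cofinite_notMem
    obtain ⟨n, hn1, hn2⟩ := (h4.and h5).exists
    refine ⟨lp.single ∞ n (1 : 𝕜), (hen n).ge, ?_, hn1.le⟩
    rw [hD]
    refine ⟨insert n B, ?_⟩
    simp only [LN_s]
    rw [Finset.sum_insert hn2, add_comm]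
  have hsg := LN_hasSum (j g)
  have hsfg := LN_hasSum (j (f + g))
  have hcorr : HasSum (fun s => if s ∈ A then ‖(j g) s‖ - ‖(j f) s‖ else 0)
      (∑ s ∈ A, (‖(j g) s‖ - ‖(j f) s‖)) := by
    have : HasSum (fun s => if s ∈ A then ‖(j g) s‖ - ‖(j f) s‖ else 0)
        (∑ s ∈ A, (if s ∈ A then ‖(j g) s‖ - ‖(j f) s‖ else 0)) :=
      hasSum_sum_of_ne_finset_zero (fun b hb => by simp [hb])
    have h2 : ∑ s ∈ A, (if s ∈ A then ‖(j g) s‖ - ‖(j f) s‖ else 0)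
        = ∑ s ∈ A, (‖(j g) s‖ - ‖(j f) s‖) :=
      Finset.sum_congr rfl fun s hs => by simp [hs]
    rwa [h2] at this
  have hm := hcorr.add hsf
  have hlow := (hsf.add hsg).sub (hm.mul_left 2)
  have hle := hasSum_le (fun s => ?_) hlow hsfg
  · rw [Finset.sum_sub_distrib] at hle
    have h3 : 1 / c ≤ ‖j g‖ := by
      rw [div_le_iff₀ hc]
      calc (1:ℝ) ≤ ‖g‖ := hg1
        _ ≤ c * ‖j g‖ := hj g
        _ = ‖j g‖ * c := mul_comm _ _
    have h4 : ‖j (f + g)‖ ≤ sSup ((fun f => ‖j f‖) '' D) := le_csSup hbdd ⟨_, hfg, rfl⟩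
    simp only at hfa
    linarith
  · have e : (j (f + g)) s = (j f) s + (j g) s := by rw [map_add]; rfl
    rw [e]
    by_cases hs : s ∈ A
    · simp only [hs, if_true]
      have := norm_sub_norm_le ((j f) s) (-(j g) s)
      rw [norm_neg, sub_neg_eq_add] at this
      linarith
    · simp only [hs, if_false]
      have := norm_sub_norm_le ((j g) s) (-(j f) s)
      rw [norm_neg, sub_neg_eq_add, add_comm] at this
      linarith

end Pool.Agent.Helper69.Fd
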