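import Mathlib
import Pool.Agent.Helper69.HdCo

set_option autoImplicit false

/-!
# Uniform liftings and extensions for finite dimensional spaces: definitions
-/

namespace Pool.Agent.Helper69.Fd

/-- uniform local liftings -/
def UL {𝕜 : Type} [RCLike 𝕜] {B C : Type} [NormedAddCommGroup B] [NormedSpace 𝕜 B]
    [NormedAddCommGroup C] [NormedSpace 𝕜 C] (q : B →L[𝕜] C) : Prop :=
  ∃ M : ℝ, ∀ (F : Type) [NormedAddCommGroup F] [NormedSpace 𝕜 F] [FiniteDimensional 𝕜 F]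
    (T : F →L[𝕜] C), ∃ T' : F →L[𝕜] B, (∀ x, q (T' x) = T x) ∧ ‖T'‖ ≤ M * ‖T‖

/-- uniform extension property for finite dimensional spaces -/
def PropM (𝕜 : Type) [RCLike 𝕜] (Q : Type) [NormedAddCommGroup Q] [NormedSpace 𝕜 Q] : Prop :=
  ∃ lam : ℝ, 0 ≤ lam ∧ ∀ (F G : Type) [NormedAddCommGroup F] [NormedSpace 𝕜 F]
    [FiniteDimensional 𝕜 F] [NormedAddCommGroup G] [NormedSpace 𝕜 G] [FiniteDimensional 𝕜 G]
    (ι : F →L[𝕜] G) (c : ℝ), 0 ≤ c → (∀ x, ‖x‖ ≤ c * ‖ι x‖) →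
    ∀ T : F →L[𝕜] Q, ∃ T' : G →L[𝕜] Q, (∀ x, T' (ι x) = T x) ∧ ‖T'‖ ≤ lam * c * ‖T‖

end Pool.Agent.Helper69.Fd
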