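import Mathlib
import Pool.Agent.Helper69.HdDefs
import Pool.Agent.Helper69.HdM
import Pool.Agent.Helper69.FdExt

set_option autoImplicit false

open scoped ENNReal

namespace Pool.Agent.Helper69.Fd



/-- the functionals of norm at most one -/
abbrev InjIdx (𝕜 : Type) [RCLike 𝕜] (Q : Type) [NormedAddCommGroup Q] [NormedSpace 𝕜 Q] : Type :=
  {φ : Q →L[𝕜] 𝕜 // ‖φ‖ ≤ 1}

/-- the canonical isometric embedding in a bounded function space -/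
theorem inj_embed (𝕜 : Type) [RCLike 𝕜] (Q : Type) [NormedAddCommGroup Q] [NormedSpace 𝕜 Q] :
    ∃ j : Q →ₗᵢ[𝕜] lp (fun _ : InjIdx 𝕜 Q => 𝕜) ∞, ∀ x φ, (j x) φ = φ.1 x := by
  have hb : ∀ (x : Q) (φ : InjIdx 𝕜 Q), ‖φ.1 x‖ ≤ ‖x‖ := by
    intro x φ
    calc ‖φ.1 x‖ ≤ ‖φ.1‖ * ‖x‖ := φ.1.le_opNorm x
      _ ≤ 1 * ‖x‖ := mul_le_mul_of_nonneg_right φ.2 (norm_nonneg _)
      _ = ‖x‖ := one_mul _
  let j0 : Q →ₗ[𝕜] lp (fun _ : InjIdx 𝕜 Q => 𝕜) ∞ :=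
    { toFun := fun x => ⟨fun φ => φ.1 x, memℓp_infty ⟨‖x‖, by
        rintro _ ⟨φ, rfl⟩
        exact hb x φ⟩⟩
      map_add' := fun x y => by
        apply lp.ext
        funext φ
        exact map_add φ.1 x y
      map_smul' := fun c x => by
        apply lp.ext
        funext φ
        exact map_smul φ.1 c x }
  have hj0 : ∀ x φ, (j0 x) φ = φ.1 x := fun _ _ => rfl
  refine ⟨⟨j0, fun x => le_antisymm ?_ ?_⟩, hj0⟩
  · refine lp.norm_le_of_forall_le (norm_nonneg _) (fun φ => ?_)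
    exact hb x φ
  · obtain ⟨g, hg1, hg2⟩ := exists_dual_vector'' 𝕜 x
    have h1 : ‖(j0 x) ⟨g, hg1⟩‖ ≤ ‖j0 x‖ := lp.norm_apply_le_norm (by simp) _ _
    have h2 : (j0 x) ⟨g, hg1⟩ = g x := rfl
    rw [h2, hg2] at h1
    have h3 : ‖((‖x‖ : ℝ) : 𝕜)‖ = ‖x‖ := by
      rw [RCLike.norm_ofReal, abs_of_nonneg (norm_nonneg x)]
    rw [h3] at h1
    exact h1

/-- TARGET -/
theorem propM_of_isInjectiveSpace {𝕜 : Type} [RCLike 𝕜] {Q : Type} [NormedAddCommGroup Q]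
    [NormedSpace 𝕜 Q] [CompleteSpace Q] (h : IsInjectiveSpace 𝕜 Q) : PropM 𝕜 Q := by
  obtain ⟨j, hj⟩ := inj_embed 𝕜 Q
  have hcl : IsClosed (LinearMap.range j.toLinearMap : Set (lp (fun _ : InjIdx 𝕜 Q => 𝕜) ∞)) := by
    have h1 := j.isometry.isClosedEmbedding.isClosed_range
    have h2 : (LinearMap.range j.toLinearMap : Set (lp (fun _ : InjIdx 𝕜 Q => 𝕜) ∞)) =
        Set.range j := by
      ext y
      rfl
    rw [h2]
    exact h1
  obtain ⟨π, hπ⟩ := h (lp (fun _ : InjIdx 𝕜 Q => 𝕜) ∞) (LinearMap.range j.toLinearMap) hcl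
    (j.equivRange.symm : _ →L[𝕜] Q)
  have hπj : ∀ x : Q, π (j x) = x := by
    intro x
    have h1 := hπ (j.equivRange x)
    have h2 : (j.equivRange.symm : _ →L[𝕜] Q) (j.equivRange x) = x :=
      j.equivRange.symm_apply_apply x
    rw [h2] at h1
    exact h1
  refine ⟨‖π‖, norm_nonneg _, ?_⟩
  intro F G _ _ _ _ _ _ ι c hc hι T
  choose ψ hψ1 hψ2 using fun φ : InjIdx 𝕜 Q => extend_functional ι c hι (φ.1 ∘L T)
  have hψ3 : ∀ φ, ‖ψ φ‖ ≤ c * ‖T‖ := by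
    intro φ
    refine (hψ2 φ).trans ?_
    rw [abs_of_nonneg hc]
    refine mul_le_mul_of_nonneg_left ?_ hc
    calc ‖φ.1 ∘L T‖ ≤ ‖φ.1‖ * ‖T‖ := ContinuousLinearMap.opNorm_comp_le _ _
      _ ≤ 1 * ‖T‖ := mul_le_mul_of_nonneg_right φ.2 (norm_nonneg _)
      _ = ‖T‖ := one_mul _
  have hb : ∀ (y : G) (φ : InjIdx 𝕜 Q), ‖ψ φ y‖ ≤ c * ‖T‖ * ‖y‖ := fun y φ =>
    ((ψ φ).le_opNorm y).trans (mul_le_mul_of_nonneg_right (hψ3 φ) (norm_nonneg _))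
  have hcT : 0 ≤ c * ‖T‖ := mul_nonneg hc (norm_nonneg _)
  let Ψ : G →L[𝕜] lp (fun _ : InjIdx 𝕜 Q => 𝕜) ∞ := LinearMap.mkContinuous
    { toFun := fun y => ⟨fun φ => ψ φ y, memℓp_infty ⟨c * ‖T‖ * ‖y‖, by
        rintro _ ⟨φ, rfl⟩
        exact hb y φ⟩⟩
      map_add' := fun x y => by
        apply lp.ext
        funext φ
        exact map_add (ψ φ) x y
      map_smul' := fun r x => by
        apply lp.ext
        funext φ
        exact map_smul (ψ φ) r x } (c * ‖T‖) (fun y => by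
      refine lp.norm_le_of_forall_le (mul_nonneg hcT (norm_nonneg _)) (fun φ => ?_)
      exact hb y φ)
  have hΨn : ‖Ψ‖ ≤ c * ‖T‖ := LinearMap.mkContinuous_norm_le _ hcT _
  have hΨ : ∀ y φ, (Ψ y) φ = ψ φ y := fun _ _ => rfl
  refine ⟨π ∘L Ψ, fun x => ?_, ?_⟩
  · have h1 : Ψ (ι x) = j (T x) := by
      apply lp.ext
      funext φ
      rw [hΨ, hj, hψ1]
      rfl
    show π (Ψ (ι x)) = T x
    rw [h1, hπj]
  · refine (ContinuousLinearMap.opNorm_comp_le _ _).trans ?_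
    rw [mul_assoc]
    exact mul_le_mul_of_nonneg_left hΨn (norm_nonneg _)

end Pool.Agent.Helper69.Fd
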