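import Mathlib
import Pool.Agent.Helper69.HdM
import Pool.Agent.Helper69.FdClass

set_option autoImplicit false

namespace Pool.Agent.Helper69.Fd

theorem opNorm_le_of_ball {𝕜 : Type} [RCLike 𝕜] {F B : Type} [NormedAddCommGroup F]
    [NormedSpace 𝕜 F] [NormedAddCommGroup B] [NormedSpace 𝕜 B] (T : F →L[𝕜] B) (C : ℝ)
    (hC : 0 ≤ C) (h : ∀ z, ‖z‖ ≤ 1 → ‖T z‖ ≤ C) : ‖T‖ ≤ C := by
  refine T.opNorm_le_bound hC fun x => ?_
  by_cases hx : x = 0
  · rw [hx, map_zero, norm_zero, norm_zero, mul_zero]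
  · have hx' : ‖x‖ ≠ 0 := norm_ne_zero_iff.2 hx
    have h1 : ‖((‖x‖ : 𝕜)⁻¹ • x)‖ ≤ 1 := by
      rw [norm_smul, norm_inv, RCLike.norm_ofReal, abs_norm, inv_mul_cancel₀ hx']
    have h2 := h _ h1
    rw [map_smul, norm_smul, norm_inv, RCLike.norm_ofReal, abs_norm,
      inv_mul_le_iff₀ (norm_pos_iff.2 hx)] at h2
    rw [mul_comm]
    exact h2

theorem exists_net (𝕜 : Type) [RCLike 𝕜] (F : Type) [NormedAddCommGroup F]
    [NormedSpace 𝕜 F] [FiniteDimensional 𝕜 F] :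
    ∃ N : Finset F, (∀ y ∈ N, ‖y‖ ≤ 1) ∧ (⊤ : Submodule 𝕜 F) ≤ Submodule.span 𝕜 (N : Set F) ∧
      ∀ z, ‖z‖ ≤ 1 → ∃ y ∈ N, ‖z - y‖ ≤ 1 / 2 := by
  classical
  have : ProperSpace F := FiniteDimensional.proper 𝕜 F
  obtain ⟨t, ht1, ht2, ht3⟩ := (isCompact_closedBall (0 : F) 1).finite_cover_balls
    (show (0 : ℝ) < 1 / 2 by norm_num)
  let b := Module.finBasis 𝕜 F
  let u : Fin (Module.finrank 𝕜 F) → F := fun i => (‖b i‖ : 𝕜)⁻¹ • b i
  refine ⟨ht2.toFinset ∪ Finset.univ.image u, ?_, ?_, ?_⟩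
  · intro y hy
    rw [Finset.mem_union, Set.Finite.mem_toFinset, Finset.mem_image] at hy
    rcases hy with hy | ⟨i, -, rfl⟩
    · have := ht1 hy
      rwa [Metric.mem_closedBall, dist_zero_right] at this
    · have hb : ‖b i‖ ≠ 0 := norm_ne_zero_iff.2 (b.ne_zero i)
      rw [norm_smul, norm_inv, RCLike.norm_ofReal, abs_norm, inv_mul_cancel₀ hb]
  · rw [← b.span_eq, Submodule.span_le]
    rintro _ ⟨i, rfl⟩
    have hb : (‖b i‖ : 𝕜) ≠ 0 := by
      rw [Ne, RCLike.ofReal_eq_zero]; exact norm_ne_zero_iff.2 (b.ne_zero i)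
    have h1 : b i = (‖b i‖ : 𝕜) • u i := by
      show b i = (‖b i‖ : 𝕜) • ((‖b i‖ : 𝕜)⁻¹ • b i)
      rw [smul_smul, mul_inv_cancel₀ hb, one_smul]
    rw [SetLike.mem_coe, h1]
    refine Submodule.smul_mem _ _ (Submodule.subset_span ?_)
    rw [Finset.mem_coe, Finset.mem_union]
    exact Or.inr (Finset.mem_image_of_mem _ (Finset.mem_univ _))
  · intro z hz
    have h1 := ht3 (show z ∈ Metric.closedBall (0 : F) 1 by
      rwa [Metric.mem_closedBall, dist_zero_right])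
    rw [Set.mem_iUnion₂] at h1
    obtain ⟨y, hy, hzy⟩ := h1
    refine ⟨y, ?_, ?_⟩
    · rw [Finset.mem_union, Set.Finite.mem_toFinset]
      exact Or.inl hy
    · rw [Metric.mem_ball, dist_eq_norm] at hzy
      exact hzy.le

theorem UL_of_propM {𝕜 : Type} [RCLike 𝕜] {A B C : Type} [NormedAddCommGroup A]
    [NormedSpace 𝕜 A] [CompleteSpace A] [NormedAddCommGroup B] [NormedSpace 𝕜 B] [CompleteSpace B]
    [NormedAddCommGroup C] [NormedSpace 𝕜 C] [CompleteSpace C] (i : A →L[𝕜] B) (q : B →L[𝕜] C)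
    (hi : Function.Injective i) (hex : ∀ b, q b = 0 ↔ ∃ a, i a = b)
    (hq : Function.Surjective q) (hA : PropM 𝕜 A) : UL q := by
  classical
  have hs : SES i q := ⟨hi, hex, hq⟩
  obtain ⟨c', hc'⟩ := hs.bddBelow
  obtain ⟨c, hc0, hc⟩ : ∃ c : ℝ, 0 ≤ c ∧ ∀ x, ‖x‖ ≤ c * ‖i x‖ :=
    ⟨|c'|, abs_nonneg _, fun x => (hc' x).trans
      (mul_le_mul_of_nonneg_right (le_abs_self _) (norm_nonneg _))⟩
  obtain ⟨K, hK, hpre⟩ := ContinuousLinearMap.exists_preimage_norm_le q hq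
  obtain ⟨lam, hlam, H⟩ := hA
  choose r hr hrn using hpre
  refine ⟨2 * ((1 + ‖i‖ * (lam * c)) * K), ?_⟩
  intro F _ _ _ T
  have hFc : CompleteSpace F := FiniteDimensional.complete 𝕜 F
  obtain ⟨N, hN1, hN2, hN3⟩ := exists_net 𝕜 F
  let G : Type := PiLp 1 (fun _ : N => 𝕜)
  have hGc : CompleteSpace G := FiniteDimensional.complete 𝕜 G
  have hnorm : ∀ x : G, ‖x‖ = ∑ y, ‖x y‖ := by
    intro x
    have h1 := PiLp.norm_eq_sum (p := 1) (by simp) x
    rw [h1]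
    simp only [ENNReal.toReal_one, Real.rpow_one, one_div_one]
  have hadd : ∀ (x z : G) (y : N), (x + z).ofLp y = x.ofLp y + z.ofLp y := fun _ _ _ => rfl
  have hsmul : ∀ (a : 𝕜) (x : G) (y : N), (a • x).ofLp y = a * x.ofLp y := fun _ _ _ => rfl
  -- the two maps
  let π : G →L[𝕜] F := LinearMap.mkContinuous
    { toFun := fun x => ∑ y, x y • (y : F)
      map_add' := fun x z => by
        simp only [hadd, add_smul, Finset.sum_add_distrib]
      map_smul' := fun a x => by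
        simp only [hsmul, mul_smul, RingHom.id_apply, Finset.smul_sum] }
    1 (fun x => by
      show ‖∑ y, x y • (y : F)‖ ≤ 1 * ‖x‖
      rw [one_mul, hnorm]
      refine (norm_sum_le _ _).trans (Finset.sum_le_sum fun y _ => ?_)
      rw [norm_smul]
      exact mul_le_of_le_one_right (norm_nonneg _) (hN1 _ y.2))
  have hπ : ∀ x, π x = ∑ y, x y • (y : F) := fun x => rfl
  let S : G →L[𝕜] B := LinearMap.mkContinuous
    { toFun := fun x => ∑ y, x y • r (T (y : F))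
      map_add' := fun x z => by
        simp only [hadd, add_smul, Finset.sum_add_distrib]
      map_smul' := fun a x => by
        simp only [hsmul, mul_smul, RingHom.id_apply, Finset.smul_sum] }
    (K * ‖T‖) (fun x => by
      show ‖∑ y, x y • r (T (y : F))‖ ≤ K * ‖T‖ * ‖x‖
      rw [hnorm, Finset.mul_sum]
      refine (norm_sum_le _ _).trans (Finset.sum_le_sum fun y _ => ?_)
      rw [norm_smul, mul_comm]
      refine mul_le_mul_of_nonneg_right ?_ (norm_nonneg _)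
      calc ‖r (T (y : F))‖ ≤ K * ‖T (y : F)‖ := hrn _
        _ ≤ K * (‖T‖ * ‖(y : F)‖) := mul_le_mul_of_nonneg_left (T.le_opNorm _) hK.le
        _ ≤ K * (‖T‖ * 1) := mul_le_mul_of_nonneg_left
            (mul_le_mul_of_nonneg_left (hN1 _ y.2) (norm_nonneg _)) hK.le
        _ = K * ‖T‖ := by rw [mul_one])
  have hS : ∀ x, S x = ∑ y, x y • r (T (y : F)) := fun x => rfl
  have hSn : ‖S‖ ≤ K * ‖T‖ := LinearMap.mkContinuous_norm_le _ (by positivity) _
  have hqS : ∀ x, q (S x) = T (π x) := by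
    intro x
    rw [hS, hπ, map_sum, map_sum]
    exact Finset.sum_congr rfl fun y _ => by rw [map_smul, map_smul, hr]
  have hπs : Function.Surjective π := by
    intro z
    have hz : z ∈ Submodule.span 𝕜 (N : Set F) := hN2 Submodule.mem_top
    rw [Submodule.mem_span_finset] at hz
    obtain ⟨f, -, hf⟩ := hz
    refine ⟨WithLp.toLp 1 (fun y : N => f (y : F)), ?_⟩
    rw [hπ, ← hf, ← Finset.sum_coe_sort N]
  -- the kernel
  let F0 : Submodule 𝕜 G := LinearMap.ker (π : G →ₗ[𝕜] F)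
  obtain ⟨a0, ha0⟩ := colift hs (S.comp F0.subtypeL) (fun x => by
    show q (S (x : G)) = 0
    rw [hqS]
    have : π (x : G) = 0 := x.2
    rw [this, map_zero])
  have ha0' : ∀ x : F0, i (a0 x) = S (x : G) := ha0
  have ha0n : ‖a0‖ ≤ c * ‖S‖ := by
    refine a0.opNorm_le_bound (by positivity) fun x => ?_
    calc ‖a0 x‖ ≤ c * ‖i (a0 x)‖ := hc _
      _ = c * ‖S (x : G)‖ := by rw [ha0']
      _ ≤ c * (‖S‖ * ‖(x : G)‖) := mul_le_mul_of_nonneg_left (S.le_opNorm _) hc0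
      _ = c * ‖S‖ * ‖x‖ := by rw [mul_assoc]; rfl
  obtain ⟨a, ha, han⟩ := H F0 G F0.subtypeL 1 zero_le_one
    (fun x => by rw [one_mul]; exact le_rfl) a0
  have ha' : ∀ x : F0, a (x : G) = a0 x := ha
  obtain ⟨S', hS'⟩ : ∃ S' : G →L[𝕜] B, S' = S - i.comp a := ⟨_, rfl⟩
  have hS'a : ∀ x, S' x = S x - i (a x) := fun x => by rw [hS']; rfl
  have hS'n : ‖S'‖ ≤ (1 + ‖i‖ * (lam * c)) * K * ‖T‖ := by
    calc ‖S'‖ ≤ ‖S‖ + ‖i.comp a‖ := by rw [hS']; exact norm_sub_le _ _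
      _ ≤ ‖S‖ + ‖i‖ * (lam * 1 * (c * ‖S‖)) := by
          have h1 := i.opNorm_comp_le a
          have h2 : ‖a‖ ≤ lam * 1 * (c * ‖S‖) :=
            han.trans (mul_le_mul_of_nonneg_left ha0n (by positivity))
          have h3 := mul_le_mul_of_nonneg_left h2 (norm_nonneg i)
          linarith
      _ = (1 + ‖i‖ * (lam * c)) * ‖S‖ := by ring
      _ ≤ (1 + ‖i‖ * (lam * c)) * (K * ‖T‖) := mul_le_mul_of_nonneg_left hSn (by positivity)
      _ = _ := by ring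
  obtain ⟨T', hT'⟩ := factor π hπs S' (fun x hx => by
    have h1 : a x = a0 ⟨x, hx⟩ := ha' ⟨x, hx⟩
    rw [hS'a, h1, ha0', sub_self])
  refine ⟨T', fun z => ?_, ?_⟩
  · obtain ⟨x, rfl⟩ := hπs z
    rw [hT', hS'a, map_sub, hqS, (hex (i (a x))).2 ⟨_, rfl⟩, sub_zero]
  · have h1 : ∀ y ∈ N, ‖T' y‖ ≤ ‖S'‖ := by
      intro y hy
      obtain ⟨e, he⟩ : ∃ e : G, e = WithLp.toLp 1 (Pi.single (⟨y, hy⟩ : N) (1 : 𝕜)) := ⟨_, rfl⟩
      have he' : ∀ z, e z = if z = (⟨y, hy⟩ : N) then 1 else 0 := by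
        intro z
        rw [he]
        show (Pi.single (⟨y, hy⟩ : N) (1 : 𝕜) : N → 𝕜) z = _
        rw [Pi.single_apply]
      have h2 : π e = y := by
        rw [hπ]
        simp only [he', ite_smul, one_smul, zero_smul]
        rw [Finset.sum_ite_eq']
        simp
      have h3 : ‖e‖ = 1 := by
        rw [hnorm]
        simp only [he']
        rw [Finset.sum_eq_single (⟨y, hy⟩ : N)]
        · simp
        · intro z _ hz
          simp [hz]
        · intro h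
          exact absurd (Finset.mem_univ _) h
      rw [← h2, hT']
      calc ‖S' e‖ ≤ ‖S'‖ * ‖e‖ := S'.le_opNorm _
        _ = ‖S'‖ := by rw [h3, mul_one]
    have h2 : ‖T'‖ ≤ ‖S'‖ + ‖T'‖ * (1 / 2) := by
      refine opNorm_le_of_ball T' _ (by positivity) fun z hz => ?_
      obtain ⟨y, hy, hzy⟩ := hN3 z hz
      have e : T' z = T' y + T' (z - y) := by rw [map_sub]; abel
      rw [e]
      refine (norm_add_le _ _).trans (add_le_add (h1 y hy) ?_)
      exact (T'.le_opNorm _).trans (mul_le_mul_of_nonneg_left hzy (norm_nonneg _))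
    have h3 : ‖T'‖ ≤ 2 * ‖S'‖ := by linarith
    calc ‖T'‖ ≤ 2 * ‖S'‖ := h3
      _ ≤ 2 * ((1 + ‖i‖ * (lam * c)) * K * ‖T‖) := by linarith
      _ = _ := by ring

end Pool.Agent.Helper69.Fd
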