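import Mathlib
import Pool.Agent.Helper69.HdDual
import Pool.Agent.Helper69.HdM
import Pool.Agent.Helper69.HdInjM
import Pool.Agent.Helper69.HdUL

set_option autoImplicit false

/-!
# The class of spaces with the uniform finite dimensional extension property
-/

namespace Pool.Agent.Helper69.Fd

variable {𝕜 : Type} [RCLike 𝕜]

/-- maps bounded below -/
def MB (A B : Ban 𝕜) (i : A.C →L[𝕜] B.C) : Prop := ∃ c : ℝ, ∀ x, ‖x‖ ≤ c * ‖i x‖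

/-- bundled version of `PropM` -/
def QM (X : Ban 𝕜) : Prop := PropM 𝕜 X.C

theorem MB.nonneg {A B : Ban 𝕜} {i : A.C →L[𝕜] B.C} (h : MB A B i) :
    ∃ c : ℝ, 0 ≤ c ∧ ∀ x, ‖x‖ ≤ c * ‖i x‖ := by
  obtain ⟨c, hc⟩ := h
  exact ⟨|c|, abs_nonneg c, fun x => (hc x).trans
    (mul_le_mul_of_nonneg_right (le_abs_self c) (norm_nonneg _))⟩

theorem MB.push (X I P D : Ban 𝕜) (i : X.C →L[𝕜] I.C) (i' : X.C →L[𝕜] P.C) (q' : P.C →L[𝕜] D.C)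
    (e : P.C →L[𝕜] I.C) (hM : MB X I i) (hs : SES i' q') (he : ∀ x, e (i' x) = i x) :
    MB P ⟨I.C × D.C⟩ (e.prod q') := by
  obtain ⟨c, hc0, hc⟩ := hM.nonneg
  obtain ⟨K, hK, hpre⟩ := ContinuousLinearMap.exists_preimage_norm_le q' hs.surj
  refine ⟨K + ‖i'‖ * (c * (1 + ‖e‖ * K)), fun p => ?_⟩
  obtain ⟨p0, hp0, hn⟩ := hpre (q' p)
  obtain ⟨x, hx⟩ := (hs.ex (p - p0)).1 (by rw [map_sub, hp0, sub_self])
  have h1 : ‖(e.prod q') p‖ = max ‖e p‖ ‖q' p‖ := rfl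
  have h2 : ‖e p‖ ≤ ‖(e.prod q') p‖ := by rw [h1]; exact le_max_left _ _
  have h3 : ‖q' p‖ ≤ ‖(e.prod q') p‖ := by rw [h1]; exact le_max_right _ _
  obtain ⟨N, hN⟩ : ∃ N, N = ‖(e.prod q') p‖ := ⟨_, rfl⟩
  have hN0 : 0 ≤ N := by rw [hN]; exact norm_nonneg _
  rw [← hN] at h2 h3
  rw [← hN]
  have h4 : ‖p0‖ ≤ K * N := hn.trans (mul_le_mul_of_nonneg_left h3 hK.le)
  have h5 : ‖i x‖ ≤ N + ‖e‖ * (K * N) := by
    rw [← he, hx, map_sub]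
    calc ‖e p - e p0‖ ≤ ‖e p‖ + ‖e p0‖ := norm_sub_le _ _
      _ ≤ N + ‖e‖ * ‖p0‖ := add_le_add h2 (e.le_opNorm _)
      _ ≤ N + ‖e‖ * (K * N) := by
          have := mul_le_mul_of_nonneg_left h4 (norm_nonneg e)
          linarith
  have h6 : ‖x‖ ≤ c * (N + ‖e‖ * (K * N)) := (hc x).trans (mul_le_mul_of_nonneg_left h5 hc0)
  have h7 : p = p0 + i' x := by rw [hx]; abel
  calc ‖p‖ = ‖p0 + i' x‖ := by rw [← h7]
    _ ≤ ‖p0‖ + ‖i' x‖ := norm_add_le _ _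
    _ ≤ K * N + ‖i'‖ * ‖x‖ := add_le_add h4 (i'.le_opNorm _)
    _ ≤ K * N + ‖i'‖ * (c * (N + ‖e‖ * (K * N))) := by
        have := mul_le_mul_of_nonneg_left h6 (norm_nonneg i')
        linarith
    _ = (K + ‖i'‖ * (c * (1 + ‖e‖ * K))) * N := by ring

theorem MB.quot (P Y D P' N : Ban 𝕜) (j : P.C →L[𝕜] Y.C) (p : Y.C →L[𝕜] D.C)
    (i : Y.C →L[𝕜] P'.C) (π : P'.C →L[𝕜] N.C) (h : D.C →L[𝕜] N.C) (hs : SES j p)
    (hM : MB Y P' i) (hπ : SES (i.comp j) π) (hh : ∀ y, h (p y) = π (i y)) : MB D N h := by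
  obtain ⟨c, hc0, hc⟩ := hM.nonneg
  obtain ⟨K, hK, hpre⟩ := ContinuousLinearMap.exists_preimage_norm_le π hπ.surj
  refine ⟨‖p‖ * (c * K), fun d => ?_⟩
  obtain ⟨y, rfl⟩ := hs.surj d
  obtain ⟨z, hz, hn⟩ := hpre (h (p y))
  obtain ⟨a, ha⟩ := (hπ.ex (i y - z)).1 (by rw [map_sub, hz, hh, sub_self])
  have ha' : i (j a) = i y - z := ha
  have h1 : i (y - j a) = z := by rw [map_sub, ha']; abel
  have h2 : p (y - j a) = p y := by rw [map_sub, (hs.ex (j a)).2 ⟨a, rfl⟩, sub_zero]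
  calc ‖p y‖ = ‖p (y - j a)‖ := by rw [h2]
    _ ≤ ‖p‖ * ‖y - j a‖ := p.le_opNorm _
    _ ≤ ‖p‖ * (c * ‖z‖) := mul_le_mul_of_nonneg_left (by rw [← h1]; exact hc _) (norm_nonneg _)
    _ ≤ ‖p‖ * (c * (K * ‖h (p y)‖)) := mul_le_mul_of_nonneg_left
        (mul_le_mul_of_nonneg_left hn hc0) (norm_nonneg _)
    _ = ‖p‖ * (c * K) * ‖h (p y)‖ := by ring

theorem PropM.retract {X Y : Type} [NormedAddCommGroup X] [NormedSpace 𝕜 X]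
    [NormedAddCommGroup Y] [NormedSpace 𝕜 Y] (h : PropM 𝕜 X) (s : Y →L[𝕜] X) (q : X →L[𝕜] Y)
    (hs : ∀ y, q (s y) = y) : PropM 𝕜 Y := by
  obtain ⟨lam, hlam, H⟩ := h
  refine ⟨‖q‖ * lam * ‖s‖, by positivity, ?_⟩
  intro F G _ _ _ _ _ _ ι c hc hι T
  obtain ⟨T', h1, h2⟩ := H F G ι c hc hι (s.comp T)
  refine ⟨q.comp T', fun x => ?_, ?_⟩
  · rw [ContinuousLinearMap.comp_apply, h1, ContinuousLinearMap.comp_apply, hs]
  · calc ‖q.comp T'‖ ≤ ‖q‖ * ‖T'‖ := q.opNorm_comp_le _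
      _ ≤ ‖q‖ * (lam * c * ‖s.comp T‖) := mul_le_mul_of_nonneg_left h2 (norm_nonneg _)
      _ ≤ ‖q‖ * (lam * c * (‖s‖ * ‖T‖)) := by
          refine mul_le_mul_of_nonneg_left (mul_le_mul_of_nonneg_left (s.opNorm_comp_le T) ?_)
            (norm_nonneg _)
          positivity
      _ = ‖q‖ * lam * ‖s‖ * c * ‖T‖ := by ring

theorem PropM.prod {X Y : Type} [NormedAddCommGroup X] [NormedSpace 𝕜 X]
    [NormedAddCommGroup Y] [NormedSpace 𝕜 Y] (hX : PropM 𝕜 X) (hY : PropM 𝕜 Y) :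
    PropM 𝕜 (X × Y) := by
  obtain ⟨l1, hl1, H1⟩ := hX
  obtain ⟨l2, hl2, H2⟩ := hY
  refine ⟨l1 + l2, by positivity, ?_⟩
  intro F G _ _ _ _ _ _ ι c hc hι T
  obtain ⟨T1, h1, h1'⟩ := H1 F G ι c hc hι ((ContinuousLinearMap.fst 𝕜 X Y).comp T)
  obtain ⟨T2, h2, h2'⟩ := H2 F G ι c hc hι ((ContinuousLinearMap.snd 𝕜 X Y).comp T)
  refine ⟨T1.prod T2, fun x => Prod.ext (h1 x) (h2 x), ?_⟩
  have e1 : ‖(ContinuousLinearMap.fst 𝕜 X Y).comp T‖ ≤ ‖T‖ := by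
    refine ContinuousLinearMap.opNorm_le_bound _ (norm_nonneg _) fun x => ?_
    exact (norm_fst_le (T x)).trans (T.le_opNorm x)
  have e2 : ‖(ContinuousLinearMap.snd 𝕜 X Y).comp T‖ ≤ ‖T‖ := by
    refine ContinuousLinearMap.opNorm_le_bound _ (norm_nonneg _) fun x => ?_
    exact (norm_snd_le (T x)).trans (T.le_opNorm x)
  refine ContinuousLinearMap.opNorm_le_bound _ (by positivity) fun y => ?_
  have e3 : ‖T1 y‖ ≤ l1 * c * ‖T‖ * ‖y‖ := (T1.le_opNorm y).trans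
    (mul_le_mul_of_nonneg_right (h1'.trans (mul_le_mul_of_nonneg_left e1 (by positivity)))
      (norm_nonneg _))
  have e4 : ‖T2 y‖ ≤ l2 * c * ‖T‖ * ‖y‖ := (T2.le_opNorm y).trans
    (mul_le_mul_of_nonneg_right (h2'.trans (mul_le_mul_of_nonneg_left e2 (by positivity)))
      (norm_nonneg _))
  have e5 : 0 ≤ l1 * c * ‖T‖ * ‖y‖ := by positivity
  have e6 : 0 ≤ l2 * c * ‖T‖ * ‖y‖ := by positivity
  have e7 : (l1 + l2) * c * ‖T‖ * ‖y‖ = l1 * c * ‖T‖ * ‖y‖ + l2 * c * ‖T‖ * ‖y‖ := by ring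
  have e8 : ‖(T1.prod T2) y‖ = max ‖T1 y‖ ‖T2 y‖ := rfl
  rw [e8, e7]
  exact max_le (by linarith) (by linarith)

theorem PropM.coker {A B D : Type} [NormedAddCommGroup A] [NormedSpace 𝕜 A] [CompleteSpace A]
    [NormedAddCommGroup B] [NormedSpace 𝕜 B] [CompleteSpace B] [NormedAddCommGroup D]
    [NormedSpace 𝕜 D] [CompleteSpace D] (i : A →L[𝕜] B) (q : B →L[𝕜] D) (hs : SES i q)
    (hA : PropM 𝕜 A) (hB : PropM 𝕜 B) : PropM 𝕜 D := by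
  obtain ⟨M, HM⟩ := UL_of_propM i q hs.inj hs.ex hs.surj hA
  obtain ⟨lam, hlam, H⟩ := hB
  refine ⟨‖q‖ * lam * |M|, by positivity, ?_⟩
  intro F G _ _ _ _ _ _ ι c hc hι T
  obtain ⟨T1, h1, h1'⟩ := HM F T
  obtain ⟨T2, h2, h2'⟩ := H F G ι c hc hι T1
  refine ⟨q.comp T2, fun x => ?_, ?_⟩
  · rw [ContinuousLinearMap.comp_apply, h2, h1]
  · have h3 : ‖T1‖ ≤ |M| * ‖T‖ :=
      h1'.trans (mul_le_mul_of_nonneg_right (le_abs_self M) (norm_nonneg _))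
    calc ‖q.comp T2‖ ≤ ‖q‖ * ‖T2‖ := q.opNorm_comp_le _
      _ ≤ ‖q‖ * (lam * c * ‖T1‖) := mul_le_mul_of_nonneg_left h2' (norm_nonneg _)
      _ ≤ ‖q‖ * (lam * c * (|M| * ‖T‖)) := by
          refine mul_le_mul_of_nonneg_left (mul_le_mul_of_nonneg_left h3 ?_) (norm_nonneg _)
          positivity
      _ = ‖q‖ * lam * |M| * c * ‖T‖ := by ring

/-- duals of `ℓ¹(S)` are injective relative to all embeddings -/
theorem relInj_dual_l1 (S : Type) : RelInj MB (⟨l1 𝕜 S →L[𝕜] 𝕜⟩ : Ban 𝕜) := by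
  intro A B i hi T
  exact extend_l1dual i hi T

theorem isInjectiveSpace_dual_l1 (S : Type) : IsInjectiveSpace 𝕜 (l1 𝕜 S →L[𝕜] 𝕜) := by
  intro E _ _ _ F hF T
  have : CompleteSpace F := hF.completeSpace_coe
  exact extend_l1dual F.subtypeL ⟨1, fun x => by rw [one_mul]; exact le_rfl⟩ T

/-- every Banach space embeds into the dual of some `ℓ¹(S)` -/
theorem exists_embed_dual_l1 (X : Ban 𝕜) :
    ∃ (S : Type) (i : X.C →L[𝕜] (l1 𝕜 S →L[𝕜] 𝕜)), MB X ⟨l1 𝕜 S →L[𝕜] 𝕜⟩ i := by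
  refine ⟨Ball (X.C →L[𝕜] 𝕜), (pre (cov 𝕜 (X.C →L[𝕜] 𝕜))).comp
    (NormedSpace.inclusionInDoubleDual 𝕜 X.C), 1, fun x => ?_⟩
  rw [one_mul]
  obtain ⟨g, hg, hx⟩ := exists_dual_vector'' 𝕜 x
  obtain ⟨b, hb⟩ : ∃ b : Ball (X.C →L[𝕜] 𝕜), b = ⟨g, hg⟩ := ⟨_, rfl⟩
  have h1 : ((pre (cov 𝕜 (X.C →L[𝕜] 𝕜))).comp
    (NormedSpace.inclusionInDoubleDual 𝕜 X.C)) x (bas 𝕜 b) = g x := by
    show NormedSpace.inclusionInDoubleDual 𝕜 X.C x (cov 𝕜 (X.C →L[𝕜] 𝕜) (bas 𝕜 b)) = g x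
    unfold cov
    rw [lift_bas, hb]
    rfl
  calc ‖x‖ = ‖g x‖ := by rw [hx, RCLike.norm_ofReal, abs_norm]
    _ = ‖((pre (cov 𝕜 (X.C →L[𝕜] 𝕜))).comp
          (NormedSpace.inclusionInDoubleDual 𝕜 X.C)) x (bas 𝕜 b)‖ := by rw [h1]
    _ ≤ ‖((pre (cov 𝕜 (X.C →L[𝕜] 𝕜))).comp
          (NormedSpace.inclusionInDoubleDual 𝕜 X.C)) x‖ *
          ‖(bas 𝕜 b : l1 𝕜 (Ball (X.C →L[𝕜] 𝕜)))‖ := ContinuousLinearMap.le_opNorm _ _
    _ = _ := by rw [norm_bas, mul_one]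

theorem coFrame_MB : CoFrame (𝕜 := 𝕜) MB QM where
  bdd := fun _ _ _ h => h
  isoM := fun A B e => ⟨‖(e.symm : B.C →L[𝕜] A.C)‖, fun x => by
    have := (e.symm : B.C →L[𝕜] A.C).le_opNorm (e x)
    simpa using this⟩
  comp := fun A B D i j hi hj => by
    obtain ⟨c, hc0, hc⟩ := hi.nonneg
    obtain ⟨c', hc'0, hc'⟩ := hj.nonneg
    refine ⟨c * c', fun x => (hc x).trans ?_⟩
    rw [mul_assoc]
    exact mul_le_mul_of_nonneg_left (hc' _) hc0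
  push := MB.push
  quot := MB.quot
  prodM := fun A B A' B' i i' hi hi' => by
    obtain ⟨c, hc0, hc⟩ := hi.nonneg
    obtain ⟨c', hc'0, hc'⟩ := hi'.nonneg
    refine ⟨c + c', fun x => ?_⟩
    obtain ⟨x1, x2⟩ := x
    have e1 : ‖(i.prodMap i') (x1, x2)‖ = max ‖i x1‖ ‖i' x2‖ := rfl
    have e2 : ‖((x1, x2) : A.C × A'.C)‖ = max ‖x1‖ ‖x2‖ := rfl
    rw [e1, e2]
    have e3 : ‖i x1‖ ≤ max ‖i x1‖ ‖i' x2‖ := le_max_left _ _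
    have e4 : ‖i' x2‖ ≤ max ‖i x1‖ ‖i' x2‖ := le_max_right _ _
    have e5 : 0 ≤ max ‖i x1‖ ‖i' x2‖ := (norm_nonneg _).trans e3
    apply max_le
    · have := (hc x1).trans (mul_le_mul_of_nonneg_left e3 hc0)
      nlinarith
    · have := (hc' x2).trans (mul_le_mul_of_nonneg_left e4 hc'0)
      nlinarith
  iso := fun X Y ⟨e⟩ h => PropM.retract (X := X.C) (Y := Y.C) h (e.symm : Y.C →L[𝕜] X.C)
    (e : X.C →L[𝕜] Y.C) (fun y => by simp)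
  prod := fun X Y hX hY => PropM.prod hX hY
  fst := fun X Y h => PropM.retract (X := X.C × Y.C) (Y := X.C) h
    (ContinuousLinearMap.inl 𝕜 X.C Y.C) (ContinuousLinearMap.fst 𝕜 X.C Y.C) (fun _ => rfl)
  coker := fun A B D i q hs _ hA hB => PropM.coker i q hs hA hB
  enough := fun X => by
    obtain ⟨S, i, hi⟩ := exists_embed_dual_l1 X
    exact ⟨⟨l1 𝕜 S →L[𝕜] 𝕜⟩, i, hi, relInj_dual_l1 S,
      propM_of_isInjectiveSpace (isInjectiveSpace_dual_l1 S)⟩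

theorem MB_of_SES (A B D : Ban 𝕜) (i : A.C →L[𝕜] B.C) (q : B.C →L[𝕜] D.C) (h : SES i q) :
    MB A B i := h.bddBelow

theorem UL.precomp {A B C : Type} [NormedAddCommGroup A] [NormedSpace 𝕜 A]
    [NormedAddCommGroup B] [NormedSpace 𝕜 B] [NormedAddCommGroup C] [NormedSpace 𝕜 C]
    (q : A →L[𝕜] B) (h : UL q) (e : B ≃L[𝕜] C) : UL ((e : B →L[𝕜] C).comp q) := by
  obtain ⟨M, HM⟩ := h
  refine ⟨|M| * ‖(e.symm : C →L[𝕜] B)‖, ?_⟩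
  intro F _ _ _ T
  obtain ⟨T', h1, h2⟩ := HM F ((e.symm : C →L[𝕜] B).comp T)
  refine ⟨T', fun x => ?_, ?_⟩
  · rw [ContinuousLinearMap.comp_apply, h1]
    simp
  · calc ‖T'‖ ≤ M * ‖(e.symm : C →L[𝕜] B).comp T‖ := h2
      _ ≤ |M| * ‖(e.symm : C →L[𝕜] B).comp T‖ :=
          mul_le_mul_of_nonneg_right (le_abs_self M) (norm_nonneg _)
      _ ≤ |M| * (‖(e.symm : C →L[𝕜] B)‖ * ‖T‖) :=
          mul_le_mul_of_nonneg_left (ContinuousLinearMap.opNorm_comp_le _ _) (abs_nonneg _)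
      _ = _ := by ring

/-- local liftings for the last map of a coresolution -/
theorem UL_last : ∀ (m : ℕ) (X : Ban 𝕜) (R : Coresolution 𝕜 X.C),
    (∀ i, RelInj MB (⟨R.Q i⟩ : Ban 𝕜)) → (∀ i, PropM 𝕜 (R.Q i)) →
    (∀ x : R.Q (m + 1), R.d (m + 1) x = 0) → Gm MB QM m X → UL (R.d m)
  | 0, X, R, _, _, h0, hX => by
    refine UL_of_propM R.η (R.d 0) R.inj R.exact_zero (fun y => ?_) hX
    exact (R.exact 0 y).1 (h0 y)
  | m + 1, X, R, hI, hP, h0, hX => by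
    obtain ⟨K, i1, i2, i3, π, δ, hπ, h1, h2, h3⟩ := R.shift
    have hK : Gm MB QM m (⟨K⟩ : Ban 𝕜) :=
      Gm.cosyzygy coFrame_MB m X ⟨R.Q 0⟩ ⟨K⟩ R.η π hπ (MB_of_SES X ⟨R.Q 0⟩ ⟨K⟩ R.η π hπ)
        (hI 0) (hP 0) hX
    exact UL_last m ⟨K⟩ (R.tail δ h1 h3) (fun i => hI (i + 1)) (fun i => hP (i + 1)) h0 hK

end Pool.Agent.Helper69.Fd
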