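import Mathlib
import Pool.Agent.Helper69.HdM
import Pool.Agent.Helper69.FdExt
import Pool.Agent.Helper69.FdL1

set_option autoImplicit false

open scoped ENNReal

namespace Pool.Agent.Helper69.Fd


theorem l1_sum_le {𝕜 : Type} [RCLike 𝕜] {S : Type} (x : l1 𝕜 S) (A : Finset S) :
    ∑ s ∈ A, ‖x s‖ ≤ ‖x‖ := by
  have h := lp.sum_rpow_le_norm_rpow (p := 1) (by norm_num) x A
  simpa using h

/-- the operator `u ↦ (x ↦ ∑ s ∈ A, u s * x s)` -/
theorem exists_TA {𝕜 : Type} [RCLike 𝕜] (S : Type) (A : Finset S) :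
    ∃ T : (A → 𝕜) →L[𝕜] (l1 𝕜 S →L[𝕜] 𝕜), ‖T‖ ≤ 1 ∧
      ∀ u x, T u x = ∑ s : A, u s * x (s : S) := by
  let T0 : (A → 𝕜) →ₗ[𝕜] (l1 𝕜 S →L[𝕜] 𝕜) :=
    { toFun := fun u => ∑ s : A, u s • lp.evalCLM 𝕜 (fun _ : S => 𝕜) 1 (s : S)
      map_add' := by
        intro u v
        simp only [Pi.add_apply, add_smul, Finset.sum_add_distrib]
      map_smul' := by
        intro c u
        simp only [Pi.smul_apply, smul_eq_mul, mul_smul, Finset.smul_sum, RingHom.id_apply] }
  have hT0 : ∀ u x, T0 u x = ∑ s : A, u s * x (s : S) := by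
    intro u x
    have h1 : T0 u = ∑ s : A, u s • lp.evalCLM 𝕜 (fun _ : S => 𝕜) 1 (s : S) := rfl
    rw [h1, ContinuousLinearMap.sum_apply]
    rfl
  have hb : ∀ u, ‖T0 u‖ ≤ 1 * ‖u‖ := by
    intro u
    rw [one_mul]
    refine ContinuousLinearMap.opNorm_le_bound _ (norm_nonneg _) (fun x => ?_)
    rw [hT0]
    refine (norm_sum_le _ _).trans ?_
    have h1 : ∑ s : A, ‖u s * x (s : S)‖ ≤ ∑ s : A, ‖u‖ * ‖x (s : S)‖ := by
      refine Finset.sum_le_sum (fun s _ => ?_)
      rw [norm_mul]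
      exact mul_le_mul_of_nonneg_right (norm_le_pi_norm u s) (norm_nonneg _)
    refine h1.trans ?_
    rw [← Finset.mul_sum]
    refine mul_le_mul_of_nonneg_left ?_ (norm_nonneg _)
    have h2 : ∑ s : A, ‖x (s : S)‖ = ∑ s ∈ A, ‖x s‖ :=
      Finset.sum_coe_sort A (fun s => ‖x s‖)
    rw [h2]
    exact l1_sum_le x A
  exact ⟨T0.mkContinuous 1 hb, T0.mkContinuous_norm_le zero_le_one hb, fun u x => hT0 u x⟩

/-- the finite stage -/
theorem stage {𝕜 : Type} [RCLike 𝕜] (S : Type) {P : Type} [NormedAddCommGroup P]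
    [NormedSpace 𝕜 P] (d : l1 𝕜 S →L[𝕜] P) (M : ℝ) (hM : 0 ≤ M)
    (h : ∀ (F : Type) [NormedAddCommGroup F] [NormedSpace 𝕜 F] [FiniteDimensional 𝕜 F]
      (T : F →L[𝕜] (l1 𝕜 S →L[𝕜] 𝕜)), ∃ T' : F →L[𝕜] (P →L[𝕜] 𝕜),
        (∀ x, pre d (T' x) = T x) ∧ ‖T'‖ ≤ M * ‖T‖) (A : Finset S) :
    ∃ r : S → (P →L[𝕜] 𝕜), (∀ (B : Finset S) (x : P), ∑ s ∈ B, ‖r s x‖ ≤ M * ‖x‖) ∧
      ∀ s ∈ A, ∀ y, r s (d y) = y s := by
  classical
  obtain ⟨T, hT1, hT⟩ := exists_TA (𝕜 := 𝕜) S A
  obtain ⟨σ, hσ, hσn⟩ := h (A → 𝕜) T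
  have hσM : ‖σ‖ ≤ M := hσn.trans (by nlinarith [norm_nonneg T])
  let e : S → (A → 𝕜) := fun s t => if (t : S) = s then 1 else 0
  refine ⟨fun s => σ (e s), ?_, ?_⟩
  · intro B x
    have hc : ∀ s : S, ∃ c : 𝕜, ‖c‖ = 1 ∧ ((‖σ (e s) x‖ : ℝ) : 𝕜) = c * σ (e s) x := fun s =>
      RCLike.exists_norm_eq_mul_self _
    choose c hc1 hc2 using hc
    have hu : ‖(∑ s ∈ B, c s • e s : A → 𝕜)‖ ≤ 1 := by
      rw [pi_norm_le_iff_of_nonneg zero_le_one]
      intro t
      rw [Finset.sum_apply]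
      have h1 : ∀ s ∈ B, (c s • e s) t = if (t : S) = s then c s else 0 := by
        intro s _
        change c s * (if (t : S) = s then 1 else 0) = _
        split_ifs <;> simp
      rw [Finset.sum_congr rfl h1, Finset.sum_ite_eq]
      split_ifs
      · rw [hc1]
      · simp
    have hsum : σ (∑ s ∈ B, c s • e s) x = ((∑ s ∈ B, ‖σ (e s) x‖ : ℝ) : 𝕜) := by
      rw [map_sum, ContinuousLinearMap.sum_apply, RCLike.ofReal_sum]
      refine Finset.sum_congr rfl (fun s _ => ?_)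
      rw [map_smul, hc2]
      rfl
    have h2 : ‖σ (∑ s ∈ B, c s • e s) x‖ ≤ M * ‖x‖ := by
      refine ((σ (∑ s ∈ B, c s • e s)).le_opNorm x).trans ?_
      refine mul_le_mul_of_nonneg_right ?_ (norm_nonneg _)
      refine (σ.le_opNorm _).trans ?_
      nlinarith [norm_nonneg σ, norm_nonneg (∑ s ∈ B, c s • e s : A → 𝕜)]
    rw [hsum, RCLike.norm_ofReal] at h2
    exact (le_abs_self _).trans h2
  · intro s hs y
    have h1 : pre d (σ (e s)) y = T (e s) y := by rw [hσ]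
    have h2 : pre d (σ (e s)) y = σ (e s) (d y) := rfl
    rw [h2, hT] at h1
    change σ (e s) (d y) = y s
    rw [h1]
    have h3 : ∀ t : A, e s t * y (t : S) = if t = ⟨s, hs⟩ then y s else 0 := by
      intro t
      change (if (t : S) = s then (1 : 𝕜) else 0) * y (t : S) = _
      by_cases ht : t = ⟨s, hs⟩
      · rw [if_pos ht, ht]
        simp
      · rw [if_neg ht]
        have : (t : S) ≠ s := fun h => ht (Subtype.ext h)
        rw [if_neg this, zero_mul]
    rw [Finset.sum_congr rfl (fun t _ => h3 t), Finset.sum_ite_eq']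
    simp

/-- TARGET -/
theorem left_inverse_of_UL {𝕜 : Type} [RCLike 𝕜] (S : Type) {P : Type} [NormedAddCommGroup P]
    [NormedSpace 𝕜 P] (d : l1 𝕜 S →L[𝕜] P) (h : UL (pre d)) :
    ∃ r : P →L[𝕜] l1 𝕜 S, ∀ x, r (d x) = x := by
  classical
  obtain ⟨M0, hM0⟩ := h
  obtain ⟨M, hMd⟩ : ∃ M, M = max M0 0 := ⟨_, rfl⟩
  have hM : 0 ≤ M := by rw [hMd]; exact le_max_right _ _
  have hMM : M0 ≤ M := by rw [hMd]; exact le_max_left _ _
  have hst := fun A : Finset S => stage S d M hM (by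
    intro F _ _ _ T
    obtain ⟨T', h1, h2⟩ := hM0 F T
    exact ⟨T', h1, h2.trans (mul_le_mul_of_nonneg_right hMM (norm_nonneg _))⟩) A
  choose r hr1 hr2 using hst
  let U : Ultrafilter (Finset S) := Ultrafilter.of Filter.atTop
  have hU : (U : Filter (Finset S)) ≤ Filter.atTop := Ultrafilter.of_le _
  have hlim : ∀ (x : P) (s : S), ∃ l : 𝕜, Filter.Tendsto (fun A => r A s x)
      (U : Filter (Finset S)) (nhds l) := by
    intro x s
    have hcpt : IsCompact (Metric.closedBall (0 : 𝕜) (M * ‖x‖)) := isCompact_closedBall _ _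
    obtain ⟨l, _, hl⟩ := hcpt.ultrafilter_le_nhds (U.map (fun A => r A s x)) (by
      rw [Filter.le_principal_iff]
      refine Filter.mem_map.2 (Filter.univ_mem' (fun A => ?_))
      have h1 := hr1 A {s} x
      rw [Finset.sum_singleton] at h1
      change r A s x ∈ Metric.closedBall (0 : 𝕜) (M * ‖x‖)
      rw [mem_closedBall_zero_iff]
      exact h1)
    exact ⟨l, hl⟩
  choose r0 hr0 using hlim
  have hsum : ∀ (x : P) (B : Finset S), ∑ s ∈ B, ‖r0 x s‖ ≤ M * ‖x‖ := by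
    intro x B
    have h1 : Filter.Tendsto (fun A => ∑ s ∈ B, ‖r A s x‖) (U : Filter (Finset S))
        (nhds (∑ s ∈ B, ‖r0 x s‖)) :=
      tendsto_finsetSum B (fun s _ => (hr0 x s).norm)
    exact le_of_tendsto h1 (Filter.Eventually.of_forall (fun A => hr1 A B x))
  have hmem : ∀ x : P, Memℓp (E := fun _ : S => 𝕜) (r0 x) 1 := by
    intro x
    refine memℓp_gen ?_
    refine summable_of_sum_le (c := M * ‖x‖) (fun s => by positivity) (fun B => ?_)
    have := hsum x B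
    simpa using this
  let r1 : P →ₗ[𝕜] l1 𝕜 S :=
    { toFun := fun x => ⟨r0 x, hmem x⟩
      map_add' := by
        intro x y
        apply Subtype.ext
        funext s
        have h1 := (hr0 x s).add (hr0 y s)
        have h2 := hr0 (x + y) s
        simp only [map_add] at h2
        exact tendsto_nhds_unique h2 h1
      map_smul' := by
        intro c x
        apply Subtype.ext
        funext s
        have h1 := (hr0 x s).const_smul c
        have h2 := hr0 (c • x) s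
        simp only [map_smul] at h2
        exact tendsto_nhds_unique h2 h1 }
  have hr1b : ∀ x, ‖r1 x‖ ≤ M * ‖x‖ := by
    intro x
    refine lp.norm_le_of_forall_sum_le (p := 1) (by norm_num)
      (mul_nonneg hM (norm_nonneg _)) (fun B => ?_)
    have h1 := hsum x B
    have h2 : ∀ s, (r1 x) s = r0 x s := fun s => rfl
    simp only [h2]
    simpa using h1
  refine ⟨r1.mkContinuous M hr1b, fun y => ?_⟩
  apply Subtype.ext
  funext s
  have h1 : ∀ᶠ A in (U : Filter (Finset S)), r A s (d y) = y s := by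
    have h2 : ∀ᶠ A in (Filter.atTop : Filter (Finset S)), s ∈ A := by
      filter_upwards [Filter.eventually_ge_atTop ({s} : Finset S)] with A hA
      exact hA (Finset.mem_singleton_self s)
    filter_upwards [hU h2] with A hA
    exact hr2 A s hA y
  have h3 := hr0 (d y) s
  exact tendsto_nhds_unique h3 (Filter.Tendsto.congr' (h1.mono (fun A hA => hA.symm))
    tendsto_const_nhds)

end Pool.Agent.Helper69.Fd
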