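import Mathlib
import Pool.Agent.Helper69.HdDefs

set_option autoImplicit false

open scoped ENNReal

namespace Pool.Agent.Helper69.Fd



/-- helper: from pointwise bounds and an arbitrary finite index type. -/
theorem exists_Tinf_of {𝕜 : Type} [RCLike 𝕜] {E : Type} [NormedAddCommGroup E] [NormedSpace 𝕜 E]
    (G : Submodule 𝕜 E) {ι : Type} [Fintype ι] (T : G ≃L[𝕜] PiLp ∞ (fun _ : ι => 𝕜))
    (a b lam : ℝ) (ha : 0 ≤ a) (hb : 0 ≤ b) (h1 : ∀ x, ‖T x‖ ≤ a * ‖x‖)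
    (h2 : ∀ y, ‖T.symm y‖ ≤ b * ‖y‖) (hab : a * b ≤ lam) :
    FiniteDimensional 𝕜 G ∧ ∃ T : G ≃L[𝕜] PiLp ∞ (fun _ : Fin (Module.finrank 𝕜 G) => 𝕜),
        ‖(T : G →L[𝕜] PiLp ∞ (fun _ : Fin (Module.finrank 𝕜 G) => 𝕜))‖ *
        ‖(T.symm : PiLp ∞ (fun _ : Fin (Module.finrank 𝕜 G) => 𝕜) →L[𝕜] G)‖ ≤ lam := by
  have hfd : FiniteDimensional 𝕜 G := LinearEquiv.finiteDimensional T.symm.toLinearEquiv
  have hcard : Module.finrank 𝕜 G = Fintype.card ι := by
    have h3 := LinearEquiv.finrank_eq T.toLinearEquiv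
    rw [h3]
    have h4 := LinearEquiv.finrank_eq (WithLp.linearEquiv ∞ 𝕜 (ι → 𝕜))
    rw [Module.finrank_fintype_fun_eq_card] at h4
    exact h4
  refine ⟨hfd, ?_⟩
  have e : ι ≃ Fin (Module.finrank 𝕜 G) := Fintype.equivFinOfCardEq hcard.symm
  let L := LinearIsometryEquiv.piLpCongrLeft ∞ 𝕜 𝕜 e
  refine ⟨T.trans L.toContinuousLinearEquiv, ?_⟩
  have n1 : ‖((T.trans L.toContinuousLinearEquiv : G ≃L[𝕜] PiLp ∞ (fun _ : Fin (Module.finrank 𝕜 G) => 𝕜)) :
      G →L[𝕜] PiLp ∞ (fun _ : Fin (Module.finrank 𝕜 G) => 𝕜))‖ ≤ a := by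
    refine ContinuousLinearMap.opNorm_le_bound _ ha (fun x => ?_)
    have : ‖L (T x)‖ ≤ a * ‖x‖ := by rw [L.norm_map]; exact h1 x
    exact this
  have n2 : ‖((T.trans L.toContinuousLinearEquiv : G ≃L[𝕜] PiLp ∞ (fun _ : Fin (Module.finrank 𝕜 G) => 𝕜)).symm :
      PiLp ∞ (fun _ : Fin (Module.finrank 𝕜 G) => 𝕜) →L[𝕜] G)‖ ≤ b := by
    refine ContinuousLinearMap.opNorm_le_bound _ hb (fun x => ?_)
    have : ‖T.symm (L.symm x)‖ ≤ b * ‖x‖ := by
      refine (h2 _).trans ?_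
      rw [L.symm.norm_map]
    exact this
  exact (mul_le_mul n1 n2 (norm_nonneg _) ha).trans hab

/-- helper: pointwise bounds from the norm bound. -/
theorem bounds_inf_of {𝕜 : Type} [RCLike 𝕜] {E F : Type} [NormedAddCommGroup E] [NormedSpace 𝕜 E]
    [NormedAddCommGroup F] [NormedSpace 𝕜 F] (T : E ≃L[𝕜] F) (x : E) :
    ‖T x‖ ≤ ‖(T : E →L[𝕜] F)‖ * ‖x‖ := (T : E →L[𝕜] F).le_opNorm x

/-- helper: it is enough to approximate finitely many points by copies of `ℓ₁^n`. -/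
theorem isLinfSpace_of_approx {𝕜 : Type} [RCLike 𝕜] {E : Type} [NormedAddCommGroup E]
    [NormedSpace 𝕜 E] [CompleteSpace E] (lam : ℝ)
    (h : ∀ (s : Finset E) (ε : ℝ), 0 < ε → ∃ H : Submodule 𝕜 E, FiniteDimensional 𝕜 H ∧
      (∀ x ∈ s, ∃ y ∈ H, ‖x - y‖ ≤ ε) ∧
      ∃ T : H ≃L[𝕜] PiLp ∞ (fun _ : Fin (Module.finrank 𝕜 H) => 𝕜),
        ‖(T : H →L[𝕜] PiLp ∞ (fun _ : Fin (Module.finrank 𝕜 H) => 𝕜))‖ *
        ‖(T.symm : PiLp ∞ (fun _ : Fin (Module.finrank 𝕜 H) => 𝕜) →L[𝕜] H)‖ ≤ lam) :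
    IsLinfSpace 𝕜 E := by
  classical
  refine ⟨3 * lam, fun F hF => ?_⟩
  let b := Module.finBasis 𝕜 F
  have hext : ∀ i, ∃ g : E →L[𝕜] 𝕜, (∀ x : F, g x = b.coord i x) := by
    intro i
    obtain ⟨g, hg, -⟩ := exists_extension_norm_eq F (LinearMap.toContinuousLinearMap (b.coord i))
    exact ⟨g, fun x => by rw [hg]; rfl⟩
  choose f hf using hext
  set M : ℝ := ∑ i, ‖f i‖ with hM
  have hM0 : 0 ≤ M := Finset.sum_nonneg (fun i _ => norm_nonneg _)
  obtain ⟨H, hH, happ, T, hT⟩ := h (Finset.univ.image (fun i => ((b i : F) : E))) (1 / (2 * (M + 1)))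
    (by positivity)
  have happ' : ∀ i, ∃ y ∈ H, ‖((b i : F) : E) - y‖ ≤ 1 / (2 * (M + 1)) := fun i =>
    happ _ (Finset.mem_image_of_mem _ (Finset.mem_univ i))
  choose y hyH hy using happ'
  let D : E →L[𝕜] E := ∑ i, (f i).smulRight (((b i : F) : E) - y i)
  have hDn : ‖D‖ ≤ 1 / 2 := by
    calc ‖D‖ ≤ ∑ i, ‖(f i).smulRight (((b i : F) : E) - y i)‖ := norm_sum_le _ _
      _ ≤ ∑ i, ‖f i‖ * (1 / (2 * (M + 1))) := by
          refine Finset.sum_le_sum (fun i _ => ?_)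
          rw [ContinuousLinearMap.norm_smulRight_apply]
          exact mul_le_mul_of_nonneg_left (hy i) (norm_nonneg _)
      _ = M * (1 / (2 * (M + 1))) := by rw [← Finset.sum_mul]
      _ ≤ 1 / 2 := by
          rw [mul_one_div, div_le_div_iff₀ (by positivity) (by norm_num)]
          nlinarith
  have hD1 : ‖D‖ < 1 := by linarith
  let u := Units.oneSub D hD1
  let e : E ≃L[𝕜] E := ContinuousLinearEquiv.unitsEquiv 𝕜 E u
  have he : ∀ x, e x = x - D x := fun x => by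
    simp only [e, ContinuousLinearEquiv.unitsEquiv_apply, u, Units.val_oneSub]
    rfl
  have hDx : ∀ x, ‖D x‖ ≤ 1 / 2 * ‖x‖ := fun x =>
    (D.le_opNorm x).trans (mul_le_mul_of_nonneg_right hDn (norm_nonneg _))
  have he1 : ∀ x, ‖e x‖ ≤ 3 / 2 * ‖x‖ := fun x => by
    rw [he]
    have := norm_sub_le x (D x)
    have := hDx x
    linarith
  have he2 : ∀ x, ‖e.symm x‖ ≤ 2 * ‖x‖ := fun x => by
    have h1 : x = e.symm x - D (e.symm x) := by rw [← he]; simp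
    have h2 : ‖e.symm x‖ ≤ ‖x‖ + ‖D (e.symm x)‖ := by
      have : e.symm x = x + D (e.symm x) := by
        rw [eq_sub_iff_add_eq] at h1
        exact h1.symm
      calc ‖e.symm x‖ = ‖x + D (e.symm x)‖ := by rw [← this]
        _ ≤ _ := norm_add_le _ _
    have h3 := hDx (e.symm x)
    linarith
  have heb : ∀ i, e ((b i : F) : E) = y i := fun i => by
    rw [he]
    have : D ((b i : F) : E) = ((b i : F) : E) - y i := by
      simp only [D, sum_apply, ContinuousLinearMap.smulRight_apply]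
      rw [Finset.sum_eq_single i]
      · rw [hf]; simp
      · intro j _ hj
        rw [hf]
        simp [hj.symm]
      · simp
    rw [this]; abel
  let G : Submodule 𝕜 E := H.map (e.symm : E →ₗ[𝕜] E)
  have hFG : F ≤ G := by
    intro x hx
    have hx2 : x = ∑ i, (b.repr ⟨x, hx⟩ i) • ((b i : F) : E) := by
      have := b.sum_repr ⟨x, hx⟩
      have h2 := congrArg (fun z : F => (z : E)) this
      simp only at h2
      refine h2.symm.trans ?_
      rw [Submodule.coe_sum]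
      rfl
    rw [hx2]
    refine Submodule.sum_mem _ (fun i _ => Submodule.smul_mem _ _ ?_)
    refine ⟨y i, hyH i, ?_⟩
    show e.symm (y i) = _
    rw [← heb i]; simp
  let S : H ≃L[𝕜] G := e.symm.submoduleMap H
  have hS1 : ∀ x, ‖S x‖ ≤ 2 * ‖x‖ := fun x => he2 x
  have hS2 : ∀ x, ‖S.symm x‖ ≤ 3 / 2 * ‖x‖ := fun x => he1 x
  obtain ⟨hfd, T', hT'⟩ := exists_Tinf_of G (S.symm.trans T)
    (‖(T : H →L[𝕜] PiLp ∞ (fun _ : Fin (Module.finrank 𝕜 H) => 𝕜))‖ * (3 / 2))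
    (2 * ‖(T.symm : PiLp ∞ (fun _ : Fin (Module.finrank 𝕜 H) => 𝕜) →L[𝕜] H)‖) (3 * lam)
    (by positivity) (by positivity)
    (fun x => by
      have h1 := bounds_inf_of T (S.symm x)
      have h2 := hS2 x
      have h3 : (S.symm.trans T) x = T (S.symm x) := rfl
      rw [h3]
      refine h1.trans ?_
      rw [mul_assoc]
      exact mul_le_mul_of_nonneg_left h2 (norm_nonneg _))
    (fun x => by
      have h1 := hS1 (T.symm x)
      have h2 := bounds_inf_of T.symm x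
      have h3 : (S.symm.trans T).symm x = S (T.symm x) := rfl
      rw [h3]
      refine h1.trans ?_
      rw [mul_assoc]
      exact mul_le_mul_of_nonneg_left h2 (by norm_num))
    (by nlinarith)
  exact ⟨G, hFG, hfd, T', hT'⟩

/-- TARGET 1 -/
theorem IsLinfSpace.of_equiv {𝕜 : Type} [RCLike 𝕜] {E F : Type} [NormedAddCommGroup E]
    [NormedSpace 𝕜 E] [NormedAddCommGroup F] [NormedSpace 𝕜 F] (e : E ≃L[𝕜] F)
    (hE : IsLinfSpace 𝕜 E) : IsLinfSpace 𝕜 F := by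
  obtain ⟨lam, hl⟩ := hE
  refine ⟨(‖(e : E →L[𝕜] F)‖ * ‖(e.symm : F →L[𝕜] E)‖) * lam, fun F0 hF0 => ?_⟩
  obtain ⟨G, hG, hfd, T, hT⟩ := hl (F0.map (e.symm : F →ₗ[𝕜] E)) inferInstance
  let S : G ≃L[𝕜] (G.map (e : E →ₗ[𝕜] F)) := e.submoduleMap G
  have hS1 : ∀ x, ‖S x‖ ≤ ‖(e : E →L[𝕜] F)‖ * ‖x‖ := fun x => bounds_inf_of e x
  have hS2 : ∀ x, ‖S.symm x‖ ≤ ‖(e.symm : F →L[𝕜] E)‖ * ‖x‖ := fun x => bounds_inf_of e.symm x
  obtain ⟨hfd, T', hT'⟩ := exists_Tinf_of (G.map (e : E →ₗ[𝕜] F)) (S.symm.trans T)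
    (‖(T : G →L[𝕜] PiLp ∞ (fun _ : Fin (Module.finrank 𝕜 G) => 𝕜))‖ * ‖(e.symm : F →L[𝕜] E)‖)
    (‖(e : E →L[𝕜] F)‖ * ‖(T.symm : PiLp ∞ (fun _ : Fin (Module.finrank 𝕜 G) => 𝕜) →L[𝕜] G)‖)
    ((‖(e : E →L[𝕜] F)‖ * ‖(e.symm : F →L[𝕜] E)‖) * lam)
    (by positivity) (by positivity)
    (fun x => by
      have h1 := bounds_inf_of T (S.symm x)
      have h2 := hS2 x
      have h3 : (S.symm.trans T) x = T (S.symm x) := rfl
      rw [h3]
      refine h1.trans ?_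
      rw [mul_assoc]
      exact mul_le_mul_of_nonneg_left h2 (norm_nonneg _))
    (fun x => by
      have h1 := hS1 (T.symm x)
      have h2 := bounds_inf_of T.symm x
      have h3 : (S.symm.trans T).symm x = S (T.symm x) := rfl
      rw [h3]
      refine h1.trans ?_
      rw [mul_assoc]
      exact mul_le_mul_of_nonneg_left h2 (norm_nonneg _))
    (by
      have : 0 ≤ ‖(e : E →L[𝕜] F)‖ * ‖(e.symm : F →L[𝕜] E)‖ := by positivity
      nlinarith [mul_le_mul_of_nonneg_left hT this])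
  refine ⟨_, ?_, hfd, T', hT'⟩
  intro x hx
  refine ⟨e.symm x, hG ⟨x, hx, rfl⟩, ?_⟩
  show e (e.symm x) = x
  simp

/-- TARGET 2 -/
theorem isLinfSpace_linf (𝕜 : Type) [RCLike 𝕜] (S : Type) :
    IsLinfSpace 𝕜 (lp (fun _ : S => 𝕜) ∞) := by
  classical
  refine isLinfSpace_of_approx 1 (fun s ε hε => ?_)
  let g : S → (s → 𝕜) := fun σ x => (x.1 : S → 𝕜) σ
  have hb : Bornology.IsBounded (Set.range g) := by
    refine (Metric.isBounded_iff_subset_closedBall (0 : s → 𝕜)).mpr ⟨∑ x ∈ s, ‖x‖, ?_⟩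
    rintro _ ⟨σ, rfl⟩
    rw [mem_closedBall_zero_iff]
    refine (pi_norm_le_iff_of_nonneg (Finset.sum_nonneg (fun x _ => norm_nonneg _))).mpr ?_
    intro x
    have h1 : ‖(x.1 : S → 𝕜) σ‖ ≤ ‖x.1‖ := lp.norm_apply_le_norm ENNReal.top_ne_zero x.1 σ
    exact h1.trans (Finset.single_le_sum (f := fun x => ‖x‖) (fun x _ => norm_nonneg _) x.2)
  have htb : TotallyBounded (Set.range g) :=
    (Bornology.IsBounded.isCompact_closure hb).totallyBounded.subset subset_closure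
  obtain ⟨t, htf, ht⟩ := Metric.totallyBounded_iff.mp htb (ε / 2) (by positivity)
  have hc : ∀ σ : S, ∃ c : t, dist (g σ) c.1 < ε / 2 := by
    intro σ
    have h1 := ht (Set.mem_range_self σ)
    simp only [Set.mem_iUnion] at h1
    obtain ⟨y, hy, hy2⟩ := h1
    exact ⟨⟨y, hy⟩, hy2⟩
  choose c hc using hc
  have : Finite t := htf
  have : Fintype (Set.range c) := Fintype.ofFinite _
  let c' : S → Set.range c := fun σ => ⟨c σ, σ, rfl⟩
  have hc'surj : Function.Surjective c' := by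
    rintro ⟨_, σ, rfl⟩
    exact ⟨σ, rfl⟩
  have hmem : ∀ v : PiLp ∞ (fun _ : Set.range c => 𝕜), Memℓp (fun σ : S => v (c' σ)) ∞ := by
    intro v
    refine memℓp_infty ⟨‖v‖, ?_⟩
    rintro _ ⟨σ, rfl⟩
    exact PiLp.norm_apply_le v (c' σ)
  let Φ₀ : PiLp ∞ (fun _ : Set.range c => 𝕜) →ₗ[𝕜] lp (fun _ : S => 𝕜) ∞ :=
    { toFun := fun v => ⟨fun σ : S => v (c' σ), hmem v⟩
      map_add' := fun v w => by
        ext σ
        rfl
      map_smul' := fun a v => by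
        ext σ
        rfl }
  have hΦ : ∀ v, ‖Φ₀ v‖ = ‖v‖ := by
    intro v
    refine le_antisymm ?_ ?_
    · refine lp.norm_le_of_forall_le (norm_nonneg _) (fun σ => ?_)
      exact PiLp.norm_apply_le v (c' σ)
    · rw [PiLp.norm_eq_ciSup]
      rcases isEmpty_or_nonempty (Set.range c) with he | he
      · rw [Real.iSup_of_isEmpty]; exact norm_nonneg _
      · refine ciSup_le (fun i => ?_)
        obtain ⟨σ, rfl⟩ := hc'surj i
        exact lp.norm_apply_le_norm ENNReal.top_ne_zero (Φ₀ v) σ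
  let Φ : PiLp ∞ (fun _ : Set.range c => 𝕜) →ₗᵢ[𝕜] lp (fun _ : S => 𝕜) ∞ := ⟨Φ₀, hΦ⟩
  let T := Φ.equivRange
  obtain ⟨hfd, T', hT'⟩ := exists_Tinf_of (LinearMap.range Φ.toLinearMap) T.symm.toContinuousLinearEquiv
    1 1 1 (by norm_num) (by norm_num)
    (fun x => by rw [one_mul]; exact (T.symm.norm_map x).le)
    (fun x => by rw [one_mul]; exact (T.norm_map x).le) (by norm_num)
  refine ⟨LinearMap.range Φ.toLinearMap, hfd, fun x hx => ?_, T', hT'⟩
  choose r hr using hc'surj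
  refine ⟨Φ (WithLp.toLp ∞ (fun i => (x : S → 𝕜) (r i))), ⟨_, rfl⟩, ?_⟩
  refine lp.norm_le_of_forall_le hε.le (fun σ => ?_)
  show ‖(x : S → 𝕜) σ - (x : S → 𝕜) (r (c' σ))‖ ≤ ε
  have h1 : dist (g σ) (g (r (c' σ))) ≤ ε := by
    have e1 := hc σ
    have e2 := hc (r (c' σ))
    have e3 : c (r (c' σ)) = c σ := congrArg Subtype.val (hr (c' σ))
    rw [e3] at e2
    rw [dist_comm] at e2
    have := dist_triangle (g σ) (c σ).1 (g (r (c' σ)))
    linarith
  have h2 := dist_le_pi_dist (g σ) (g (r (c' σ))) ⟨x, hx⟩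
  rw [dist_eq_norm] at h2
  exact h2.trans h1

/-- helper: the pairing of `ℓ_∞` with `ℓ_1`. -/
theorem pairing_summable {𝕜 : Type} [RCLike 𝕜] {S : Type} (u : lp (fun _ : S => 𝕜) ∞)
    (x : lp (fun _ : S => 𝕜) 1) :
    Summable (fun s => ‖(u : S → 𝕜) s * (x : S → 𝕜) s‖) ∧
      ∑' s, ‖(u : S → 𝕜) s * (x : S → 𝕜) s‖ ≤ ‖u‖ * ‖x‖ := by
  have h1 : HasSum (fun s => ‖(x : S → 𝕜) s‖) ‖x‖ := by
    have := lp.hasSum_norm (p := 1) (by norm_num) x
    simpa using this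
  have h2 := h1.mul_left ‖u‖
  have h3 : ∀ s, ‖(u : S → 𝕜) s * (x : S → 𝕜) s‖ ≤ ‖u‖ * ‖(x : S → 𝕜) s‖ := fun s => by
    rw [norm_mul]
    exact mul_le_mul_of_nonneg_right (lp.norm_apply_le_norm ENNReal.top_ne_zero u s) (norm_nonneg _)
  have h4 : Summable (fun s => ‖(u : S → 𝕜) s * (x : S → 𝕜) s‖) :=
    Summable.of_nonneg_of_le (fun s => norm_nonneg _) h3 h2.summable
  refine ⟨h4, ?_⟩
  rw [← h2.tsum_eq]
  exact h4.tsum_le_tsum h3 h2.summable

/-- helper: the functional of a bounded family. -/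
noncomputable def pairL {𝕜 : Type} [RCLike 𝕜] {S : Type} (u : lp (fun _ : S => 𝕜) ∞) :
    lp (fun _ : S => 𝕜) 1 →L[𝕜] 𝕜 :=
  LinearMap.mkContinuous
    { toFun := fun x => ∑' s, (u : S → 𝕜) s * (x : S → 𝕜) s
      map_add' := fun x y => by
        rw [← (pairing_summable u x).1.of_norm.tsum_add (pairing_summable u y).1.of_norm]
        refine tsum_congr (fun s => ?_)
        rw [← mul_add]; rfl
      map_smul' := fun a x => by
        rw [RingHom.id_apply, smul_eq_mul, ← tsum_mul_left]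
        refine tsum_congr (fun s => ?_)
        show (u : S → 𝕜) s * (a * (x : S → 𝕜) s) = _
        ring } ‖u‖ (fun x => by
      show ‖∑' s, (u : S → 𝕜) s * (x : S → 𝕜) s‖ ≤ _
      exact (norm_tsum_le_tsum_norm (pairing_summable u x).1).trans (pairing_summable u x).2)

theorem pairL_apply {𝕜 : Type} [RCLike 𝕜] {S : Type} (u : lp (fun _ : S => 𝕜) ∞)
    (x : lp (fun _ : S => 𝕜) 1) : pairL u x = ∑' s, (u : S → 𝕜) s * (x : S → 𝕜) s := rfl

theorem unpair_mem {𝕜 : Type} [RCLike 𝕜] {S : Type} [DecidableEq S] (φ : lp (fun _ : S => 𝕜) 1 →L[𝕜] 𝕜)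
    (s : S) : ‖φ (lp.single 1 s (1 : 𝕜))‖ ≤ ‖φ‖ := by
  refine (φ.le_opNorm _).trans ?_
  rw [lp.norm_single (by norm_num)]
  simp

/-- TARGET 3 -/
theorem isLinfSpace_dual_l1 (𝕜 : Type) [RCLike 𝕜] (S : Type) :
    IsLinfSpace 𝕜 (lp (fun _ : S => 𝕜) 1 →L[𝕜] 𝕜) := by
  classical
  let L : lp (fun _ : S => 𝕜) ∞ ≃ₗ[𝕜] (lp (fun _ : S => 𝕜) 1 →L[𝕜] 𝕜) :=
    { toFun := fun u => pairL u
      map_add' := fun u v => by
        ext x
        rw [add_apply, pairL_apply, pairL_apply, pairL_apply,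
          ← (pairing_summable u x).1.of_norm.tsum_add (pairing_summable v x).1.of_norm]
        refine tsum_congr (fun s => ?_)
        rw [← add_mul]; rfl
      map_smul' := fun a u => by
        ext x
        rw [RingHom.id_apply, smul_apply, pairL_apply, pairL_apply,
          smul_eq_mul, ← tsum_mul_left]
        refine tsum_congr (fun s => ?_)
        show (a * (u : S → 𝕜) s) * (x : S → 𝕜) s = _
        ring
      invFun := fun φ => ⟨fun s => φ (lp.single 1 s (1 : 𝕜)), memℓp_infty ⟨‖φ‖, by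
        rintro _ ⟨s, rfl⟩
        exact unpair_mem φ s⟩⟩
      left_inv := fun u => by
        ext s
        show pairL u (lp.single 1 s (1 : 𝕜)) = (u : S → 𝕜) s
        rw [pairL_apply, tsum_eq_single s]
        · simp
        · intro t ht
          simp [lp.single_apply, ht]
      right_inv := fun φ => by
        ext x
        rw [pairL_apply]
        have h2 := (lp.hasSum_single (p := 1) ENNReal.one_ne_top x).mapL φ
        rw [← h2.tsum_eq]
        refine tsum_congr (fun s => ?_)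
        show φ (lp.single 1 s (1 : 𝕜)) * (x : S → 𝕜) s = φ (lp.single 1 s ((x : S → 𝕜) s))
        have h3 : (lp.single 1 s ((x : S → 𝕜) s) : lp (fun _ : S => 𝕜) 1) =
            ((x : S → 𝕜) s) • (lp.single 1 s (1 : 𝕜) : lp (fun _ : S => 𝕜) 1) := by
          rw [← lp.single_smul]; simp
        rw [h3, map_smul, smul_eq_mul, mul_comm] }
  have h1 : ∀ u, ‖L u‖ ≤ 1 * ‖u‖ := fun u => by
    rw [one_mul]
    show ‖pairL u‖ ≤ ‖u‖
    unfold pairL
    exact LinearMap.mkContinuous_norm_le _ (norm_nonneg _) _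
  have h2 : ∀ φ, ‖L.symm φ‖ ≤ 1 * ‖φ‖ := fun φ => by
    rw [one_mul]
    exact lp.norm_le_of_forall_le (norm_nonneg _) (fun s => unpair_mem φ s)
  exact IsLinfSpace.of_equiv (L.toContinuousLinearEquivOfBounds 1 1 h1 h2) (isLinfSpace_linf 𝕜 S)

end Pool.Agent.Helper69.Fd
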