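import Mathlib
import Pool.Agent.Helper69.HdDefs
import Pool.Agent.Helper69.HdM
import Pool.Agent.Helper69.FdExt

set_option autoImplicit false

open scoped ENNReal

namespace Pool.Agent.Helper69.Fd

/-- TARGET -/
theorem propM_of_isLinfSpace {𝕜 : Type} [RCLike 𝕜] {Q : Type} [NormedAddCommGroup Q]
    [NormedSpace 𝕜 Q] (h : IsLinfSpace 𝕜 Q) : PropM 𝕜 Q := by
  obtain ⟨lam, hlam⟩ := h
  refine ⟨max lam 0, le_max_right _ _, ?_⟩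
  intro F G _ _ _ _ _ _ ι c hc0 hc T
  have hfd : FiniteDimensional 𝕜 (LinearMap.range (T : F →ₗ[𝕜] Q)) := inferInstance
  obtain ⟨H, hRH, hHfd, U, hU⟩ := hlam (LinearMap.range (T : F →ₗ[𝕜] Q)) hfd
  have hTH : ∀ x, T x ∈ H := fun x => hRH ⟨x, rfl⟩
  let T₁ : F →L[𝕜] H := T.codRestrict H hTH
  have hT₁ : ∀ x, ‖T₁ x‖ = ‖T x‖ := fun x => rfl
  let U' : H →L[𝕜] PiLp ∞ (fun _ : Fin (Module.finrank 𝕜 H) => 𝕜) := U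
  let V' : PiLp ∞ (fun _ : Fin (Module.finrank 𝕜 H) => 𝕜) →L[𝕜] H := U.symm
  have hcoord : ∀ (z : PiLp ∞ (fun _ : Fin (Module.finrank 𝕜 H) => 𝕜)) j, ‖z j‖ ≤ ‖z‖ :=
    fun z j => PiLp.norm_apply_le z j
  have key : ∀ j : Fin (Module.finrank 𝕜 H), ∃ ψ : G →L[𝕜] 𝕜,
      (∀ a, ψ (ι a) = (U' (T₁ a)) j) ∧ ‖ψ‖ ≤ c * (‖U'‖ * ‖T‖) := by
    intro j
    let φ : F →L[𝕜] 𝕜 := (PiLp.proj ∞ (fun _ : Fin (Module.finrank 𝕜 H) => 𝕜) j :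
      PiLp ∞ (fun _ : Fin (Module.finrank 𝕜 H) => 𝕜) →L[𝕜] 𝕜).comp (U'.comp T₁)
    have hφ : ∀ a, φ a = (U' (T₁ a)) j := fun a => rfl
    have hφn : ‖φ‖ ≤ ‖U'‖ * ‖T‖ := by
      refine ContinuousLinearMap.opNorm_le_bound _ (mul_nonneg (norm_nonneg _) (norm_nonneg _)) ?_
      intro a
      rw [hφ]
      calc ‖(U' (T₁ a)) j‖ ≤ ‖U' (T₁ a)‖ := hcoord _ _
        _ ≤ ‖U'‖ * ‖T₁ a‖ := U'.le_opNorm _
        _ = ‖U'‖ * ‖T a‖ := by rw [hT₁]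
        _ ≤ ‖U'‖ * (‖T‖ * ‖a‖) := mul_le_mul_of_nonneg_left (T.le_opNorm a) (norm_nonneg _)
        _ = ‖U'‖ * ‖T‖ * ‖a‖ := by ring
    obtain ⟨ψ, hψ, hn⟩ := extend_functional ι c hc φ
    refine ⟨ψ, fun a => by rw [hψ, hφ], ?_⟩
    rw [abs_of_nonneg hc0] at hn
    exact hn.trans (mul_le_mul_of_nonneg_left hφn hc0)
  choose ψ hψ hψn using key
  let Ψ : G →L[𝕜] PiLp ∞ (fun _ : Fin (Module.finrank 𝕜 H) => 𝕜) :=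
    ((PiLp.continuousLinearEquiv ∞ 𝕜 (fun _ : Fin (Module.finrank 𝕜 H) => 𝕜)).symm :
      _ →L[𝕜] PiLp ∞ (fun _ : Fin (Module.finrank 𝕜 H) => 𝕜)).comp (ContinuousLinearMap.pi ψ)
  have hΨ : ∀ y j, (Ψ y) j = ψ j y := fun y j => rfl
  have hΨn : ∀ y, ‖Ψ y‖ ≤ c * (‖U'‖ * ‖T‖) * ‖y‖ := by
    intro y
    rw [PiLp.norm_eq_ciSup]
    refine Real.iSup_le (fun j => ?_) (by positivity)
    rw [hΨ]
    exact ((ψ j).le_opNorm y).trans (mul_le_mul_of_nonneg_right (hψn j) (norm_nonneg _))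
  have hUV : ∀ z, V' (U' z) = z := fun z => U.symm_apply_apply z
  refine ⟨H.subtypeL.comp (V'.comp Ψ), ?_, ?_⟩
  · intro x
    have h1 : Ψ (ι x) = U' (T₁ x) := by
      ext j
      rw [hΨ, hψ]
    show ((V' (Ψ (ι x)) : H) : Q) = T x
    rw [h1, hUV]
    rfl
  · refine ContinuousLinearMap.opNorm_le_bound _ (by positivity) ?_
    intro y
    show ‖(V' (Ψ y) : H)‖ ≤ _
    have hlam' : ‖U'‖ * ‖V'‖ ≤ max lam 0 := hU.trans (le_max_left _ _)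
    calc ‖V' (Ψ y)‖ ≤ ‖V'‖ * ‖Ψ y‖ := V'.le_opNorm _
      _ ≤ ‖V'‖ * (c * (‖U'‖ * ‖T‖) * ‖y‖) := mul_le_mul_of_nonneg_left (hΨn y) (norm_nonneg _)
      _ = (‖U'‖ * ‖V'‖) * (c * ‖T‖ * ‖y‖) := by ring
      _ ≤ max lam 0 * (c * ‖T‖ * ‖y‖) := mul_le_mul_of_nonneg_right hlam' (by positivity)
      _ = max lam 0 * c * ‖T‖ * ‖y‖ := by ring

end Pool.Agent.Helper69.Fd
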