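import Mathlib
import Pool.Agent.Helper69.HdDefs

set_option autoImplicit false

open scoped ENNReal

namespace Pool.Agent.Helper69.Fd



theorem aux6404_fd (𝕜 : Type) [RCLike 𝕜] (V : Type) [NormedAddCommGroup V] [NormedSpace 𝕜 V]
    [FiniteDimensional 𝕜 V] (Ψ : (V →L[𝕜] 𝕜) →L[𝕜] 𝕜) :
    ∃ a : V, ∀ φ : V →L[𝕜] 𝕜, φ a = Ψ φ := by
  let Ψ' : Module.Dual 𝕜 (Module.Dual 𝕜 V) :=
    (Ψ : (V →L[𝕜] 𝕜) →ₗ[𝕜] 𝕜) ∘ₗ
      (LinearMap.toContinuousLinearMap : (V →ₗ[𝕜] 𝕜) ≃ₗ[𝕜] (V →L[𝕜] 𝕜)).toLinearMap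
  refine ⟨(Module.evalEquiv 𝕜 V).symm Ψ', fun φ => ?_⟩
  have h := Module.apply_evalEquiv_symm_apply (R := 𝕜) (M := V) (f := (φ : V →ₗ[𝕜] 𝕜)) (g := Ψ')
  exact h

/-- TARGET 1 -/
theorem complementedInBidual_lp_fd (𝕜 : Type) [RCLike 𝕜] {I : Type} (F : I → Type)
    [∀ t, NormedAddCommGroup (F t)] [∀ t, NormedSpace 𝕜 (F t)] [∀ t, FiniteDimensional 𝕜 (F t)] :
    ComplementedInBidual 𝕜 (lp F 1) := by
  classical
  let ev : ∀ t, lp F 1 →L[𝕜] F t := fun t => lp.evalCLM 𝕜 F 1 t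
  have hev : ∀ t (x : lp F 1), ev t x = x t := fun t x => rfl
  have hex : ∀ (Φ : ((lp F 1 →L[𝕜] 𝕜) →L[𝕜] 𝕜)) (t : I), ∃ a : F t, ∀ φ : F t →L[𝕜] 𝕜,
      φ a = Φ (φ.comp (ev t)) := by
    intro Φ t
    obtain ⟨a, ha⟩ := aux6404_fd 𝕜 (F t)
      (Φ.comp ((ContinuousLinearMap.compL 𝕜 (lp F 1) (F t) 𝕜).flip (ev t)))
    exact ⟨a, fun φ => ha φ⟩
  choose a ha using hex
  have hsum : ∀ (Φ : ((lp F 1 →L[𝕜] 𝕜) →L[𝕜] 𝕜)) (A : Finset I),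
      ∑ t ∈ A, ‖a Φ t‖ ≤ ‖Φ‖ := by
    intro Φ A
    choose g hg1 hg2 using fun t => exists_dual_vector'' 𝕜 (a Φ t)
    let ψ : lp F 1 →L[𝕜] 𝕜 := ∑ t ∈ A, (g t).comp (ev t)
    have hψ : ‖ψ‖ ≤ 1 := by
      refine ContinuousLinearMap.opNorm_le_bound _ zero_le_one (fun x => ?_)
      rw [one_mul]
      have h1 : ψ x = ∑ t ∈ A, g t (x t) := by
        show (∑ t ∈ A, (g t).comp (ev t)) x = _
        rw [sum_apply]
        rfl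
      rw [h1]
      have h2 : ∑ t ∈ A, ‖x t‖ ≤ ‖x‖ := by
        have := lp.sum_rpow_le_norm_rpow (p := 1) (by simp) x A
        simpa using this
      refine (norm_sum_le _ _).trans (le_trans (Finset.sum_le_sum (fun t _ => ?_)) h2)
      calc ‖g t (x t)‖ ≤ ‖g t‖ * ‖x t‖ := (g t).le_opNorm _
        _ ≤ 1 * ‖x t‖ := mul_le_mul_of_nonneg_right (hg1 t) (norm_nonneg _)
        _ = ‖x t‖ := one_mul _
    have hΦψ : Φ ψ = ((∑ t ∈ A, ‖a Φ t‖ : ℝ) : 𝕜) := by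
      show Φ (∑ t ∈ A, (g t).comp (ev t)) = _
      rw [map_sum]
      push_cast
      refine Finset.sum_congr rfl (fun t _ => ?_)
      rw [← ha Φ t (g t), hg2 t]
    have h3 : ‖Φ ψ‖ ≤ ‖Φ‖ * 1 :=
      (Φ.le_opNorm ψ).trans (mul_le_mul_of_nonneg_left hψ (norm_nonneg Φ))
    rw [hΦψ, RCLike.norm_ofReal, abs_of_nonneg (Finset.sum_nonneg (fun t _ => norm_nonneg _)),
      mul_one] at h3
    exact h3
  have hmem : ∀ Φ, Memℓp (fun t => a Φ t) 1 := fun Φ =>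
    memℓp_gen' (C := ‖Φ‖) (fun A => by simpa using hsum Φ A)
  have hsep : ∀ (t : I) (u v : F t), (∀ φ : F t →L[𝕜] 𝕜, φ u = φ v) → u = v := fun t u v h =>
    (SeparatingDual.eq_iff_forall_dual_eq (R := 𝕜)).mpr h
  let pl : ((lp F 1 →L[𝕜] 𝕜) →L[𝕜] 𝕜) →ₗ[𝕜] lp F 1 :=
    { toFun := fun Φ => ⟨fun t => a Φ t, hmem Φ⟩
      map_add' := by
        intro Φ Ψ
        apply Subtype.ext
        funext t
        refine hsep t _ _ (fun φ => ?_)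
        show φ (a (Φ + Ψ) t) = φ (a Φ t + a Ψ t)
        rw [map_add, ha, ha, ha]
        rfl
      map_smul' := by
        intro c Φ
        apply Subtype.ext
        funext t
        refine hsep t _ _ (fun φ => ?_)
        show φ (a (c • Φ) t) = φ (c • a Φ t)
        rw [map_smul, ha, ha]
        rfl }
  have hpl : ∀ Φ t, (pl Φ : ∀ t, F t) t = a Φ t := fun Φ t => rfl
  have hbd : ∀ Φ, ‖pl Φ‖ ≤ 1 * ‖Φ‖ := by
    intro Φ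
    rw [one_mul]
    refine lp.norm_le_of_forall_sum_le (p := 1) (by simp) (norm_nonneg Φ) (fun A => ?_)
    simpa [hpl] using hsum Φ A
  refine ⟨⟨pl, AddMonoidHomClass.continuous_of_bound pl 1 hbd⟩, fun x => ?_⟩
  · apply Subtype.ext
    funext t
    refine hsep t _ _ (fun φ => ?_)
    show φ (a (NormedSpace.inclusionInDoubleDual 𝕜 (lp F 1) x) t) = φ (x t)
    rw [ha]
    rfl

/-- TARGET 2 -/
theorem complementedInBidual_linf (𝕜 : Type) [RCLike 𝕜] (S : Type) :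
    ComplementedInBidual 𝕜 (lp (fun _ : S => 𝕜) ∞) := by
  classical
  let ev : S → (lp (fun _ : S => 𝕜) ∞ →L[𝕜] 𝕜) := fun s => lp.evalCLM 𝕜 (fun _ : S => 𝕜) ∞ s
  have hev1 : ∀ s, ‖ev s‖ ≤ 1 := fun s =>
    ContinuousLinearMap.opNorm_le_bound _ zero_le_one (fun x => by
      rw [one_mul]; exact lp.norm_apply_le_norm (by simp) x s)
  have hb : ∀ (Φ : ((lp (fun _ : S => 𝕜) ∞ →L[𝕜] 𝕜) →L[𝕜] 𝕜)) (s : S), ‖Φ (ev s)‖ ≤ ‖Φ‖ := by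
    intro Φ s
    calc ‖Φ (ev s)‖ ≤ ‖Φ‖ * ‖ev s‖ := Φ.le_opNorm _
      _ ≤ ‖Φ‖ * 1 := mul_le_mul_of_nonneg_left (hev1 s) (norm_nonneg Φ)
      _ = ‖Φ‖ := mul_one _
  let pl : ((lp (fun _ : S => 𝕜) ∞ →L[𝕜] 𝕜) →L[𝕜] 𝕜) →ₗ[𝕜] lp (fun _ : S => 𝕜) ∞ :=
    { toFun := fun Φ => ⟨fun s => Φ (ev s), memℓp_infty ⟨‖Φ‖, by
        rintro _ ⟨s, rfl⟩
        exact hb Φ s⟩⟩
      map_add' := fun Φ Ψ => rfl
      map_smul' := fun c Φ => rfl }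
  have hbd : ∀ Φ, ‖pl Φ‖ ≤ 1 * ‖Φ‖ := by
    intro Φ
    rw [one_mul]
    exact lp.norm_le_of_forall_le (norm_nonneg Φ) (fun s => hb Φ s)
  refine ⟨⟨pl, AddMonoidHomClass.continuous_of_bound pl 1 hbd⟩, fun x => ?_⟩
  · apply Subtype.ext
    funext s
    rfl

end Pool.Agent.Helper69.Fd
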