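import Mathlib
import Pool.Agent.Helper69.HdDual

set_option autoImplicit false

/-!
# Pure embeddings and spaces complemented in their bidual
-/

namespace Pool.Agent.Helper69.Fd

variable {𝕜 : Type} [RCLike 𝕜]

/-- pure embeddings: there is a bounded linear extension operator for functionals -/
def MP (A B : Ban 𝕜) (i : A.C →L[𝕜] B.C) : Prop :=
  ∃ σ : (A.C →L[𝕜] 𝕜) →L[𝕜] (B.C →L[𝕜] 𝕜), ∀ φ a, σ φ (i a) = φ a

/-- bundled version of `ComplementedInBidual` -/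
def QP (X : Ban 𝕜) : Prop := ComplementedInBidual 𝕜 X.C

theorem MP.bdd {A B : Ban 𝕜} {i : A.C →L[𝕜] B.C} (h : MP A B i) :
    ∃ c : ℝ, ∀ x, ‖x‖ ≤ c * ‖i x‖ := by
  obtain ⟨σ, hσ⟩ := h
  refine ⟨‖σ‖, fun x => ?_⟩
  obtain ⟨g, hg, hx⟩ := exists_dual_vector'' 𝕜 x
  calc ‖x‖ = ‖g x‖ := by rw [hx, RCLike.norm_ofReal, abs_norm]
    _ = ‖σ g (i x)‖ := by rw [hσ]
    _ ≤ ‖σ g‖ * ‖i x‖ := (σ g).le_opNorm _
    _ ≤ (‖σ‖ * ‖g‖) * ‖i x‖ := mul_le_mul_of_nonneg_right (σ.le_opNorm _) (norm_nonneg _)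
    _ ≤ (‖σ‖ * 1) * ‖i x‖ := mul_le_mul_of_nonneg_right
        (mul_le_mul_of_nonneg_left hg σ.opNorm_nonneg) (norm_nonneg _)
    _ = _ := by rw [mul_one]

theorem MP.push (X I P D : Ban 𝕜) (i : X.C →L[𝕜] I.C) (i' : X.C →L[𝕜] P.C) (q' : P.C →L[𝕜] D.C)
    (e : P.C →L[𝕜] I.C) (hM : MP X I i) (hs : SES i' q') (he : ∀ x, e (i' x) = i x) :
    MP P ⟨I.C × D.C⟩ (e.prod q') := by
  obtain ⟨σ, hσ⟩ := hM
  obtain ⟨χ, hχ⟩ := colift hs.dual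
    (ContinuousLinearMap.id 𝕜 (P.C →L[𝕜] 𝕜) - (pre e).comp (σ.comp (pre i'))) (fun φ => by
      ext x
      show φ (i' x) - σ (pre i' φ) (e (i' x)) = 0
      rw [he, hσ]
      exact sub_self _)
  have hχ' : ∀ φ p, χ φ (q' p) = φ p - σ (pre i' φ) (e p) := fun φ p =>
    congrArg (fun f => f p) (hχ φ)
  refine ⟨(pre (ContinuousLinearMap.fst 𝕜 I.C D.C)).comp (σ.comp (pre i')) +
    (pre (ContinuousLinearMap.snd 𝕜 I.C D.C)).comp χ, fun φ p => ?_⟩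
  show σ (pre i' φ) (e p) + χ φ (q' p) = φ p
  rw [hχ']
  abel

theorem MP.quot (P Y D P' N : Ban 𝕜) (j : P.C →L[𝕜] Y.C) (p : Y.C →L[𝕜] D.C)
    (i : Y.C →L[𝕜] P'.C) (π : P'.C →L[𝕜] N.C) (h : D.C →L[𝕜] N.C) (hs : SES j p)
    (hM : MP Y P' i) (hπ : SES (i.comp j) π) (hh : ∀ y, h (p y) = π (i y)) : MP D N h := by
  obtain ⟨σ, hσ⟩ := hM
  obtain ⟨f, hf⟩ := colift hπ.dual (σ.comp (pre p)) (fun δ => by
    ext a
    show σ (pre p δ) (i (j a)) = 0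
    rw [hσ]
    show δ (p (j a)) = 0
    rw [(hs.ex (j a)).2 ⟨a, rfl⟩, map_zero])
  have hf' : ∀ δ x, f δ (π x) = σ (pre p δ) x := fun δ x => congrArg (fun g => g x) (hf δ)
  refine ⟨f, fun δ d => ?_⟩
  obtain ⟨y, rfl⟩ := hs.surj d
  rw [hh, hf', hσ]
  rfl

/-- spaces complemented in the bidual are injective relative to pure embeddings -/
theorem QP.relInj {I : Ban 𝕜} (h : QP I) : RelInj MP I := by
  intro A B i ⟨σ, hσ⟩ T
  obtain ⟨p, hp⟩ := h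
  refine ⟨p.comp ((pre (pre T)).comp σ.flip), fun a => ?_⟩
  have h1 : pre (pre T) (σ.flip (i a)) = NormedSpace.inclusionInDoubleDual 𝕜 I.C (T a) := by
    ext φ
    show σ (pre T φ) (i a) = φ (T a)
    rw [hσ]
    rfl
  show p (pre (pre T) (σ.flip (i a))) = T a
  rw [h1, hp]

theorem ComplementedInBidual.retract {X Y : Type} [NormedAddCommGroup X] [NormedSpace 𝕜 X]
    [NormedAddCommGroup Y] [NormedSpace 𝕜 Y] (h : ComplementedInBidual 𝕜 X) (s : Y →L[𝕜] X)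
    (q : X →L[𝕜] Y) (hs : ∀ y, q (s y) = y) : ComplementedInBidual 𝕜 Y := by
  obtain ⟨p, hp⟩ := h
  refine ⟨q.comp (p.comp (pre (pre s))), fun y => ?_⟩
  have h1 : pre (pre s) (NormedSpace.inclusionInDoubleDual 𝕜 Y y) =
      NormedSpace.inclusionInDoubleDual 𝕜 X (s y) := by
    ext φ
    rfl
  show q (p (pre (pre s) (NormedSpace.inclusionInDoubleDual 𝕜 Y y))) = y
  rw [h1, hp, hs]

theorem ComplementedInBidual.prod {X Y : Type} [NormedAddCommGroup X] [NormedSpace 𝕜 X]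
    [NormedAddCommGroup Y] [NormedSpace 𝕜 Y] (hX : ComplementedInBidual 𝕜 X)
    (hY : ComplementedInBidual 𝕜 Y) : ComplementedInBidual 𝕜 (X × Y) := by
  obtain ⟨p, hp⟩ := hX
  obtain ⟨q, hq⟩ := hY
  refine ⟨(p.comp (pre (pre (ContinuousLinearMap.fst 𝕜 X Y)))).prod
    (q.comp (pre (pre (ContinuousLinearMap.snd 𝕜 X Y)))), fun x => ?_⟩
  have h1 : pre (pre (ContinuousLinearMap.fst 𝕜 X Y))
      (NormedSpace.inclusionInDoubleDual 𝕜 (X × Y) x) =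
      NormedSpace.inclusionInDoubleDual 𝕜 X x.1 := by
    ext φ
    rfl
  have h2 : pre (pre (ContinuousLinearMap.snd 𝕜 X Y))
      (NormedSpace.inclusionInDoubleDual 𝕜 (X × Y) x) =
      NormedSpace.inclusionInDoubleDual 𝕜 Y x.2 := by
    ext φ
    rfl
  refine Prod.ext ?_ ?_
  · show p (pre (pre (ContinuousLinearMap.fst 𝕜 X Y))
      (NormedSpace.inclusionInDoubleDual 𝕜 (X × Y) x)) = x.1
    rw [h1, hp]
  · show q (pre (pre (ContinuousLinearMap.snd 𝕜 X Y))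
      (NormedSpace.inclusionInDoubleDual 𝕜 (X × Y) x)) = x.2
    rw [h2, hq]

/-- dual spaces are complemented in the bidual -/
theorem ComplementedInBidual.dual {Z : Type} [NormedAddCommGroup Z] [NormedSpace 𝕜 Z] :
    ComplementedInBidual 𝕜 (Z →L[𝕜] 𝕜) :=
  ⟨pre (NormedSpace.inclusionInDoubleDual 𝕜 Z), fun _ => rfl⟩

/-- pure sequences with relatively injective kernel split -/
theorem SES.split_pure {A B D : Ban 𝕜} {i : A.C →L[𝕜] B.C} {q : B.C →L[𝕜] D.C} (h : SES i q)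
    (hM : MP A B i) (hA : QP A) : ∃ s : D.C →L[𝕜] B.C, ∀ d, q (s d) = d := by
  obtain ⟨r, hr⟩ := hA.relInj A B i hM (ContinuousLinearMap.id 𝕜 A.C)
  have hr' : ∀ a, r (i a) = a := hr
  obtain ⟨s, hs⟩ := factor q h.surj (ContinuousLinearMap.id 𝕜 B.C - i.comp r) (fun b hb => by
    obtain ⟨a, rfl⟩ := (h.ex b).1 hb
    show i a - i (r (i a)) = 0
    rw [hr', sub_self])
  have hs' : ∀ b, s (q b) = b - i (r b) := hs
  refine ⟨s, fun d => ?_⟩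
  obtain ⟨b, rfl⟩ := h.surj d
  rw [hs', map_sub, (h.ex (i (r b))).2 ⟨_, rfl⟩, sub_zero]

theorem coFrame_MP : CoFrame (𝕜 := 𝕜) MP QP where
  bdd := fun _ _ _ h => h.bdd
  isoM := fun A B e => ⟨pre (e.symm : B.C →L[𝕜] A.C), fun φ a => by
    show φ (e.symm (e a)) = φ a
    rw [e.symm_apply_apply]⟩
  comp := fun A B D i j ⟨σ, hσ⟩ ⟨τ, hτ⟩ => ⟨τ.comp σ, fun φ a => by
    show τ (σ φ) (j (i a)) = φ a
    rw [hτ, hσ]⟩
  push := MP.push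
  quot := MP.quot
  prodM := fun A B A' B' i i' ⟨σ, hσ⟩ ⟨τ, hτ⟩ => by
    refine ⟨(pre (ContinuousLinearMap.fst 𝕜 B.C B'.C)).comp
      (σ.comp (pre (ContinuousLinearMap.inl 𝕜 A.C A'.C))) +
      (pre (ContinuousLinearMap.snd 𝕜 B.C B'.C)).comp
      (τ.comp (pre (ContinuousLinearMap.inr 𝕜 A.C A'.C))), fun φ a => ?_⟩
    obtain ⟨a1, a2⟩ := a
    show σ (pre (ContinuousLinearMap.inl 𝕜 A.C A'.C) φ) (i a1) +
      τ (pre (ContinuousLinearMap.inr 𝕜 A.C A'.C) φ) (i' a2) = φ (a1, a2)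
    rw [hσ, hτ]
    show φ (a1, 0) + φ (0, a2) = φ (a1, a2)
    rw [← map_add]
    congr 1
    exact Prod.ext (add_zero _) (zero_add _)
  iso := fun X Y ⟨e⟩ h => ComplementedInBidual.retract (X := X.C) (Y := Y.C) h
    (e.symm : Y.C →L[𝕜] X.C) (e : X.C →L[𝕜] Y.C) (fun y => by simp)
  prod := fun X Y hX hY => ComplementedInBidual.prod hX hY
  fst := fun X Y h => ComplementedInBidual.retract (X := X.C × Y.C) (Y := X.C) h
    (ContinuousLinearMap.inl 𝕜 X.C Y.C) (ContinuousLinearMap.fst 𝕜 X.C Y.C) (fun _ => rfl)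
  coker := fun A B D i q hs hM hA hB => by
    obtain ⟨s, hs'⟩ := hs.split_pure hM hA
    exact ComplementedInBidual.retract (X := B.C) (Y := D.C) hB s q hs'
  enough := fun X => by
    refine ⟨⟨(X.C →L[𝕜] 𝕜) →L[𝕜] 𝕜⟩, NormedSpace.inclusionInDoubleDual 𝕜 X.C,
      ⟨NormedSpace.inclusionInDoubleDual 𝕜 (X.C →L[𝕜] 𝕜), fun φ a => rfl⟩, ?_, ?_⟩
    · exact QP.relInj (I := ⟨(X.C →L[𝕜] 𝕜) →L[𝕜] 𝕜⟩) ComplementedInBidual.dual
    · exact ComplementedInBidual.dual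

/-- purity of kernels from complementedness of the dual map -/
theorem MP_of_dual_split (Z E Y : Ban 𝕜) (ν : Z.C →L[𝕜] E.C) (q : E.C →L[𝕜] Y.C) (hs : SES ν q)
    (lam : (E.C →L[𝕜] 𝕜) →L[𝕜] (Y.C →L[𝕜] 𝕜)) (hlam : ∀ φ : Y.C →L[𝕜] 𝕜, lam (φ.comp q) = φ) :
    MP Z E ν := by
  have hd := hs.dual
  obtain ⟨σ, hσ⟩ := factor (pre ν) hd.surj
    (ContinuousLinearMap.id 𝕜 (E.C →L[𝕜] 𝕜) - (pre q).comp lam) (fun ψ hψ => by
      obtain ⟨φ, rfl⟩ := (hd.ex ψ).1 hψ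
      show pre q φ - pre q (lam (φ.comp q)) = 0
      rw [hlam, sub_self])
  refine ⟨σ, fun ζ z => ?_⟩
  obtain ⟨ψ, rfl⟩ := hd.surj ζ
  rw [hσ]
  show ψ (ν z) - lam ψ (q (ν z)) = ψ (ν z)
  rw [(hs.ex (ν z)).2 ⟨z, rfl⟩, map_zero, sub_zero]

end Pool.Agent.Helper69.Fd
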