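import Mathlib
import Pool.Agent.Helper69.HdPure
import Pool.Agent.Helper69.HdPiL
import Pool.Agent.Helper69.HdCov
import Pool.Agent.Helper69.HdEmb

set_option autoImplicit false

/-!
# Pure-injective resolutions
-/

open scoped ENNReal

namespace Pool.Agent.Helper69.Fd

variable {𝕜 : Type} [RCLike 𝕜]

/-- the shift preserves the contraction of the dual -/
theorem Coresolution.tail_contractible {X : Type} [NormedAddCommGroup X] [NormedSpace 𝕜 X]
    (R : Coresolution 𝕜 X) (hR : R.DualContractible) {K : Type}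
    [NormedAddCommGroup K] [NormedSpace 𝕜 K] (π : R.Q 0 →L[𝕜] K) (δ : K →L[𝕜] R.Q 1)
    (hπ : SES R.η π) (h1 : Function.Injective δ) (hδ : ∀ x, δ (π x) = R.d 0 x)
    (h2 : ∀ x, R.d 1 x = 0 ↔ ∃ y, δ y = x) : (R.tail δ h1 h2).DualContractible := by
  obtain ⟨h0, h, c0, c1, c2⟩ := hR
  have hcomp : δ.comp π = R.d 0 := by
    ext x
    exact hδ x
  have hz : ∀ χ : K →L[𝕜] 𝕜, (χ.comp π).comp R.η = 0 := by
    intro χ
    ext x
    show χ (π (R.η x)) = 0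
    rw [(hπ.ex (R.η x)).2 ⟨x, rfl⟩, map_zero]
  refine ⟨(h 0).comp (pre π), fun i => h (i + 1), fun χ => ?_, fun ψ => ?_, fun i ψ =>
    c2 (i + 1) ψ⟩
  · ext k
    obtain ⟨x, rfl⟩ := hπ.surj k
    show h 0 (χ.comp π) (δ (π x)) = χ (π x)
    rw [hδ]
    have e1 := congrArg (fun f => f x) (c1 (χ.comp π))
    rw [hz, map_zero, zero_add] at e1
    exact e1
  · have e1 := c2 0 ψ
    rw [← hcomp] at e1
    exact e1

theorem gmP_of_coresolution :
    ∀ (n : ℕ) (X : Ban 𝕜) (R : Coresolution 𝕜 X.C), R.DualContractible →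
      (∀ i, QP (⟨R.Q i⟩ : Ban 𝕜)) →
      (∀ i, n < i → Subsingleton (R.Q i)) → Gm MP QP n X
  | 0, X, R, hR, hP, hn => by
    have hsurj : Function.Surjective R.η := by
      intro x
      have := hn 1 zero_lt_one
      exact (R.exact_zero x).1 (Subsingleton.elim _ _)
    have e : X.C ≃L[𝕜] R.Q 0 := ContinuousLinearEquiv.ofBijective R.η
      (LinearMap.ker_eq_bot.2 R.inj) (LinearMap.range_eq_top.2 hsurj)
    exact coFrame_MP.iso ⟨R.Q 0⟩ X ⟨e.symm⟩ (hP 0)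
  | n + 1, X, R, hR, hP, hn => by
    obtain ⟨K, i1, i2, i3, π, δ, hπ, h1, h2, h3⟩ := R.shift
    have hM : MP X ⟨R.Q 0⟩ R.η := by
      obtain ⟨h0, h, c0, c1, c2⟩ := hR
      exact ⟨h0, fun φ a => congrArg (fun f => f a) (c0 φ)⟩
    exact ⟨⟨R.Q 0⟩, ⟨K⟩, R.η, π, hπ, hM, hP 0,
      gmP_of_coresolution n ⟨K⟩ (R.tail δ h1 h3)
        (R.tail_contractible hR π δ hπ h1 h2 h3) (fun i => hP (i + 1))
        (fun i hi => hn (i + 1) (by omega))⟩

section cons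

variable {D : Type} [NormedAddCommGroup D] [NormedSpace 𝕜 D]

/-- the terms of the extended coresolution -/
def consQ (P : Type) (R : Coresolution 𝕜 D) : ℕ → Type
  | 0 => P
  | j + 1 => R.Q j

variable {X P : Type} [NormedAddCommGroup X] [NormedSpace 𝕜 X] [NormedAddCommGroup P]
  [NormedSpace 𝕜 P] [CompleteSpace P]

@[instance_reducible] instance consNg (R : Coresolution 𝕜 D) :
    ∀ j, NormedAddCommGroup (consQ P R j)
  | 0 => inferInstanceAs (NormedAddCommGroup P)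
  | j + 1 => inferInstanceAs (NormedAddCommGroup (R.Q j))

@[instance_reducible] instance consNs (R : Coresolution 𝕜 D) : ∀ j, NormedSpace 𝕜 (consQ P R j)
  | 0 => inferInstanceAs (NormedSpace 𝕜 P)
  | j + 1 => inferInstanceAs (NormedSpace 𝕜 (R.Q j))

instance consCs (R : Coresolution 𝕜 D) : ∀ j, CompleteSpace (consQ P R j)
  | 0 => inferInstanceAs (CompleteSpace P)
  | j + 1 => inferInstanceAs (CompleteSpace (R.Q j))

/-- the differentials -/
def consD (R : Coresolution 𝕜 D) (q : P →L[𝕜] D) : ∀ j, consQ P R j →L[𝕜] consQ P R (j + 1)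
  | 0 => (R.η.comp q : P →L[𝕜] R.Q 0)
  | j + 1 => (R.d j : R.Q j →L[𝕜] R.Q (j + 1))

/-- the extended coresolution -/
def consR (R : Coresolution 𝕜 D) (i : X →L[𝕜] P) (q : P →L[𝕜] D) (hs : SES i q) :
    Coresolution 𝕜 X where
  Q := consQ P R
  η := (i : X →L[𝕜] P)
  d := consD R q
  inj := hs.inj
  exact_zero := fun x => by
    constructor
    · intro h
      have h1 : R.η (q x) = 0 := h
      exact (hs.ex x).1 (R.inj (by rw [h1, map_zero]))
    · intro h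
      have h1 : q x = 0 := (hs.ex x).2 h
      show R.η (q x) = 0
      rw [h1, map_zero]
  exact := fun j x => by
    cases j with
    | zero =>
      constructor
      · intro h
        obtain ⟨y, hy⟩ := (R.exact_zero x).1 h
        obtain ⟨p, rfl⟩ := hs.surj y
        exact ⟨p, hy⟩
      · rintro ⟨p, hp⟩
        exact (R.exact_zero x).2 ⟨q p, hp⟩
    | succ j => exact R.exact j x

theorem consR_contractible [CompleteSpace X] [CompleteSpace D] (R : Coresolution 𝕜 D)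
    (hR : R.DualContractible) (i : X →L[𝕜] P)
    (q : P →L[𝕜] D) (hs : SES i q) (σ : (X →L[𝕜] 𝕜) →L[𝕜] (P →L[𝕜] 𝕜))
    (hσ : ∀ φ a, σ φ (i a) = φ a) : (consR R i q hs).DualContractible := by
  obtain ⟨h0, h, c0, c1, c2⟩ := hR
  obtain ⟨χ, hχ⟩ := colift hs.dual
    (ContinuousLinearMap.id 𝕜 (P →L[𝕜] 𝕜) - σ.comp (pre i)) (fun φ => by
      ext x
      show φ (i x) - σ (pre i φ) (i x) = 0
      rw [hσ]
      exact sub_self _)
  have hχ' : ∀ φ p, χ φ (q p) = φ p - σ (φ.comp i) p := fun φ p =>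
    congrArg (fun f => f p) (hχ φ)
  have hχ2 : ∀ φ : D →L[𝕜] 𝕜, χ (φ.comp q) = φ := by
    intro φ
    ext d
    obtain ⟨p, rfl⟩ := hs.surj d
    rw [hχ']
    have e : (φ.comp q).comp i = 0 := by
      ext a
      show φ (q (i a)) = 0
      rw [(hs.ex (i a)).2 ⟨a, rfl⟩, map_zero]
    rw [e, map_zero]
    show φ (q p) - 0 = φ (q p)
    rw [sub_zero]
  have k1 : ∀ ψ : P →L[𝕜] 𝕜, σ (ψ.comp i) + (h0 (χ ψ)).comp (R.η.comp q) = ψ := by
    intro ψ
    ext p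
    show σ (ψ.comp i) p + h0 (χ ψ) (R.η (q p)) = ψ p
    have e1 : h0 (χ ψ) (R.η (q p)) = χ ψ (q p) := congrArg (fun f => f (q p)) (c0 (χ ψ))
    rw [e1, hχ']
    abel
  have k2 : ∀ ψ : R.Q 0 →L[𝕜] 𝕜,
      h0 (χ ((ψ.comp R.η).comp q)) + (h 0 ψ).comp (R.d 0) = ψ := by
    intro ψ
    rw [hχ2]
    exact c1 ψ
  refine ⟨σ, fun j => match j with
    | 0 => (h0.comp χ : (P →L[𝕜] 𝕜) →L[𝕜] (R.Q 0 →L[𝕜] 𝕜))
    | j + 1 => (h j : (R.Q j →L[𝕜] 𝕜) →L[𝕜] (R.Q (j + 1) →L[𝕜] 𝕜)), fun φ => ?_, fun ψ => ?_,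
    fun j ψ => ?_⟩
  · ext a
    exact hσ φ a
  · exact k1 ψ
  · cases j with
    | zero => exact k2 ψ
    | succ j => exact c2 j ψ

end cons

/-- pure-injective resolutions with at most `n` nonzero terms -/
def HasPi' (X : Ban 𝕜) (n : ℕ) : Prop :=
  ∃ R : Coresolution 𝕜 X.C, R.DualContractible ∧ (∀ i, ComplementedInBidual 𝕜 (R.Q i)) ∧
    ∀ i, n ≤ i → Subsingleton (R.Q i)

theorem HasPi'.cons {X P D : Ban 𝕜} {i : X.C →L[𝕜] P.C} {q : P.C →L[𝕜] D.C} (hs : SES i q)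
    (hM : MP X P i) (hP : QP P) {n : ℕ} (h : HasPi' D n) : HasPi' X (n + 1) := by
  obtain ⟨R, h1, h2, h3⟩ := h
  obtain ⟨σ, hσ⟩ := hM
  refine ⟨consR R i q hs, consR_contractible R h1 i q hs σ hσ, fun j => ?_, fun j hj => ?_⟩
  · cases j with
    | zero => exact hP
    | succ j => exact h2 j
  · cases j with
    | zero => exact absurd hj (by omega)
    | succ j => exact h3 j (by omega)

/-- the zero coresolution -/
def zeroCo (𝕜 : Type) [RCLike 𝕜] : Coresolution 𝕜 PUnit where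
  Q := fun _ => PUnit
  η := 0
  d := fun _ => 0
  inj := fun _ _ _ => Subsingleton.elim _ _
  exact_zero := fun _ => ⟨fun _ => ⟨0, Subsingleton.elim _ _⟩, fun _ => Subsingleton.elim _ _⟩
  exact := fun _ _ => ⟨fun _ => ⟨0, Subsingleton.elim _ _⟩, fun _ => Subsingleton.elim _ _⟩

theorem complementedInBidual_of_subsingleton {X : Type} [NormedAddCommGroup X] [NormedSpace 𝕜 X]
    [Subsingleton X] : ComplementedInBidual 𝕜 X :=
  ⟨0, fun _ => Subsingleton.elim _ _⟩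

theorem zeroCo_contractible : (zeroCo 𝕜).DualContractible := by
  have key : ∀ φ ψ : PUnit →L[𝕜] 𝕜, φ = ψ := by
    intro φ ψ
    ext x
    rw [Subsingleton.elim x 0, map_zero, map_zero]
  exact ⟨0, fun _ => 0, fun _ => key _ _, fun _ => key _ _, fun _ _ => key _ _⟩

theorem hasPi'_zero : HasPi' (⟨PUnit⟩ : Ban 𝕜) 0 :=
  ⟨zeroCo 𝕜, zeroCo_contractible,
    fun _ => (complementedInBidual_of_subsingleton : ComplementedInBidual 𝕜 PUnit),
    fun _ _ => (inferInstance : Subsingleton PUnit)⟩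

theorem hasPi'_one (X : Ban 𝕜) (h : QP X) : HasPi' X 1 := by
  refine HasPi'.cons (X := X) (P := X) (D := ⟨PUnit⟩) (i := ContinuousLinearMap.id 𝕜 X.C)
    (q := (0 : X.C →L[𝕜] PUnit)) ⟨fun a b h => h, fun b => ⟨fun _ => ⟨b, rfl⟩, fun _ => rfl⟩,
      fun y => ⟨0, Subsingleton.elim _ _⟩⟩ ⟨ContinuousLinearMap.id 𝕜 _, fun _ _ => rfl⟩ h
    hasPi'_zero

/-- the pure cover -/
theorem exists_pure_cover (Y : Ban 𝕜) :
    ∃ (Z E : Ban 𝕜) (ν : Z.C →L[𝕜] E.C) (q : E.C →L[𝕜] Y.C), SES ν q ∧ MP Z E ν ∧ QP E ∧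
      ∀ (j : lp (fun _ : ℕ => 𝕜) ∞ →L[𝕜] E.C) (c : ℝ), (∀ w, ‖w‖ ≤ c * ‖j w‖) → False := by
  obtain ⟨I, F, i1, i2, i3, q, lam, hq, hlam⟩ := exists_fd_cover (𝕜 := 𝕜) Y.C
  have hc : ∀ t, CompleteSpace (F t) := fun t => FiniteDimensional.complete 𝕜 (F t)
  obtain ⟨Z, a1, a2, a3, ν, hν⟩ := exists_ker q hq
  exact ⟨⟨Z⟩, ⟨lp F 1⟩, ν, q, hν, MP_of_dual_split ⟨Z⟩ ⟨lp F 1⟩ Y ν q hν lam hlam,
    complementedInBidual_lp_fd 𝕜 F, fun j c hj => linf_no_embedding F j c hj⟩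

theorem exists_Yn (𝕜 : Type) [RCLike 𝕜] (m : ℕ) :
    ∃ Y : Ban 𝕜, HasPi' Y (m + 2) ∧ ¬ Gm MP QP m Y := by
  induction m with
  | zero =>
    obtain ⟨Z, E, ν, q, hs, hM, hE, hno⟩ := exists_pure_cover (⟨lp (fun _ : ℕ => 𝕜) ∞⟩ : Ban 𝕜)
    refine ⟨Z, HasPi'.cons hs hM hE (hasPi'_one _ (complementedInBidual_linf 𝕜 ℕ)), fun hZ => ?_⟩
    obtain ⟨s, hs'⟩ := hs.split_pure hM hZ
    refine hno s ‖q‖ fun w => ?_
    calc ‖w‖ = ‖q (s w)‖ := by rw [hs']
      _ ≤ ‖q‖ * ‖s w‖ := q.le_opNorm _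
  | succ m ih =>
    obtain ⟨Y, hY, hY'⟩ := ih
    obtain ⟨Z, E, ν, q, hs, hM, hE, -⟩ := exists_pure_cover Y
    refine ⟨Z, HasPi'.cons hs hM hE hY, fun hZ => hY' ?_⟩
    exact Gm.cosyzygy coFrame_MP m Z E Y ν q hs hM hE.relInj hE hZ

end Pool.Agent.Helper69.Fd
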