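import Mathlib
import Pool.Agent.Helper69.FdMain
import Pool.Agent.Helper69.HdFrame
import Pool.Agent.Helper69.HdLinfM
import Pool.Agent.Helper69.HdInv
import Pool.Agent.Helper69.HdLinf
import Pool.Agent.Helper69.HdPi

set_option autoImplicit false

/-!
# All values of the five dimensions occur
-/

open scoped ENNReal

namespace Pool.Agent.Helper69.Fd

variable {𝕜 : Type} [RCLike 𝕜]

theorem iInf_eq_coe' {p : ℕ → Prop} {n : ℕ} (h : p n) (h' : ∀ m, m < n → ¬ p m) :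
    (⨅ (k : ℕ) (_ : p k), (k : ℕ∞)) = n := by
  apply le_antisymm
  · exact iInf₂_le n h
  · refine le_iInf₂ fun m hm => ?_
    by_contra h1
    push Not at h1
    exact h' m (by exact_mod_cast h1) hm

theorem iInf_eq_top' {p : ℕ → Prop} (h : ∀ m, ¬ p m) :
    (⨅ (k : ℕ) (_ : p k), (k : ℕ∞)) = ⊤ := by
  rw [iInf₂_eq_top]
  exact fun m hm => absurd hm (h m)

/-- isomorphisms of duals -/
noncomputable def dualEquiv {P Q : Type} [NormedAddCommGroup P] [NormedSpace 𝕜 P]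
    [NormedAddCommGroup Q] [NormedSpace 𝕜 Q] (e : P ≃L[𝕜] Q) : (Q →L[𝕜] 𝕜) ≃L[𝕜] (P →L[𝕜] 𝕜) :=
  ContinuousLinearEquiv.equivOfInverse (pre (e : P →L[𝕜] Q)) (pre (e.symm : Q →L[𝕜] P))
    (fun φ => by
      ext x
      show φ (e (e.symm x)) = φ x
      rw [e.apply_symm_apply])
    (fun φ => by
      ext x
      show φ (e.symm (e x)) = φ x
      rw [e.symm_apply_apply])

theorem RelInj.iso {M : ∀ A B : Ban 𝕜, (A.C →L[𝕜] B.C) → Prop} {I J : Ban 𝕜} (h : RelInj M I)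
    (e : I.C ≃L[𝕜] J.C) : RelInj M J := by
  intro A B i hi T
  obtain ⟨T', hT'⟩ := h A B i hi ((e.symm : J.C →L[𝕜] I.C).comp T)
  refine ⟨(e : I.C →L[𝕜] J.C).comp T', fun a => ?_⟩
  show e (T' (i a)) = T a
  rw [hT']
  show e (e.symm (T a)) = T a
  rw [e.apply_symm_apply]

theorem isInjectiveSpace_of_relInj (Q : Ban 𝕜) (h : RelInj MB Q) : IsInjectiveSpace 𝕜 Q.C := by
  intro E _ _ _ F hF T
  have : CompleteSpace F := hF.completeSpace_coe
  exact h ⟨F⟩ ⟨E⟩ F.subtypeL ⟨1, fun x => by rw [one_mul]; exact le_rfl⟩ T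

theorem PropM.iso {X Y : Type} [NormedAddCommGroup X] [NormedSpace 𝕜 X]
    [NormedAddCommGroup Y] [NormedSpace 𝕜 Y] (h : PropM 𝕜 X) (e : X ≃L[𝕜] Y) : PropM 𝕜 Y :=
  PropM.retract h (e.symm : Y →L[𝕜] X) (e : X →L[𝕜] Y) (fun y => by simp)

theorem propM_dual_l1 (S : Type) : PropM 𝕜 (l1 𝕜 S →L[𝕜] 𝕜) :=
  propM_of_isInjectiveSpace (isInjectiveSpace_dual_l1 S)

/-- the lower bound for the dual space -/
theorem not_gm_dual (m : ℕ) (X : Type) [NormedAddCommGroup X] [NormedSpace 𝕜 X] [CompleteSpace X]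
    (R : Resolution 𝕜 X) (hP : ∀ i, ∃ S : Type, Nonempty (R.P i ≃L[𝕜] l1 𝕜 S))
    (htop : ∀ y : R.P (m + 2), R.d (m + 1) y = 0)
    (hno : ¬ ∃ r : R.P m →L[𝕜] R.P (m + 1), ∀ x, r (R.d m x) = x) :
    ¬ Gm MB QM m (⟨X →L[𝕜] 𝕜⟩ : Ban 𝕜) := by
  intro hG
  apply hno
  have h1 : UL (R.dual.d m) := by
    refine UL_last m ⟨X →L[𝕜] 𝕜⟩ R.dual (fun i => ?_) (fun i => ?_) (fun φ => ?_) hG
    · obtain ⟨S, ⟨e⟩⟩ := hP i
      exact RelInj.iso (I := ⟨l1 𝕜 S →L[𝕜] 𝕜⟩) (J := ⟨R.P i →L[𝕜] 𝕜⟩) (relInj_dual_l1 S)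
        (dualEquiv e)
    · obtain ⟨S, ⟨e⟩⟩ := hP i
      exact PropM.iso (propM_dual_l1 S) (dualEquiv e)
    · have h0 : ∀ φ : R.P (m + 1) →L[𝕜] 𝕜, pre (R.d (m + 1)) φ = 0 := by
        intro φ
        ext y
        show φ (R.d (m + 1) y) = 0
        rw [htop, map_zero]
      exact h0 φ
  have h2 : UL (pre (R.d m)) := h1
  obtain ⟨S, ⟨e⟩⟩ := hP (m + 1)
  have h3 := UL.precomp (pre (R.d m)) h2 (dualEquiv e.symm)
  have h4 : UL (pre ((R.d m).comp (e.symm : l1 𝕜 S →L[𝕜] R.P (m + 1)))) := h3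
  obtain ⟨r, hr⟩ := left_inverse_of_UL S _ h4
  refine ⟨(e.symm : l1 𝕜 S →L[𝕜] R.P (m + 1)).comp r, fun x => ?_⟩
  have h5 := hr (e x)
  have h6 : ((R.d m).comp (e.symm : l1 𝕜 S →L[𝕜] R.P (m + 1))) (e x) = R.d m x := by
    show R.d m (e.symm (e x)) = R.d m x
    rw [e.symm_apply_apply]
  rw [h6] at h5
  show e.symm (r (R.d m x)) = x
  rw [h5, e.symm_apply_apply]

/-- coresolutions by spaces with the extension property -/
def HasMRes (𝕜 : Type) [RCLike 𝕜] (X : Type) [NormedAddCommGroup X] [NormedSpace 𝕜 X]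
    (n : ℕ) : Prop :=
  ∃ R : Coresolution 𝕜 X, (∀ i, PropM 𝕜 (R.Q i)) ∧ ∀ i, n < i → Subsingleton (R.Q i)

section res

variable {X : Type} [NormedAddCommGroup X] [NormedSpace 𝕜 X]

theorem HasInjRes.mRes {n : ℕ} (h : HasInjRes 𝕜 X n) : HasMRes 𝕜 X n := by
  obtain ⟨R, h1, h2⟩ := h
  exact ⟨R, fun i => propM_of_isInjectiveSpace (h1 i), h2⟩

theorem HasApRes.mRes {n : ℕ} (h : HasApRes 𝕜 X n) : HasMRes 𝕜 X n := by
  obtain ⟨R, h1, h2⟩ := h
  exact ⟨R, fun i => propM_of_isLinfSpace (h1 i), h2⟩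

theorem HasMRes.gm [CompleteSpace X] {m n : ℕ} (hmn : m ≤ n) (h : HasMRes 𝕜 X m) :
    Gm MB QM n (⟨X⟩ : Ban 𝕜) := by
  obtain ⟨R, h1, h2⟩ := h
  exact gm_of_coresolution coFrame_MB MB_of_SES n ⟨X⟩ R h1 (fun i hi => h2 i (hmn.trans_lt hi))

theorem HasPiRes.gm [CompleteSpace X] {m n : ℕ} (hmn : m ≤ n) (h : HasPiRes 𝕜 X m) :
    Gm MP QP n (⟨X⟩ : Ban 𝕜) := by
  obtain ⟨R, h0, h1, h2⟩ := h
  exact gmP_of_coresolution n ⟨X⟩ R h0 h1 (fun i hi => h2 i (hmn.trans_lt hi))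

end res

/-- the spaces `X_n` again -/
theorem exists_Xn' (𝕜 : Type) [RCLike 𝕜] (m : ℕ) :
    ∃ (X : Type) (_ : NormedAddCommGroup X) (_ : NormedSpace 𝕜 X) (_ : CompleteSpace X)
      (R : Resolution 𝕜 X), (∀ i, ∃ S : Type, Nonempty (R.P i ≃ₗᵢ[𝕜] l1 𝕜 S)) ∧
      (∀ i, m + 1 < i → Subsingleton (R.P i)) ∧ ¬ Fm (QL (𝕜 := 𝕜)) m ⟨X⟩ ∧
      ¬ Gm MB QM m (⟨X →L[𝕜] 𝕜⟩ : Ban 𝕜) := by
  obtain ⟨B, C, hB, hC, h⟩ := exists_block (goodMat 𝕜) m
  obtain ⟨X, i1, i2, i3, R, h1, h2, h3⟩ := exists_sum 𝕜 m B C hB hC h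
  have htop : ∀ y : R.P (m + 2), R.d (m + 1) y = 0 := by
    intro y
    have := h2 (m + 2) (by omega)
    rw [Subsingleton.elim y 0, map_zero]
  have hP : ∀ i, ∃ S : Type, Nonempty (R.P i ≃L[𝕜] l1 𝕜 S) := by
    intro i
    obtain ⟨S, ⟨e⟩⟩ := h1 i
    exact ⟨S, ⟨e.toContinuousLinearEquiv⟩⟩
  exact ⟨X, i1, i2, i3, R, h1, h2, not_fm_of_no_retract m ⟨X⟩ R hP htop h3,
    not_gm_dual m X R hP htop h3⟩

/-! ### projective dimension -/

/-- an equivalence of one-point spaces -/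
def subsingletonEquiv (𝕜 : Type) [RCLike 𝕜] (X Y : Type) [NormedAddCommGroup X] [NormedSpace 𝕜 X]
    [NormedAddCommGroup Y] [NormedSpace 𝕜 Y] [Subsingleton X] [Subsingleton Y] : X ≃ₗᵢ[𝕜] Y where
  toFun := 0
  invFun := 0
  map_add' := fun _ _ => Subsingleton.elim _ _
  map_smul' := fun _ _ => Subsingleton.elim _ _
  left_inv := fun _ => Subsingleton.elim _ _
  right_inv := fun _ => Subsingleton.elim _ _
  norm_map' := fun x => by
    rw [Subsingleton.elim x 0, norm_zero, map_zero, norm_zero]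

theorem subsingleton_l1_empty : Subsingleton (l1 𝕜 Empty) :=
  ⟨fun a b => by
    ext i
    exact i.elim⟩

theorem pd_punit : pd 𝕜 PUnit = (0 : ℕ) := by
  refine iInf_eq_coe' (p := HasProjRes 𝕜 PUnit) ⟨zeroRes 𝕜, fun i => ⟨Empty, ⟨?_⟩⟩,
    fun i _ => (inferInstance : Subsingleton PUnit)⟩ (fun m hm => absurd hm (by omega))
  have h1 : Subsingleton (l1 𝕜 Empty) := subsingleton_l1_empty
  exact subsingletonEquiv 𝕜 PUnit (l1 𝕜 Empty)

theorem pd_values (n : ℕ∞) :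
    ∃ (X : Type) (_ : NormedAddCommGroup X) (_ : NormedSpace 𝕜 X) (_ : CompleteSpace X),
      pd 𝕜 X = n := by
  induction n using ENat.recTopCoe with
  | top =>
    obtain ⟨X, i1, i2, i3, h, -⟩ := exists_fd_top 𝕜
    exact ⟨X, i1, i2, i3, h⟩
  | coe n =>
    cases n with
    | zero => exact ⟨PUnit, inferInstance, inferInstance, inferInstance, pd_punit⟩
    | succ n =>
      obtain ⟨X, i1, i2, i3, R, h1, h2, h3, -⟩ := exists_Xn' 𝕜 n
      refine ⟨X, i1, i2, i3, iInf_eq_coe' (p := HasProjRes 𝕜 X) ⟨R, h1, h2⟩ fun m hm hm' => ?_⟩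
      exact h3 (hm'.flat.mono (Nat.lt_succ_iff.1 hm)).fm

theorem fd_values (n : ℕ∞) :
    ∃ (X : Type) (_ : NormedAddCommGroup X) (_ : NormedSpace 𝕜 X) (_ : CompleteSpace X),
      fd 𝕜 X = n := by
  have h : n ∈ {n : ℕ∞ | ∃ (X : Type) (_ : NormedAddCommGroup X) (_ : NormedSpace 𝕜 X)
      (_ : CompleteSpace X), pd 𝕜 X = ⊤ ∧ fd 𝕜 X = n} := by
    rw [all_values 𝕜]
    exact Set.mem_univ n
  obtain ⟨X, i1, i2, i3, -, h⟩ := h
  exact ⟨X, i1, i2, i3, h⟩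

/-! ### injective and absolutely pure dimension -/

theorem isInjectiveSpace_punit : IsInjectiveSpace 𝕜 PUnit := by
  intro E _ _ _ F hF T
  exact ⟨0, fun _ => Subsingleton.elim _ _⟩

theorem isLinfSpace_punit : IsLinfSpace 𝕜 PUnit := by
  have h0 : Subsingleton (l1 𝕜 Empty) := subsingleton_l1_empty
  have h1 : Subsingleton (l1 𝕜 Empty →L[𝕜] 𝕜) := ⟨fun φ ψ => by
    ext x
    rw [Subsingleton.elim x 0, map_zero, map_zero]⟩
  exact IsLinfSpace.of_equiv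
    (subsingletonEquiv 𝕜 (l1 𝕜 Empty →L[𝕜] 𝕜) PUnit).toContinuousLinearEquiv
    (isLinfSpace_dual_l1 𝕜 Empty)

theorem subsingleton_dual {P : Type} [NormedAddCommGroup P] [NormedSpace 𝕜 P]
    (h : Subsingleton P) : Subsingleton (P →L[𝕜] 𝕜) :=
  ⟨fun φ ψ => by
    ext x
    rw [Subsingleton.elim x 0, map_zero, map_zero]⟩

theorem top_key (𝕜 : Type) [RCLike 𝕜] :
    ∃ (X : Type) (_ : NormedAddCommGroup X) (_ : NormedSpace 𝕜 X) (_ : CompleteSpace X),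
      ∀ m, ¬ HasMRes 𝕜 X m := by
  choose X i1 i2 i3 R h1 h2 h3 h4 using exists_Xn' 𝕜
  refine ⟨lp X 1 →L[𝕜] 𝕜, inferInstance, inferInstance, inferInstance, fun m hm => ?_⟩
  refine h4 m (Gm.retract coFrame_MB m ⟨lp X 1 →L[𝕜] 𝕜⟩ ⟨X m →L[𝕜] 𝕜⟩
    (pre (lp.evalCLM 𝕜 X 1 m)) (pre (lp.singleContinuousLinearMap 𝕜 X 1 m)) (fun φ => ?_)
    (hm.gm le_rfl))
  ext y
  show φ (lp.single 1 m y m) = φ y
  rw [lp.single_apply_self]

theorem injDim_values (n : ℕ∞) :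
    ∃ (X : Type) (_ : NormedAddCommGroup X) (_ : NormedSpace 𝕜 X) (_ : CompleteSpace X),
      injDim 𝕜 X = n := by
  induction n using ENat.recTopCoe with
  | top =>
    obtain ⟨X, i1, i2, i3, h⟩ := top_key 𝕜
    exact ⟨X, i1, i2, i3, iInf_eq_top' (p := HasInjRes 𝕜 X) fun m hm => h m hm.mRes⟩
  | coe n =>
    cases n with
    | zero =>
      exact ⟨PUnit, inferInstance, inferInstance, inferInstance,
        iInf_eq_coe' (p := HasInjRes 𝕜 PUnit) ⟨zeroCo 𝕜, fun i => isInjectiveSpace_punit,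
          fun i _ => (inferInstance : Subsingleton PUnit)⟩ (fun m hm => absurd hm (by omega))⟩
    | succ n =>
      obtain ⟨X, i1, i2, i3, R, h1, h2, -, h4⟩ := exists_Xn' 𝕜 n
      refine ⟨X →L[𝕜] 𝕜, inferInstance, inferInstance, inferInstance,
        iInf_eq_coe' (p := HasInjRes 𝕜 (X →L[𝕜] 𝕜)) ⟨R.dual, fun i => ?_, fun i hi => ?_⟩
          fun m hm hm' => h4 (hm'.mRes.gm (Nat.lt_succ_iff.1 hm))⟩
      · obtain ⟨S, ⟨e⟩⟩ := h1 i
        exact isInjectiveSpace_of_relInj ⟨R.P i →L[𝕜] 𝕜⟩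
          (RelInj.iso (I := ⟨l1 𝕜 S →L[𝕜] 𝕜⟩) (J := ⟨R.P i →L[𝕜] 𝕜⟩) (relInj_dual_l1 S)
            (dualEquiv e.toContinuousLinearEquiv))
      · exact subsingleton_dual (h2 i hi)

theorem apd_values (n : ℕ∞) :
    ∃ (X : Type) (_ : NormedAddCommGroup X) (_ : NormedSpace 𝕜 X) (_ : CompleteSpace X),
      apd 𝕜 X = n := by
  induction n using ENat.recTopCoe with
  | top =>
    obtain ⟨X, i1, i2, i3, h⟩ := top_key 𝕜
    exact ⟨X, i1, i2, i3, iInf_eq_top' (p := HasApRes 𝕜 X) fun m hm => h m hm.mRes⟩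
  | coe n =>
    cases n with
    | zero =>
      exact ⟨PUnit, inferInstance, inferInstance, inferInstance,
        iInf_eq_coe' (p := HasApRes 𝕜 PUnit) ⟨zeroCo 𝕜, fun i => isLinfSpace_punit,
          fun i _ => (inferInstance : Subsingleton PUnit)⟩ (fun m hm => absurd hm (by omega))⟩
    | succ n =>
      obtain ⟨X, i1, i2, i3, R, h1, h2, -, h4⟩ := exists_Xn' 𝕜 n
      refine ⟨X →L[𝕜] 𝕜, inferInstance, inferInstance, inferInstance,
        iInf_eq_coe' (p := HasApRes 𝕜 (X →L[𝕜] 𝕜)) ⟨R.dual, fun i => ?_, fun i hi => ?_⟩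
          fun m hm hm' => h4 (hm'.mRes.gm (Nat.lt_succ_iff.1 hm))⟩
      · obtain ⟨S, ⟨e⟩⟩ := h1 i
        exact IsLinfSpace.of_equiv (dualEquiv e.toContinuousLinearEquiv)
          (isLinfSpace_dual_l1 𝕜 S)
      · exact subsingleton_dual (h2 i hi)

/-! ### pure-injective dimension -/

theorem pid_values (n : ℕ∞) :
    ∃ (X : Type) (_ : NormedAddCommGroup X) (_ : NormedSpace 𝕜 X) (_ : CompleteSpace X),
      pid 𝕜 X = n := by
  induction n using ENat.recTopCoe with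
  | top =>
    choose Y h1 h2 using exists_Yn 𝕜
    refine ⟨lp (fun m => (Y m).C) 1, inferInstance, inferInstance, inferInstance,
      iInf_eq_top' (p := HasPiRes 𝕜 (lp (fun m => (Y m).C) 1)) fun m hm => h2 m ?_⟩
    refine Gm.retract coFrame_MP m ⟨lp (fun m => (Y m).C) 1⟩ (Y m)
      (lp.singleContinuousLinearMap 𝕜 (fun m => (Y m).C) 1 m)
      (lp.evalCLM 𝕜 (fun m => (Y m).C) 1 m) (fun y => ?_) (hm.gm le_rfl)
    exact lp.single_apply_self (E := fun m => (Y m).C) 1 m y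
  | coe n =>
    cases n with
    | zero =>
      exact ⟨PUnit, inferInstance, inferInstance, inferInstance,
        iInf_eq_coe' (p := HasPiRes 𝕜 PUnit) ⟨zeroCo 𝕜, zeroCo_contractible, fun i =>
          (complementedInBidual_of_subsingleton : ComplementedInBidual 𝕜 PUnit),
          fun i _ => (inferInstance : Subsingleton PUnit)⟩ (fun m hm => absurd hm (by omega))⟩
    | succ n =>
      obtain ⟨Y, ⟨R, h0, h1, h2⟩, h3⟩ := exists_Yn 𝕜 n
      exact ⟨Y.C, inferInstance, inferInstance, inferInstance,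
        iInf_eq_coe' (p := HasPiRes 𝕜 Y.C) ⟨R, h0, h1, fun i hi => h2 i hi⟩
          fun m hm hm' => h3 (hm'.gm (Nat.lt_succ_iff.1 hm))⟩

end Pool.Agent.Helper69.Fd
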