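import Mathlib

set_option autoImplicit false
set_option linter.unusedSectionVars false
set_option linter.style.haveILetI false

namespace Pool.Agent.Helper69.Rec

open Cardinal

theorem exists_wf_rec {α β : Type} (r : α → α → Prop) (hr : WellFounded r) (d : β)
    (F : α → (α → β) → β) :
    ∃ m : α → β, ∀ p, ∃ prev : α → β, m p = F p prev ∧ ∀ q, r q p → prev q = m q := by
  classical
  let G : ∀ p : α, (∀ q : α, r q p → β) → β :=
    fun p ih => F p (fun q => if h : r q p then ih q h else d)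
  refine ⟨fun p => hr.fix G p, fun p => ⟨fun q => if r q p then hr.fix G q else d, ?_, ?_⟩⟩
  · change hr.fix G p = _
    rw [WellFounded.fix_eq]
    change F p _ = F p _
    congr 1
  · intro q hq
    simp [hq]

theorem card_span_lt {S : Set ℝ} (hS : #S < 𝔠) :
    #(Submodule.span ℚ S : Submodule ℚ ℝ) < 𝔠 := by
  have h1 : #(Submodule.span ℚ S : Submodule ℚ ℝ) ≤ #(S →₀ ℚ) := by
    have h2 : Function.Surjective (fun f : S →₀ ℚ =>
        (⟨Finsupp.linearCombination ℚ (Subtype.val : S → ℝ) f, by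
          have := LinearMap.mem_range_self (Finsupp.linearCombination ℚ (Subtype.val : S → ℝ)) f
          rw [Finsupp.range_linearCombination, Subtype.range_coe] at this
          exact this⟩ : (Submodule.span ℚ S : Submodule ℚ ℝ))) := by
      rintro ⟨x, hx⟩
      have hx' : x ∈ LinearMap.range (Finsupp.linearCombination ℚ (Subtype.val : S → ℝ)) := by
        rw [Finsupp.range_linearCombination, Subtype.range_coe]; exact hx
      obtain ⟨f, hf⟩ := hx'
      exact ⟨f, Subtype.ext hf⟩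
    exact mk_le_of_surjective h2
  refine h1.trans_lt ?_
  rcases isEmpty_or_nonempty S with h | h
  · have : #(S →₀ ℚ) ≤ 1 := by
      rw [Cardinal.le_one_iff_subsingleton]; infer_instance
    exact this.trans_lt (one_lt_aleph0.trans aleph0_lt_continuum)
  · rw [mk_finsupp_of_infinite']
    refine max_lt hS ?_
    rw [Cardinal.mk_eq_aleph0]
    exact aleph0_lt_continuum

variable {V : Type} [LinearOrder V] [WellFoundedLT V]

/-- earlier values -/
def pre (m : V → V → ℝ) (t : ℝ) (w v : V) : Set ℝ :=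
  {1, t} ∪ {x | ∃ w' v', v' < w' ∧ (w' < w ∨ (w' = w ∧ v' < v)) ∧ x = m w' v'}

theorem card_pre_lt (hV : ∀ u : V, #(Set.Iio u) < 𝔠) (m : V → V → ℝ) (t : ℝ) (w v : V) :
    #(pre m t w v) < 𝔠 := by
  have hIic : #(Set.Iic w) < 𝔠 := by
    have : Set.Iic w = insert w (Set.Iio w) := by
      ext x; simp [le_iff_eq_or_lt]
    rw [this]
    refine (mk_insert_le).trans_lt ?_
    exact Cardinal.add_lt_of_lt aleph0_le_continuum (hV w)
      (one_lt_aleph0.trans aleph0_lt_continuum)
  have h1 : {x | ∃ w' v', v' < w' ∧ (w' < w ∨ (w' = w ∧ v' < v)) ∧ x = m w' v'} ⊆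
      (fun p : V × V => m p.1 p.2) '' ((Set.Iic w) ×ˢ (Set.Iic w)) := by
    rintro x ⟨w', v', hv, hw, rfl⟩
    have hw' : w' ≤ w := by
      rcases hw with h | h
      · exact h.le
      · exact h.1.le
    exact ⟨(w', v'), ⟨hw', hv.le.trans hw'⟩, rfl⟩
  have h2 : #({x | ∃ w' v', v' < w' ∧ (w' < w ∨ (w' = w ∧ v' < v)) ∧ x = m w' v'} : Set ℝ) < 𝔠 := by
    refine (mk_le_mk_of_subset h1).trans_lt ?_
    refine mk_image_le.trans_lt ?_
    rw [Cardinal.mk_setProd]
    exact Cardinal.mul_lt_of_lt aleph0_le_continuum (by simpa using hIic) (by simpa using hIic)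
  refine (mk_union_le _ _).trans_lt ?_
  refine Cardinal.add_lt_of_lt aleph0_le_continuum ?_ h2
  have : ({1, t} : Set ℝ).Finite := by simp
  exact (Cardinal.lt_aleph0_iff_set_finite.2 this).trans aleph0_lt_continuum

theorem exists_matrix (hV : ∀ u : V, #(Set.Iio u) < 𝔠)
    (P : V → V → (V → ℝ) → Set ℝ)
    (hP : ∀ w v f g, (∀ u < v, f u = g u) → P w v f = P w v g)
    (kill : V → V → Option ℚ) (t : ℝ) :
    ∃ m : V → V → ℝ,
      (∀ w v q, v < w → kill w v = some q → m w v = (q : ℝ)) ∧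
      (∀ w v, v < w → kill w v = none → m w v ∉ Submodule.span ℚ (pre m t w v)) ∧
      (∀ w v, v < w → kill w v = none → #(P w v (m w)) = 𝔠 → m w v ∈ P w v (m w)) := by
  classical
  let r : V × V → V × V → Prop := Prod.Lex (· < ·) (· < ·)
  have hr : WellFounded r := WellFounded.prod_lex wellFounded_lt wellFounded_lt
  let F : V × V → (V × V → ℝ) → ℝ := fun p prev =>
    match kill p.1 p.2 with
    | some q => (q : ℝ)
    | none =>
      if h : (P p.1 p.2 (fun u => prev (p.1, u)) \
          (Submodule.span ℚ (pre (fun a b => prev (a, b)) t p.1 p.2) : Set ℝ)).Nonempty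
      then h.some
      else if h2 : ((Submodule.span ℚ (pre (fun a b => prev (a, b)) t p.1 p.2) : Set ℝ)ᶜ).Nonempty
        then h2.some else 0
  obtain ⟨m, hm⟩ := exists_wf_rec r hr (0 : ℝ) F
  have hpre : ∀ (prev : V × V → ℝ) (w v : V), (∀ q, r q (w, v) → prev q = m q) →
      pre (fun a b => prev (a, b)) t w v = pre (fun a b => m (a, b)) t w v := by
    intro prev w v h
    unfold pre
    congr 1
    ext x
    constructor
    · rintro ⟨w', v', h1, h2, rfl⟩
      refine ⟨w', v', h1, h2, h _ ?_⟩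
      rcases h2 with h2 | ⟨rfl, h2⟩
      · exact Prod.Lex.left _ _ h2
      · exact Prod.Lex.right _ h2
    · rintro ⟨w', v', h1, h2, rfl⟩
      refine ⟨w', v', h1, h2, (h _ ?_).symm⟩
      rcases h2 with h2 | ⟨rfl, h2⟩
      · exact Prod.Lex.left _ _ h2
      · exact Prod.Lex.right _ h2
  have hPP : ∀ (prev : V × V → ℝ) (w v : V), (∀ q, r q (w, v) → prev q = m q) →
      P w v (fun u => prev (w, u)) = P w v (fun u => m (w, u)) := by
    intro prev w v h
    apply hP
    intro u hu
    exact h _ (Prod.Lex.right _ hu)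
  have hcompl : ∀ w v : V,
      ((Submodule.span ℚ (pre (fun a b => m (a, b)) t w v) : Set ℝ)ᶜ).Nonempty := by
    intro w v
    by_contra h
    rw [Set.not_nonempty_iff_eq_empty, Set.compl_empty_iff] at h
    have h1 := card_span_lt (card_pre_lt hV (fun a b => m (a, b)) t w v)
    have h2 : #(Submodule.span ℚ (pre (fun a b => m (a, b)) t w v) : Submodule ℚ ℝ) = 𝔠 := by
      change #((Submodule.span ℚ (pre (fun a b => m (a, b)) t w v) : Submodule ℚ ℝ) : Set ℝ) = 𝔠
      rw [h, Cardinal.mk_univ, Cardinal.mk_real]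
    exact absurd h1 (by rw [h2]; exact lt_irrefl _)
  refine ⟨fun a b => m (a, b), ?_, ?_, ?_⟩
  · intro w v q _ hk
    obtain ⟨prev, h1, _⟩ := hm (w, v)
    change m (w, v) = _
    rw [h1]
    simp only [F, hk]
  · intro w v _ hk
    obtain ⟨prev, h1, h2⟩ := hm (w, v)
    change m (w, v) ∉ _
    rw [h1]
    simp only [F, hk]
    rw [hPP prev w v h2, hpre prev w v h2]
    split_ifs with h3 h4
    · exact h3.some_mem.2
    · exact h4.some_mem
    · exact absurd (hcompl w v) h4
  · intro w v _ hk hc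
    obtain ⟨prev, h1, h2⟩ := hm (w, v)
    have hne : (P w v (fun u => m (w, u)) \
        (Submodule.span ℚ (pre (fun a b => m (a, b)) t w v) : Set ℝ)).Nonempty := by
      by_contra h
      rw [Set.not_nonempty_iff_eq_empty, Set.sdiff_eq_empty] at h
      have h3 := mk_le_mk_of_subset h
      have h4 := card_span_lt (card_pre_lt hV (fun a b => m (a, b)) t w v)
      rw [hc] at h3
      exact absurd (h3.trans_lt h4) (lt_irrefl _)
    change m (w, v) ∈ _
    rw [h1]
    simp only [F, hk]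
    rw [hPP prev w v h2, hpre prev w v h2]
    rw [dif_pos hne]
    exact hne.some_mem.1

theorem indep {kill : V → V → Option ℚ} {t : ℝ} {m : V → V → ℝ}
    (hgen : ∀ w v, v < w → kill w v = none → m w v ∉ Submodule.span ℚ (pre m t w v))
    (S : Finset (V × V)) (c : V × V → ℚ) (q r : ℚ)
    (hS : ∀ p ∈ S, p.2 < p.1 ∧ kill p.1 p.2 = none)
    (hsum : ∑ p ∈ S, (c p : ℝ) * m p.1 p.2 = (q : ℝ) + (r : ℝ) * t) :
    ∀ p ∈ S, c p = 0 := by
  classical
  by_contra hcon
  push Not at hcon
  obtain ⟨p1, hp1, hc1⟩ := hcon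
  let S' := S.filter (fun p => c p ≠ 0)
  have hne : S'.Nonempty := ⟨p1, Finset.mem_filter.2 ⟨hp1, hc1⟩⟩
  obtain ⟨p0, hp0, hmax⟩ := Finset.exists_max_image S' (fun p => toLex p) hne
  have hp0S : p0 ∈ S := (Finset.mem_filter.1 hp0).1
  have hc0 : c p0 ≠ 0 := (Finset.mem_filter.1 hp0).2
  have hsum' : ∑ p ∈ S', (c p : ℝ) * m p.1 p.2 = (q : ℝ) + (r : ℝ) * t := by
    rw [← hsum]
    apply Finset.sum_subset (Finset.filter_subset _ _)
    intro x hx hx2
    have : c x = 0 := by
      by_contra h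
      exact hx2 (Finset.mem_filter.2 ⟨hx, h⟩)
    rw [this]; simp
  have hsplit := Finset.add_sum_erase S' (fun p => (c p : ℝ) * m p.1 p.2) hp0
  have hc0' : (c p0 : ℝ) ≠ 0 := by exact_mod_cast hc0
  have hexpr : m p0.1 p0.2 = (q / c p0 : ℚ) • (1 : ℝ) + (r / c p0 : ℚ) • t -
      ∑ p ∈ S'.erase p0, (c p / c p0 : ℚ) • m p.1 p.2 := by
    have h1 : ∑ p ∈ S'.erase p0, (c p / c p0 : ℚ) • m p.1 p.2 =
        (∑ p ∈ S'.erase p0, (c p : ℝ) * m p.1 p.2) / (c p0 : ℝ) := by
      rw [Finset.sum_div]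
      refine Finset.sum_congr rfl fun p _ => ?_
      rw [Rat.smul_def]
      push_cast
      ring
    rw [h1, Rat.smul_def, Rat.smul_def]
    push_cast
    have h2 : (c p0 : ℝ) * m p0.1 p0.2 + ∑ p ∈ S'.erase p0, (c p : ℝ) * m p.1 p.2 =
        (q : ℝ) + (r : ℝ) * t := by
      rw [← hsum', ← hsplit]
    field_simp
    linarith
  apply hgen p0.1 p0.2 (hS p0 hp0S).1 (hS p0 hp0S).2
  rw [hexpr]
  refine Submodule.sub_mem _ (Submodule.add_mem _ ?_ ?_) ?_
  · exact Submodule.smul_mem _ _ (Submodule.subset_span (Or.inl (by simp)))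
  · exact Submodule.smul_mem _ _ (Submodule.subset_span (Or.inl (by simp)))
  · refine Submodule.sum_mem _ fun p hp => Submodule.smul_mem _ _ (Submodule.subset_span ?_)
    right
    have hpS' := Finset.mem_of_mem_erase hp
    have hpne := Finset.ne_of_mem_erase hp
    have hpS := (Finset.mem_filter.1 hpS').1
    refine ⟨p.1, p.2, (hS p hpS).1, ?_, rfl⟩
    have hle := hmax p hpS'
    have hlt : toLex p < toLex p0 := lt_of_le_of_ne hle (fun h => hpne (toLex_inj.1 h))
    rw [Prod.Lex.toLex_lt_toLex] at hlt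
    exact hlt

end Pool.Agent.Helper69.Rec
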