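import Mathlib
import Pool.Agent.Helper69.Rec
import Pool.Agent.Helper69.Cantor
import Pool.Agent.Helper69.Dich

set_option autoImplicit false
set_option linter.unusedSectionVars false
set_option linter.style.haveILetI false

namespace Pool.Agent.Helper69.Pack

open Cardinal Pool.Agent.Helper69.Dich

/-- index type: an initial well-order of length continuum -/
abbrev V : Type := (𝔠 : Cardinal.{0}).ord.ToType

theorem card_V : #V = 𝔠 := by simp [V]

theorem card_Iio (i : V) : #(Set.Iio i) < 𝔠 := by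
  have h : (#V).ord = Ordinal.type (fun x1 x2 : V => x1 < x2) := by simp [V]
  have := Cardinal.mk_Iio_lt i h
  rwa [card_V] at this

theorem card_Iic (i : V) : #(Set.Iic i) < 𝔠 := by
  have : Set.Iic i = insert i (Set.Iio i) := by
    ext x; simp [le_iff_eq_or_lt]
  rw [this]
  refine (mk_insert_le).trans_lt ?_
  exact Cardinal.add_lt_of_lt aleph0_le_continuum (card_Iio i)
    (one_lt_aleph0.trans aleph0_lt_continuum)

theorem seq_bdd (a : ℕ → V) : ∃ u, ∀ n, a n < u := by
  by_contra h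
  push Not at h
  have h1 : #V ≤ Cardinal.sum (fun n => #(Set.Iic (a n))) := by
    have hs : Function.Surjective (fun p : (Σ n, Set.Iic (a n)) => (p.2.1 : V)) := by
      intro u
      obtain ⟨n, hn⟩ := h u
      exact ⟨⟨n, ⟨u, hn⟩⟩, rfl⟩
    have := mk_le_of_surjective hs
    rwa [mk_sigma] at this
  have h2 := Cardinal.sum_lt_prod (fun n => #(Set.Iic (a n))) (fun _ : ℕ => 𝔠)
    (fun n => card_Iic (a n))
  have h3 : Cardinal.prod (fun _ : ℕ => (𝔠 : Cardinal.{0})) = 𝔠 := by
    rw [Cardinal.prod_const]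
    simp
  rw [h3] at h2
  rw [card_V] at h1
  exact absurd (h1.trans_lt h2) (lt_irrefl _)

/-- sequence tasks -/
abbrev SeqTask : Type := (ℕ → (V →₀ ℤ)) × Bool
/-- kill tasks -/
abbrev KillTask : Type := (ℕ → V) × (ℕ → ℚ)
abbrev Task : Type := SeqTask ⊕ KillTask

instance : Nonempty V := by
  rw [← Cardinal.mk_ne_zero_iff, card_V]
  exact (Cardinal.aleph0_pos.trans aleph0_lt_continuum).ne'

instance : Infinite V := by
  rw [Cardinal.infinite_iff, card_V]; exact aleph0_le_continuum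

theorem card_Task : #Task ≤ 𝔠 := by
  have h1 : #(V →₀ ℤ) = 𝔠 := by
    rw [mk_finsupp_of_infinite, card_V]
    rw [max_eq_left]
    simp [aleph0_le_continuum]
  have h2 : #(ℕ → (V →₀ ℤ)) = 𝔠 := by
    rw [Cardinal.mk_pi, Cardinal.prod_const, h1]
    simp
  have h3 : #SeqTask ≤ 𝔠 := by
    rw [Cardinal.mk_prod, h2]
    simp
  have h4 : #KillTask ≤ 𝔠 := by
    rw [Cardinal.mk_prod]
    simp
  rw [Cardinal.mk_sum]
  simp only [Cardinal.lift_id]
  exact Cardinal.add_le_of_le aleph0_le_continuum h3 h4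

theorem exists_s : ∃ s : ℝ → Task, ∀ T, #{r : ℝ | s r = T} = 𝔠 := by
  have h1 : #(Task × ℝ) ≤ #ℝ := by
    rw [Cardinal.mk_prod, Cardinal.mk_real]
    simp only [Cardinal.lift_id]
    exact Cardinal.mul_le_of_le aleph0_le_continuum card_Task le_rfl
  obtain ⟨f⟩ := h1
  haveI : Nonempty (Task × ℝ) := ⟨⟨Sum.inl (fun _ => 0, false), 0⟩⟩
  let g := Function.invFun f
  have hg : Function.Surjective g := Function.invFun_surjective f.injective
  refine ⟨fun r => (g r).1, fun T => ?_⟩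
  apply le_antisymm (by rw [← Cardinal.mk_real]; exact mk_set_le _)
  have hgf : ∀ x, g (f x) = x := Function.leftInverse_invFun f.injective
  have h2 : Function.Injective (fun r : ℝ => (⟨f (T, r), by
      change (g (f (T, r))).1 = T
      rw [hgf]⟩ : {r : ℝ | (g r).1 = T})) := by
    intro r r' h
    have h3 : f (T, r) = f (T, r') := congr_arg Subtype.val h
    have h4 := f.injective h3
    exact (Prod.mk.inj h4).2
  have h5 := Cardinal.mk_le_of_injective h2
  rwa [Cardinal.mk_real] at h5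

noncomputable def e : V ≃ ℝ ⊕ ℝ :=
  Classical.choice (Cardinal.eq.1 (by rw [card_V, Cardinal.mk_sum, Cardinal.mk_real]; simp))

noncomputable def s : ℝ → Task := Classical.choose exists_s

theorem card_s (T : Task) : #{r : ℝ | s r = T} = 𝔠 := Classical.choose_spec exists_s T

/-- nodes for group generators -/
noncomputable def X (a : ℝ) : V := e.symm (Sum.inl a)
/-- nodes for coordinates -/
noncomputable def Y (b : ℝ) : V := e.symm (Sum.inr b)

theorem X_inj : Function.Injective X := fun a b h => by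
  have := e.symm.injective h
  exact Sum.inl_injective this

theorem Y_inj : Function.Injective Y := fun a b h => by
  have := e.symm.injective h
  exact Sum.inr_injective this

theorem X_ne_Y (a b : ℝ) : X a ≠ Y b := fun h => by
  have := e.symm.injective h
  exact Sum.inl_ne_inr this

noncomputable def num (w : V) : ℝ := Sum.elim id id (e w)

theorem num_X (a : ℝ) : num (X a) = a := by simp [num, X]
theorem num_Y (a : ℝ) : num (Y a) = a := by simp [num, Y]

noncomputable def seqOf (w : V) : Option SeqTask :=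
  match s (num w) with
  | Sum.inl q => some q
  | Sum.inr _ => none

open Classical in
noncomputable def killFun (T : Task) (v : V) : Option ℚ :=
  match T with
  | Sum.inl _ => none
  | Sum.inr aq => if h : ∃ n, aq.1 n = v then some (aq.2 (Classical.choose h)) else none

noncomputable def killOf (w v : V) : Option ℚ :=
  match e w with
  | Sum.inl _ => none
  | Sum.inr r => killFun (s r) v

theorem killOf_X (a : ℝ) (v : V) : killOf (X a) v = none := by
  simp [killOf, X]

theorem killOf_Y (b : ℝ) (v : V) : killOf (Y b) v = killFun (s b) v := by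
  simp [killOf, Y]

theorem killOf_seq (w : V) (q : SeqTask) (hq : s (num w) = Sum.inl q) (v : V) :
    killOf w v = none := by
  unfold killOf num at *
  rcases h : e w with r | r
  · rfl
  · rw [h] at hq
    simp only [Sum.elim_inr, id] at hq
    simp [hq, killFun]

noncomputable def P (w v : V) (f : V → ℝ) : Set ℝ :=
  match s (num w) with
  | Sum.inr _ => Set.univ
  | Sum.inl q => {t | ∀ k, IsMx (q.1 k) v → ∃ j : ℤ,
      |((q.1 k) v : ℝ) * t + ((∑ u ∈ (q.1 k).support.erase v, ((q.1 k) u : ℝ) * f u) -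
        (if q.2 then 1 / 2 else 0)) - j| ≤ 1 / 2 ^ (k + 3)}

theorem P_seq (w v : V) (f : V → ℝ) (q : SeqTask) (hq : s (num w) = Sum.inl q) :
    P w v f = {t | ∀ k, IsMx (q.1 k) v → ∃ j : ℤ,
      |((q.1 k) v : ℝ) * t + ((∑ u ∈ (q.1 k).support.erase v, ((q.1 k) u : ℝ) * f u) -
        (if q.2 then 1 / 2 else 0)) - j| ≤ 1 / 2 ^ (k + 3)} := by
  unfold P
  rw [hq]

theorem P_congr (w v : V) (f g : V → ℝ) (h : ∀ u < v, f u = g u) : P w v f = P w v g := by
  unfold P
  rcases s (num w) with q | q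
  · ext t
    simp only [Set.mem_ofPred_eq]
    refine forall_congr' fun k => ?_
    refine imp_congr_right fun hk => ?_
    have : ∑ u ∈ (q.1 k).support.erase v, ((q.1 k) u : ℝ) * f u =
        ∑ u ∈ (q.1 k).support.erase v, ((q.1 k) u : ℝ) * g u := by
      refine Finset.sum_congr rfl fun u hu => ?_
      rw [Finset.mem_erase, Finsupp.mem_support_iff] at hu
      rw [h u (lt_of_le_of_ne (hk.2 u hu.2) hu.1)]
    rw [this]
  · rfl

theorem P_card (w v : V) (f : V → ℝ) (q : SeqTask) (hq : s (num w) = Sum.inl q)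
    (hgood : Good q.1) : #(P w v f) = 𝔠 := by
  rw [P_seq w v f q hq]
  by_cases hex : ∃ k, IsMx (q.1 k) v
  swap
  · push Not at hex
    have : {t : ℝ | ∀ k, IsMx (q.1 k) v → ∃ j : ℤ,
      |((q.1 k) v : ℝ) * t + ((∑ u ∈ (q.1 k).support.erase v, ((q.1 k) u : ℝ) * f u) -
        (if q.2 then 1 / 2 else 0)) - j| ≤ 1 / 2 ^ (k + 3)} = Set.univ := by
      ext t
      simp only [Set.mem_ofPred_eq, Set.mem_univ, iff_true]
      exact fun k hk => absurd hk (hex k)
    rw [this, Cardinal.mk_univ, Cardinal.mk_real]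
  obtain ⟨k0, hk0⟩ := hex
  rcases hgood with ⟨b, hb, hbm⟩ | ⟨v0, hv0, hgr⟩
  · have hv : v = b k0 := hk0.unique (hbm k0)
    have huniq : ∀ k, IsMx (q.1 k) v → k = k0 := by
      intro k hk
      have := (hk.unique (hbm k)).symm.trans hv
      exact hb.injective this
    have : {t : ℝ | ∀ k, IsMx (q.1 k) v → ∃ j : ℤ,
      |((q.1 k) v : ℝ) * t + ((∑ u ∈ (q.1 k).support.erase v, ((q.1 k) u : ℝ) * f u) -
        (if q.2 then 1 / 2 else 0)) - j| ≤ 1 / 2 ^ (k + 3)} =
      {t : ℝ | ∃ j : ℤ,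
      |((q.1 k0) v : ℝ) * t + ((∑ u ∈ (q.1 k0).support.erase v, ((q.1 k0) u : ℝ) * f u) -
        (if q.2 then 1 / 2 else 0)) - j| ≤ 1 / 2 ^ (k0 + 3)} := by
      ext t
      simp only [Set.mem_ofPred_eq]
      constructor
      · intro h
        exact h k0 hk0
      · intro h k hk
        rw [huniq k hk]
        exact h
    rw [this]
    exact Cantor.card_interval _ hk0.1 _ _ (by positivity)
  · have hv : v = v0 := hk0.unique (hv0 k0)
    subst hv
    have : {t : ℝ | ∀ k, IsMx (q.1 k) v → ∃ j : ℤ,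
      |((q.1 k) v : ℝ) * t + ((∑ u ∈ (q.1 k).support.erase v, ((q.1 k) u : ℝ) * f u) -
        (if q.2 then 1 / 2 else 0)) - j| ≤ 1 / 2 ^ (k + 3)} =
      {t : ℝ | ∀ k, ∃ j : ℤ,
      |((q.1 k) v : ℝ) * t + ((∑ u ∈ (q.1 k).support.erase v, ((q.1 k) u : ℝ) * f u) -
        (if q.2 then 1 / 2 else 0)) - j| ≤ 1 / 2 ^ (k + 3)} := by
      ext t
      simp only [Set.mem_ofPred_eq]
      exact ⟨fun h k => h k (hv0 k), fun h k _ => h k⟩
    rw [this]
    exact Cantor.card_cantor (n := fun k => q.1 k v)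
      (c := fun k => (∑ u ∈ (q.1 k).support.erase v, ((q.1 k) u : ℝ) * f u) -
        (if q.2 then 1 / 2 else 0)) (hv0 0).1 hgr

/-- the irrational number kept outside of everything -/
noncomputable def t0 : ℝ := Real.sqrt 2

noncomputable def m : V → V → ℝ := Classical.choose (Rec.exists_matrix card_Iio P P_congr killOf t0)

theorem m_kill (w v : V) (q : ℚ) (h : v < w) (hk : killOf w v = some q) : m w v = (q : ℝ) :=
  (Classical.choose_spec (Rec.exists_matrix card_Iio P P_congr killOf t0)).1 w v q h hk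

theorem m_gen (w v : V) (h : v < w) (hk : killOf w v = none) :
    m w v ∉ Submodule.span ℚ (Rec.pre m t0 w v) :=
  (Classical.choose_spec (Rec.exists_matrix card_Iio P P_congr killOf t0)).2.1 w v h hk

theorem m_P (w v : V) (h : v < w) (hk : killOf w v = none) (hc : #(P w v (m w)) = 𝔠) :
    m w v ∈ P w v (m w) :=
  (Classical.choose_spec (Rec.exists_matrix card_Iio P P_congr killOf t0)).2.2 w v h hk hc

/-- the sequence constraint at a sequence node -/
theorem seq_constraint (w : V) (q : SeqTask) (hq : s (num w) = Sum.inl q) (hgood : Good q.1)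
    (k : ℕ) (hk : ∀ u, q.1 k u ≠ 0 → u < w) :
    ∃ j : ℤ, |Finsupp.linearCombination ℤ (m w) (q.1 k) - (if q.2 then 1 / 2 else 0) - j| ≤
      1 / 2 ^ (k + 3) := by
  obtain ⟨v, hv⟩ : ∃ v, IsMx (q.1 k) v := by
    rcases hgood with ⟨b, _, hbm⟩ | ⟨v0, hv0, _⟩
    · exact ⟨_, hbm k⟩
    · exact ⟨_, hv0 k⟩
  have hlt := hk v hv.1
  have h1 := m_P w v hlt (killOf_seq w q hq v) (P_card w v _ q hq hgood)
  rw [P_seq w v _ q hq] at h1
  obtain ⟨j, hj⟩ := h1 k hv
  refine ⟨j, ?_⟩
  have h2 : Finsupp.linearCombination ℤ (m w) (q.1 k) =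
      ((q.1 k) v : ℝ) * m w v + ∑ u ∈ (q.1 k).support.erase v, ((q.1 k) u : ℝ) * m w u := by
    rw [Finsupp.linearCombination_apply, Finsupp.sum,
      ← Finset.add_sum_erase _ _ (Finsupp.mem_support_iff.2 hv.1)]
    simp only [zsmul_eq_mul]
  rw [h2]
  have h3 : ((q.1 k) v : ℝ) * m w v + ∑ u ∈ (q.1 k).support.erase v, ((q.1 k) u : ℝ) * m w u -
      (if q.2 then 1 / 2 else 0) - j = ((q.1 k) v : ℝ) * m w v +
      ((∑ u ∈ (q.1 k).support.erase v, ((q.1 k) u : ℝ) * m w u) -
        (if q.2 then 1 / 2 else 0)) - j := by ring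
  rw [h3]
  exact hj

/-- existence of nodes with a given task beyond a bound -/
theorem node_X (T : Task) (u : V) : ∃ r, s r = T ∧ u < X r := by
  by_contra h
  push Not at h
  have h1 : #{r : ℝ | s r = T} ≤ #(Set.Iic u) := by
    refine Cardinal.mk_le_of_injective (f := fun r => ⟨X r.1, h r.1 r.2⟩) ?_
    intro r r' h'
    exact Subtype.ext (X_inj (congr_arg Subtype.val h'))
  rw [card_s] at h1
  exact absurd (h1.trans_lt (card_Iic u)) (lt_irrefl _)

theorem node_Y (T : Task) (u : V) : ∃ r, s r = T ∧ u < Y r := by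
  by_contra h
  push Not at h
  have h1 : #{r : ℝ | s r = T} ≤ #(Set.Iic u) := by
    refine Cardinal.mk_le_of_injective (f := fun r => ⟨Y r.1, h r.1 r.2⟩) ?_
    intro r r' h'
    exact Subtype.ext (Y_inj (congr_arg Subtype.val h'))
  rw [card_s] at h1
  exact absurd (h1.trans_lt (card_Iic u)) (lt_irrefl _)

/-- the matrix of the pairing -/
noncomputable def M (a b : ℝ) : ℝ := if X a < Y b then m (Y b) (X a) else m (X a) (Y b)

noncomputable def pr (p : ℝ × ℝ) : V × V :=
  if X p.1 < Y p.2 then (Y p.2, X p.1) else (X p.1, Y p.2)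

theorem M_eq (p : ℝ × ℝ) : M p.1 p.2 = m (pr p).1 (pr p).2 := by
  unfold M pr
  split_ifs <;> rfl

theorem pr_inj : Function.Injective pr := by
  rintro ⟨a, b⟩ ⟨a', b'⟩ h
  unfold pr at h
  simp only at h
  split_ifs at h with h1 h2 h2
  · have := Prod.mk.inj h
    exact Prod.ext (X_inj this.2) (Y_inj this.1)
  · exact absurd (Prod.mk.inj h).1.symm (X_ne_Y _ _)
  · exact absurd (Prod.mk.inj h).1 (X_ne_Y _ _)
  · have := Prod.mk.inj h
    exact Prod.ext (X_inj this.1) (Y_inj this.2)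

theorem pr_lt (p : ℝ × ℝ) : (pr p).2 < (pr p).1 := by
  unfold pr
  split_ifs with h
  · exact h
  · exact lt_of_le_of_ne (not_lt.1 h) (X_ne_Y _ _).symm

/-- the killed generators at a coordinate -/
def Kd (b : ℝ) : Set ℝ := {a | X a < Y b ∧ killOf (Y b) (X a) ≠ none}

theorem Kd_seq (b : ℝ) (q : SeqTask) (hq : s b = Sum.inl q) : Kd b = ∅ := by
  ext a
  simp only [Kd, Set.mem_ofPred_eq, Set.mem_empty_iff_false, iff_false, not_and, not_not]
  intro _
  exact killOf_seq _ q (by rw [num_Y]; exact hq) _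

theorem Kd_countable (b : ℝ) : (Kd b).Countable := by
  rcases hs : s b with q | q
  · rw [Kd_seq b q hs]; exact Set.countable_empty
  · have hsub : Kd b ⊆ X ⁻¹' (Set.range q.1) := by
      rintro a ⟨_, ha⟩
      rw [killOf_Y, hs] at ha
      unfold killFun at ha
      simp only at ha
      split_ifs at ha with h
      · exact h
      · exact absurd rfl ha
    exact ((Set.countable_range _).preimage X_inj).mono hsub

theorem pr_kill (p : ℝ × ℝ) (hp : p.1 ∉ Kd p.2) : killOf (pr p).1 (pr p).2 = none := by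
  unfold pr
  split_ifs with h
  · by_contra h2
    exact hp ⟨h, h2⟩
  · exact killOf_X _ _

theorem M_kill (p : ℝ × ℝ) (hp : p.1 ∈ Kd p.2) : ∃ q : ℚ, M p.1 p.2 = q := by
  obtain ⟨h1, h2⟩ := hp
  obtain ⟨q, hq⟩ := Option.ne_none_iff_exists'.1 h2
  refine ⟨q, ?_⟩
  unfold M
  rw [if_pos h1]
  exact m_kill _ _ q h1 hq

noncomputable def pair (g h : ℝ →₀ ℤ) : ℝ :=
  ∑ p ∈ g.support ×ˢ h.support, ((g p.1 * h p.2 : ℤ) : ℝ) * M p.1 p.2

open Classical in
theorem key (g h : ℝ →₀ ℤ) (q r : ℚ) (hp : pair g h = (q : ℝ) + (r : ℝ) * t0) :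
    (∀ a, g a ≠ 0 → ∀ b, h b ≠ 0 → a ∈ Kd b) ∧ r = 0 := by
  let S0 := g.support ×ˢ h.support
  let S1 := S0.filter (fun p => ¬ p.1 ∈ Kd p.2)
  let S2 := S0.filter (fun p => p.1 ∈ Kd p.2)
  have hsplit : pair g h = ∑ p ∈ S2, ((g p.1 * h p.2 : ℤ) : ℝ) * M p.1 p.2 +
      ∑ p ∈ S1, ((g p.1 * h p.2 : ℤ) : ℝ) * M p.1 p.2 :=
    (Finset.sum_filter_add_sum_filter_not S0 (fun p => p.1 ∈ Kd p.2) _).symm
  have hrho : ∃ ρ : ℝ × ℝ → ℚ, ∀ p : ℝ × ℝ, p.1 ∈ Kd p.2 → M p.1 p.2 = ρ p := by
    refine ⟨fun p => if hp : p.1 ∈ Kd p.2 then Classical.choose (M_kill p hp) else 0, ?_⟩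
    intro p hp
    simp only [hp, dif_pos]
    exact Classical.choose_spec (M_kill p hp)
  obtain ⟨ρ, hρ⟩ := hrho
  have h2 : ∑ p ∈ S2, ((g p.1 * h p.2 : ℤ) : ℝ) * M p.1 p.2 =
      ((∑ p ∈ S2, ((g p.1 * h p.2 : ℤ) : ℚ) * ρ p : ℚ) : ℝ) := by
    push_cast
    refine Finset.sum_congr rfl fun p hp => ?_
    rw [hρ p (Finset.mem_filter.1 hp).2]
  let c : V × V → ℚ := fun x =>
    match e x.1, e x.2 with
    | Sum.inr b, Sum.inl a => (g a * h b : ℤ)
    | Sum.inl a, Sum.inr b => (g a * h b : ℤ)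
    | Sum.inl _, Sum.inl _ => 0
    | Sum.inr _, Sum.inr _ => 0
  have hc : ∀ p : ℝ × ℝ, c (pr p) = (g p.1 * h p.2 : ℤ) := by
    intro p
    simp only [c]
    unfold pr
    split_ifs with h
    · simp [X, Y]
    · simp [X, Y]
  have h1 : ∑ p ∈ S1, ((g p.1 * h p.2 : ℤ) : ℝ) * M p.1 p.2 =
      ∑ x ∈ S1.image pr, (c x : ℝ) * m x.1 x.2 := by
    rw [Finset.sum_image (fun _ _ _ _ h => pr_inj h)]
    refine Finset.sum_congr rfl fun p _ => ?_
    rw [hc, M_eq]
    push_cast
    ring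
  have hS : ∀ x ∈ S1.image pr, x.2 < x.1 ∧ killOf x.1 x.2 = none := by
    intro x hx
    obtain ⟨p, hp, rfl⟩ := Finset.mem_image.1 hx
    exact ⟨pr_lt p, pr_kill p (Finset.mem_filter.1 hp).2⟩
  have hzero := Rec.indep (t := t0) m_gen (S1.image pr) c
    (q - ∑ p ∈ S2, ((g p.1 * h p.2 : ℤ) : ℚ) * ρ p) r hS (by
      rw [← h1]
      rw [hsplit, h2] at hp
      push_cast at hp ⊢
      linarith)
  have hall : ∀ a, g a ≠ 0 → ∀ b, h b ≠ 0 → a ∈ Kd b := by
    intro a ha b hb
    by_contra hn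
    have hmem : (a, b) ∈ S1 := by
      refine Finset.mem_filter.2 ⟨Finset.mem_product.2 ⟨?_, ?_⟩, hn⟩
      · exact Finsupp.mem_support_iff.2 ha
      · exact Finsupp.mem_support_iff.2 hb
    have h3 := hzero (pr (a, b)) (Finset.mem_image_of_mem _ hmem)
    rw [hc] at h3
    have h4 : g a * h b = 0 := by exact_mod_cast h3
    rcases mul_eq_zero.1 h4 with h5 | h5
    · exact ha h5
    · exact hb h5
  refine ⟨hall, ?_⟩
  have hS1 : S1 = ∅ := by
    rw [Finset.eq_empty_iff_forall_notMem]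
    intro p hp
    obtain ⟨hp1, hp2⟩ := Finset.mem_filter.1 hp
    obtain ⟨hp3, hp4⟩ := Finset.mem_product.1 hp1
    exact hp2 (hall p.1 (Finsupp.mem_support_iff.1 hp3) p.2 (Finsupp.mem_support_iff.1 hp4))
  rw [hsplit, h2, hS1, Finset.sum_empty, add_zero] at hp
  by_contra hr
  have hirr : Irrational t0 := irrational_sqrt_two
  apply hirr
  refine ⟨((∑ p ∈ S2, ((g p.1 * h p.2 : ℤ) : ℚ) * ρ p) - q) / r, ?_⟩
  have hr' : (r : ℝ) ≠ 0 := by exact_mod_cast hr
  push_cast at hp ⊢
  rw [div_eq_iff hr']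
  linarith

end Pool.Agent.Helper69.Pack
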