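import Mathlib
import Pool.Agent.Helper69.Pack

set_option autoImplicit false
set_option linter.unusedSectionVars false
set_option linter.style.haveILetI false

namespace Pool.Agent.Helper69.Pack

open Cardinal Pool.Agent.Helper69.Dich

/-- value of the group element with coefficients `g` at coordinate `b` -/
noncomputable def val (g : ℝ →₀ ℤ) (b : ℝ) : ℝ := Finsupp.linearCombination ℤ (fun a => M a b) g

/-- value of the character with exponents `h` at the generator `a` -/
noncomputable def valH (h : ℝ →₀ ℤ) (a : ℝ) : ℝ := Finsupp.linearCombination ℤ (fun b => M a b) h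

theorem val_add (g g' : ℝ →₀ ℤ) (b : ℝ) : val (g + g') b = val g b + val g' b := map_add _ _ _
theorem val_sub (g g' : ℝ →₀ ℤ) (b : ℝ) : val (g - g') b = val g b - val g' b := map_sub _ _ _
theorem val_zero (b : ℝ) : val 0 b = 0 := map_zero _
theorem valH_add (g g' : ℝ →₀ ℤ) (b : ℝ) : valH (g + g') b = valH g b + valH g' b := map_add _ _ _
theorem valH_sub (g g' : ℝ →₀ ℤ) (b : ℝ) : valH (g - g') b = valH g b - valH g' b := map_sub _ _ _

theorem pair_eq_val (g h : ℝ →₀ ℤ) :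
    Finsupp.linearCombination ℤ (fun b => val g b) h = pair g h := by
  unfold pair val
  rw [Finset.sum_product_right, Finsupp.linearCombination_apply, Finsupp.sum]
  refine Finset.sum_congr rfl fun b _ => ?_
  rw [Finsupp.linearCombination_apply, Finsupp.sum, Finset.smul_sum]
  refine Finset.sum_congr rfl fun a _ => ?_
  simp only [zsmul_eq_mul]
  push_cast
  ring

theorem pair_eq_valH (g h : ℝ →₀ ℤ) :
    Finsupp.linearCombination ℤ (fun a => valH h a) g = pair g h := by
  unfold pair valH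
  rw [Finset.sum_product, Finsupp.linearCombination_apply, Finsupp.sum]
  refine Finset.sum_congr rfl fun a _ => ?_
  rw [Finsupp.linearCombination_apply, Finsupp.sum, Finset.smul_sum]
  refine Finset.sum_congr rfl fun b _ => ?_
  simp only [zsmul_eq_mul]
  push_cast
  ring

theorem val_eq_pair (g : ℝ →₀ ℤ) (b : ℝ) : val g b = pair g (Finsupp.single b 1) := by
  rw [← pair_eq_val, Finsupp.linearCombination_single, one_smul]

theorem valH_eq_pair (h : ℝ →₀ ℤ) (a : ℝ) : valH h a = pair (Finsupp.single a 1) h := by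
  rw [← pair_eq_valH, Finsupp.linearCombination_single, one_smul]

/-- values avoid nonzero rational multiples of the fixed irrational modulo rationals -/
theorem val_ne (g : ℝ →₀ ℤ) (b : ℝ) (q r : ℚ) (hr : r ≠ 0) :
    val g b ≠ (q : ℝ) + (r : ℝ) * t0 := by
  intro h
  rw [val_eq_pair] at h
  exact hr (key _ _ _ _ h).2

/-- characters have countable kernels -/
theorem ker_countable (h : ℝ →₀ ℤ) (hh : h ≠ 0) :
    {g : ℝ →₀ ℤ | ∃ n : ℤ, pair g h = n}.Countable := by
  obtain ⟨b, hb⟩ := Finsupp.ne_iff.1 hh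
  have hb' : h b ≠ 0 := by simpa using hb
  have hsub : {g : ℝ →₀ ℤ | ∃ n : ℤ, pair g h = n} ⊆
      {g : ℝ →₀ ℤ | (g.support : Set ℝ) ⊆ Kd b} := by
    rintro g ⟨n, hn⟩ a ha
    have h1 := (key g h n 0 (by rw [hn]; push_cast; ring)).1
    exact h1 a (Finsupp.mem_support_iff.1 ha) b hb'
  refine Set.Countable.mono hsub ?_
  have hc := Kd_countable b
  haveI : Countable (Kd b) := hc.to_subtype
  have hinj : Set.InjOn (fun g : ℝ →₀ ℤ => Finsupp.comapDomain (Subtype.val : Kd b → ℝ) g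
      (Subtype.val_injective.injOn)) {g : ℝ →₀ ℤ | (g.support : Set ℝ) ⊆ Kd b} := by
    intro g hg g' hg' hgg
    ext a
    by_cases ha : a ∈ Kd b
    · exact DFunLike.congr_fun hgg ⟨a, ha⟩
    · have h1 : g a = 0 := by
        by_contra hne
        exact ha (hg (Finsupp.mem_support_iff.2 hne))
      have h2 : g' a = 0 := by
        by_contra hne
        exact ha (hg' (Finsupp.mem_support_iff.2 hne))
      rw [h1, h2]
  exact Set.countable_of_injective_of_countable_image hinj (Set.to_countable _)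

/-- at a sequence coordinate no nonzero element has integer value -/
theorem val_seq_ne (g : ℝ →₀ ℤ) (hg : g ≠ 0) (b : ℝ) (q : SeqTask) (hq : s b = Sum.inl q) (n : ℤ) :
    val g b ≠ n := by
  intro h
  rw [val_eq_pair] at h
  obtain ⟨a, ha⟩ := Finsupp.ne_iff.1 hg
  have h1 := (key g _ n 0 (by rw [h]; push_cast; ring)).1 a (by simpa using ha) b (by simp)
  rw [Kd_seq b q hq] at h1
  exact h1

theorem valH_ne (h : ℝ →₀ ℤ) (hh : h ≠ 0) (a : ℝ) (ha : ∀ b, h b ≠ 0 → Y b < X a) (n : ℤ) :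
    valH h a ≠ n := by
  intro he
  rw [valH_eq_pair] at he
  obtain ⟨b, hb⟩ := Finsupp.ne_iff.1 hh
  have hb' : h b ≠ 0 := by simpa using hb
  have h1 := (key _ h n 0 (by rw [he]; push_cast; ring)).1 a (by simp) b hb'
  exact lt_asymm h1.1 (ha b hb')

theorem finsupp_bdd (f : ℝ → V) (g : ℝ →₀ ℤ) : ∃ u : V, ∀ a, g a ≠ 0 → f a < u := by
  obtain ⟨u0, _⟩ := seq_bdd (fun _ => Classical.arbitrary V)
  have hfin : (f '' (g.support : Set ℝ)).Finite := g.support.finite_toSet.image f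
  obtain ⟨v, hv⟩ := hfin.bddAbove
  obtain ⟨u, hu⟩ := seq_bdd (fun _ => v)
  refine ⟨u, fun a ha => lt_of_le_of_lt ?_ (hu 0)⟩
  exact hv ⟨a, Finsupp.mem_support_iff.2 ha, rfl⟩

theorem good_bdd (z : ℕ → (V →₀ ℤ)) (hz : Good z) : ∃ u : V, ∀ k v, z k v ≠ 0 → v < u := by
  have hmx : ∀ k, ∃ v, IsMx (z k) v := by
    intro k
    rcases hz with ⟨b, _, hb⟩ | ⟨v, hv, _⟩
    · exact ⟨_, hb k⟩
    · exact ⟨_, hv k⟩
  choose b hb using hmx
  obtain ⟨u, hu⟩ := seq_bdd b
  exact ⟨u, fun k v hv => ((hb k).2 v hv).trans_lt (hu k)⟩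

/-- extraction transferred along an injection of the reals into the well order -/
theorem extract (F : ℝ → V) (hF : Function.Injective F) (D : Set (ℝ →₀ ℤ)) (hD : D.Infinite) :
    ∃ (z0 : ℝ →₀ ℤ) (z : ℕ → (ℝ →₀ ℤ)), (∀ k, z0 + z k ∈ D) ∧
      Good (fun k => Finsupp.mapDomain F (z k)) := by
  have hinj := Finsupp.mapDomain_injective (M := ℤ) hF
  have hD' : (Finsupp.mapDomain F '' D).Infinite := hD.image hinj.injOn
  obtain ⟨z0, z, h1, h2, h3, h4⟩ := Dich.concl _ hD'
  have hr : ∀ k u, (z0 + z k) u ≠ 0 → u ∈ Set.range F := by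
    intro k u hu
    obtain ⟨d, _, hd⟩ := h1 k
    rw [← hd] at hu
    by_contra hn
    exact hu (Finsupp.mapDomain_of_notMem_range _ _ hn)
  have e0 : Finsupp.mapDomain F (Finsupp.comapDomain F z0 hF.injOn) = z0 :=
    Finsupp.mapDomain_comapDomain F hF z0 fun u hu =>
      hr 0 u (h3 0 u (Finsupp.mem_support_iff.1 hu))
  have ez : ∀ k, Finsupp.mapDomain F (Finsupp.comapDomain F (z k) hF.injOn) = z k := fun k =>
    Finsupp.mapDomain_comapDomain F hF (z k) fun u hu =>
      hr k u (h2 k u (Finsupp.mem_support_iff.1 hu))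
  refine ⟨Finsupp.comapDomain F z0 hF.injOn, fun k => Finsupp.comapDomain F (z k) hF.injOn, ?_, ?_⟩
  · intro k
    obtain ⟨d, hd, hdd⟩ := h1 k
    have : Finsupp.comapDomain F z0 hF.injOn + Finsupp.comapDomain F (z k) hF.injOn = d := by
      apply hinj
      rw [Finsupp.mapDomain_add, e0, ez, hdd]
    rw [this]; exact hd
  · have : (fun k => Finsupp.mapDomain F (Finsupp.comapDomain F (z k) hF.injOn)) = z :=
      funext ez
    rw [this]; exact h4

theorem lc_Y (g : ℝ →₀ ℤ) (b : ℝ) (h : ∀ a, g a ≠ 0 → X a < Y b) :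
    Finsupp.linearCombination ℤ (m (Y b)) (Finsupp.mapDomain X g) = val g b := by
  rw [Finsupp.linearCombination_mapDomain]
  unfold val
  rw [Finsupp.linearCombination_apply, Finsupp.linearCombination_apply, Finsupp.sum, Finsupp.sum]
  refine Finset.sum_congr rfl fun a ha => ?_
  simp only [Function.comp, M]
  rw [if_pos (h a (Finsupp.mem_support_iff.1 ha))]

theorem lc_X (g : ℝ →₀ ℤ) (a : ℝ) (h : ∀ b, g b ≠ 0 → Y b < X a) :
    Finsupp.linearCombination ℤ (m (X a)) (Finsupp.mapDomain Y g) = valH g a := by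
  rw [Finsupp.linearCombination_mapDomain]
  unfold valH
  rw [Finsupp.linearCombination_apply, Finsupp.linearCombination_apply, Finsupp.sum, Finsupp.sum]
  refine Finset.sum_congr rfl fun b hb => ?_
  simp only [Function.comp, M]
  rw [if_neg (not_lt.2 (h b (Finsupp.mem_support_iff.1 hb)).le)]

theorem mapDomain_ne {F : ℝ → V} (hF : Function.Injective F) (g : ℝ →₀ ℤ) (u : V)
    (hu : Finsupp.mapDomain F g u ≠ 0) : ∃ a, F a = u ∧ g a ≠ 0 := by
  by_cases h : u ∈ Set.range F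
  · obtain ⟨a, rfl⟩ := h
    refine ⟨a, rfl, ?_⟩
    rwa [Finsupp.mapDomain_apply hF] at hu
  · exact absurd (Finsupp.mapDomain_of_notMem_range _ _ h) hu

/-- sequences in the group -/
theorem seqG (D : Set (ℝ →₀ ℤ)) (hD : D.Infinite) :
    ∃ (z0 : ℝ →₀ ℤ) (z : ℕ → (ℝ →₀ ℤ)), (∀ k, z0 + z k ∈ D) ∧
      (∃ b, ∀ k, ∃ j : ℤ, |val (z k) b - 1 / 2 - j| ≤ 1 / 2 ^ (k + 3)) ∧
      (∀ g, g ≠ 0 → ∃ b, (∀ k, ∃ j : ℤ, |val (z k) b - j| ≤ 1 / 2 ^ (k + 3)) ∧
        ∀ j : ℤ, val g b ≠ j) := by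
  obtain ⟨z0, z, h1, h2⟩ := extract X X_inj D hD
  obtain ⟨u, hu⟩ := good_bdd _ h2
  refine ⟨z0, z, h1, ?_, ?_⟩
  · obtain ⟨b, hb, hlt⟩ := node_Y (Sum.inl (fun k => Finsupp.mapDomain X (z k), true)) u
    refine ⟨b, fun k => ?_⟩
    have h3 := seq_constraint (Y b) _ (by rw [num_Y]; exact hb) h2 k
      (fun v hv => (hu k v hv).trans hlt)
    have h4 := lc_Y (z k) b (fun a ha => by
      refine (hu k (X a) ?_).trans hlt
      rwa [Finsupp.mapDomain_apply X_inj])
    simp only at h3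
    rw [h4] at h3
    simpa using h3
  · intro g hg
    obtain ⟨b, hb, hlt⟩ := node_Y (Sum.inl (fun k => Finsupp.mapDomain X (z k), false)) u
    refine ⟨b, fun k => ?_, fun j => val_seq_ne g hg b _ hb j⟩
    have h3 := seq_constraint (Y b) _ (by rw [num_Y]; exact hb) h2 k
      (fun v hv => (hu k v hv).trans hlt)
    have h4 := lc_Y (z k) b (fun a ha => by
      refine (hu k (X a) ?_).trans hlt
      rwa [Finsupp.mapDomain_apply X_inj])
    simp only at h3
    rw [h4] at h3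
    simpa using h3

/-- sequences in the dual -/
theorem seqH (D : Set (ℝ →₀ ℤ)) (hD : D.Infinite) :
    ∃ (z0 : ℝ →₀ ℤ) (z : ℕ → (ℝ →₀ ℤ)), (∀ k, z0 + z k ∈ D) ∧
      (∃ a, ∀ k, ∃ j : ℤ, |valH (z k) a - 1 / 2 - j| ≤ 1 / 2 ^ (k + 3)) ∧
      (∀ h, h ≠ 0 → ∃ a, (∀ k, ∃ j : ℤ, |valH (z k) a - j| ≤ 1 / 2 ^ (k + 3)) ∧
        ∀ j : ℤ, valH h a ≠ j) := by
  obtain ⟨z0, z, h1, h2⟩ := extract Y Y_inj D hD
  obtain ⟨u, hu⟩ := good_bdd _ h2
  refine ⟨z0, z, h1, ?_, ?_⟩
  · obtain ⟨a, ha, hlt⟩ := node_X (Sum.inl (fun k => Finsupp.mapDomain Y (z k), true)) u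
    refine ⟨a, fun k => ?_⟩
    have h3 := seq_constraint (X a) _ (by rw [num_X]; exact ha) h2 k
      (fun v hv => (hu k v hv).trans hlt)
    have h4 := lc_X (z k) a (fun b hb => by
      refine (hu k (Y b) ?_).trans hlt
      rwa [Finsupp.mapDomain_apply Y_inj])
    simp only at h3
    rw [h4] at h3
    simpa using h3
  · intro h hh
    obtain ⟨u', hu'⟩ := finsupp_bdd Y h
    obtain ⟨a, ha, hlt⟩ := node_X (Sum.inl (fun k => Finsupp.mapDomain Y (z k), false)) (max u u')
    refine ⟨a, fun k => ?_, fun j => valH_ne h hh a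
      (fun b hb => (hu' b hb).trans ((le_max_right _ _).trans_lt hlt)) j⟩
    have h3 := seq_constraint (X a) _ (by rw [num_X]; exact ha) h2 k
      (fun v hv => (hu k v hv).trans ((le_max_left _ _).trans_lt hlt))
    have h4 := lc_X (z k) a (fun b hb => by
      refine (hu k (Y b) ?_).trans ((le_max_left _ _).trans_lt hlt)
      rwa [Finsupp.mapDomain_apply Y_inj])
    simp only at h3
    rw [h4] at h3
    simpa using h3

/-- countable subgroups are separated from outside elements by coordinates -/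
theorem kill_sep (C : AddSubgroup (ℝ →₀ ℤ)) (hC : (C : Set (ℝ →₀ ℤ)).Countable)
    (g : ℝ →₀ ℤ) (hg : g ∉ C) :
    ∃ b, (∀ c ∈ C, ∃ n : ℤ, val c b = n) ∧ ∀ n : ℤ, val g b ≠ n := by
  classical
  have hne : (QuotientAddGroup.mk g : (ℝ →₀ ℤ) ⧸ C) ≠ 0 := by
    intro h
    exact hg ((QuotientAddGroup.eq_zero_iff g).1 h)
  obtain ⟨c, hc⟩ := CharacterModule.exists_character_apply_ne_zero_of_ne_zero hne
  have hsurj : ∀ a : ℝ, ∃ q : ℚ, (q : AddCircle (1 : ℚ)) =
      c (QuotientAddGroup.mk (Finsupp.single a 1)) := fun a => QuotientAddGroup.mk_surjective _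
  choose f hf using hsurj
  have hφ : ∀ x : ℝ →₀ ℤ, c (QuotientAddGroup.mk x) =
      ((Finsupp.linearCombination ℤ f x : ℚ) : AddCircle (1 : ℚ)) := by
    intro x
    have h1 : (AddMonoidHom.comp c (QuotientAddGroup.mk' C) : (ℝ →₀ ℤ) →+ AddCircle (1 : ℚ)) =
        (QuotientAddGroup.mk' (AddSubgroup.zmultiples (1 : ℚ))).comp
          (Finsupp.linearCombination ℤ f).toAddMonoidHom := by
      apply Finsupp.addHom_ext'
      intro a
      apply AddMonoidHom.ext_int
      change c (QuotientAddGroup.mk (Finsupp.single a 1)) =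
        ((Finsupp.linearCombination ℤ f (Finsupp.single a 1) : ℚ) : AddCircle (1 : ℚ))
      rw [Finsupp.linearCombination_single, one_smul, hf]
    exact DFunLike.congr_fun h1 x
  let Sset : Set ℝ := insert 0 ((⋃ c ∈ (C : Set (ℝ →₀ ℤ)), (c.support : Set ℝ)) ∪ g.support)
  have hS : Sset.Countable := by
    apply Set.Countable.insert
    apply Set.Countable.union
    · exact hC.biUnion fun c _ => c.support.countable_toSet
    · exact g.support.countable_toSet
  obtain ⟨α, hα⟩ := hS.exists_eq_range ⟨0, Set.mem_insert _ _⟩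
  obtain ⟨u, hu⟩ := seq_bdd (fun n => X (α n))
  obtain ⟨b, hb, hlt⟩ := node_Y (Sum.inr (fun n => X (α n), fun n => f (α n))) u
  have hM : ∀ a ∈ Sset, M a b = (f a : ℝ) := by
    intro a ha
    rw [hα] at ha
    obtain ⟨n, rfl⟩ := ha
    have h1 : X (α n) < Y b := (hu n).trans hlt
    unfold M
    rw [if_pos h1]
    apply m_kill _ _ _ h1
    rw [killOf_Y, hb]
    unfold killFun
    simp only
    have hex : ∃ k, X (α k) = X (α n) := ⟨n, rfl⟩
    rw [dif_pos hex]
    rw [X_inj (Classical.choose_spec hex)]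
  have hval : ∀ x : ℝ →₀ ℤ, (x.support : Set ℝ) ⊆ Sset →
      val x b = ((Finsupp.linearCombination ℤ f x : ℚ) : ℝ) := by
    intro x hx
    unfold val
    rw [Finsupp.linearCombination_apply, Finsupp.linearCombination_apply, Finsupp.sum,
      Finsupp.sum]
    push_cast
    refine Finset.sum_congr rfl fun a ha => ?_
    rw [hM a (hx ha)]
    simp
  refine ⟨b, ?_, ?_⟩
  · intro x hx
    have h1 : c (QuotientAddGroup.mk x) = 0 := by
      rw [(QuotientAddGroup.eq_zero_iff x).2 hx, map_zero]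
    rw [hφ] at h1
    obtain ⟨n, hn⟩ := (AddCircle.coe_eq_zero_iff (1 : ℚ)).1 h1
    refine ⟨n, ?_⟩
    rw [hval x ?_, ← hn]
    · simp
    · intro a ha
      exact Set.mem_insert_of_mem _ (Or.inl (Set.mem_biUnion hx ha))
  · intro n hn
    rw [hval g (fun a ha => Set.mem_insert_of_mem _ (Or.inr ha))] at hn
    apply hc
    rw [hφ, AddCircle.coe_eq_zero_iff]
    refine ⟨n, ?_⟩
    have : (Finsupp.linearCombination ℤ f g : ℚ) = n := by exact_mod_cast hn
    rw [this]
    simp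

end Pool.Agent.Helper69.Pack
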