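import Mathlib
import Pool.Agent.Helper69.CC
import Pool.Agent.Helper69.Dual
import Pool.Agent.Helper69.Pack2

set_option autoImplicit false
set_option linter.unusedSectionVars false
set_option linter.style.haveILetI false

namespace Pool.Agent.Helper69.Top

open Topology Filter Cardinal Pool.Agent.Helper69.Pack

/-- normalised exponential -/
noncomputable def ex (t : ℝ) : Circle := Circle.exp (2 * Real.pi * t)

theorem ex_add (s t : ℝ) : ex (s + t) = ex s * ex t := by
  unfold ex; rw [mul_add, Circle.exp_add]

theorem ex_neg (s : ℝ) : ex (-s) = (ex s)⁻¹ := by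
  unfold ex; rw [mul_neg, Circle.exp_neg]

theorem ex_sub (s t : ℝ) : ex (s - t) = ex s / ex t := by
  unfold ex; rw [mul_sub, Circle.exp_sub]

theorem ex_zero : ex 0 = 1 := by unfold ex; rw [mul_zero, Circle.exp_zero]

theorem ex_zsmul (n : ℤ) (t : ℝ) : ex (n • t) = ex t ^ n := by
  unfold ex
  rw [mul_smul_comm, Circle.exp_zsmul]

theorem ex_int (n : ℤ) : ex n = 1 := by unfold ex; exact Circle.exp_two_pi_mul_int n

theorem ex_eq_one {t : ℝ} : ex t = 1 ↔ ∃ n : ℤ, t = n := by
  unfold ex
  rw [Circle.exp_eq_one]
  have hpi : (2 * Real.pi) ≠ 0 := by positivity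
  constructor
  · rintro ⟨n, hn⟩
    refine ⟨n, ?_⟩
    have : (2 * Real.pi) * t = (2 * Real.pi) * n := by linarith
    exact mul_left_cancel₀ hpi this
  · rintro ⟨n, rfl⟩
    exact ⟨n, by ring⟩

theorem ex_eq {s t : ℝ} : ex s = ex t ↔ ∃ n : ℤ, s - t = n := by
  rw [← ex_eq_one, ex_sub, div_eq_one]

theorem ex_surj (z : Circle) : ∃ t, ex t = z := by
  obtain ⟨s, hs⟩ := Circle.exp_surjective z
  refine ⟨s / (2 * Real.pi), ?_⟩
  unfold ex
  rw [← hs]
  congr 1
  have hpi : Real.pi ≠ 0 := Real.pi_ne_zero
  field_simp

theorem ex_continuous : Continuous ex := by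
  unfold ex
  exact Circle.exp.continuous.comp (continuous_const.mul continuous_id)

theorem ex_sum (h : ℝ →₀ ℤ) (f : ℝ → ℝ) :
    ex (Finsupp.linearCombination ℤ f h) = h.prod (fun i n => (ex (f i)) ^ n) := by
  rw [Finsupp.linearCombination_apply, Finsupp.sum, Finsupp.prod]
  induction h.support using Finset.cons_induction with
  | empty => simp [ex_zero]
  | cons a s ha ih =>
    rw [Finset.sum_cons, Finset.prod_cons, ex_add, ih, ex_zsmul]

theorem ex_tendsto (v : ℕ → ℝ) (c : ℝ)
    (h : ∀ k, ∃ j : ℤ, |v k - c - j| ≤ 1 / 2 ^ (k + 3)) :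
    Tendsto (fun k => ex (v k)) atTop (𝓝 (ex c)) := by
  choose j hj using h
  have h1 : ∀ k, ex (v k) = ex (v k - c - j k) * ex c := by
    intro k
    rw [← ex_add]
    rw [ex_eq]
    exact ⟨j k, by ring⟩
  have h2 : Tendsto (fun k => v k - c - j k) atTop (𝓝 0) := by
    have h3 : Tendsto (fun k : ℕ => (1 : ℝ) / 2 ^ (k + 3)) atTop (𝓝 0) := by
      have := (tendsto_pow_atTop_nhds_zero_of_lt_one (r := (1 / 2 : ℝ)) (by norm_num)
        (by norm_num)).comp (tendsto_add_atTop_nat 3)
      refine this.congr fun k => ?_
      simp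
    exact squeeze_zero_norm hj h3
  have h4 : Tendsto (fun k => ex (v k - c - j k) * ex c) atTop (𝓝 (ex 0 * ex c)) :=
    ((ex_continuous.tendsto 0).comp h2).mul_const _
  rw [ex_zero, one_mul] at h4
  simpa only [h1] using h4

/-- the homomorphism defining the group -/
noncomputable def toG : Multiplicative (ℝ →₀ ℤ) →* (ℝ → Circle) where
  toFun g b := ex (val g.toAdd b)
  map_one' := by
    funext b
    change ex (val 0 b) = 1
    rw [val_zero, ex_zero]
  map_mul' g h := by
    funext b
    change ex (val (g.toAdd + h.toAdd) b) = ex (val g.toAdd b) * ex (val h.toAdd b)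
    rw [val_add, ex_add]

/-- the group -/
noncomputable def G : Subgroup (ℝ → Circle) := toG.range

/-- its elements -/
noncomputable def el (g : ℝ →₀ ℤ) : G := ⟨toG (Multiplicative.ofAdd g), ⟨_, rfl⟩⟩

theorem el_apply (g : ℝ →₀ ℤ) (b : ℝ) : (el g).1 b = ex (val g b) := rfl

theorem el_surj (x : G) : ∃ g, el g = x := by
  obtain ⟨x, g, rfl⟩ := x
  exact ⟨g.toAdd, rfl⟩

theorem el_add (g h : ℝ →₀ ℤ) : el (g + h) = el g * el h := by
  apply Subtype.ext
  funext b
  change ex (val (g + h) b) = ex (val g b) * ex (val h b)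
  rw [val_add, ex_add]

theorem exists_seq_coord : ∃ b q, s b = Sum.inl q := by
  obtain ⟨b, hb, _⟩ := node_Y (Sum.inl (fun _ => 0, false)) (Classical.arbitrary V)
  exact ⟨b, _, hb⟩

theorem el_inj : Function.Injective el := by
  intro g h hgh
  by_contra hne
  obtain ⟨b, q, hb⟩ := exists_seq_coord
  have h1 : ex (val g b) = ex (val h b) := by
    rw [← el_apply, ← el_apply, hgh]
  obtain ⟨n, hn⟩ := ex_eq.1 h1
  rw [← val_sub] at hn
  exact val_seq_ne (g - h) (sub_ne_zero.2 hne) b q hb n hn

/-- a function on the group: the product of coordinates -/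
theorem prod_el (g h : ℝ →₀ ℤ) : h.prod (fun b n => ((el g).1 b) ^ n) = ex (pair g h) := by
  rw [← pair_eq_val, ex_sum]
  rfl

theorem not_countable_finsupp : ¬ (Set.univ : Set (ℝ →₀ ℤ)).Countable := by
  rw [Set.countable_univ_iff]
  intro h
  have hinj : Function.Injective (fun a : ℝ => Finsupp.single a (1 : ℤ)) := by
    intro a b hab
    exact Finsupp.single_left_injective one_ne_zero hab
  have : Countable ℝ := hinj.countable
  exact (not_countable (α := ℝ)) this

theorem G_uncountable : ¬ (G : Set (ℝ → Circle)).Countable := by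
  intro h
  apply not_countable_finsupp
  haveI : Countable G := h.to_subtype
  have : Countable (ℝ →₀ ℤ) := el_inj.countable
  exact Set.countable_univ

/-- countable subgroups are closed -/
theorem countable_closed (K : Subgroup G) (hK : (K : Set G).Countable) :
    IsClosed (K : Set G) := by
  rw [← closure_subset_iff_isClosed]
  intro x hx
  by_contra hxK
  obtain ⟨g, rfl⟩ := el_surj x
  let C : AddSubgroup (ℝ →₀ ℤ) :=
    { carrier := {c | el c ∈ K}
      zero_mem' := by
        have : el 0 = 1 := by
          apply Subtype.ext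
          funext b
          change ex (val 0 b) = 1
          rw [val_zero, ex_zero]
        change el 0 ∈ K
        rw [this]; exact K.one_mem
      add_mem' := by
        intro a b ha hb
        change el (a + b) ∈ K
        rw [el_add]; exact K.mul_mem ha hb
      neg_mem' := by
        intro a ha
        change el (-a) ∈ K
        have : el (-a) = (el a)⁻¹ := by
          apply eq_inv_of_mul_eq_one_left
          rw [← el_add]
          rw [neg_add_cancel]
          apply Subtype.ext
          funext b
          change ex (val 0 b) = 1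
          rw [val_zero, ex_zero]
        rw [this]; exact K.inv_mem ha }
  have hC : (C : Set (ℝ →₀ ℤ)).Countable := hK.preimage el_inj
  obtain ⟨b, hb1, hb2⟩ := kill_sep C hC g hxK
  have hsub : (K : Set G) ⊆ {y : G | y.1 b = 1} := by
    intro y hy
    obtain ⟨c, rfl⟩ := el_surj y
    obtain ⟨n, hn⟩ := hb1 c hy
    change (el c).1 b = 1
    rw [el_apply, ex_eq_one]
    exact ⟨n, hn⟩
  have hcl : IsClosed {y : G | y.1 b = 1} := by
    apply isClosed_eq _ continuous_const
    exact (continuous_apply b).comp continuous_subtype_val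
  have h1 : el g ∈ {y : G | y.1 b = 1} := closure_minimal hsub hcl hx
  have h2 : (el g).1 b = 1 := h1
  rw [el_apply, ex_eq_one] at h2
  obtain ⟨n, hn⟩ := h2
  exact hb2 n hn

/-- coordinate characters of the torus power -/
noncomputable def coord (b : ℝ) : (ℝ → Circle) →ₜ* Circle :=
  ⟨Pi.evalMonoidHom (fun _ : ℝ => Circle) b, continuous_apply b⟩

theorem coord_apply (b : ℝ) (x : ℝ → Circle) : coord b x = x b := rfl

/-- uncountable subgroups have dense image in the torus power -/
theorem dense_of_uncountable (K : Subgroup G) (hK : ¬ (K : Set G).Countable) :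
    Dense (Subtype.val '' (K : Set G) : Set (ℝ → Circle)) := by
  let K' : Subgroup (ℝ → Circle) := (K.map G.subtype).topologicalClosure
  have htop : K' = ⊤ := by
    apply CC.eq_top_of_annihilator (Subgroup.closure (Set.range coord))
    · intro x y hxy
      obtain ⟨b, hb⟩ := Function.ne_iff.1 hxy
      exact ⟨coord b, Subgroup.subset_closure ⟨b, rfl⟩, hb⟩
    · exact Subgroup.isClosed_topologicalClosure _
    · intro χ hχ hann
      obtain ⟨h, hh⟩ := Dual.exists_prod coord χ hχ
      have h0 : h = 0 := by
        by_contra hne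
        apply hK
        have h1 := ker_countable h hne
        refine (h1.image el).mono ?_
        intro y hy
        obtain ⟨g, rfl⟩ := el_surj y
        refine ⟨g, ?_, rfl⟩
        have h2 : χ (el g).1 = 1 := by
          apply hann
          apply Subgroup.le_topologicalClosure
          exact ⟨el g, hy, rfl⟩
        rw [hh] at h2
        simp only [coord_apply] at h2
        rw [prod_el, ex_eq_one] at h2
        exact h2
      ext x
      rw [hh, h0]
      simp
  have h1 : (K' : Set (ℝ → Circle)) = closure (Subtype.val '' (K : Set G)) := by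
    change closure ((K.map G.subtype : Subgroup (ℝ → Circle)) : Set (ℝ → Circle)) = _
    rfl
  intro x
  rw [← h1, htop]
  trivial

theorem uncountable_dense (K : Subgroup G) (hK : ¬ (K : Set G).Countable) :
    Dense (K : Set G) := by
  have h := dense_of_uncountable K hK
  intro x
  rw [closure_subtype]
  exact h x.1

theorem G_dense : Dense (G : Set (ℝ → Circle)) := by
  have h := dense_of_uncountable ⊤ (by
    intro h
    apply G_uncountable
    have := h.image Subtype.val
    refine this.mono ?_
    intro x hx
    exact ⟨⟨x, hx⟩, trivial, rfl⟩)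
  have h2 : (Subtype.val '' ((⊤ : Subgroup G) : Set G) : Set (ℝ → Circle)) = G := by
    ext x
    constructor
    · rintro ⟨y, _, rfl⟩; exact y.2
    · intro hx; exact ⟨⟨x, hx⟩, trivial, rfl⟩
  rwa [h2] at h

theorem ex_half : ex (1 / 2) ≠ 1 := by
  intro h
  obtain ⟨n, hn⟩ := ex_eq_one.1 h
  have h1 : (2 : ℝ) * n = 1 := by rw [← hn]; norm_num
  have h2 : (2 : ℤ) * n = 1 := by exact_mod_cast h1
  omega

theorem cluster_unique {Y : Type} [TopologicalSpace Y] [T2Space Y] {u : ℕ → Y} {y L : Y}
    (h : MapClusterPt y atTop u) (hL : Tendsto u atTop (𝓝 L)) : y = L := by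
  have h1 : (𝓝 y ⊓ map u atTop).NeBot := h
  have h2 : (𝓝 y ⊓ 𝓝 L).NeBot := h1.mono (inf_le_inf_left _ hL)
  exact eq_of_nhds_neBot h2

/-- abstract finiteness of compact sets -/
theorem finite_of_seq {A : Type} [TopologicalSpace A] (E : (ℝ →₀ ℤ) → A)
    (hE : Function.Surjective E) (c : ℝ → A → Circle) (hc : ∀ b, Continuous (c b))
    (v : (ℝ →₀ ℤ) → ℝ → ℝ) (hv : ∀ g b, c b (E g) = ex (v g b))
    (hadd : ∀ g h b, v (g + h) b = v g b + v h b)
    (hseq : ∀ D : Set (ℝ →₀ ℤ), D.Infinite →
      ∃ (z0 : ℝ →₀ ℤ) (z : ℕ → (ℝ →₀ ℤ)), (∀ k, z0 + z k ∈ D) ∧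
      (∃ b, ∀ k, ∃ j : ℤ, |v (z k) b - 1 / 2 - j| ≤ 1 / 2 ^ (k + 3)) ∧
      (∀ g, g ≠ 0 → ∃ b, (∀ k, ∃ j : ℤ, |v (z k) b - j| ≤ 1 / 2 ^ (k + 3)) ∧
        ∀ j : ℤ, v g b ≠ j))
    (K : Set A) (hK : IsCompact K) : K.Finite := by
  by_contra hinf
  have hD : {g : ℝ →₀ ℤ | E g ∈ K}.Infinite := by
    intro hfin
    apply hinf
    refine (hfin.image E).subset ?_
    intro x hx
    obtain ⟨g, rfl⟩ := hE x
    exact ⟨g, hx, rfl⟩
  obtain ⟨z0, z, hz, ⟨b1, hb1⟩, h2⟩ := hseq _ hD
  obtain ⟨x, _, hx⟩ := hK.exists_mapClusterPt_of_frequently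
    (l := atTop) (f := fun k => E (z0 + z k)) (Filter.Frequently.of_forall hz)
  obtain ⟨g1, rfl⟩ := hE x
  have hev : ∀ b, MapClusterPt (ex (v g1 b)) atTop (fun k => ex (v (z0 + z k) b)) := by
    intro b
    have h3 := hx.continuousAt_comp (hc b).continuousAt
    rw [hv] at h3
    have h4 : (c b ∘ fun k => E (z0 + z k)) = fun k => ex (v (z0 + z k) b) := by
      funext k
      exact hv _ _
    rwa [h4] at h3
  have hlim : ∀ b L, Tendsto (fun k => ex (v (z0 + z k) b)) atTop (𝓝 L) →
      ex (v g1 b) = L := fun b L hL => cluster_unique (hev b) hL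
  have hsplit : ∀ b, (fun k => ex (v (z0 + z k) b)) = fun k => ex (v z0 b) * ex (v (z k) b) := by
    intro b
    funext k
    rw [hadd, ex_add]
  by_cases hg : g1 - z0 = 0
  · have h3 := ex_tendsto (fun k => v (z k) b1) (1 / 2) hb1
    have h4 := hlim b1 (ex (v z0 b1) * ex (1 / 2)) (by
      rw [hsplit]
      exact h3.const_mul _)
    rw [sub_eq_zero.1 hg] at h4
    have h5 : ex (v z0 b1) * 1 = ex (v z0 b1) * ex (1 / 2) := by rw [mul_one]; exact h4
    exact ex_half (mul_left_cancel h5).symm
  · obtain ⟨b, hb, hne⟩ := h2 _ hg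
    have h3 := ex_tendsto (fun k => v (z k) b) 0 (fun k => by
      obtain ⟨j, hj⟩ := hb k
      exact ⟨j, by rwa [sub_zero]⟩)
    have h4 := hlim b (ex (v z0 b) * ex 0) (by
      rw [hsplit]
      exact h3.const_mul _)
    rw [ex_zero, mul_one] at h4
    obtain ⟨n, hn⟩ := ex_eq.1 h4
    apply hne n
    have h5 : v (g1 - z0 + z0) b = v (g1 - z0) b + v z0 b := hadd _ _ _
    rw [sub_add_cancel] at h5
    linarith

/-- compact subsets of the group are finite -/
theorem compact_finite (K : Set G) (hK : IsCompact K) : K.Finite :=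
  finite_of_seq el el_surj (fun b y => y.1 b)
    (fun b => (continuous_apply b).comp continuous_subtype_val) val
    (fun g b => el_apply g b) val_add seqG K hK

/-- restriction of a character of the torus power to the group -/
noncomputable def chG (h : ℝ →₀ ℤ) : PontryaginDual G :=
  (⟨{ toFun := fun x : G => h.prod (fun b n => (x.1 b) ^ n)
      map_one' := by simp
      map_mul' := by
        intro x y
        simp only [Finsupp.prod]
        rw [← Finset.prod_mul_distrib]
        refine Finset.prod_congr rfl fun b _ => ?_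
        change (x.1 b * y.1 b) ^ _ = _
        rw [mul_zpow] }, by
      change Continuous (fun x : G => h.prod (fun b n => (x.1 b) ^ n))
      unfold Finsupp.prod
      apply continuous_finsetProd
      intro b _
      exact (((continuous_apply b).comp continuous_subtype_val).zpow _)⟩ : G →ₜ* Circle)

theorem chG_apply (h : ℝ →₀ ℤ) (x : G) : chG h x = h.prod (fun b n => (x.1 b) ^ n) := rfl

/-- the inclusion of the group -/
noncomputable def inclHom : G →* (ℝ → Circle) := G.subtype

theorem chG_surj : Function.Surjective chG := by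
  intro ψ
  obtain ⟨h, hh⟩ := Dual.exists_prod_of_inducing inclHom IsInducing.subtypeVal
    (ψ : G →ₜ* Circle)
  refine ⟨h, ?_⟩
  apply PontryaginDual.ext
  intro x
  rw [chG_apply]
  exact (hh x).symm

theorem chG_gen (h : ℝ →₀ ℤ) (a : ℝ) : chG h (el (Finsupp.single a 1)) = ex (valH h a) := by
  rw [chG_apply, prod_el, valH_eq_pair]

/-- compact subsets of the dual group are finite -/
theorem dual_compact_finite (K : Set (PontryaginDual G)) (hK : IsCompact K) : K.Finite := by
  have hind := Dual.dual_inducing (A := G) compact_finite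
  refine finite_of_seq chG chG_surj (fun a χ => χ (el (Finsupp.single a 1))) ?_ valH
    (fun h a => chG_gen h a) valH_add seqH K hK
  intro a
  exact (continuous_apply (el (Finsupp.single a 1))).comp hind.continuous

/-- evaluation into the double dual -/
noncomputable def evMul : G →* PontryaginDual (PontryaginDual G) where
  toFun x := (⟨{ toFun := fun χ : PontryaginDual G => χ x
                 map_one' := rfl
                 map_mul' := fun _ _ => rfl }, by
      change Continuous (fun χ : PontryaginDual G => χ x)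
      have hind := Dual.dual_inducing (A := G) compact_finite
      exact (continuous_apply x).comp hind.continuous⟩ : PontryaginDual G →ₜ* Circle)
  map_one' := by
    apply PontryaginDual.ext
    intro χ
    exact map_one χ
  map_mul' x y := by
    apply PontryaginDual.ext
    intro χ
    exact map_mul χ x y

theorem evMul_apply (x : G) (χ : PontryaginDual G) : evMul x χ = χ x := rfl

/-- coordinate character restricted to the group -/
noncomputable def cG (b : ℝ) : PontryaginDual G := chG (Finsupp.single b 1)

theorem cG_apply (b : ℝ) (x : G) : cG b x = x.1 b := by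
  unfold cG
  rw [chG_apply]
  simp

theorem evMul_inj : Function.Injective evMul := by
  intro x y hxy
  apply Subtype.ext
  funext b
  rw [← cG_apply, ← cG_apply, ← evMul_apply, ← evMul_apply, hxy]

theorem evMul_surj : Function.Surjective evMul := by
  intro ψ
  have hind := Dual.dual_inducing (A := G) compact_finite
  obtain ⟨h, hh⟩ := Dual.exists_prod_of_inducing (Dual.evHom G) hind
    (ψ : PontryaginDual G →ₜ* Circle)
  refine ⟨h.prod (fun x n => x ^ n), ?_⟩
  apply PontryaginDual.ext
  intro χ
  rw [evMul_apply]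
  have h1 : χ (h.prod (fun x n => x ^ n)) = h.prod (fun x n => (χ x) ^ n) := by
    rw [map_finsuppProd]
    simp only [map_zpow]
  rw [h1]
  exact (hh χ).symm

theorem evMul_inducing : IsInducing evMul := by
  have hind := Dual.dual_inducing (A := PontryaginDual G) dual_compact_finite
  have h1 : IsInducing (fun (x : G) (χ : PontryaginDual G) => χ x) := by
    constructor
    apply le_antisymm
    · rw [← continuous_iff_le_induced]
      exact continuous_pi fun χ => map_continuous χ
    · change TopologicalSpace.induced (fun (x : G) (χ : PontryaginDual G) => χ x)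
        Pi.topologicalSpace ≤ TopologicalSpace.induced (fun x : G => x.1) Pi.topologicalSpace
      have h3 : (fun x : G => x.1) = (fun F : PontryaginDual G → Circle => fun b : ℝ => F (cG b)) ∘
          (fun (x : G) (χ : PontryaginDual G) => χ x) := by
        funext x b
        exact (cG_apply b x).symm
      rw [h3, ← induced_compose]
      apply induced_mono
      rw [← continuous_iff_le_induced]
      exact continuous_pi fun b => continuous_apply (cG b)
  have h2 : (fun (f : PontryaginDual (PontryaginDual G)) (a : PontryaginDual G) => f a) ∘ evMul =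
      (fun (x : G) (χ : PontryaginDual G) => χ x) := rfl
  rw [← h2] at h1
  exact (hind.of_comp_iff).1 h1

theorem reflexive : ∃ e : G ≃ₜ* PontryaginDual (PontryaginDual G),
    ∀ (g : G) (χ : PontryaginDual G), e g χ = χ g := by
  let e0 : G ≃* PontryaginDual (PontryaginDual G) :=
    MulEquiv.ofBijective evMul ⟨evMul_inj, evMul_surj⟩
  have hcont : Continuous e0 := evMul_inducing.continuous
  have hinv : Continuous e0.symm := by
    rw [evMul_inducing.continuous_iff]
    have : evMul ∘ e0.symm = id := by
      funext y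
      exact e0.apply_symm_apply y
    rw [this]
    exact continuous_id
  exact ⟨{ e0 with continuous_toFun := hcont, continuous_invFun := hinv }, fun g χ => rfl⟩

end Pool.Agent.Helper69.Top
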