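import Mathlib
import Pool.Agent.Helper69.Top

set_option autoImplicit false
set_option linter.unusedSectionVars false
set_option linter.style.haveILetI false

namespace Pool.Agent.Helper69.Top

open Topology Filter Cardinal Pool.Agent.Helper69.Pack

theorem ex_div_re (t s : ℝ) : ((ex t / ex s : Circle) : ℂ).re = Real.cos (2 * Real.pi * (t - s)) := by
  rw [← ex_sub]
  unfold ex
  rw [Circle.coe_exp, Complex.exp_ofReal_mul_I_re]

theorem t0_pos : 0 < t0 := Real.sqrt_pos.2 (by norm_num)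

/-- arcs with endpoints outside of all coordinate images -/
def arc (q q' : ℚ) : Set Circle :=
  {z | Real.cos (2 * Real.pi * (q' * t0)) < ((z / ex (q * t0) : Circle) : ℂ).re}

theorem arc_open (q q' : ℚ) : IsOpen (arc q q') := by
  apply isOpen_lt continuous_const
  exact Complex.continuous_re.comp (continuous_subtype_val.comp (continuous_id.div_const _))

theorem arc_boundary (g : ℝ →₀ ℤ) (b : ℝ) (q q' : ℚ) (h1 : q ≠ q') (h2 : q ≠ -q') :
    ((ex (val g b) / ex (q * t0) : Circle) : ℂ).re ≠ Real.cos (2 * Real.pi * (q' * t0)) := by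
  intro h
  rw [ex_div_re, Real.cos_eq_cos_iff] at h
  obtain ⟨k, hk⟩ := h
  have hpi : Real.pi ≠ 0 := Real.pi_ne_zero
  rcases hk with hk | hk
  · have h3 : val g b - q * t0 = q' * t0 - k := by
      have h4 : (2 * Real.pi) * (q' * t0) =
          (2 * Real.pi) * (k + (val g b - q * t0)) := by linarith
      have h5 := mul_left_cancel₀ (by positivity) h4
      linarith
    apply val_ne g b (-k) (q + q') (by
      intro h5; apply h2; linarith)
    push_cast
    linarith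
  · have h3 : val g b - q * t0 = k - q' * t0 := by
      have h4 : (2 * Real.pi) * (q' * t0) =
          (2 * Real.pi) * (k - (val g b - q * t0)) := by linarith
      have h5 := mul_left_cancel₀ (by positivity) h4
      linarith
    apply val_ne g b k (q - q') (by
      intro h5; apply h1; linarith)
    push_cast
    linarith

theorem dist_sq (z p : Circle) : dist z p ^ 2 = 2 - 2 * ((z / p : Circle) : ℂ).re := by
  have h1 : dist z p = ‖(z : ℂ) - (p : ℂ)‖ := by
    rw [← dist_eq_norm]; rfl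
  have h2 : ((z / p : Circle) : ℂ) = (z : ℂ) * (starRingEnd ℂ) (p : ℂ) := by
    rw [div_eq_mul_inv, Circle.coe_mul, Circle.coe_inv_eq_conj]
  have h3 : Complex.normSq (z : ℂ) = 1 := Circle.normSq_coe z
  have h4 : Complex.normSq (p : ℂ) = 1 := Circle.normSq_coe p
  rw [h1, h2, ← Complex.normSq_eq_norm_sq, Complex.normSq_sub, h3, h4]
  ring

theorem arc_basis (p : Circle) (N : Set Circle) (hN : N ∈ 𝓝 p) :
    ∃ q q' : ℚ, q ≠ q' ∧ q ≠ -q' ∧ p ∈ arc q q' ∧ arc q q' ⊆ N := by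
  obtain ⟨δ, hδ, hball⟩ := Metric.mem_nhds_iff.1 hN
  -- choose the radius
  have hcos : Tendsto (fun x : ℝ => Real.cos (2 * Real.pi * (x * t0))) (𝓝 0) (𝓝 1) := by
    have : Continuous (fun x : ℝ => Real.cos (2 * Real.pi * (x * t0))) := by fun_prop
    have h := this.tendsto 0
    simpa using h
  have hev : ∀ᶠ x in 𝓝 (0 : ℝ), 1 - δ ^ 2 / 8 < Real.cos (2 * Real.pi * (x * t0)) :=
    hcos.eventually (lt_mem_nhds (by nlinarith [sq_pos_of_pos hδ]))
  obtain ⟨η, hη, hη2⟩ := Metric.eventually_nhds_iff.1 hev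
  obtain ⟨q', hq'1, hq'2⟩ := exists_rat_btwn (show (0 : ℝ) < min η (1 / (2 * t0)) from
    lt_min hη (by have := t0_pos; positivity))
  have hq'η : (q' : ℝ) < η := hq'2.trans_le (min_le_left _ _)
  have hq't : (q' : ℝ) < 1 / (2 * t0) := hq'2.trans_le (min_le_right _ _)
  have hr1 : 1 - δ ^ 2 / 8 < Real.cos (2 * Real.pi * (q' * t0)) := by
    apply hη2
    rw [Real.dist_eq, sub_zero, abs_of_pos hq'1]
    exact hq'η
  have hr2 : Real.cos (2 * Real.pi * (q' * t0)) < 1 := by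
    have h1 : 0 < 2 * Real.pi * (q' * t0) := by
      have := t0_pos; have := Real.pi_pos; positivity
    have h2 : 2 * Real.pi * (q' * t0) < 2 * Real.pi := by
      have h3 : (q' : ℝ) * t0 < 1 := by
        have h4 := t0_pos
        have h5 : (q' : ℝ) * t0 < 1 / (2 * t0) * t0 := mul_lt_mul_of_pos_right hq't h4
        have h6 : 1 / (2 * t0) * t0 = 1 / 2 := by field_simp
        linarith
      have := Real.pi_pos
      nlinarith
    have hne : Real.cos (2 * Real.pi * (q' * t0)) ≠ 1 := by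
      intro h
      rw [Real.cos_eq_one_iff_of_lt_of_lt (by linarith) h2] at h
      linarith
    exact lt_of_le_of_ne (Real.cos_le_one _) hne
  -- choose the center
  obtain ⟨tp, rfl⟩ := ex_surj p
  have hopen : IsOpen {x : ℝ | Real.cos (2 * Real.pi * (q' * t0)) <
      Real.cos (2 * Real.pi * (tp - x * t0))} := by
    apply isOpen_lt continuous_const
    fun_prop
  have hmem : tp / t0 ∈ {x : ℝ | Real.cos (2 * Real.pi * (q' * t0)) <
      Real.cos (2 * Real.pi * (tp - x * t0))} := by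
    have h1 : tp - tp / t0 * t0 = 0 := by
      have := t0_pos.ne'
      field_simp
      ring
    change _ < Real.cos (2 * Real.pi * (tp - tp / t0 * t0))
    rw [h1, mul_zero, Real.cos_zero]
    exact hr2
  obtain ⟨ε, hε, hball2⟩ := Metric.isOpen_iff.1 hopen _ hmem
  obtain ⟨q1, h11, h12⟩ := exists_rat_btwn (show tp / t0 < tp / t0 + ε by linarith)
  obtain ⟨q2, h21, h22⟩ := exists_rat_btwn h12
  obtain ⟨q3, h31, h32⟩ := exists_rat_btwn h22
  have hq12 : q1 < q2 := by exact_mod_cast h21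
  have hq23 : q2 < q3 := by exact_mod_cast h31
  have hgood : ∀ q : ℚ, tp / t0 < q → (q : ℝ) < tp / t0 + ε →
      Real.cos (2 * Real.pi * (q' * t0)) < Real.cos (2 * Real.pi * (tp - q * t0)) := by
    intro q hq1 hq2
    have : (q : ℝ) ∈ Metric.ball (tp / t0) ε := by
      rw [Metric.mem_ball, Real.dist_eq, abs_of_pos (by linarith)]
      linarith
    exact hball2 this
  have hex : ∃ q : ℚ, q ≠ q' ∧ q ≠ -q' ∧
      Real.cos (2 * Real.pi * (q' * t0)) < Real.cos (2 * Real.pi * (tp - q * t0)) := by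
    by_cases ha : q1 ≠ q' ∧ q1 ≠ -q'
    · exact ⟨q1, ha.1, ha.2, hgood q1 h11 h12⟩
    by_cases hb : q2 ≠ q' ∧ q2 ≠ -q'
    · exact ⟨q2, hb.1, hb.2, hgood q2 (by linarith) h22⟩
    refine ⟨q3, ?_, ?_, hgood q3 (by linarith) h32⟩
    · rintro rfl
      simp only [ne_eq, not_and_or, not_not] at ha hb
      rcases ha with ha | ha <;> rcases hb with hb | hb <;> linarith
    · intro h3
      simp only [ne_eq, not_and_or, not_not] at ha hb
      rcases ha with ha | ha <;> rcases hb with hb | hb <;> linarith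
  obtain ⟨q, hqa, hqb, hqc⟩ := hex
  have hpm : ex tp ∈ arc q q' := by
    change Real.cos (2 * Real.pi * (q' * t0)) < ((ex tp / ex (q * t0) : Circle) : ℂ).re
    rw [ex_div_re]
    exact hqc
  refine ⟨q, q', hqa, hqb, hpm, ?_⟩
  intro z hz
  apply hball
  rw [Metric.mem_ball]
  have key : ∀ y ∈ arc q q', dist y (ex (q * t0)) < δ / 2 := by
    intro y hy
    have h1 := dist_sq y (ex (q * t0))
    have h2 : Real.cos (2 * Real.pi * (q' * t0)) < ((y / ex (q * t0) : Circle) : ℂ).re := hy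
    have h3 : dist y (ex (q * t0)) ^ 2 < (δ / 2) ^ 2 := by
      rw [h1]; nlinarith
    exact lt_of_pow_lt_pow_left₀ 2 (by positivity) h3
  calc dist z (ex tp) ≤ dist z (ex (q * t0)) + dist (ex tp) (ex (q * t0)) :=
        dist_triangle_right _ _ _
    _ < δ / 2 + δ / 2 := add_lt_add (key z hz) (key _ hpm)
    _ = δ := by ring

/-- box given by finitely many arcs -/
def Box (L : Finset (ℝ × ℚ × ℚ)) : Set (ℝ → Circle) := {x | ∀ p ∈ L, x p.1 ∈ arc p.2.1 p.2.2}

def GoodL (L : Finset (ℝ × ℚ × ℚ)) : Prop := ∀ p ∈ L, p.2.1 ≠ p.2.2 ∧ p.2.1 ≠ -p.2.2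

theorem Box_open (L : Finset (ℝ × ℚ × ℚ)) : IsOpen (Box L) := by
  have : Box L = ⋂ p ∈ L, {x : ℝ → Circle | x p.1 ∈ arc p.2.1 p.2.2} := by
    ext x; simp [Box]
  rw [this]
  exact isOpen_biInter_finset fun p _ => (arc_open _ _).preimage (continuous_apply p.1)

theorem Box_clopen (L : Finset (ℝ × ℚ × ℚ)) (hL : GoodL L) : IsClopen {x : G | x.1 ∈ Box L} := by
  refine ⟨?_, (Box_open L).preimage continuous_subtype_val⟩
  have : {x : G | x.1 ∈ Box L} = ⋂ p ∈ L, {x : G | Real.cos (2 * Real.pi * (p.2.2 * t0)) ≤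
      ((x.1 p.1 / ex (p.2.1 * t0) : Circle) : ℂ).re} := by
    ext x
    simp only [Set.mem_ofPred_eq, Set.mem_iInter]
    constructor
    · intro h p hp
      exact le_of_lt (h p hp)
    · intro h p hp
      refine lt_of_le_of_ne (h p hp) ?_
      obtain ⟨g, rfl⟩ := el_surj x
      rw [el_apply]
      exact (arc_boundary g p.1 p.2.1 p.2.2 (hL p hp).1 (hL p hp).2).symm
  rw [this]
  refine isClosed_biInter fun p _ => ?_
  apply isClosed_le continuous_const
  exact Complex.continuous_re.comp (continuous_subtype_val.comp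
    (((continuous_apply p.1).comp continuous_subtype_val).div_const _))

theorem Box_basis (x : ℝ → Circle) (N : Set (ℝ → Circle)) (hN : N ∈ 𝓝 x) :
    ∃ L, GoodL L ∧ x ∈ Box L ∧ Box L ⊆ N := by
  classical
  rw [nhds_pi, Filter.mem_pi'] at hN
  obtain ⟨I, t, ht, hsub⟩ := hN
  choose q q' h1 h2 h3 h4 using fun b => arc_basis (x b) (t b) (ht b)
  refine ⟨I.image (fun b => (b, q b, q' b)), ?_, ?_, ?_⟩
  · intro p hp
    obtain ⟨b, _, rfl⟩ := Finset.mem_image.1 hp
    exact ⟨h1 b, h2 b⟩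
  · intro p hp
    obtain ⟨b, _, rfl⟩ := Finset.mem_image.1 hp
    exact h3 b
  · intro y hy
    apply hsub
    intro b hb
    apply h4 b
    exact hy (b, q b, q' b) (Finset.mem_image_of_mem _ hb)

theorem zero_dim (f : G → ℝ) (hf : Continuous f) :
    ∃ U : Set G, IsClopen U ∧ f ⁻¹' {0} ⊆ U ∧ Disjoint U (f ⁻¹' {1}) := by
  classical
  -- small boxes around points
  have step1 : ∀ (x : G) (O : Set (ℝ → Circle)), O ∈ 𝓝 x.1 → ∃ L, GoodL L ∧ x.1 ∈ Box L ∧
      Box L ⊆ O ∧ ∀ y : G, y.1 ∈ Box L → |f y - f x| < 1 / 16 := by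
    intro x O hO
    have h1 : {y : G | |f y - f x| < 1 / 16} ∈ 𝓝 x := by
      have h2 : Continuous fun y : G => |f y - f x| := (hf.sub continuous_const).abs
      have h3 : IsOpen {y : G | |f y - f x| < 1 / 16} := isOpen_lt h2 continuous_const
      exact h3.mem_nhds (by simp)
    rw [nhds_subtype_eq_comap, Filter.mem_comap] at h1
    obtain ⟨N, hN, hsub⟩ := h1
    obtain ⟨L, hL1, hL2, hL3⟩ := Box_basis x.1 (N ∩ O) (Filter.inter_mem hN hO)
    exact ⟨L, hL1, hL2, fun z hz => (hL3 hz).2, fun y hy => hsub (hL3 hy).1⟩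
  let T : Set (Finset (ℝ × ℚ × ℚ)) := {L | GoodL L ∧ (∃ x : G, x.1 ∈ Box L) ∧
    ∀ y y' : G, y.1 ∈ Box L → y'.1 ∈ Box L → |f y - f y'| ≤ 1 / 8}
  obtain ⟨u, huT, hud, hu⟩ := Vitali.exists_disjoint_subfamily_covering_enlargement Box T
    (fun _ => 0) 2 (by norm_num) (fun _ _ => le_rfl) 0 (fun _ _ => le_rfl)
    (fun L hL => by
      obtain ⟨x, hx⟩ := hL.2.1
      exact ⟨x.1, hx⟩)
  have hucount : Countable u := by
    apply CC.countable_of_disjoint_open (fun L : u => Box L.1) (fun L => Box_open L.1)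
    · intro L
      obtain ⟨x, hx⟩ := (huT L.2).2.1
      exact ⟨x.1, hx⟩
    · intro L L' hne
      exact hud L.2 L'.2 (fun h => hne (Subtype.ext h))
  have step3 : ∀ O : Set (ℝ → Circle), IsOpen O → O.Nonempty → ∃ L ∈ u, (O ∩ Box L).Nonempty := by
    intro O hO hne
    obtain ⟨x, hxO, hxG⟩ := G_dense.inter_open_nonempty O hO hne
    obtain ⟨L, hL1, hL2, hL3, hL4⟩ := step1 ⟨x, hxG⟩ O (hO.mem_nhds hxO)
    have hLT : L ∈ T := by
      refine ⟨hL1, ⟨⟨x, hxG⟩, hL2⟩, ?_⟩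
      intro y y' hy hy'
      have h1 := hL4 y hy
      have h2 := hL4 y' hy'
      have h3 : f y - f y' = (f y - f ⟨x, hxG⟩) - (f y' - f ⟨x, hxG⟩) := by ring
      rw [h3]
      refine (abs_sub _ _).trans ?_
      linarith
    obtain ⟨L', hL', ⟨z, hz1, hz2⟩, _⟩ := hu L hLT
    exact ⟨L', hL', z, hL3 hz1, hz2⟩
  let J : Set ℝ := {b | ∃ L ∈ u, ∃ p ∈ L, p.1 = b}
  have hJ : J.Countable := by
    have : J = ⋃ L ∈ u, ((L.image (fun p : ℝ × ℚ × ℚ => p.1) : Finset ℝ) : Set ℝ) := by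
      ext b
      simp only [J, Set.mem_ofPred_eq, Set.mem_iUnion, Finset.coe_image, Set.mem_image,
        Finset.mem_coe, exists_prop]
    rw [this]
    exact (Set.countable_coe_iff.1 hucount).biUnion fun L _ => Finset.countable_toSet _
  -- main estimate
  have step5 : ∀ x : G, ∃ L, GoodL L ∧ (∀ p ∈ L, p.1 ∈ J) ∧ x.1 ∈ Box L ∧
      ∀ y : G, y.1 ∈ Box L → |f y - f x| ≤ 1 / 4 := by
    intro x
    obtain ⟨Lx, hx1, hx2, _, hx4⟩ := step1 x Set.univ Filter.univ_mem
    refine ⟨Lx.filter (fun p => p.1 ∈ J), fun p hp => hx1 p (Finset.mem_filter.1 hp).1,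
      fun p hp => (Finset.mem_filter.1 hp).2, fun p hp => hx2 p (Finset.mem_filter.1 hp).1, ?_⟩
    intro y hy
    obtain ⟨Ly, hy1, hy2, _, hy4⟩ := step1 y Set.univ Filter.univ_mem
    have hOopen : IsOpen (Box (Lx.filter (fun p => p.1 ∈ J)) ∩
        Box (Ly.filter (fun p => p.1 ∈ J))) := (Box_open _).inter (Box_open _)
    obtain ⟨L', hL', z, ⟨hz1, hz2⟩, hz3⟩ := step3 _ hOopen
      ⟨y.1, hy, fun p hp => hy2 p (Finset.mem_filter.1 hp).1⟩
    have hmeet : ∀ (w : G) (Lw : Finset (ℝ × ℚ × ℚ)), w.1 ∈ Box Lw →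
        z ∈ Box (Lw.filter (fun p => p.1 ∈ J)) → ∃ w' : G, w'.1 ∈ Box L' ∧ w'.1 ∈ Box Lw := by
      intro w Lw hw hzw
      let z' : ℝ → Circle := fun b => if b ∈ J then z b else w.1 b
      have hz'1 : z' ∈ Box L' := by
        intro p hp
        have hpJ : p.1 ∈ J := ⟨L', hL', p, hp, rfl⟩
        change (if p.1 ∈ J then z p.1 else w.1 p.1) ∈ _
        rw [if_pos hpJ]
        exact hz3 p hp
      have hz'2 : z' ∈ Box Lw := by
        intro p hp
        change (if p.1 ∈ J then z p.1 else w.1 p.1) ∈ _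
        by_cases hpJ : p.1 ∈ J
        · rw [if_pos hpJ]
          exact hzw p (Finset.mem_filter.2 ⟨hp, hpJ⟩)
        · rw [if_neg hpJ]
          exact hw p hp
      obtain ⟨w', hw'1, hw'2⟩ := G_dense.inter_open_nonempty (Box L' ∩ Box Lw)
        ((Box_open _).inter (Box_open _)) ⟨z', hz'1, hz'2⟩
      exact ⟨⟨w', hw'2⟩, hw'1.1, hw'1.2⟩
    obtain ⟨x', hx'1, hx'2⟩ := hmeet x Lx hx2 hz1
    obtain ⟨y', hy'1, hy'2⟩ := hmeet y Ly hy2 hz2
    have e1 := hx4 x' hx'2
    have e2 := hy4 y' hy'2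
    have e3 := (huT hL').2.2 y' x' hy'1 hx'1
    have e4 : f y - f x = -(f y' - f y) + (f y' - f x') + (f x' - f x) := by ring
    rw [e4]
    refine (abs_add_three _ _ _).trans ?_
    rw [abs_neg]
    linarith
  let C : Set (Finset (ℝ × ℚ × ℚ)) := {L | GoodL L ∧ (∀ p ∈ L, p.1 ∈ J) ∧
    ∀ y y' : G, y.1 ∈ Box L → y'.1 ∈ Box L → |f y - f y'| ≤ 1 / 2}
  have hCcount : C.Countable := by
    have hS : (J ×ˢ (Set.univ : Set (ℚ × ℚ))).Countable := hJ.prod (Set.to_countable _)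
    have h1 := Set.countable_ofPred_finite_subset hS
    have h2 := h1.preimage_of_injOn (f := fun L : Finset (ℝ × ℚ × ℚ) => (L : Set (ℝ × ℚ × ℚ)))
      (Finset.coe_injective.injOn)
    refine h2.mono ?_
    rintro L ⟨_, hL, _⟩
    exact ⟨L.finite_toSet, fun p hp => ⟨hL p hp, trivial⟩⟩
  have hcover : ∀ x : G, ∃ L ∈ C, x.1 ∈ Box L := by
    intro x
    obtain ⟨L, h1, h2, h3, h4⟩ := step5 x
    refine ⟨L, ⟨h1, h2, ?_⟩, h3⟩
    intro y y' hy hy'
    have e1 := h4 y hy
    have e2 := h4 y' hy'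
    have e3 : f y - f y' = (f y - f x) - (f y' - f x) := by ring
    rw [e3]
    refine (abs_sub _ _).trans ?_
    linarith
  obtain ⟨Ln, hLn⟩ := hCcount.exists_eq_range (by
    obtain ⟨L, hL, _⟩ := hcover 1
    exact ⟨L, hL⟩)
  let D : ℕ → Set G := fun n => {x : G | x.1 ∈ Box (Ln n)}
  have hLnC : ∀ n, Ln n ∈ C := fun n => by rw [hLn]; exact ⟨n, rfl⟩
  have hD : ∀ n, IsClopen (D n) := fun n => Box_clopen _ (hLnC n).1
  have hDcov : ∀ x : G, ∃ n, x ∈ D n := by
    intro x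
    obtain ⟨L, hL, hx⟩ := hcover x
    rw [hLn] at hL
    obtain ⟨n, rfl⟩ := hL
    exact ⟨n, hx⟩
  let E : ℕ → Set G := fun n => D n ∩ ⋂ m ∈ Set.Iio n, (D m)ᶜ
  have hE : ∀ n, IsOpen (E n) := by
    intro n
    apply (hD n).2.inter
    exact (Set.finite_Iio n).isOpen_biInter fun m _ => (hD m).1.isOpen_compl
  have hEuniq : ∀ x n n', x ∈ E n → x ∈ E n' → n = n' := by
    intro x n n' h1 h2
    by_contra hne
    rcases lt_or_gt_of_ne hne with h | h
    · exact (Set.mem_iInter₂.1 h2.2 n h) h1.1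
    · exact (Set.mem_iInter₂.1 h1.2 n' h) h2.1
  have hEcov : ∀ x : G, ∃ n, x ∈ E n := by
    intro x
    refine ⟨Nat.find (hDcov x), Nat.find_spec (hDcov x), ?_⟩
    refine Set.mem_iInter₂.2 fun m hm => ?_
    exact Nat.find_min (hDcov x) hm
  let U : Set G := ⋃ n ∈ {n | ∀ y ∈ D n, f y ≠ 1}, E n
  have hUc : Uᶜ = ⋃ n ∈ {n | ∃ y ∈ D n, f y = 1}, E n := by
    ext x
    constructor
    · intro hx
      obtain ⟨n, hn⟩ := hEcov x
      refine Set.mem_biUnion ?_ hn
      by_contra h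
      apply hx
      refine Set.mem_biUnion ?_ hn
      intro y hy hy1
      exact h ⟨y, hy, hy1⟩
    · intro hx hxU
      obtain ⟨n, ⟨y, hy, hy1⟩, hn⟩ := Set.mem_iUnion₂.1 hx
      obtain ⟨n', hn'1, hn'2⟩ := Set.mem_iUnion₂.1 hxU
      have := hEuniq x n n' hn hn'2
      subst this
      exact hn'1 y hy hy1
  refine ⟨U, ⟨?_, ?_⟩, ?_, ?_⟩
  · rw [← isOpen_compl_iff, hUc]
    exact isOpen_biUnion fun n _ => hE n
  · exact isOpen_biUnion fun n _ => hE n
  · intro x hx
    have hx0 : f x = 0 := hx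
    obtain ⟨n, hn⟩ := hEcov x
    refine Set.mem_biUnion ?_ hn
    intro y hy hy1
    have := (hLnC n).2.2 y x hy hn.1
    rw [hy1, hx0] at this
    norm_num at this
  · rw [Set.disjoint_left]
    intro x hxU hx1
    obtain ⟨n, hn1, hn2⟩ := Set.mem_iUnion₂.1 hxU
    exact hn1 x hn2.1 hx1

end Pool.Agent.Helper69.Top
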